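import Pool.Agent.EB58.Defs

/-!
# EB58/CellsA: choice of the cells (module C, part A, helper70), for `MP_c35a4c_co`

Greedy choice of disjoint sets of cells of prescribed sizes, closed under given translations, and of
disjoint triples with given sum.
-/

set_option autoImplicit false

namespace Pool.Agent.EB58

open Finset

/-- Choice of a set of `2 n` elements which is closed under a fixed point free involution. -/
theorem inv_choice {G : Type*} [Fintype G] [DecidableEq G] (τ : G → G) (hτ : ∀ p, τ (τ p) = p)
    (hfix : ∀ p, τ p ≠ p) (used : Finset G) (n : ℕ)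
    (h : 2 * (used.card + 2 * n) ≤ Fintype.card G) :
    ∃ I : Finset G, Disjoint I used ∧ I.card = 2 * n ∧ ∀ p ∈ I, τ p ∈ I := by
  induction n with
  | zero => exact ⟨∅, by simp, by simp, by simp⟩
  | succ n ih =>
    obtain ⟨I, hd, hc, hI⟩ := ih (by omega)
    have hcard : ((used ∪ I) ∪ (used ∪ I).image τ).card < Fintype.card G := by
      have h1 := card_union_le (used ∪ I) ((used ∪ I).image τ)
      have h2 : ((used ∪ I).image τ).card ≤ (used ∪ I).card := card_image_le
      have h3 := card_union_le used I
      omega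
    obtain ⟨p, hp⟩ : ∃ p, p ∉ (used ∪ I) ∪ (used ∪ I).image τ := by
      by_contra hcon
      push Not at hcon
      have : (univ : Finset G) ⊆ (used ∪ I) ∪ (used ∪ I).image τ := fun p _ => hcon p
      have := card_le_card this
      rw [card_univ] at this
      omega
    rw [mem_union, not_or, mem_union, not_or] at hp
    obtain ⟨⟨hp1, hp2⟩, hp3⟩ := hp
    have hτp : τ p ∉ used ∪ I := fun h => hp3 (mem_image.mpr ⟨τ p, h, hτ p⟩)
    rw [mem_union, not_or] at hτp
    refine ⟨insert p (insert (τ p) I), ?_, ?_, ?_⟩
    · rw [disjoint_insert_left, disjoint_insert_left]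
      exact ⟨hp1, hτp.1, hd⟩
    · rw [card_insert_of_notMem, card_insert_of_notMem hτp.2, hc]
      · ring
      · rw [mem_insert, not_or]
        exact ⟨(hfix p).symm, hp2⟩
    · intro q hq
      rw [mem_insert, mem_insert] at hq
      rcases hq with rfl | rfl | hq
      · exact mem_insert_of_mem (mem_insert_self _ _)
      · rw [hτ]; exact mem_insert_self _ _
      · exact mem_insert_of_mem (mem_insert_of_mem (hI q hq))

/-- Sequential version of `inv_choice`: many sets. -/
theorem inv_choices {G κ : Type*} [Fintype G] [DecidableEq G] [DecidableEq κ] (τ : κ → G → G)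
    (used : Finset G) (n : κ → ℕ)
    (T : Finset κ) (hτ : ∀ t ∈ T, ∀ p, τ t (τ t p) = p) (hfix : ∀ t ∈ T, ∀ p, τ t p ≠ p) (h : 2 * (used.card + ∑ t ∈ T, 2 * n t) ≤ Fintype.card G) :
    ∃ I : κ → Finset G, (∀ t ∈ T, Disjoint (I t) used) ∧ (∀ t ∈ T, (I t).card = 2 * n t) ∧
      (∀ t ∈ T, ∀ p ∈ I t, τ t p ∈ I t) ∧
      ∀ t ∈ T, ∀ t' ∈ T, t ≠ t' → Disjoint (I t) (I t') := by
  induction T using Finset.induction_on with
  | empty => exact ⟨fun _ => ∅, by simp, by simp, by simp, by simp⟩
  | insert t T ht ih =>
    rw [sum_insert ht] at h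
    obtain ⟨I, h1, h2, h3, h4⟩ := ih (fun s hs => hτ s (mem_insert_of_mem hs))
      (fun s hs => hfix s (mem_insert_of_mem hs)) (by omega)
    obtain ⟨J, hJ1, hJ2, hJ3⟩ := inv_choice (τ t) (hτ t (mem_insert_self _ _))
      (hfix t (mem_insert_self _ _)) (used ∪ T.biUnion I)
      (n t) (by
        have e1 := card_union_le used (T.biUnion I)
        have e2 : (T.biUnion I).card ≤ ∑ s ∈ T, (I s).card := card_biUnion_le
        have e3 : ∑ s ∈ T, (I s).card = ∑ s ∈ T, 2 * n s := sum_congr rfl h2
        omega)
    rw [disjoint_union_right, disjoint_biUnion_right] at hJ1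
    refine ⟨Function.update I t J, ?_, ?_, ?_, ?_⟩
    · intro s hs
      rcases mem_insert.mp hs with rfl | hs
      · rw [Function.update_self]; exact hJ1.1
      · rw [Function.update_of_ne (ne_of_mem_of_not_mem hs ht)]; exact h1 s hs
    · intro s hs
      rcases mem_insert.mp hs with rfl | hs
      · rw [Function.update_self]; exact hJ2
      · rw [Function.update_of_ne (ne_of_mem_of_not_mem hs ht)]; exact h2 s hs
    · intro s hs
      rcases mem_insert.mp hs with rfl | hs
      · rw [Function.update_self]; exact hJ3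
      · rw [Function.update_of_ne (ne_of_mem_of_not_mem hs ht)]; exact h3 s hs
    · intro s hs s' hs' hne
      rcases mem_insert.mp hs with hst | hs
      · rcases mem_insert.mp hs' with hst' | hs'
        · exact absurd (hst.trans hst'.symm) hne
        · rw [hst, Function.update_self, Function.update_of_ne (ne_of_mem_of_not_mem hs' ht)]
          exact hJ1.2 s' hs'
      · rcases mem_insert.mp hs' with hst' | hs'
        · rw [hst', Function.update_self, Function.update_of_ne (ne_of_mem_of_not_mem hs ht)]
          exact (hJ1.2 s hs).symm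
        · rw [Function.update_of_ne (ne_of_mem_of_not_mem hs ht),
            Function.update_of_ne (ne_of_mem_of_not_mem hs' ht)]
          exact h4 s hs s' hs' hne

/-- Choice of disjoint sets of prescribed sizes, without closure condition. -/
theorem free_choices {G κ : Type*} [Fintype G] [DecidableEq G] [DecidableEq κ]
    (used : Finset G) (n : κ → ℕ) (T : Finset κ)
    (h : used.card + ∑ t ∈ T, n t ≤ Fintype.card G) :
    ∃ I : κ → Finset G, (∀ t ∈ T, Disjoint (I t) used) ∧ (∀ t ∈ T, (I t).card = n t) ∧
      ∀ t ∈ T, ∀ t' ∈ T, t ≠ t' → Disjoint (I t) (I t') := by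
  induction T using Finset.induction_on with
  | empty => exact ⟨fun _ => ∅, by simp, by simp, by simp⟩
  | insert t T ht ih =>
    rw [sum_insert ht] at h
    obtain ⟨I, h1, h2, h4⟩ := ih (by omega)
    have e1 := card_union_le used (T.biUnion I)
    have e2 : (T.biUnion I).card ≤ ∑ s ∈ T, (I s).card := card_biUnion_le
    have e3 : ∑ s ∈ T, (I s).card = ∑ s ∈ T, n s := sum_congr rfl h2
    obtain ⟨J, hJ, hJ2⟩ := exists_subset_card_eq (s := (used ∪ T.biUnion I)ᶜ) (n := n t) (by
      rw [card_compl]; omega)
    have hJ1 : Disjoint J (used ∪ T.biUnion I) :=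
      disjoint_left.mpr fun a ha => mem_compl.mp (hJ ha)
    rw [disjoint_union_right, disjoint_biUnion_right] at hJ1
    refine ⟨Function.update I t J, ?_, ?_, ?_⟩
    · intro s hs
      rcases mem_insert.mp hs with rfl | hs
      · rw [Function.update_self]; exact hJ1.1
      · rw [Function.update_of_ne (ne_of_mem_of_not_mem hs ht)]; exact h1 s hs
    · intro s hs
      rcases mem_insert.mp hs with rfl | hs
      · rw [Function.update_self]; exact hJ2
      · rw [Function.update_of_ne (ne_of_mem_of_not_mem hs ht)]; exact h2 s hs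
    · intro s hs s' hs' hne
      rcases mem_insert.mp hs with hst | hs
      · rcases mem_insert.mp hs' with hst' | hs'
        · exact absurd (hst.trans hst'.symm) hne
        · rw [hst, Function.update_self, Function.update_of_ne (ne_of_mem_of_not_mem hs' ht)]
          exact hJ1.2 s' hs'
      · rcases mem_insert.mp hs' with hst' | hs'
        · rw [hst', Function.update_self, Function.update_of_ne (ne_of_mem_of_not_mem hs ht)]
          exact (hJ1.2 s hs).symm
        · rw [Function.update_of_ne (ne_of_mem_of_not_mem hs ht),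
            Function.update_of_ne (ne_of_mem_of_not_mem hs' ht)]
          exact h4 s hs s' hs' hne

/-- Choice of `n` triples `(p, q, o)` with `p + q + o = u`, `u` fixed, all `3 n` elements different
and outside `used`, in a finite group of exponent two. -/
theorem triple_choice {G : Type*} [Fintype G] [DecidableEq G] [AddCommGroup G]
    (h2 : ∀ p : G, p + p = 0) (u : G) (used : Finset G) (n : ℕ)
    (h : 2 * (used.card + 3 * n) ≤ Fintype.card G) :
    ∃ P : Fin n → Fin 3 → G, (∀ i, P i 0 + P i 1 + P i 2 = u) ∧
      (Function.Injective fun x : Fin n × Fin 3 => P x.1 x.2) ∧ ∀ i a, P i a ∉ used := by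
  induction n with
  | zero => exact ⟨fun i => i.elim0, fun i => i.elim0, fun x => x.1.elim0, fun i => i.elim0⟩
  | succ n ih =>
    obtain ⟨P, hP1, hP2, hP3⟩ := ih (by omega)
    set U : Finset G := used ∪ (univ : Finset (Fin n × Fin 3)).image fun x => P x.1 x.2 with hU
    have hUc : U.card ≤ used.card + 3 * n := by
      refine (card_union_le _ _).trans (Nat.add_le_add_left ?_ _)
      refine card_image_le.trans ?_
      rw [card_univ, Fintype.card_prod, Fintype.card_fin, Fintype.card_fin]
      omega
    have hpick : ∀ W : Finset G, W.card < Fintype.card G → ∃ p, p ∉ W := by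
      intro W hW
      by_contra hcon
      push Not at hcon
      have : (univ : Finset G) ⊆ W := fun p _ => hcon p
      have := card_le_card this
      rw [card_univ] at this
      omega
    obtain ⟨p, hp⟩ := hpick (insert u U) (by
      have := card_insert_le u U
      omega)
    rw [mem_insert, not_or] at hp
    obtain ⟨q, hq⟩ := hpick ((insert u (insert p U)) ∪ U.image fun x => u - p - x) (by
      have e1 := card_union_le (insert u (insert p U)) (U.image fun x => u - p - x)
      have e2 := card_insert_le u (insert p U)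
      have e3 := card_insert_le p U
      have e4 : (U.image fun x => u - p - x).card ≤ U.card := card_image_le
      omega)
    rw [mem_union, not_or, mem_insert, not_or, mem_insert, not_or] at hq
    obtain ⟨⟨hqu, hqp, hqU⟩, hqI⟩ := hq
    have hoU : u - p - q ∉ U := fun h => hqI (mem_image.mpr ⟨u - p - q, h, by abel⟩)
    have hneg : ∀ x : G, -x = x := fun x => neg_eq_of_add_eq_zero_left (h2 x)
    have hop : u - p - q ≠ p := by
      intro e
      apply hqu
      have e0 : u = p + q + (u - p - q) := by abel
      have e1 : u = p + q + p := e0.trans (by rw [e])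
      rw [e1, add_right_comm, h2, zero_add]
    have hoq : u - p - q ≠ q := by
      intro e
      apply hp.1
      have e0 : u = p + q + (u - p - q) := by abel
      have e1 : u = p + q + q := e0.trans (by rw [e])
      rw [e1, add_assoc, h2, add_zero]
    have hmemU : ∀ i a, P i a ∈ U := fun i a =>
      mem_union_right _ (mem_image.mpr ⟨(i, a), mem_univ _, rfl⟩)
    refine ⟨Fin.snoc P ![p, q, u - p - q], ?_, ?_, ?_⟩
    · intro i
      refine Fin.lastCases ?_ (fun i => ?_) i
      · simp only [Fin.snoc_last]
        simp only [Matrix.cons_val_zero, Matrix.cons_val_one, Matrix.cons_val]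
        abel
      · simp only [Fin.snoc_castSucc]
        exact hP1 i
    · rintro ⟨i, a⟩ ⟨j, b⟩
      refine Fin.lastCases ?_ (fun i => ?_) i <;> refine Fin.lastCases ?_ (fun j => ?_) j
      · simp only [Fin.snoc_last]
        intro h
        have : a = b := by
          fin_cases a <;> fin_cases b <;> simp at h ⊢ <;> first
            | exact absurd h.symm hqp
            | exact absurd h hqp
            | exact absurd h.symm hop
            | exact absurd h hop
            | exact absurd h.symm hoq
            | exact absurd h hoq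
        rw [this]
      · simp only [Fin.snoc_last, Fin.snoc_castSucc]
        intro h
        exfalso
        have hm := hmemU j b
        rw [← h] at hm
        fin_cases a
        · exact hp.2 hm
        · exact hqU hm
        · exact hoU hm
      · simp only [Fin.snoc_last, Fin.snoc_castSucc]
        intro h
        exfalso
        have hm := hmemU i a
        rw [h] at hm
        fin_cases b
        · exact hp.2 hm
        · exact hqU hm
        · exact hoU hm
      · simp only [Fin.snoc_castSucc]
        intro h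
        have := hP2 (a₁ := (i, a)) (a₂ := (j, b)) h
        rw [Prod.mk.injEq] at this ⊢
        exact ⟨by rw [this.1], this.2⟩
    · intro i a
      refine Fin.lastCases ?_ (fun i => ?_) i
      · simp only [Fin.snoc_last]
        have hsub : ∀ x, x ∉ U → x ∉ used := fun x hx h => hx (mem_union_left _ h)
        fin_cases a
        · exact hsub _ hp.2
        · exact hsub _ hqU
        · exact hsub _ hoU
      · simp only [Fin.snoc_castSucc]
        exact hP3 i a

/-- The moved types: `inv_choices` for translations. -/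
theorem free_or_inv_aux {ρ : ℕ} {T : Type} [Fintype T] [DecidableEq T]
    (dir : T → E ρ) (htwo : ∀ p : E ρ, p + p = 0) (g : T → ℕ) (D : Finset T)
    (hD : ∀ t ∈ D, dir t ≠ 0) (used : Finset (E ρ))
    (h : 2 * (used.card + ∑ t ∈ D, 2 * (g t / 2)) ≤ Fintype.card (E ρ)) :
    ∃ I : T → Finset (E ρ), (∀ t ∈ D, Disjoint (I t) used) ∧
      (∀ t ∈ D, (I t).card = 2 * (g t / 2)) ∧ (∀ t ∈ D, ∀ p ∈ I t, p + dir t ∈ I t) ∧
      ∀ t ∈ D, ∀ t' ∈ D, t ≠ t' → Disjoint (I t) (I t') :=
  inv_choices (fun t p => p + dir t) used (fun t => g t / 2) D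
    (fun t _ p => by rw [add_assoc, htwo, add_zero])
    (fun t ht p hp => hD t ht (by simpa using hp)) h

/-- Cells: disjoint subsets `I τ` of `F_2^ρ` of given sizes, closed under `dir τ`, and disjoint
triples with sum `σ`. (Greedy for the triples and for the types with `dir τ ≠ 0`: as less than
half of the cells are used there is always a free edge `{p, p + dir τ}`; then arbitrary.) -/
theorem exists_cells {ρ : ℕ} {T : Type} [Fintype T] [DecidableEq T]
    (dir : T → E ρ) (g : T → ℕ) (hev : ∀ τ, dir τ ≠ 0 → Even (g τ))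
    (A : T) (hA : dir A = 0) (Z : Finset (E ρ)) (hZ : Z.card ≤ g A) (n3 : ℕ) (σ : E ρ)
    (h1 : 2 * (∑ τ ∈ (univ : Finset T).filter (fun τ => dir τ ≠ 0), g τ
      + 3 * n3 + Z.card + 3) < 2 ^ ρ)
    (h2 : ∑ τ, g τ + 3 * n3 ≤ 2 ^ ρ) :
    ∃ (I : T → Finset (E ρ)) (tr : Fin n3 → Fin 3 → E ρ),
      (Pairwise fun τ τ' => Disjoint (I τ) (I τ')) ∧ (∀ τ, (I τ).card = g τ) ∧
      (∀ τ, ∀ p ∈ I τ, p + dir τ ∈ I τ) ∧ Z ⊆ I A ∧
      (∀ j, ∑ a, tr j a = σ) ∧
      Function.Injective (fun x : Fin n3 × Fin 3 => tr x.1 x.2) ∧
      ∀ j a τ, tr j a ∉ I τ := by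
  classical
  have hcardE : Fintype.card (E ρ) = 2 ^ ρ := by
    rw [Fintype.card_fun, Fintype.card_fin, ZMod.card]
  have htwo : ∀ p : E ρ, p + p = 0 := fun p => by
    funext i
    exact CharTwo.add_self_eq_zero (p i)
  set D : Finset T := (univ : Finset T).filter (fun τ => dir τ ≠ 0) with hD
  set D0 : Finset T := (univ : Finset T).filter (fun τ => ¬ dir τ ≠ 0) with hD0
  have hsplit : ∑ τ ∈ D, g τ + ∑ τ ∈ D0, g τ = ∑ τ, g τ :=
    sum_filter_add_sum_filter_not _ _ _
  obtain ⟨tr, ht1, ht2, ht3⟩ := triple_choice htwo σ Z n3 (by rw [hcardE]; omega)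
  set U1 : Finset (E ρ) := Z ∪ (univ : Finset (Fin n3 × Fin 3)).image fun x => tr x.1 x.2 with hU1
  have hU1c : U1.card ≤ Z.card + 3 * n3 := by
    refine (card_union_le _ _).trans (Nat.add_le_add_left ?_ _)
    refine card_image_le.trans ?_
    rw [card_univ, Fintype.card_prod, Fintype.card_fin, Fintype.card_fin]
    omega
  have hgD : ∑ t ∈ D, 2 * (g t / 2) = ∑ t ∈ D, g t := sum_congr rfl fun t ht =>
    Nat.two_mul_div_two_of_even (hev t (mem_filter.mp ht).2)
  -- the types which are moved
  obtain ⟨I1, hI1, hI1c, hI1d, hI1p⟩ := free_or_inv_aux dir htwo g D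
    (fun t ht => (mem_filter.mp ht).2) U1 (by rw [hcardE, hgD]; omega)
  set U2 : Finset (E ρ) := U1 ∪ D.biUnion I1 with hU2
  have hU2c : U2.card ≤ Z.card + 3 * n3 + ∑ t ∈ D, g t := by
    refine (card_union_le _ _).trans (Nat.add_le_add hU1c ?_)
    refine card_biUnion_le.trans ?_
    rw [sum_congr rfl hI1c, hgD]
  have hAD0 : A ∈ D0 := mem_filter.mpr ⟨mem_univ _, fun h => h hA⟩
  set n' : T → ℕ := fun t => if t = A then g A - Z.card else g t with hn'
  have hsum' : ∑ t ∈ D0, n' t + Z.card = ∑ t ∈ D0, g t := by
    rw [← add_sum_erase D0 n' hAD0, ← add_sum_erase D0 g hAD0]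
    have e1 : ∑ t ∈ D0.erase A, n' t = ∑ t ∈ D0.erase A, g t := sum_congr rfl fun t ht => by
      rw [hn']
      exact if_neg (mem_erase.mp ht).1
    have e2 : n' A = g A - Z.card := if_pos rfl
    rw [e1, e2]
    omega
  obtain ⟨I2, hI2, hI2c, hI2p⟩ := free_choices U2 n' D0 (by rw [hcardE]; omega)
  have hI1U : ∀ t ∈ D, Disjoint (I1 t) U1 := hI1
  have hI1sub : ∀ t ∈ D, I1 t ⊆ U2 := fun t ht =>
    (subset_biUnion_of_mem I1 ht).trans subset_union_right
  have hZU1 : Z ⊆ U1 := subset_union_left
  have hZU2 : Z ⊆ U2 := hZU1.trans subset_union_left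
  have htrU1 : ∀ j a, tr j a ∈ U1 := fun j a =>
    mem_union_right _ (mem_image.mpr ⟨(j, a), mem_univ _, rfl⟩)
  have hDn : ∀ t, t ∉ D → t ∈ D0 := fun t ht =>
    mem_filter.mpr ⟨mem_univ _, fun h => ht (mem_filter.mpr ⟨mem_univ _, h⟩)⟩
  have hDD0 : ∀ t ∈ D, t ∉ D0 := fun t ht ht0 => (mem_filter.mp ht0).2 (mem_filter.mp ht).2
  have hAD : A ∉ D := fun h => hDD0 A h hAD0
  set I : T → Finset (E ρ) := fun t => if t ∈ D then I1 t else if t = A then Z ∪ I2 A else I2 t
    with hI
  have hIin : ∀ t ∈ D, I t = I1 t := fun t ht => if_pos ht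
  have hIA : I A = Z ∪ I2 A := by
    rw [hI]
    simp only [if_neg hAD, if_pos]
  have hIout : ∀ t, t ∉ D → t ≠ A → I t = I2 t := fun t ht hA' => by
    rw [hI]
    simp only [if_neg ht, if_neg hA']
  -- disjointness of the pieces of unmoved types
  have hd2 : ∀ t ∈ D0, Disjoint (I2 t) U2 := hI2
  have hdis : ∀ t t', t ≠ t' → Disjoint (I t) (I t') := by
    intro t t' hne
    by_cases ht : t ∈ D
    · by_cases ht' : t' ∈ D
      · rw [hIin t ht, hIin t' ht']; exact hI1p t ht t' ht' hne
      · by_cases hA' : t' = A
        · rw [hIin t ht, hA', hIA, disjoint_union_right]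
          exact ⟨(hI1U t ht).mono_right hZU1, ((hd2 A hAD0).symm.mono_left (hI1sub t ht))⟩
        · rw [hIin t ht, hIout t' ht' hA']
          exact (hd2 t' (hDn t' ht')).symm.mono_left (hI1sub t ht)
    · by_cases ht' : t' ∈ D
      · by_cases hA' : t = A
        · rw [hIin t' ht', hA', hIA, disjoint_union_left]
          exact ⟨((hI1U t' ht').mono_right hZU1).symm,
            ((hd2 A hAD0).mono_right (hI1sub t' ht'))⟩
        · rw [hIin t' ht', hIout t ht hA']
          exact (hd2 t (hDn t ht)).mono_right (hI1sub t' ht')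
      · by_cases hA1 : t = A
        · by_cases hA2 : t' = A
          · exact absurd (hA1.trans hA2.symm) hne
          · rw [hA1, hIA, hIout t' ht' hA2, disjoint_union_left]
            exact ⟨((hd2 t' (hDn t' ht')).mono_right hZU2).symm,
              hI2p A hAD0 t' (hDn t' ht') (Ne.symm hA2)⟩
        · by_cases hA2 : t' = A
          · rw [hA2, hIA, hIout t ht hA1, disjoint_union_right]
            exact ⟨(hd2 t (hDn t ht)).mono_right hZU2,
              hI2p t (hDn t ht) A hAD0 hA1⟩
          · rw [hIout t ht hA1, hIout t' ht' hA2]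
            exact hI2p t (hDn t ht) t' (hDn t' ht') hne
  refine ⟨I, tr, fun t t' hne => hdis t t' hne, ?_, ?_, ?_, ?_, ht2, ?_⟩
  · intro t
    by_cases ht : t ∈ D
    · rw [hIin t ht, hI1c t ht]
      exact Nat.two_mul_div_two_of_even (hev t (mem_filter.mp ht).2)
    · by_cases hA' : t = A
      · rw [hA', hIA, card_union_of_disjoint ((hd2 A hAD0).mono_right hZU2).symm,
          hI2c A hAD0]
        have e2 : n' A = g A - Z.card := if_pos rfl
        rw [e2]
        omega
      · rw [hIout t ht hA', hI2c t (hDn t ht)]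
        exact if_neg hA'
  · intro t p hp
    by_cases ht : t ∈ D
    · rw [hIin t ht] at hp ⊢
      exact hI1d t ht p hp
    · have : dir t = 0 := by
        by_contra h
        exact ht (mem_filter.mpr ⟨mem_univ _, h⟩)
      rw [this, add_zero]
      exact hp
  · rw [hIA]; exact subset_union_left
  · intro j
    rw [Fin.sum_univ_three]
    exact ht1 j
  · intro j a t hmem
    by_cases ht : t ∈ D
    · rw [hIin t ht] at hmem
      exact disjoint_left.mp (hI1U t ht) hmem (htrU1 j a)
    · by_cases hA' : t = A
      · rw [hA', hIA, mem_union] at hmem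
        rcases hmem with hmem | hmem
        · exact ht3 j a hmem
        · exact disjoint_left.mp (hd2 A hAD0) hmem (mem_union_left _ (htrU1 j a))
      · rw [hIout t ht hA'] at hmem
        exact disjoint_left.mp (hd2 t (hDn t ht)) hmem (mem_union_left _ (htrU1 j a))

end Pool.Agent.EB58
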