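import Pool.Agent.EB58.Defs

/-!
Cells, part B: a linear orthomorphism. (module C)
-/

set_option autoImplicit false

namespace Pool.Agent.EB58

open Finset

/-- A linear bijection `Ω` of `F_2^n`, `n ≥ 2`, with `1 + Ω` bijective (multiplication by an
element `≠ 0, 1` of `GaloisField 2 n`). -/
theorem exists_ortho {n : ℕ} (hn : 2 ≤ n) :
    ∃ Ω : E n ≃ₗ[ZMod 2] E n, Function.Bijective fun x => x + Ω x := by
  classical
  have hn0 : n ≠ 0 := by omega
  have hfin : Module.finrank (ZMod 2) (GaloisField 2 n) = n := GaloisField.finrank 2 hn0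
  have hfin2 : Module.finrank (ZMod 2) (GaloisField 2 n) = Module.finrank (ZMod 2) (E n) := by
    rw [hfin, Module.finrank_fin_fun]
  let e : GaloisField 2 n ≃ₗ[ZMod 2] E n := LinearEquiv.ofFinrankEq _ _ hfin2
  obtain ⟨a, ha0, ha1⟩ : ∃ a : GaloisField 2 n, a ≠ 0 ∧ a ≠ 1 := by
    by_contra hcon
    push Not at hcon
    have h1 : Nat.card (GaloisField 2 n) = 2 ^ n := GaloisField.card 2 n hn0
    have : Fintype (GaloisField 2 n) := Fintype.ofFinite _
    rw [Nat.card_eq_fintype_card] at h1
    have h2 : (univ : Finset (GaloisField 2 n)) ⊆ {0, 1} := by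
      intro x _
      rw [Finset.mem_insert, Finset.mem_singleton]
      by_cases hx : x = 0
      · exact Or.inl hx
      · exact Or.inr (hcon x hx)
    have h3 := Finset.card_le_card h2
    have h4 := Finset.card_le_two (a := (0 : GaloisField 2 n)) (b := 1)
    rw [Finset.card_univ, h1] at h3
    have h5 : 2 ^ 2 ≤ 2 ^ n := Nat.pow_le_pow_right (by norm_num) hn
    omega
  have hbij : ∀ b : GaloisField 2 n, b ≠ 0 →
      Function.Bijective (LinearMap.mulLeft (ZMod 2) b) := by
    intro b hb
    refine ⟨fun x y h => mul_left_cancel₀ hb h, fun y => ⟨b⁻¹ * y, ?_⟩⟩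
    show b * (b⁻¹ * y) = y
    rw [← mul_assoc, mul_inv_cancel₀ hb, one_mul]
  let μ : GaloisField 2 n ≃ₗ[ZMod 2] GaloisField 2 n :=
    LinearEquiv.ofBijective (LinearMap.mulLeft (ZMod 2) a) (hbij a ha0)
  refine ⟨(e.symm.trans μ).trans e, ?_⟩
  have h1a : 1 + a ≠ 0 := by
    intro h
    apply ha1
    have h2 : (1 : GaloisField 2 n) + 1 = 0 := CharTwo.add_self_eq_zero 1
    exact add_left_cancel (h.trans h2.symm)
  have heq : (fun x : E n => x + ((e.symm.trans μ).trans e) x) =
      fun x => e (LinearMap.mulLeft (ZMod 2) (1 + a) (e.symm x)) := by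
    funext x
    show x + e (a * e.symm x) = e ((1 + a) * e.symm x)
    rw [add_mul, one_mul, map_add, LinearEquiv.apply_symm_apply]
  rw [heq]
  exact e.bijective.comp ((hbij _ h1a).comp e.symm.bijective)

end Pool.Agent.EB58
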