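import Pool.Agent.EB58.System

/-!
The number of pairs of a type. (part of module C)
-/

set_option autoImplicit false

namespace Pool.Agent.EB58

open Finset

/-- The index set of the pairs of type `t`. -/
theorem card_index {m ρ : ℕ} (hρm : ρ < m) (hρm' : ρ ≤ m) (t : Fin m) (I : Finset (E ρ))
    (hI : ∀ x : E m, phi hρm' x ∈ I → phi hρm' (x + ee t) ∈ I) :
    ((univ : Finset (E m)).filter fun x => phi hρm' x ∈ I ∧ x t = 0).card
      = I.card * 2 ^ (m - ρ - 1) := by
  classical
  have h0 : ((univ : Finset (E m)).filter fun x => phi hρm' x ∈ I).card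
      = I.card * 2 ^ (m - ρ) := by
    have e : (univ : Finset (E m)).filter (fun x => phi hρm' x ∈ I) =
        (I ×ˢ (univ : Finset (E (m - ρ)))).image fun q => glue q.1 q.2 := by
      ext x
      rw [mem_filter, mem_image]
      constructor
      · intro h
        exact ⟨(phi hρm' x, psi hρm' x), mem_product.mpr ⟨h.2, mem_univ _⟩, glue_phi_psi _ _⟩
      · rintro ⟨q, hq, rfl⟩
        exact ⟨mem_univ _, by rw [phi_glue]; exact (mem_product.mp hq).1⟩
    rw [e, card_image_of_injective, card_product, card_univ, Fintype.card_fun, Fintype.card_fin,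
      ZMod.card]
    intro q q' h
    have h1 := congrArg (phi hρm') h
    have h2 := congrArg (psi hρm') h
    simp only [phi_glue, psi_glue] at h1 h2
    exact Prod.ext h1 h2
  have h1 : ((univ : Finset (E m)).filter fun x => phi hρm' x ∈ I ∧ x t = 0).card
      + ((univ : Finset (E m)).filter fun x => phi hρm' x ∈ I ∧ ¬ x t = 0).card
      = ((univ : Finset (E m)).filter fun x => phi hρm' x ∈ I).card := by
    rw [← Finset.filter_filter, ← Finset.filter_filter]
    exact Finset.card_filter_add_card_filter_not _
  have ht : (ee t : E m) t = 1 := by simp [ee]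
  have h2 : ((univ : Finset (E m)).filter fun x => phi hρm' x ∈ I ∧ x t = 0).card
      = ((univ : Finset (E m)).filter fun x => phi hρm' x ∈ I ∧ ¬ x t = 0).card := by
    refine Finset.card_bij' (fun p _ => p + ee t) (fun p _ => p + ee t) ?_ ?_ ?_ ?_
    · intro p hp
      rw [Finset.mem_filter] at hp ⊢
      refine ⟨mem_univ _, hI p hp.2.1, ?_⟩
      rw [Pi.add_apply, hp.2.2, ht]
      decide
    · intro p hp
      rw [Finset.mem_filter] at hp ⊢
      refine ⟨mem_univ _, hI p hp.2.1, ?_⟩
      have : p t = 1 := (by decide : ∀ c : ZMod 2, ¬ c = 0 → c = 1) _ hp.2.2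
      rw [Pi.add_apply, this, ht]
      decide
    · intro p _
      show p + ee t + ee t = p
      rw [add_assoc, two_E, add_zero]
    · intro p _
      show p + ee t + ee t = p
      rw [add_assoc, two_E, add_zero]
  have h3 : 2 ^ (m - ρ) = 2 * 2 ^ (m - ρ - 1) := by
    rw [← pow_succ']
    congr 1
    omega
  rw [h0, ← h2, h3] at h1
  have h4 : I.card * (2 * 2 ^ (m - ρ - 1)) = 2 * (I.card * 2 ^ (m - ρ - 1)) := by ring
  rw [h4] at h1
  omega

end Pool.Agent.EB58
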