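import Pool.Agent.EB58.System
import Pool.Agent.EB58.CellsA
import Pool.Agent.EB58.CellsB
import Pool.Agent.EB58.CellsC

/-!
Cells, regions, the core system: the region system. (module C)
`exists_cells` is in `CellsA`, `exists_ortho` in `CellsB`, `card_index` in `CellsC`.
-/

set_option autoImplicit false

namespace Pool.Agent.EB58

open Finset

theorem sum_option_filter {α : Type} [Fintype α] [DecidableEq α] {V : Type} [DecidableEq V]
    [Zero V] (d0 : V) (hd0 : d0 ≠ 0) (d : α → V) (g0 : ℕ) (g : α → ℕ) :
    ∑ τ ∈ (univ : Finset (Option α)).filter (fun τ => τ.elim d0 d ≠ 0), τ.elim g0 g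
      = g0 + ∑ t ∈ univ.filter (fun t => d t ≠ 0), g t := by
  rw [Finset.sum_filter, Fintype.sum_option, Finset.sum_filter]
  congr 1
  exact if_pos hd0

/-- The region system. Types `t < ρ` are moved by `ee t` on the cells; `κ = 2`: the core uses
`2 gs` cells closed under the all ones vector of `E ρ`; `κ = 3`: the core uses `3 gs` cells in
`gs` triples with sum the all ones vector. `Sc c` = set of the pairs (cell, coset) used by the
core pieces of parameter `c`. -/
theorem exists_system {m ρ k κ : ℕ} (hκ : κ = 2 ∨ κ = 3) (hρm : ρ + 2 ≤ m) (hρ0 : 0 < ρ)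
    (hρm' : ρ ≤ m) (hk2 : 2 ≤ k)
    {F : Type} [Field F] [Fintype F] [DecidableEq F] [Algebra (ZMod 2) F]
    (hF : Fintype.card F = 2 ^ k)
    (A : Fin m) (hA : ρ ≤ (A : ℕ)) (g : Fin m → ℕ) (hev : ∀ t : Fin m, (t : ℕ) < ρ → Even (g t))
    (gs : ℕ) (Z : Finset (E ρ)) (hZ : Z.card ≤ g A)
    (h1 : 2 * (∑ t ∈ (univ : Finset (Fin m)).filter (fun t : Fin m => (t : ℕ) < ρ), g t
      + κ * gs + Z.card + 3) < 2 ^ ρ)
    (h2 : ∑ t, g t + κ * gs ≤ 2 ^ ρ) :
    ∃ (I : Fin m → Finset (E ρ)) (Is : Finset (E ρ)) (K : Core m κ F)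
      (Sc : F → Finset (E ρ × F)),
      (Pairwise fun t t' => Disjoint (I t) (I t')) ∧ (∀ t, Disjoint (I t) Is) ∧
      (∀ t, (I t).card = g t) ∧
      (∀ t, ∀ x : E m, phi hρm' x ∈ I t → phi hρm' (x + ee t) ∈ I t) ∧
      Z ⊆ I A ∧ K.J.card = gs * 2 ^ (m - ρ) ∧
      (∀ c, c ≠ 0 → (Sc c).card = κ * gs) ∧
      (∀ c, c ≠ 0 → ∀ q ∈ Sc c, q.1 ∈ Is ∧ q.2 ≠ 0) ∧
      (∀ c c', c ≠ 0 → c' ≠ 0 → c ≠ c' → Disjoint (Sc c) (Sc c')) ∧
      ∀ c, c ≠ 0 → ∀ x ∈ K.J, ∀ a, (phi hρm' (K.h a x), K.lam a * c) ∈ Sc c := by
  classical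
  have hdA : phi hρm' (ee A) = 0 := by
    by_contra h
    exact absurd ((phi_ee hρm' A).mp h) (by omega)
  have hon : on ρ ≠ 0 := by
    intro h
    have := congrFun h ⟨0, hρ0⟩
    simp [on] at this
  have hcl : ∀ (I : Fin m → Finset (E ρ)), (∀ t, ∀ p ∈ I t, p + phi hρm' (ee t) ∈ I t) →
      ∀ t, ∀ x : E m, phi hρm' x ∈ I t → phi hρm' (x + ee t) ∈ I t := by
    intro I h t x hx
    rw [phi_add]
    exact h t _ hx
  rcases hκ with rfl | rfl
  · -- `κ = 2`
    obtain ⟨I, tr, c1, c2, c3, c4, -, -, -⟩ := exists_cells (ρ := ρ) (T := Option (Fin m))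
      (fun τ => τ.elim (on ρ) fun t => phi hρm' (ee t)) (fun τ => τ.elim (2 * gs) g)
      (by
        intro τ hτ
        rcases τ with _ | t
        · exact even_two_mul gs
        · exact hev t ((phi_ee hρm' t).mp hτ))
      (some A) hdA Z hZ 0 0
      (by
        rw [sum_option_filter _ hon]
        have e : (univ : Finset (Fin m)).filter (fun t => phi hρm' (ee t) ≠ 0) =
            (univ : Finset (Fin m)).filter (fun t : Fin m => (t : ℕ) < ρ) :=
          Finset.filter_congr fun t _ => phi_ee hρm' t
        rw [e]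
        omega)
      (by
        rw [Fintype.sum_option]
        simp only [Option.elim_none, Option.elim_some]
        omega)
    set H : Finset (E ρ) := (I none).filter fun p => p ⟨0, hρ0⟩ = 0 with hH
    have hclo : ∀ p ∈ I none, p + on ρ ∈ I none := fun p hp => c3 none p hp
    have hHc : H.card = gs := by
      have h3 : H.card + ((I none).filter fun p => ¬ p ⟨0, hρ0⟩ = 0).card = (I none).card := by
        have h3' := Finset.card_filter_add_card_filter_not (s := I none)
          (p := fun p : E ρ => p ⟨0, hρ0⟩ = 0)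
        convert h3'
      have h4 : H.card = ((I none).filter fun p => ¬ p ⟨0, hρ0⟩ = 0).card := by
        refine Finset.card_bij' (fun p _ => p + on ρ) (fun p _ => p + on ρ) ?_ ?_ ?_ ?_
        · intro p hp
          rw [Finset.mem_filter] at hp ⊢
          refine ⟨hclo p hp.1, ?_⟩
          rw [Pi.add_apply, hp.2]
          simp [on]
        · intro p hp
          rw [Finset.mem_filter] at hp ⊢
          refine ⟨hclo p hp.1, ?_⟩
          rw [Pi.add_apply]
          have : p ⟨0, hρ0⟩ = 1 := (by decide : ∀ c : ZMod 2, ¬ c = 0 → c = 1) _ hp.2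
          rw [this]
          show (1 : ZMod 2) + 1 = 0
          decide
        · intro p _
          show p + on ρ + on ρ = p
          rw [add_assoc, two_E, add_zero]
        · intro p _
          show p + on ρ + on ρ = p
          rw [add_assoc, two_E, add_zero]
      have h5 : (I none).card = 2 * gs := c2 none
      omega
    let e : Fin gs ≃ H := (Fintype.equivFinOfCardEq (by rw [Fintype.card_coe, hHc])).symm
    have hel : ∀ j, (e j : E ρ) ∈ I none ∧ (e j : E ρ) ⟨0, hρ0⟩ = 0 := fun j =>
      Finset.mem_filter.mp (e j).2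
    set tr2 : Fin gs → Fin 2 → E ρ := fun j a => if a = 0 then (e j : E ρ) else e j + on ρ
      with htr2
    have hval : ∀ j a, tr2 j a ∈ I none ∧ (tr2 j a ⟨0, hρ0⟩ = if a = 0 then 0 else 1) := by
      intro j a
      simp only [htr2]
      split_ifs with h
      · exact hel j
      · refine ⟨hclo _ (hel j).1, ?_⟩
        rw [Pi.add_apply, (hel j).2]
        simp [on]
    obtain ⟨Is, K, Sc, d1, d2, d3, d4, d5, d6⟩ := system_core hρm' tr2
      (by
        rintro ⟨j, a⟩ ⟨j', a'⟩ h
        simp only at h
        have h3 := congrFun h ⟨0, hρ0⟩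
        rw [(hval j a).2, (hval j' a').2] at h3
        have haa : a = a' := by
          revert h3
          have : ∀ a a' : Fin 2, ((if a = 0 then (0 : ZMod 2) else 1) =
            if a' = 0 then 0 else 1) → a = a' := by decide
          exact this a a'
        subst haa
        have hjj : (e j : E ρ) = e j' := by
          simp only [htr2] at h
          split_ifs at h with h0
          · exact h
          · exact add_right_cancel h
        rw [e.injective (Subtype.ext hjj)])
      (by
        intro j
        have e0 : tr2 j 0 = e j := if_pos rfl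
        have e1 : tr2 j 1 = e j + on ρ := if_neg (by decide)
        rw [Fin.sum_univ_two, e0, e1, ← add_assoc, two_E, zero_add])
      0 (fun a y => if a = 0 then y else y + on (m - ρ))
      (by
        intro a y y' h
        simp only at h
        split_ifs at h with h0
        · exact h
        · exact add_right_cancel h)
      (by
        intro y
        rw [Fin.sum_univ_two, if_pos rfl, if_neg (by decide), ← add_assoc, two_E, zero_add])
      (fun _ => (1 : F)) (fun _ => one_ne_zero)
      (by
        rw [Fin.sum_univ_two, ← two_mul]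
        have : (algebraMap (ZMod 2) F) 2 = 2 := map_ofNat _ 2
        rw [mul_one, ← this, show (2 : ZMod 2) = 0 from by decide, map_zero])
    refine ⟨fun t => I (some t), Is, K, Sc, fun t t' h => c1 (fun h' => h (Option.some_inj.mp h')),
      fun t => ?_, fun t => c2 (some t), hcl _ fun t p hp => c3 (some t) p hp, c4, d2, d3, d4,
      d5, d6⟩
    rw [Finset.disjoint_left]
    intro p hp hp'
    obtain ⟨j, a, rfl⟩ := (d1 p).mp hp'
    have hne : (some t : Option (Fin m)) ≠ none := Option.some_ne_none t
    exact (Finset.disjoint_left.mp (c1 hne)) hp (hval j a).1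
  · -- `κ = 3`
    obtain ⟨I, tr, c1, c2, c3, c4, c5, c6, c7⟩ := exists_cells (ρ := ρ) (T := Fin m)
      (fun t => phi hρm' (ee t)) g (fun t ht => hev t ((phi_ee hρm' t).mp ht))
      A hdA Z hZ gs (on ρ)
      (by
        have e : (univ : Finset (Fin m)).filter (fun t => phi hρm' (ee t) ≠ 0) =
            (univ : Finset (Fin m)).filter (fun t : Fin m => (t : ℕ) < ρ) :=
          Finset.filter_congr fun t _ => phi_ee hρm' t
        rw [e]
        exact h1)
      h2
    obtain ⟨Ω, hΩ⟩ := exists_ortho (n := m - ρ) (by omega)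
    obtain ⟨ω, hω⟩ : ∃ ω : F, ω ∉ ({0, 1} : Finset F) := by
      by_contra hcon
      push Not at hcon
      have h3 : (univ : Finset F).card ≤ ({0, 1} : Finset F).card :=
        card_le_card fun x _ => hcon x
      have h4 : ({0, 1} : Finset F).card ≤ 2 := card_le_two
      rw [card_univ, hF] at h3
      have h5 : 2 ^ 2 ≤ 2 ^ k := Nat.pow_le_pow_right (by norm_num) hk2
      omega
    rw [mem_insert, mem_singleton, not_or] at hω
    have two_F : ∀ x : F, x + x = 0 := by
      intro x
      have : (algebraMap (ZMod 2) F) 2 = 2 := map_ofNat _ 2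
      rw [← two_mul, ← this, show (2 : ZMod 2) = 0 from by decide, map_zero, zero_mul]
    obtain ⟨Is, K, Sc, d1, d2, d3, d4, d5, d6⟩ := system_core hρm' tr c6 c5
      0 (fun a y => if a = 0 then y else if a = 1 then Ω y else (y + Ω y) + on (m - ρ))
      (by
        intro a y y' h
        simp only at h
        split_ifs at h with h0 h0'
        · exact h
        · exact Ω.injective h
        · exact hΩ.1 (add_right_cancel h))
      (by
        intro y
        rw [Fin.sum_univ_three, if_pos rfl, if_neg (by decide), if_pos rfl, if_neg (by decide),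
          if_neg (by decide), ← add_assoc, two_E, zero_add])
      (fun a => if a = 0 then (1 : F) else if a = 1 then ω else 1 + ω)
      (by
        intro a
        split_ifs
        · exact one_ne_zero
        · exact hω.1
        · intro h
          apply hω.2
          calc ω = (1 + ω) + 1 := by rw [add_comm 1 ω, add_assoc, two_F, add_zero]
            _ = 1 := by rw [h, zero_add])
      (by
        rw [Fin.sum_univ_three, if_pos rfl, if_neg (by decide), if_pos rfl, if_neg (by decide),
          if_neg (by decide)]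
        exact two_F (1 + ω))
    refine ⟨I, Is, K, Sc, c1, fun t => ?_, c2, hcl _ c3, c4, d2, d3, d4, d5, d6⟩
    rw [Finset.disjoint_left]
    intro p hp hp'
    obtain ⟨j, a, rfl⟩ := (d1 p).mp hp'
    exact c7 j a t hp

end Pool.Agent.EB58
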