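import Mathlib

/-!
General greedy choice and pairing lemmas (helper98), for `MP_c35a4c_co`.
-/

set_option autoImplicit false

namespace Pool.Agent.EB58

open Finset

/-- Sequential choice: `Good i f a` says that `a` is an admissible `i`-th choice after the choices
`f 0, ..., f (i-1)` (it only depends on these). -/
theorem seq_choice {α : Type*} [Nonempty α] (n : ℕ) (Good : ℕ → (ℕ → α) → α → Prop)
    (hdep : ∀ i f g, (∀ j < i, f j = g j) → ∀ a, Good i f a → Good i g a)
    (step : ∀ i < n, ∀ f : ℕ → α, (∀ j < i, Good j f (f j)) → ∃ a, Good i f a) :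
    ∃ f : ℕ → α, ∀ i < n, Good i f (f i) := by
  classical
  induction n with
  | zero => exact ⟨fun _ => Classical.arbitrary α, fun i hi => absurd hi (Nat.not_lt_zero i)⟩
  | succ n ih =>
    obtain ⟨f, hf⟩ := ih fun i hi => step i (Nat.lt_succ_of_lt hi)
    obtain ⟨a, ha⟩ := step n (Nat.lt_succ_self n) f hf
    have hag : ∀ j < n, Function.update f n a j = f j := fun j hj =>
      Function.update_of_ne hj.ne _ _
    refine ⟨Function.update f n a, fun i hi => ?_⟩
    rcases Nat.lt_succ_iff_lt_or_eq.mp hi with h | rfl
    · rw [hag i h]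
      exact hdep i f _ (fun j hj => (hag j (hj.trans h)).symm) _ (hf i h)
    · rw [Function.update_self]
      exact hdep i f _ (fun j hj => (hag j hj).symm) _ ha

/-- One step of the greedy choice with caps: candidates `C`, footprints `foot a`, elements `used`
already used (`load g` of them in bucket `g`), further bad candidates `bad`. -/
theorem count_choice {α β γ : Type*} [DecidableEq α] [DecidableEq β] [DecidableEq γ]
    (C bad : Finset α) (foot : α → Finset β) (used : Finset β) (bucket : β → γ)
    (D K cap : ℕ) (hcap : 0 < cap)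
    (hD : ∀ b ∈ used, (C.filter fun a => b ∈ foot a).card ≤ D)
    (hK : ∀ g, (C.filter fun a => ∃ b ∈ foot a, bucket b = g).card ≤ K)
    (hcount : D * used.card + K * (used.card / cap) + (C ∩ bad).card < C.card) :
    ∃ a ∈ C, a ∉ bad ∧ Disjoint (foot a) used ∧
      ∀ b ∈ foot a, (used.filter fun x => bucket x = bucket b).card < cap := by
  classical
  set sat : Finset γ := (used.image bucket).filter
    fun g => cap ≤ (used.filter fun x => bucket x = g).card with hsat
  have hsatc : sat.card ≤ used.card / cap := by
    rw [Nat.le_div_iff_mul_le hcap]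
    calc sat.card * cap = ∑ _g ∈ sat, cap := by rw [sum_const, smul_eq_mul]
      _ ≤ ∑ g ∈ sat, (used.filter fun x => bucket x = g).card :=
          sum_le_sum fun g hg => (mem_filter.mp hg).2
      _ ≤ ∑ g ∈ used.image bucket, (used.filter fun x => bucket x = g).card :=
          sum_le_sum_of_subset (filter_subset _ _)
      _ = used.card := (card_eq_sum_card_image bucket used).symm
  set b1 : Finset α := used.biUnion fun b => C.filter fun a => b ∈ foot a with hb1
  set b2 : Finset α := sat.biUnion fun g => C.filter fun a => ∃ b ∈ foot a, bucket b = g with hb2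
  have h1 : b1.card ≤ D * used.card := by
    refine card_biUnion_le.trans ?_
    calc ∑ b ∈ used, (C.filter fun a => b ∈ foot a).card ≤ ∑ _b ∈ used, D :=
          sum_le_sum hD
      _ = D * used.card := by rw [sum_const, smul_eq_mul, mul_comm]
  have h2 : b2.card ≤ K * (used.card / cap) := by
    refine card_biUnion_le.trans ?_
    calc ∑ g ∈ sat, (C.filter fun a => ∃ b ∈ foot a, bucket b = g).card ≤ ∑ _g ∈ sat, K :=
          sum_le_sum fun g _ => hK g
      _ = K * sat.card := by rw [sum_const, smul_eq_mul, mul_comm]
      _ ≤ K * (used.card / cap) := Nat.mul_le_mul_left _ hsatc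
  have h3 : (b1 ∪ b2 ∪ (C ∩ bad)).card < C.card := by
    refine lt_of_le_of_lt ((card_union_le _ _).trans
      (Nat.add_le_add_right ((card_union_le _ _).trans (Nat.add_le_add h1 h2)) _)) hcount
  obtain ⟨a, haC, ha⟩ := exists_mem_notMem_of_card_lt_card h3
  rw [mem_union, mem_union, not_or, not_or] at ha
  obtain ⟨⟨ha1, ha2⟩, ha3⟩ := ha
  refine ⟨a, haC, fun h => ha3 (mem_inter.mpr ⟨haC, h⟩), ?_, ?_⟩
  · rw [Finset.disjoint_left]
    intro b hb hbu
    exact ha1 (mem_biUnion.mpr ⟨b, hbu, mem_filter.mpr ⟨haC, hb⟩⟩)
  · intro b hb
    by_contra hlt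
    push Not at hlt
    refine ha2 (mem_biUnion.mpr ⟨bucket b, ?_, mem_filter.mpr ⟨haC, b, hb, rfl⟩⟩)
    rw [hsat, mem_filter]
    refine ⟨?_, hlt⟩
    have hpos : 0 < (used.filter fun x => bucket x = bucket b).card := hcap.trans_le hlt
    obtain ⟨x, hx⟩ := card_pos.mp hpos
    rw [mem_filter] at hx
    exact mem_image.mpr ⟨x, hx.1, hx.2⟩

/-- Pairing lemma: a set of `2s` elements with at most `s` in every class splits into `s` pairs
with elements of different classes. -/
theorem pairing {α γ : Type*} [Nonempty α] [DecidableEq α] [DecidableEq γ] (c : α → γ) :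
    ∀ (s : ℕ) (B : Finset α), B.card = 2 * s →
      (∀ g, (B.filter fun b => c b = g).card ≤ s) →
      ∃ f₁ f₂ : ℕ → α, (∀ i < s, c (f₁ i) ≠ c (f₂ i)) ∧
        (∀ b, b ∈ B ↔ ∃ i < s, b = f₁ i ∨ b = f₂ i) ∧
        (∀ i < s, ∀ j < s, f₁ i = f₁ j → i = j) ∧ (∀ i < s, ∀ j < s, f₂ i = f₂ j → i = j) ∧
        (∀ i < s, ∀ j < s, f₁ i ≠ f₂ j) := by
  classical
  intro s
  induction s with
  | zero =>
    intro B hB _
    have hB' : B = ∅ := by rw [← card_eq_zero, hB]
    subst hB'
    exact ⟨fun _ => Classical.arbitrary α, fun _ => Classical.arbitrary α, by simp, by simp,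
      by simp, by simp, by simp⟩
  | succ s ih =>
    intro B hB hc
    have hBne : B.Nonempty := card_pos.mp (by omega)
    obtain ⟨b1, hb1, hmax1⟩ := exists_max_image B (fun b => (B.filter fun x => c x = c b).card) hBne
    have hsplit : (B.filter fun x => c x = c b1).card + (B.filter fun x => ¬ c x = c b1).card =
        B.card := card_filter_add_card_filter_not _
    have h2ne : (B.filter fun x => ¬ c x = c b1).Nonempty := by
      rw [← card_pos]
      have := hc (c b1)
      omega
    obtain ⟨b2, hb2, hmax2⟩ := exists_max_image _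
      (fun b => (B.filter fun x => c x = c b).card) h2ne
    rw [mem_filter] at hb2
    obtain ⟨hb2, hne⟩ := hb2
    have hne' : b2 ≠ b1 := fun h => hne (by rw [h])
    set B' := (B.erase b1).erase b2 with hB'
    have hb2' : b2 ∈ B.erase b1 := mem_erase.mpr ⟨hne', hb2⟩
    have hB'c : B'.card = 2 * s := by
      rw [hB', card_erase_of_mem hb2', card_erase_of_mem hb1]; omega
    have hsub : B' ⊆ B := (erase_subset _ _).trans (erase_subset _ _)
    have hcl : ∀ g, (B'.filter fun b => c b = g).card ≤ s := by
      intro g
      have hle : (B'.filter fun b => c b = g).card ≤ (B.filter fun b => c b = g).card :=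
        card_le_card (filter_subset_filter _ hsub)
      by_cases h1 : g = c b1
      · have : (B'.filter fun b => c b = g).card < (B.filter fun b => c b = g).card := by
          refine card_lt_card ⟨filter_subset_filter _ hsub, fun h => ?_⟩
          have h3 := h (mem_filter.mpr ⟨hb1, h1.symm⟩)
          rw [mem_filter, hB', mem_erase, mem_erase] at h3
          exact h3.1.2.1 rfl
        have := hc g
        omega
      by_cases h2 : g = c b2
      · have : (B'.filter fun b => c b = g).card < (B.filter fun b => c b = g).card := by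
          refine card_lt_card ⟨filter_subset_filter _ hsub, fun h => ?_⟩
          have h3 := h (mem_filter.mpr ⟨hb2, h2.symm⟩)
          rw [mem_filter, hB', mem_erase] at h3
          exact h3.1.1 rfl
        have := hc g
        omega
      rcases Finset.eq_empty_or_nonempty (B.filter fun b => c b = g) with h0 | ⟨x, hx⟩
      · rw [h0, card_empty] at hle; omega
      rw [mem_filter] at hx
      have hx2 : x ∈ B.filter fun x => ¬ c x = c b1 :=
        mem_filter.mpr ⟨hx.1, fun h => h1 (hx.2.symm.trans h)⟩
      have m1 := hmax1 b2 hb2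
      have m2 := hmax2 x hx2
      simp only [hx.2] at m2
      have hd1 : Disjoint (B.filter fun b => c b = g) (B.filter fun x => c x = c b1) := by
        rw [Finset.disjoint_left]
        intro y hy hy'
        exact h1 ((mem_filter.mp hy).2.symm.trans (mem_filter.mp hy').2)
      have hd2 : Disjoint ((B.filter fun b => c b = g) ∪ (B.filter fun x => c x = c b1))
          (B.filter fun x => c x = c b2) := by
        rw [Finset.disjoint_left]
        intro y hy hy'
        rcases mem_union.mp hy with hy | hy
        · exact h2 ((mem_filter.mp hy).2.symm.trans (mem_filter.mp hy').2)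
        · exact hne ((mem_filter.mp hy').2.symm.trans (mem_filter.mp hy).2)
      have htot : ((B.filter fun b => c b = g) ∪ (B.filter fun x => c x = c b1) ∪
          (B.filter fun x => c x = c b2)).card ≤ B.card :=
        card_le_card (union_subset (union_subset (filter_subset _ _) (filter_subset _ _))
          (filter_subset _ _))
      rw [card_union_of_disjoint hd2, card_union_of_disjoint hd1] at htot
      omega
    obtain ⟨f₁, f₂, h1, h2, h3, h4, h5⟩ := ih B' hB'c hcl
    have hf1 : ∀ i < s, f₁ i ∈ B' := fun i hi => (h2 _).mpr ⟨i, hi, Or.inl rfl⟩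
    have hf2 : ∀ i < s, f₂ i ∈ B' := fun i hi => (h2 _).mpr ⟨i, hi, Or.inr rfl⟩
    have n1 : b1 ∉ B' := by rw [hB', mem_erase, mem_erase]; exact fun h => h.2.1 rfl
    have n2 : b2 ∉ B' := by rw [hB', mem_erase]; exact fun h => h.1 rfl
    refine ⟨Function.update f₁ s b1, Function.update f₂ s b2, ?_, ?_, ?_, ?_, ?_⟩
    · intro i hi
      rcases Nat.lt_succ_iff_lt_or_eq.mp hi with h | rfl
      · rw [Function.update_of_ne h.ne, Function.update_of_ne h.ne]; exact h1 i h
      · rw [Function.update_self, Function.update_self]; exact fun h => hne h.symm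
    · intro b
      constructor
      · intro hb
        by_cases e1 : b = b1
        · exact ⟨s, Nat.lt_succ_self s, Or.inl (by rw [Function.update_self, e1])⟩
        by_cases e2 : b = b2
        · exact ⟨s, Nat.lt_succ_self s, Or.inr (by rw [Function.update_self, e2])⟩
        obtain ⟨i, hi, h⟩ := (h2 b).mp (mem_erase.mpr ⟨e2, mem_erase.mpr ⟨e1, hb⟩⟩)
        refine ⟨i, hi.trans (Nat.lt_succ_self s), ?_⟩
        rw [Function.update_of_ne hi.ne, Function.update_of_ne hi.ne]; exact h
      · rintro ⟨i, hi, h⟩
        rcases Nat.lt_succ_iff_lt_or_eq.mp hi with hi' | rfl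
        · rw [Function.update_of_ne hi'.ne, Function.update_of_ne hi'.ne] at h
          exact hsub ((h2 b).mpr ⟨i, hi', h⟩)
        · rw [Function.update_self, Function.update_self] at h
          rcases h with rfl | rfl
          · exact hb1
          · exact hb2
    · intro i hi j hj h
      rcases Nat.lt_succ_iff_lt_or_eq.mp hi with hi' | rfl <;>
        rcases Nat.lt_succ_iff_lt_or_eq.mp hj with hj' | rfl
      · rw [Function.update_of_ne hi'.ne, Function.update_of_ne hj'.ne] at h
        exact h3 i hi' j hj' h
      · rw [Function.update_of_ne hi'.ne, Function.update_self] at h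
        exact absurd (h ▸ hf1 i hi') n1
      · rw [Function.update_of_ne hj'.ne, Function.update_self] at h
        exact absurd (h ▸ hf1 j hj') n1
      · rfl
    · intro i hi j hj h
      rcases Nat.lt_succ_iff_lt_or_eq.mp hi with hi' | rfl <;>
        rcases Nat.lt_succ_iff_lt_or_eq.mp hj with hj' | rfl
      · rw [Function.update_of_ne hi'.ne, Function.update_of_ne hj'.ne] at h
        exact h4 i hi' j hj' h
      · rw [Function.update_of_ne hi'.ne, Function.update_self] at h
        exact absurd (h ▸ hf2 i hi') n2
      · rw [Function.update_of_ne hj'.ne, Function.update_self] at h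
        exact absurd (h ▸ hf2 j hj') n2
      · rfl
    · intro i hi j hj h
      rcases Nat.lt_succ_iff_lt_or_eq.mp hi with hi' | rfl <;>
        rcases Nat.lt_succ_iff_lt_or_eq.mp hj with hj' | rfl
      · rw [Function.update_of_ne hi'.ne, Function.update_of_ne hj'.ne] at h
        exact h5 i hi' j hj' h
      · rw [Function.update_of_ne hi'.ne, Function.update_self] at h
        exact absurd (h ▸ hf1 i hi') n2
      · rw [Function.update_of_ne hj'.ne, Function.update_self] at h
        exact absurd (h ▸ hf2 j hj') n1
      · rw [Function.update_self, Function.update_self] at h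
        exact hne' h.symm

end Pool.Agent.EB58
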