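import Pool.Agent.EB58.Defs

/-!
Full circuits are circuits; cycles. (module Y)
-/

set_option autoImplicit false
set_option linter.unusedSectionVars false

namespace Pool.Agent.EB58

open Finset Pool.Agent.H41.Circ

/-! ### full sets are circuits -/

section full

variable {V : Type*} [AddCommGroup V] [Module (ZMod 2) V] [Module.Finite (ZMod 2) V]
  [DecidableEq V]

omit [Module.Finite (ZMod 2) V] in
theorem mem_span_erase {D : Finset V} (h0 : ∑ v ∈ D, v = 0) {d : V} (hd : d ∈ D) :
    d ∈ Submodule.span (ZMod 2) ((D.erase d : Finset V) : Set V) := by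
  have h1 : d + ∑ v ∈ D.erase d, v = 0 := by
    rw [Finset.add_sum_erase D (fun v => v) hd]; exact h0
  have h2 : ∑ v ∈ D.erase d, v ∈ Submodule.span (ZMod 2) ((D.erase d : Finset V) : Set V) :=
    Submodule.sum_mem _ fun v hv => Submodule.subset_span (by exact_mod_cast hv)
  rw [← eq_of_add_eq_zero' h1] at h2
  exact h2

/-- a zero-sum set of `dim + 1` spanning vectors is a circuit -/
theorem isCircuit_of_full {C : Finset V} (h0 : ∑ v ∈ C, v = 0)
    (hc : C.card = Module.finrank (ZMod 2) V + 1)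
    (hs : Submodule.span (ZMod 2) (C : Set V) = ⊤) : IsCircuit C := by
  refine ⟨Finset.card_pos.1 (by omega), h0, fun D hD hDn hD0 => ?_⟩
  by_contra hne
  have hD' : (C \ D).Nonempty := by
    rw [Finset.sdiff_nonempty]
    exact fun h => hne (Finset.Subset.antisymm hD h)
  obtain ⟨d, hd⟩ := hDn
  obtain ⟨e, he⟩ := hD'
  have he0 : ∑ v ∈ C \ D, v = 0 := sum_sdiff_zero hD hD0 h0
  have hdC := hD hd
  obtain ⟨heC, heD⟩ := Finset.mem_sdiff.1 he
  have hde : d ≠ e := fun h => heD (h ▸ hd)
  set T := (C.erase d).erase e with hT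
  have h1 : Submodule.span (ZMod 2) (T : Set V) = ⊤ := by
    rw [eq_top_iff, ← hs, Submodule.span_le]
    intro v hv
    have hvC : v ∈ C := by exact_mod_cast hv
    by_cases hvd : v = d
    · subst hvd
      refine Submodule.span_mono ?_ (mem_span_erase hD0 hd)
      intro x hx
      have hx' : x ∈ D.erase v := by exact_mod_cast hx
      obtain ⟨hx1, hx2⟩ := Finset.mem_erase.1 hx'
      have : x ∈ T := by
        rw [hT]
        exact Finset.mem_erase.2 ⟨fun h => heD (h ▸ hx2), Finset.mem_erase.2 ⟨hx1, hD hx2⟩⟩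
      exact_mod_cast this
    by_cases hve : v = e
    · subst hve
      refine Submodule.span_mono ?_ (mem_span_erase he0 he)
      intro x hx
      have hx' : x ∈ (C \ D).erase v := by exact_mod_cast hx
      obtain ⟨hx1, hx2⟩ := Finset.mem_erase.1 hx'
      obtain ⟨hx3, hx4⟩ := Finset.mem_sdiff.1 hx2
      have : x ∈ T := by
        rw [hT]
        exact Finset.mem_erase.2 ⟨hx1, Finset.mem_erase.2 ⟨fun h => hx4 (h ▸ hd), hx3⟩⟩
      exact_mod_cast this
    · refine Submodule.subset_span ?_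
      have : v ∈ T := Finset.mem_erase.2 ⟨hve, Finset.mem_erase.2 ⟨hvd, hvC⟩⟩
      exact_mod_cast this
  have h2 : T.card = C.card - 2 := by
    rw [hT, Finset.card_erase_of_mem (Finset.mem_erase.2 ⟨hde.symm, heC⟩),
      Finset.card_erase_of_mem hdC]
    omega
  have h3 : Module.finrank (ZMod 2) (Submodule.span (ZMod 2) (T : Set V)) ≤ T.card :=
    finrank_span_finset_le_card (R := ZMod 2) T
  rw [h1, finrank_top] at h3
  have h4 : 2 ≤ C.card := by
    have : ({d, e} : Finset V) ⊆ C := by
      intro x hx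
      simp only [Finset.mem_insert, Finset.mem_singleton] at hx
      rcases hx with rfl | rfl
      · exact hdC
      · exact heC
    calc 2 = ({d, e} : Finset V).card := (Finset.card_pair hde).symm
      _ ≤ C.card := Finset.card_le_card this
  omega

end full

/-! ### cycles -/

section cycles

variable {V : Type*} [AddCommGroup V] [Module (ZMod 2) V] [Module.Finite (ZMod 2) V]
  {I : Type*} [DecidableEq I]

/-- more than `dim` items contain a zero-sum part of at most `dim + 1` items -/
theorem exists_zero_part (g : I → V) {s : Finset I}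
    (hs : Module.finrank (ZMod 2) V < s.card) :
    ∃ t ⊆ s, t.Nonempty ∧ t.card ≤ Module.finrank (ZMod 2) V + 1 ∧ ∑ i ∈ t, g i = 0 := by
  obtain ⟨u, hu, huc⟩ := Finset.exists_subset_card_eq (s := s)
    (n := Module.finrank (ZMod 2) V + 1) hs
  have h1 : ¬ LinearIndependent (ZMod 2) (fun i : u => g i) := by
    intro h
    have := h.fintype_card_le_finrank
    rw [Fintype.card_coe, huc] at this
    omega
  obtain ⟨c, hc0, i, hi⟩ := Fintype.not_linearIndependent_iff.1 h1
  classical
  refine ⟨(Finset.univ.filter fun j : u => c j ≠ 0).map (Function.Embedding.subtype _), ?_, ?_,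
    ?_, ?_⟩
  · intro x hx
    obtain ⟨y, -, rfl⟩ := Finset.mem_map.1 hx
    exact hu y.2
  · exact ⟨i, Finset.mem_map.2 ⟨i, by simp [hi], rfl⟩⟩
  · rw [Finset.card_map]
    refine (Finset.card_le_univ _).trans ?_
    rw [Fintype.card_coe, huc]
  · rw [Finset.sum_map, Finset.sum_filter]
    refine Eq.trans ?_ hc0
    refine Finset.sum_congr rfl fun j _ => ?_
    have key : ∀ x : ZMod 2, x ≠ 0 → x = 1 := by decide
    by_cases h : c j = 0
    · rw [if_neg (not_not.2 h), h, zero_smul]
    · rw [if_pos h, key _ h, one_smul]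
      rfl

/-- one cycle -/
theorem exists_cycle [Fintype V] [DecidableEq V] (g : I → V) {s : Finset I} (h2 : 2 ≤ s.card)
    (h0 : ∑ i ∈ s, g i = 0) (Bad : I → Finset V) {b : ℕ} (hb : ∀ i ∈ s, (Bad i).card ≤ b)
    (hcard : s.card * b < Fintype.card V) :
    ∃ (σ : Equiv.Perm I) (v : I → V), (∀ i, i ∉ s → σ i = i) ∧ (∀ i ∈ s, σ i ∈ s) ∧
      (∀ i ∈ s, σ i ≠ i) ∧ (∀ i ∈ s, v i = v (σ i) + g i) ∧ ∀ i ∈ s, v (σ i) ∉ Bad i := by
  obtain ⟨l, hl⟩ : ∃ l, l = s.toList := ⟨_, rfl⟩
  have hnd : l.Nodup := hl ▸ s.nodup_toList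
  have hmem : ∀ i, i ∈ l ↔ i ∈ s := fun i => by rw [hl]; exact Finset.mem_toList
  have hlen : l.length = s.card := by rw [hl]; exact Finset.length_toList s
  have hsum : (l.map g).sum = 0 := by rw [hl, Finset.sum_map_toList]; exact h0
  obtain ⟨σ, hσ⟩ : ∃ σ, σ = l.formPerm := ⟨_, rfl⟩
  obtain ⟨p, hp⟩ : ∃ p : I → V, p = fun i => ((l.take (l.idxOf i)).map g).sum := ⟨_, rfl⟩
  have hget : ∀ i ∈ s, ∃ k, ∃ h : k < l.length, l[k] = i ∧ l.idxOf i = k := by
    intro i hi
    have h1 : l.idxOf i < l.length := List.idxOf_lt_length_iff.2 ((hmem i).2 hi)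
    exact ⟨_, h1, List.getElem_idxOf h1, rfl⟩
  have hidx : ∀ k (h : k < l.length), l.idxOf l[k] = k := fun k h => hnd.idxOf_getElem k h
  have hpk : ∀ k (h : k < l.length), p l[k] = ((l.take k).map g).sum := by
    intro k h
    rw [hp]
    simp only
    rw [hidx k h]
  have hσk : ∀ k (h : k < l.length), σ l[k] = l[(k + 1) % l.length]'(Nat.mod_lt _ (by omega)) :=
    fun k h => by rw [hσ]; exact List.formPerm_apply_getElem l hnd k h
  have hrec : ∀ i ∈ s, p i = p (σ i) + g i := by
    intro i hi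
    obtain ⟨k, hk, rfl, -⟩ := hget i hi
    rw [hσk k hk]
    by_cases hk1 : k + 1 < l.length
    · have e1 : (k + 1) % l.length = k + 1 := Nat.mod_eq_of_lt hk1
      have e2 : p (l[(k + 1) % l.length]'(Nat.mod_lt _ (by omega))) = p l[k + 1] := by
        congr 1
        simp only [e1]
      rw [e2, hpk _ hk1, hpk _ hk, List.take_succ_eq_append_getElem hk, List.map_append,
        List.sum_append]
      simp [add_assoc, add_self']
    · have e0 : k + 1 = l.length := by omega
      have e1 : (k + 1) % l.length = 0 := by rw [e0]; exact Nat.mod_self _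
      have e2 : p (l[(k + 1) % l.length]'(Nat.mod_lt _ (by omega))) =
          p (l[0]'(by omega)) := by
        congr 1
        simp only [e1]
      rw [e2, hpk _ hk, hpk 0 (by omega)]
      have e3 : l = l.take k ++ [l[k]] := by
        rw [← List.take_succ_eq_append_getElem hk, e0, List.take_length]
      have e4 : ((l.take k).map g).sum + g l[k] = 0 := by
        have := hsum
        rw [e3, List.map_append, List.sum_append] at this
        simpa using this
      rw [List.take_zero, List.map_nil, List.sum_nil, zero_add]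
      exact eq_of_add_eq_zero' e4
  have hσs : ∀ i ∈ s, σ i ∈ s := by
    intro i hi
    obtain ⟨k, hk, rfl, -⟩ := hget i hi
    rw [hσk k hk, ← hmem]
    exact List.getElem_mem _
  -- the start
  obtain ⟨v0, hv0⟩ : ∃ v0 : V, v0 ∉ s.biUnion fun i => (Bad i).image fun x => x + p (σ i) := by
    have hlt : (s.biUnion fun i => (Bad i).image fun x => x + p (σ i)).card <
        Fintype.card V := by
      refine lt_of_le_of_lt ?_ hcard
      refine Finset.card_biUnion_le_card_mul _ _ _ fun i hi => ?_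
      exact Finset.card_image_le.trans (hb i hi)
    by_contra hcon
    push Not at hcon
    have : (s.biUnion fun i => (Bad i).image fun x => x + p (σ i)) = Finset.univ :=
      Finset.eq_univ_iff_forall.2 hcon
    rw [this, Finset.card_univ] at hlt
    exact lt_irrefl _ hlt
  refine ⟨σ, fun i => v0 + p i, ?_, hσs, ?_, ?_, ?_⟩
  · intro i hi
    rw [hσ]
    exact List.formPerm_apply_of_notMem (fun h => hi ((hmem i).1 h))
  · intro i hi
    obtain ⟨k, hk, rfl, -⟩ := hget i hi
    rw [hσk k hk]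
    intro h
    have h1 := (hnd.getElem_inj_iff).1 h
    by_cases hk1 : k + 1 < l.length
    · rw [Nat.mod_eq_of_lt hk1] at h1
      omega
    · have e0 : k + 1 = l.length := by omega
      rw [e0, Nat.mod_self] at h1
      omega
  · intro i hi
    simp only
    rw [hrec i hi, add_assoc]
  · intro i hi hbad
    refine hv0 (Finset.mem_biUnion.2 ⟨i, hi, Finset.mem_image.2 ⟨v0 + p (σ i), hbad, ?_⟩⟩)
    rw [add_assoc, add_self', add_zero]

/-- all cycles on a set of items -/
theorem exists_cycles_on [Fintype V] [DecidableEq V] (g : I → V) (Bad : I → Finset V) {b : ℕ}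
    (hb : ∀ i, (Bad i).card ≤ b)
    (hcard : (2 * Module.finrank (ZMod 2) V + 3) * b < Fintype.card V) :
    ∀ (n : ℕ) (s : Finset I), s.card = n → 2 ≤ n → ∑ i ∈ s, g i = 0 →
    ∃ (σ : Equiv.Perm I) (v : I → V), (∀ i, i ∉ s → σ i = i) ∧ (∀ i ∈ s, σ i ∈ s) ∧
      (∀ i ∈ s, σ i ≠ i) ∧ (∀ i ∈ s, v i = v (σ i) + g i) ∧ ∀ i ∈ s, v (σ i) ∉ Bad i := by
  intro n
  induction n using Nat.strong_induction_on with
  | _ n ih =>
  intro s hs h2 h0
  by_cases hn : n ≤ 2 * Module.finrank (ZMod 2) V + 3
  · exact exists_cycle g (by omega) h0 Bad (fun i _ => hb i)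
      (lt_of_le_of_lt (Nat.mul_le_mul_right _ (by omega)) hcard)
  push Not at hn
  obtain ⟨t1, ht1, hn1, hc1, h01⟩ := exists_zero_part g (s := s) (by omega)
  obtain ⟨t2, ht2, hn2, hc2, h02⟩ := exists_zero_part g (s := s \ t1) (by
    have := Finset.card_sdiff_add_card_eq_card ht1
    omega)
  have hdis : Disjoint t1 t2 :=
    (Finset.disjoint_sdiff (s := t1) (t := s)).mono_right ht2
  have hts : t1 ∪ t2 ⊆ s := Finset.union_subset ht1 (ht2.trans Finset.sdiff_subset)
  have hc : (t1 ∪ t2).card = t1.card + t2.card := Finset.card_union_of_disjoint hdis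
  have hp1 := hn1.card_pos
  have hp2 := hn2.card_pos
  have hsum : ∑ i ∈ t1 ∪ t2, g i = 0 := by
    rw [Finset.sum_union hdis, h01, h02, add_zero]
  obtain ⟨σ1, v1, a1, a2, a3, a4, a5⟩ := exists_cycle g (s := t1 ∪ t2) (by omega) hsum Bad
    (fun i _ => hb i) (lt_of_le_of_lt (Nat.mul_le_mul_right _ (by omega)) hcard)
  have hcr := Finset.card_sdiff_add_card_eq_card hts
  have hsr : ∑ i ∈ s \ (t1 ∪ t2), g i = 0 := by
    have := Finset.sum_sdiff (f := g) hts
    rw [hsum, add_zero, h0] at this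
    exact this
  obtain ⟨σ2, v2, b1, b2, b3, b4, b5⟩ := ih _ (by omega) (s \ (t1 ∪ t2)) rfl (by omega) hsr
  have hmemr : ∀ i, i ∈ s \ (t1 ∪ t2) → i ∉ t1 ∪ t2 := fun i hi => (Finset.mem_sdiff.1 hi).2
  -- the product
  have e1 : ∀ i ∈ t1 ∪ t2, (σ2 * σ1) i = σ1 i := by
    intro i hi
    rw [Equiv.Perm.mul_apply]
    exact b1 _ fun h => hmemr _ h (a2 i hi)
  have e2 : ∀ i, i ∉ t1 ∪ t2 → (σ2 * σ1) i = σ2 i := by
    intro i hi
    rw [Equiv.Perm.mul_apply, a1 i hi]
  refine ⟨σ2 * σ1, fun i => if i ∈ t1 ∪ t2 then v1 i else v2 i, ?_, ?_, ?_, ?_, ?_⟩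
  · intro i hi
    rw [e2 i fun h => hi (hts h)]
    exact b1 i fun h => hi (Finset.mem_sdiff.1 h).1
  · intro i hi
    by_cases h : i ∈ t1 ∪ t2
    · rw [e1 i h]
      exact hts (a2 i h)
    · rw [e2 i h]
      exact (Finset.mem_sdiff.1 (b2 i (Finset.mem_sdiff.2 ⟨hi, h⟩))).1
  · intro i hi
    by_cases h : i ∈ t1 ∪ t2
    · rw [e1 i h]
      exact a3 i h
    · rw [e2 i h]
      exact b3 i (Finset.mem_sdiff.2 ⟨hi, h⟩)
  · intro i hi
    by_cases h : i ∈ t1 ∪ t2
    · simp only
      rw [e1 i h, if_pos h, if_pos (a2 i h)]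
      exact a4 i h
    · have h' := Finset.mem_sdiff.2 ⟨hi, h⟩
      simp only
      rw [e2 i h, if_neg h, if_neg (hmemr _ (b2 i h'))]
      exact b4 i h'
  · intro i hi
    by_cases h : i ∈ t1 ∪ t2
    · simp only
      rw [e1 i h, if_pos (a2 i h)]
      exact a5 i h
    · have h' := Finset.mem_sdiff.2 ⟨hi, h⟩
      simp only
      rw [e2 i h, if_neg (hmemr _ (b2 i h'))]
      exact b5 i h'

/-- CYCLES: items with total zero are arranged in cycles; `σ i` is the predecessor of `i` -/
theorem exists_cycles [Fintype V] [DecidableEq V] [Fintype I] (g : I → V)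
    (h2 : 2 ≤ Fintype.card I) (h0 : ∑ i, g i = 0) (Bad : I → Finset V) {b : ℕ}
    (hb : ∀ i, (Bad i).card ≤ b)
    (hcard : (2 * Module.finrank (ZMod 2) V + 3) * b < Fintype.card V) :
    ∃ (σ : Equiv.Perm I) (v : I → V), (∀ i, σ i ≠ i) ∧ (∀ i, v i = v (σ i) + g i) ∧
      ∀ i, v (σ i) ∉ Bad i := by
  obtain ⟨σ, v, -, -, a3, a4, a5⟩ := exists_cycles_on g Bad hb hcard _ Finset.univ rfl
    (by rw [Finset.card_univ]; exact h2) h0
  exact ⟨σ, v, fun i => a3 i (Finset.mem_univ _), fun i => a4 i (Finset.mem_univ _),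
    fun i => a5 i (Finset.mem_univ _)⟩

end cycles


/-! ### the statements of the skeleton -/

theorem Full.isCircuit {V : Type} [AddCommGroup V] [Module (ZMod 2) V] [Finite V]
    {r : ℕ} (hr : Module.finrank (ZMod 2) V = r) {C : Finset V} (h : Full r C) :
    IsCircuit C := by
  classical
  haveI : Module.Finite (ZMod 2) V := Module.Finite.of_finite
  obtain ⟨h1, h2, h3⟩ := h
  exact isCircuit_of_full h2 (by rw [hr]; exact h1) h3

theorem Full.nonempty {V : Type} [AddCommGroup V] [Module (ZMod 2) V]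
    {r : ℕ} {C : Finset V} (h : Full r C) : C.Nonempty :=
  Finset.card_pos.1 (by rw [h.1]; exact Nat.succ_pos r)

/-- A packing by full circuits which leaves a set with a decomposition into `k` circuits. -/
theorem Pack.dec {V : Type} [AddCommGroup V] [Module (ZMod 2) V] [Finite V] [DecidableEq V]
    {r : ℕ} (hr : Module.finrank (ZMod 2) V = r) {M : Finset V} {q : ℕ}
    (C : Fin q → Finset V) (hC : ∀ i, Full r (C i) ∧ C i ⊆ M)
    (hd : Pairwise fun i j => Disjoint (C i) (C j)) {k : ℕ}
    (hk : Dec (M \ univ.biUnion C) k) : Dec M (k + q) := by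
  obtain ⟨P, hP, hPc, hPd, hPu⟩ := hk
  have hinj : Function.Injective C := by
    intro i j hij
    by_contra hne
    have h1 : Disjoint (C i) (C j) := hd hne
    rw [← hij, Finset.disjoint_self_iff_empty] at h1
    exact (hC i).1.nonempty.ne_empty h1
  have hsub : univ.biUnion C ⊆ M := Finset.biUnion_subset.2 fun i _ => (hC i).2
  have hPM : ∀ D ∈ P, D ⊆ M \ univ.biUnion C := fun D hD => by
    rw [← hPu]
    exact Finset.subset_biUnion_of_mem id hD
  have hPC : ∀ D ∈ P, ∀ i, Disjoint D (C i) := fun D hD i =>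
    Finset.disjoint_of_subset_left (hPM D hD)
      (Finset.disjoint_of_subset_right (Finset.subset_biUnion_of_mem C (Finset.mem_univ i))
        Finset.sdiff_disjoint)
  have hPQ : Disjoint P (univ.image C) := by
    rw [Finset.disjoint_left]
    intro D hD hD'
    obtain ⟨i, -, rfl⟩ := Finset.mem_image.1 hD'
    have := hPC _ hD i
    rw [Finset.disjoint_self_iff_empty] at this
    exact (hC i).1.nonempty.ne_empty this
  refine ⟨P ∪ univ.image C, ?_, ?_, ?_, ?_⟩
  · rw [Finset.card_union_of_disjoint hPQ, hP, Finset.card_image_of_injective _ hinj,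
      Finset.card_univ, Fintype.card_fin]
  · intro D hD
    rcases Finset.mem_union.1 hD with hD | hD
    · exact hPc D hD
    · obtain ⟨i, -, rfl⟩ := Finset.mem_image.1 hD
      exact (hC i).1.isCircuit hr
  · intro D hD D' hD' hne
    have h1 : D ∈ P ∪ univ.image C := by exact_mod_cast hD
    have h2 : D' ∈ P ∪ univ.image C := by exact_mod_cast hD'
    rcases Finset.mem_union.1 h1 with k1 | k1 <;> rcases Finset.mem_union.1 h2 with k2 | k2
    · exact hPd (by exact_mod_cast k1) (by exact_mod_cast k2) hne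
    · obtain ⟨j, -, rfl⟩ := Finset.mem_image.1 k2
      exact hPC D k1 j
    · obtain ⟨i, -, rfl⟩ := Finset.mem_image.1 k1
      exact (hPC D' k2 i).symm
    · obtain ⟨i, -, rfl⟩ := Finset.mem_image.1 k1
      obtain ⟨j, -, rfl⟩ := Finset.mem_image.1 k2
      exact hd fun h => hne (by rw [h])
  · rw [Finset.union_biUnion, hPu, Finset.image_biUnion]
    have : univ.biUnion (fun a => id (C a)) = univ.biUnion C := rfl
    rw [this]
    exact Finset.sdiff_union_of_subset hsub

/-- Cycles. -/
theorem exists_cyc {ι V Q : Type} [DecidableEq ι] [AddCommGroup V] [Module (ZMod 2) V]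
    [Finite V] [AddCommGroup Q] [Module (ZMod 2) Q] [Fintype Q] [DecidableEq Q]
    {r : ℕ} (hr : Module.finrank (ZMod 2) V = r) (π : V →ₗ[ZMod 2] Q)
    (hπ : Function.Surjective π) (T : Finset ι) (h2 : 2 ≤ T.card) (g : ι → V)
    (hg : ∑ i ∈ T, g i = 0) (bad : ι → Finset Q) (hbad : ∀ i ∈ T, (bad i).card ≤ 4)
    (hQ : 4 * (3 * (r + 1)) < Fintype.card Q) :
    ∃ (nx : ι → ι) (v : ι → V), (∀ i ∈ T, nx i ∈ T ∧ nx i ≠ i) ∧ Set.InjOn nx T ∧
      ∀ i ∈ T, v (nx i) = v i + g (nx i) ∧ π (v i) ∉ bad (nx i) := by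
  classical
  haveI : Module.Finite (ZMod 2) V := Module.Finite.of_finite
  letI : Fintype V := Fintype.ofFinite V
  -- the fibres of `π` have the same size
  obtain ⟨K, hK⟩ : ∃ K, K = (Finset.univ.filter fun x : V => π x = 0).card := ⟨_, rfl⟩
  have hfib : ∀ y : Q, (Finset.univ.filter fun x : V => π x = y).card = K := by
    intro y
    obtain ⟨x0, hx0⟩ := hπ y
    rw [hK]
    refine Finset.card_bij' (fun x _ => x - x0) (fun x _ => x + x0) ?_ ?_ ?_ ?_
    · intro x hx
      rw [Finset.mem_filter] at hx ⊢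
      exact ⟨Finset.mem_univ _, by rw [map_sub, hx.2, hx0, sub_self]⟩
    · intro x hx
      rw [Finset.mem_filter] at hx ⊢
      exact ⟨Finset.mem_univ _, by rw [map_add, hx.2, hx0, zero_add]⟩
    · intro x _
      exact sub_add_cancel x x0
    · intro x _
      exact add_sub_cancel_right x x0
  have hcardV : Fintype.card V = Fintype.card Q * K := by
    have h1 := Finset.card_eq_sum_card_fiberwise (s := (Finset.univ : Finset V))
      (t := (Finset.univ : Finset Q)) (f := π) (fun x _ => Finset.mem_univ _)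
    rw [Finset.card_univ] at h1
    rw [h1, Finset.sum_congr rfl fun y _ => hfib y, Finset.sum_const, Finset.card_univ,
      smul_eq_mul]
  have hKpos : 0 < K := by
    rw [hK]
    exact Finset.card_pos.2 ⟨0, by simp⟩
  obtain ⟨Bad, hBad⟩ : ∃ Bad : ι → Finset V, Bad = fun i => if i ∈ T then
      Finset.univ.filter (fun x : V => π x ∈ bad i) else ∅ := ⟨_, rfl⟩
  have hb : ∀ i, (Bad i).card ≤ 4 * K := by
    intro i
    rw [hBad]
    simp only
    split_ifs with hi
    · have h1 := Finset.card_eq_sum_card_fiberwise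
        (s := Finset.univ.filter fun x : V => π x ∈ bad i) (t := bad i) (f := π)
        (fun x hx => (Finset.mem_filter.1 hx).2)
      rw [h1]
      calc ∑ y ∈ bad i, ((Finset.univ.filter fun x : V => π x ∈ bad i).filter
            fun x => π x = y).card
          ≤ ∑ y ∈ bad i, K := by
            refine Finset.sum_le_sum fun y _ => ?_
            rw [← hfib y]
            refine Finset.card_le_card fun x hx => ?_
            rw [Finset.mem_filter] at hx ⊢
            exact ⟨Finset.mem_univ _, hx.2⟩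
        _ = (bad i).card * K := by rw [Finset.sum_const, smul_eq_mul]
        _ ≤ 4 * K := Nat.mul_le_mul_right _ (hbad i hi)
    · simp
  have hcard : (2 * Module.finrank (ZMod 2) V + 3) * (4 * K) < Fintype.card V := by
    rw [hcardV, hr]
    have : (2 * r + 3) * 4 < Fintype.card Q := lt_of_le_of_lt (by omega) hQ
    calc (2 * r + 3) * (4 * K) = (2 * r + 3) * 4 * K := by ring
      _ < Fintype.card Q * K := Nat.mul_lt_mul_of_pos_right this hKpos
  obtain ⟨σ, v, a1, a2, a3, a4, a5⟩ := exists_cycles_on g Bad hb hcard T.card T rfl h2 hg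
  have hsymm : ∀ i ∈ T, σ.symm i ∈ T := by
    intro i hi
    by_contra h
    have h1 := a1 _ h
    rw [Equiv.apply_symm_apply] at h1
    exact h (h1 ▸ hi)
  refine ⟨σ.symm, v, fun i hi => ⟨hsymm i hi, fun h => ?_⟩, σ.symm.injective.injOn, ?_⟩
  · have h1 : σ (σ.symm i) = σ i := by rw [h]
    rw [Equiv.apply_symm_apply] at h1
    exact a3 i hi h1.symm
  · intro i hi
    have h1 := a4 _ (hsymm i hi)
    rw [Equiv.apply_symm_apply] at h1
    refine ⟨h1, fun hb' => ?_⟩
    have h2' := a5 _ (hsymm i hi)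
    rw [Equiv.apply_symm_apply, hBad] at h2'
    simp only at h2'
    rw [if_pos (hsymm i hi)] at h2'
    exact h2' (Finset.mem_filter.2 ⟨Finset.mem_univ _, hb'⟩)

end Pool.Agent.EB58
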