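import Mathlib
import Pool.Agent.EB58.Choice

/-!
General greedy choice, even splitting, pairing with distinct colours. (module G)
-/

set_option autoImplicit false

namespace Pool.Agent.EB58

open Finset

/-- Greedy choice with pairwise conflicts and with loads: every key `κ` is used at most `cap`
times. (Choose the elements of `T` one after the other; at most `w * |T| / cap` keys are
saturated, each kills at most `Z` candidates.) -/
theorem greedy_choice {ι X K : Type} [DecidableEq ι] [DecidableEq X] [DecidableEq K] [Nonempty X]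
    (T : Finset ι) (cand : ι → Finset X) (bad : ι → X → ι → X → Prop)
    [∀ i x j y, Decidable (bad i x j y)]
    (hsymm : ∀ i x j y, bad i x j y → bad j y i x)
    (Y : ι → ι → ℕ)
    (hY : ∀ i ∈ T, ∀ j ∈ T, i ≠ j → ∀ b ∈ cand j,
      ((cand i).filter fun x => bad i x j b).card ≤ Y i j)
    (key : ι → X → Finset K) (w Z cap : ℕ)
    (hw : ∀ i ∈ T, ∀ x ∈ cand i, (key i x).card ≤ w)
    (hZ : ∀ i ∈ T, ∀ κ : K, ((cand i).filter fun x => κ ∈ key i x).card ≤ Z)
    (hcap : 0 < cap)
    (hbig : ∀ i ∈ T, ∑ j ∈ T.erase i, Y i j + Z * (w * T.card / cap) < (cand i).card) :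
    ∃ f : ι → X, (∀ i ∈ T, f i ∈ cand i) ∧
      (∀ i ∈ T, ∀ j ∈ T, i ≠ j → ¬ bad i (f i) j (f j)) ∧
      ∀ κ : K, (T.filter fun i => κ ∈ key i (f i)).card ≤ cap := by
  classical
  have main : ∀ S : Finset ι, S ⊆ T → ∃ f : ι → X, (∀ i ∈ S, f i ∈ cand i) ∧
      (∀ i ∈ S, ∀ j ∈ S, i ≠ j → ¬ bad i (f i) j (f j)) ∧
      ∀ κ : K, (S.filter fun i => κ ∈ key i (f i)).card ≤ cap := by
    intro S
    induction S using Finset.induction_on with
    | empty =>
      intro _
      exact ⟨fun _ => Classical.arbitrary X, by simp, by simp, by simp⟩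
    | insert i S hiS ih =>
      intro hST
      have hi : i ∈ T := hST (mem_insert_self i S)
      have hS : S ⊆ T := (subset_insert i S).trans hST
      obtain ⟨f, hf1, hf2, hf3⟩ := ih hS
      set keys : Finset K := S.biUnion fun j => key j (f j) with hkeys
      set sat : Finset K := keys.filter
        fun κ => cap ≤ (S.filter fun j => κ ∈ key j (f j)).card with hsat
      have hsatc : sat.card ≤ w * T.card / cap := by
        rw [Nat.le_div_iff_mul_le hcap]
        calc sat.card * cap = ∑ _κ ∈ sat, cap := by rw [sum_const, smul_eq_mul]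
          _ ≤ ∑ κ ∈ sat, (S.filter fun j => κ ∈ key j (f j)).card :=
              sum_le_sum fun κ hκ => (mem_filter.mp hκ).2
          _ ≤ ∑ κ ∈ keys, (S.filter fun j => κ ∈ key j (f j)).card :=
              sum_le_sum_of_subset (filter_subset _ _)
          _ = ∑ κ ∈ keys, ∑ j ∈ S, if κ ∈ key j (f j) then 1 else 0 := by
              refine sum_congr rfl fun κ _ => ?_
              rw [card_filter]
          _ = ∑ j ∈ S, ∑ κ ∈ keys, if κ ∈ key j (f j) then 1 else 0 := sum_comm
          _ ≤ ∑ j ∈ S, w := by
              refine sum_le_sum fun j hj => ?_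
              rw [← card_filter]
              refine le_trans (card_le_card ?_) (hw j (hS hj) (f j) (hf1 j hj))
              intro κ hκ
              exact (mem_filter.mp hκ).2
          _ = w * S.card := by rw [sum_const, smul_eq_mul, mul_comm]
          _ ≤ w * T.card := Nat.mul_le_mul_left _ (card_le_card hS)
      set b1 : Finset X := S.biUnion fun j => (cand i).filter fun x => bad i x j (f j) with hb1
      set b2 : Finset X := sat.biUnion fun κ => (cand i).filter fun x => κ ∈ key i x with hb2
      have h1 : b1.card ≤ ∑ j ∈ T.erase i, Y i j := by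
        refine card_biUnion_le.trans ?_
        refine le_trans (sum_le_sum fun j hj => ?_)
          (sum_le_sum_of_subset (s := S) (f := fun j => Y i j) ?_)
        · exact hY i hi j (hS hj) (fun h => hiS (h ▸ hj)) (f j) (hf1 j hj)
        · intro j hj
          exact mem_erase.mpr ⟨fun h => hiS (h ▸ hj), hS hj⟩
      have h2 : b2.card ≤ Z * (w * T.card / cap) := by
        refine card_biUnion_le.trans ?_
        calc ∑ κ ∈ sat, ((cand i).filter fun x => κ ∈ key i x).card ≤ ∑ _κ ∈ sat, Z :=
              sum_le_sum fun κ _ => hZ i hi κ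
          _ = Z * sat.card := by rw [sum_const, smul_eq_mul, mul_comm]
          _ ≤ Z * (w * T.card / cap) := Nat.mul_le_mul_left _ hsatc
      have h3 : (b1 ∪ b2).card < (cand i).card :=
        lt_of_le_of_lt ((card_union_le _ _).trans (Nat.add_le_add h1 h2)) (hbig i hi)
      obtain ⟨a, haC, ha⟩ := exists_mem_notMem_of_card_lt_card h3
      rw [mem_union, not_or] at ha
      obtain ⟨ha1, ha2⟩ := ha
      have hne : ∀ j ∈ S, Function.update f i a j = f j := fun j hj =>
        Function.update_of_ne (fun h => hiS (by rw [← h]; exact hj)) _ _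
      have hself : Function.update f i a i = a := Function.update_self _ _ _
      have hnb : ∀ j ∈ S, ¬ bad i a j (f j) := fun j hj hb =>
        ha1 (mem_biUnion.mpr ⟨j, hj, mem_filter.mpr ⟨haC, hb⟩⟩)
      refine ⟨Function.update f i a, ?_, ?_, ?_⟩
      · intro j hj
        rcases mem_insert.mp hj with rfl | hj
        · rw [hself]; exact haC
        · rw [hne j hj]; exact hf1 j hj
      · intro j hj l hl hjl
        rcases mem_insert.mp hj with hji | hj'
        · rcases mem_insert.mp hl with hli | hl'
          · exact absurd (hji.trans hli.symm) hjl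
          · rw [hji, hself, hne l hl']; exact hnb l hl'
        · rcases mem_insert.mp hl with hli | hl'
          · rw [hli, hself, hne j hj']
            exact fun hb => hnb j hj' (hsymm _ _ _ _ hb)
          · rw [hne j hj', hne l hl']; exact hf2 j hj' l hl' hjl
      · intro κ
        have hfil : (S.filter fun j => κ ∈ key j (Function.update f i a j)) =
            S.filter fun j => κ ∈ key j (f j) :=
          filter_congr fun j hj => by rw [hne j hj]
        rw [filter_insert]
        split_ifs with hk
        · rw [hself] at hk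
          rw [card_insert_of_notMem (fun h => hiS (mem_filter.mp h).1), hfil]
          by_contra hlt
          push Not at hlt
          have hge : cap ≤ (S.filter fun j => κ ∈ key j (f j)).card := by omega
          refine ha2 (mem_biUnion.mpr ⟨κ, mem_filter.mpr ⟨?_, hge⟩, mem_filter.mpr ⟨haC, hk⟩⟩)
          obtain ⟨j, hj⟩ := card_pos.mp (hcap.trans_le hge)
          rw [mem_filter] at hj
          exact mem_biUnion.mpr ⟨j, hj.1, hj.2⟩
        · rw [hfil]; exact hf3 κ
  exact main T (Finset.Subset.refl T)

/-- Even splitting of a number over a finite set. -/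
theorem exists_even_split {C : Type} [DecidableEq C] (S : Finset C) (hS : S.Nonempty) (D : ℕ) :
    ∃ d : C → ℕ, ∑ c ∈ S, d c = D ∧ ∀ c ∈ S, D / S.card ≤ d c ∧ d c ≤ D / S.card + 1 := by
  classical
  have hpos : 0 < S.card := card_pos.mpr hS
  obtain ⟨S', hS', hc⟩ := exists_subset_card_eq (Nat.mod_lt D hpos).le
  refine ⟨fun c => D / S.card + if c ∈ S' then 1 else 0, ?_, ?_⟩
  · rw [sum_add_distrib, sum_const, smul_eq_mul, ← card_filter, filter_mem_eq_inter,
      inter_eq_right.mpr hS', hc]
    exact Nat.div_add_mod D S.card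
  · intro c _
    constructor
    · exact Nat.le_add_right _ _
    · refine Nat.add_le_add_left ?_ _
      split_ifs <;> omega

/-- Pairing with distinct colours. (Sort by colour, pair `i` with `i + s`.) -/
theorem exists_pairing {α γ : Type} [DecidableEq α] [DecidableEq γ] (B : Finset α) (col : α → γ)
    (s : ℕ) (hs : B.card = 2 * s) (hcol : ∀ c, (B.filter fun x => col x = c).card ≤ s) :
    ∃ β : Fin s → Fin 2 → α, Function.Injective (fun p : Fin s × Fin 2 => β p.1 p.2) ∧
      (∀ i a, β i a ∈ B) ∧ ∀ i, col (β i 0) ≠ col (β i 1) := by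
  classical
  rcases Nat.eq_zero_or_pos s with rfl | hs0
  · exact ⟨fun i => i.elim0, fun p => p.1.elim0, fun i => i.elim0, fun i => i.elim0⟩
  have hne : B.Nonempty := card_pos.mp (by omega)
  haveI : Nonempty α := ⟨hne.choose⟩
  obtain ⟨f₁, f₂, h1, h2, h3, h4, h5⟩ := pairing col s B hs hcol
  refine ⟨fun i a => if a = 0 then f₁ i else f₂ i, ?_, ?_, ?_⟩
  · rintro ⟨i, a⟩ ⟨j, b⟩ h
    simp only at h
    by_cases ha : a = 0 <;> by_cases hb : b = 0
    · rw [if_pos ha, if_pos hb] at h
      rw [ha, hb, Fin.ext (h3 i i.2 j j.2 h)]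
    · rw [if_pos ha, if_neg hb] at h
      exact absurd h (h5 i i.2 j j.2)
    · rw [if_neg ha, if_pos hb] at h
      exact absurd h.symm (h5 j j.2 i i.2)
    · rw [if_neg ha, if_neg hb] at h
      have e1 : a = 1 := by omega
      have e2 : b = 1 := by omega
      rw [e1, e2, Fin.ext (h4 i i.2 j j.2 h)]
  · intro i a
    rw [h2]
    refine ⟨i, i.2, ?_⟩
    by_cases ha : a = 0
    · left; simp only [if_pos ha]
    · right; simp only [if_neg ha]
  · intro i
    simpa using h1 i i.2

end Pool.Agent.EB58
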