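import Pool.Agent.EB58.Defs
import Pool.Agent.EB58.Greedy
import Pool.Agent.EB58.Cells

/-!
Default pieces with exact, evenly spread numbers. (module D)
-/

set_option autoImplicit false

namespace Pool.Agent.EB58

open Finset

/-- Even choice: `D` elements of the sets `avail c`, `c ≠ 0`, spread evenly. -/
theorem even_choice {F α : Type} [Zero F] [Fintype F] [DecidableEq F] [DecidableEq α] {N : ℕ}
    (hN : ((univ : Finset F).erase 0).card = N) (hN0 : 0 < N) (avail : F → Finset α) (D : ℕ)
    (h : ∀ c, c ≠ 0 → D / N + 1 ≤ (avail c).card) :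
    ∃ Dt : F → Finset α, Dt 0 = ∅ ∧ (∀ c, Dt c ⊆ avail c) ∧
      ∑ c ∈ univ.erase (0 : F), (Dt c).card = D ∧
      ∀ c, c ≠ 0 → D / N ≤ (Dt c).card ∧ (Dt c).card ≤ D / N + 1 := by
  obtain ⟨T, hT, hTc⟩ := exists_subset_card_eq
    (show D % N ≤ ((univ : Finset F).erase 0).card by rw [hN]; exact (Nat.mod_lt _ hN0).le)
  have hch : ∀ c : F, ∃ S : Finset α, S ⊆ avail c ∧ (c = 0 → S = ∅) ∧
      (c ≠ 0 → S.card = D / N + if c ∈ T then 1 else 0) := by
    intro c
    by_cases hc : c = 0
    · exact ⟨∅, empty_subset _, fun _ => rfl, fun h => absurd hc h⟩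
    · obtain ⟨S, hS, hSc⟩ := exists_subset_card_eq
        (show D / N + (if c ∈ T then 1 else 0) ≤ (avail c).card by
          refine le_trans ?_ (h c hc)
          split_ifs <;> omega)
      exact ⟨S, hS, fun h => absurd h hc, fun _ => hSc⟩
  choose Dt h1 h2 h3 using hch
  refine ⟨Dt, h2 0 rfl, h1, ?_, ?_⟩
  · have e1 : ∑ c ∈ univ.erase (0 : F), (Dt c).card =
        ∑ c ∈ univ.erase (0 : F), (D / N + if c ∈ T then 1 else 0) :=
      sum_congr rfl fun c hc => h3 c (mem_erase.1 hc).1
    rw [e1, sum_add_distrib, sum_const, hN, smul_eq_mul, sum_ite_mem,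
      inter_eq_right.2 hT, sum_const, smul_eq_mul, mul_one, hTc]
    exact Nat.div_add_mod D N
  · intro c hc
    rw [h3 c hc]
    split_ifs <;> omega

theorem card_erase_zero {F : Type} [Field F] [Fintype F] [DecidableEq F] {k : ℕ}
    (hF : Fintype.card F = 2 ^ k) : ((univ : Finset F).erase 0).card = 2 ^ k - 1 := by
  rw [card_erase_of_mem (mem_univ _), card_univ, hF]

/-- Default pairs of type `t`: `D` pairs inside `M`, spread evenly over the cosets `c ≠ 0`. -/
theorem exists_defaults {m ρ k X : ℕ} (hρm : ρ < m) (hρm' : ρ ≤ m)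
    {F : Type} [Field F] [Fintype F] [DecidableEq F] [Algebra (ZMod 2) F]
    (hF : Fintype.card F = 2 ^ k) (hk : 1 ≤ k) (M : Finset (E m × F))
    (hX : ∀ c : F, c ≠ 0 → ((univ : Finset (E m)).filter fun x => (x, c) ∉ M).card ≤ X)
    (t : Fin m) (I : Finset (E ρ))
    (hI : ∀ x : E m, phi hρm' x ∈ I → phi hρm' (x + ee t) ∈ I) (D : ℕ)
    (hD : D / (2 ^ k - 1) + 1 + X ≤ I.card * 2 ^ (m - ρ - 1)) :
    ∃ Dt : F → Finset (E m), Dt 0 = ∅ ∧
      (∀ c, ∀ x ∈ Dt c, phi hρm' x ∈ I ∧ x t = 0 ∧ (x, c) ∈ M ∧ (x + ee t, c) ∈ M) ∧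
      ∑ c ∈ univ.erase (0 : F), (Dt c).card = D ∧
      ∀ c, c ≠ 0 → D / (2 ^ k - 1) ≤ (Dt c).card ∧ (Dt c).card ≤ D / (2 ^ k - 1) + 1 := by
  classical
  have hk2 : 0 < 2 ^ k - 1 := by
    have : 2 ^ 1 ≤ 2 ^ k := Nat.pow_le_pow_right (by norm_num) hk
    omega
  obtain ⟨Dt, h1, h2, h3, h4⟩ := even_choice (card_erase_zero hF) hk2
    (fun c => (univ : Finset (E m)).filter fun x =>
      (phi hρm' x ∈ I ∧ x t = 0) ∧ (x, c) ∈ M ∧ (x + ee t, c) ∈ M) D (by
      intro c hc
      have e1 : ((univ : Finset (E m)).filter fun x => phi hρm' x ∈ I ∧ x t = 0).card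
          ≤ ((univ : Finset (E m)).filter fun x =>
            (phi hρm' x ∈ I ∧ x t = 0) ∧ (x, c) ∈ M ∧ (x + ee t, c) ∈ M).card
          + ((univ : Finset (E m)).filter fun x => (x, c) ∉ M).card := by
        have e2 := card_filter_add_card_filter_not
          (s := (univ : Finset (E m)).filter fun x => phi hρm' x ∈ I ∧ x t = 0)
          (p := fun x => (x, c) ∈ M ∧ (x + ee t, c) ∈ M)
        rw [filter_filter] at e2
        rw [← e2]
        refine Nat.add_le_add_left ?_ _
        refine card_le_card_of_injOn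
          (fun x => if (x, c) ∈ M then x + ee t else x) ?_ ?_
        · intro x hx
          simp only [coe_filter, mem_filter, mem_univ, true_and, Set.mem_ofPred_eq] at hx ⊢
          obtain ⟨-, hx2⟩ := hx
          split_ifs with hx3
          · exact fun h5 => hx2 ⟨hx3, h5⟩
          · exact hx3
        · intro x hx y hy hxy
          simp only [coe_filter, mem_filter, mem_univ, true_and, Set.mem_ofPred_eq] at hx hy
          have hx0 : x t = 0 := hx.1.2
          have hy0 : y t = 0 := hy.1.2
          have hee : ∀ z : E m, z t = 0 → (z + ee t) t = 1 := by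
            intro z hz
            rw [Pi.add_apply, hz, ee, Pi.single_eq_same, zero_add]
          simp only at hxy
          split_ifs at hxy with h5 h6 h6
          · exact add_right_cancel hxy
          · exfalso
            have := congrFun hxy t
            rw [hee x hx0, hy0] at this
            exact one_ne_zero this
          · exfalso
            have := congrFun hxy t
            rw [hee y hy0, hx0] at this
            exact zero_ne_one this
          · exact hxy
      rw [card_index hρm hρm' t I hI] at e1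
      have := hX c hc
      omega)
  refine ⟨Dt, h1, ?_, h3, h4⟩
  intro c x hx
  have := h2 c hx
  simp only [mem_filter, mem_univ, true_and] at this
  exact ⟨this.1.1, this.1.2, this.2.1, this.2.2⟩

/-- Default core pieces. -/
theorem exists_core_defaults {m k κ X : ℕ}
    {F : Type} [Field F] [Fintype F] [DecidableEq F] [Algebra (ZMod 2) F]
    (hF : Fintype.card F = 2 ^ k) (hk : 1 ≤ k) (M : Finset (E m × F))
    (hX : ∀ c : F, c ≠ 0 → ((univ : Finset (E m)).filter fun x => (x, c) ∉ M).card ≤ X)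
    (K : Core m κ F) (D : ℕ) (hD : D / (2 ^ k - 1) + 1 + κ * X ≤ K.J.card) :
    ∃ Ds : F → Finset (E m), Ds 0 = ∅ ∧
      (∀ c, ∀ x ∈ Ds c, x ∈ K.J ∧ K.pc x c ⊆ M) ∧
      ∑ c ∈ univ.erase (0 : F), (Ds c).card = D ∧
      ∀ c, c ≠ 0 → D / (2 ^ k - 1) ≤ (Ds c).card ∧ (Ds c).card ≤ D / (2 ^ k - 1) + 1 := by
  classical
  have hk2 : 0 < 2 ^ k - 1 := by
    have : 2 ^ 1 ≤ 2 ^ k := Nat.pow_le_pow_right (by norm_num) hk
    omega
  obtain ⟨Ds, h1, h2, h3, h4⟩ := even_choice (card_erase_zero hF) hk2
    (fun c => K.J.filter fun x => K.pc x c ⊆ M) D (by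
      intro c hc
      have e1 : K.J.card ≤ (K.J.filter fun x => K.pc x c ⊆ M).card + κ * X := by
        rw [← card_filter_add_card_filter_not (s := K.J) (p := fun x => K.pc x c ⊆ M)]
        refine Nat.add_le_add_left ?_ _
        have e2 : (K.J.filter fun x => ¬ K.pc x c ⊆ M) ⊆
            (univ : Finset (Fin κ)).biUnion fun a => K.J.filter fun x =>
              (K.h a x, K.lam a * c) ∉ M := by
          intro x hx
          rw [mem_filter] at hx
          obtain ⟨hx1, hx2⟩ := hx
          obtain ⟨y, hy1, hy2⟩ := not_subset.1 hx2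
          obtain ⟨a, -, rfl⟩ := mem_image.1 hy1
          exact mem_biUnion.2 ⟨a, mem_univ _, mem_filter.2 ⟨hx1, hy2⟩⟩
        refine (card_le_card e2).trans (card_biUnion_le.trans ?_)
        have e3 : ∀ a ∈ (univ : Finset (Fin κ)), (K.J.filter fun x =>
            (K.h a x, K.lam a * c) ∉ M).card ≤ X := by
          intro a _
          refine le_trans ?_ (hX (K.lam a * c) (mul_ne_zero (K.lam_ne a) hc))
          refine card_le_card_of_injOn (K.h a) ?_ ?_
          · intro x hx
            simp only [coe_filter, mem_univ, true_and, Set.mem_ofPred_eq] at hx ⊢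
            exact hx.2
          · intro x hx y hy hxy
            simp only [coe_filter, Set.mem_ofPred_eq] at hx hy
            exact (K.h_inj a a x hx.1 y hy.1 hxy).2
        refine (sum_le_sum e3).trans ?_
        rw [sum_const, card_univ, Fintype.card_fin, smul_eq_mul]
      omega)
  refine ⟨Ds, h1, ?_, h3, h4⟩
  intro c x hx
  exact mem_filter.1 (h2 c hx)

end Pool.Agent.EB58
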