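import Mathlib
import Pool.Agent.H41.Circ.Dec

/-!
Circuit decompositions of nearly complete Eulerian binary matroids: basic definitions.
-/

set_option autoImplicit false

namespace Pool.Agent.EB58

open Finset Pool.Agent.H41.Circ

/-- A full circuit of an `r`-dimensional space (see `Full.isCircuit`). -/
def Full {V : Type} [AddCommGroup V] [Module (ZMod 2) V] (r : ℕ) (C : Finset V) : Prop :=
  C.card = r + 1 ∧ ∑ v ∈ C, v = 0 ∧ Submodule.span (ZMod 2) (C : Set V) = ⊤

/-- `q` pairwise disjoint full circuits inside `M`. -/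
def Pack {V : Type} [AddCommGroup V] [Module (ZMod 2) V] [DecidableEq V] (r : ℕ)
    (M : Finset V) (q : ℕ) : Prop :=
  ∃ C : Fin q → Finset V, (∀ i, Full r (C i) ∧ C i ⊆ M) ∧
    Pairwise fun i j => Disjoint (C i) (C j)

/-- The space `E = F_2^m`. -/
abbrev E (m : ℕ) : Type := Fin m → ZMod 2

/-- unit vector -/
def ee {m : ℕ} (t : Fin m) : E m := Pi.single t 1

/-- the all ones vector -/
def on (m : ℕ) : E m := fun _ => 1

/-- the first `ρ` coordinates -/
def phi {m ρ : ℕ} (h : ρ ≤ m) (x : E m) : E ρ := fun i => x (Fin.castLE h i)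

/-- The core system: index set `J`, the `κ` vectors `h a x` (`x ∈ J`), dilations `lam a`. -/
structure Core (m κ : ℕ) (F : Type) [Field F] where
  J : Finset (E m)
  h : Fin κ → E m → E m
  lam : Fin κ → F
  lam_ne : ∀ a, lam a ≠ 0
  lam_sum : ∑ a, lam a = 0
  h_sum : ∀ x ∈ J, ∑ a, h a x = on m
  h_inj : ∀ a a' : Fin κ, ∀ x ∈ J, ∀ x' ∈ J, h a x = h a' x' → a = a' ∧ x = x'

/-- The core piece with index `x ∈ J` and parameter `c ≠ 0`. -/
def Core.pc {m κ : ℕ} {F : Type} [Field F] [DecidableEq F] (K : Core m κ F) (x : E m) (c : F) :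
    Finset (E m × F) := Finset.univ.image fun a => (K.h a x, K.lam a * c)

/-- The pair of type `t` with index `x` in the coset `c`. -/
def pr {m : ℕ} {F : Type} [DecidableEq F] (t : Fin m) (x : E m) (c : F) : Finset (E m × F) :=
  {(x, c), (x + ee t, c)}

/-- The cosets `f t` (`t : Fin m`) and the directions `lam a * c` span `F`. -/
def Sp {m κ : ℕ} {F : Type} [Field F] [Algebra (ZMod 2) F] (lam : Fin κ → F)
    (f : Fin m → F) (c : F) : Prop :=
  Submodule.span (ZMod 2) (Set.range f ∪ Set.range fun a => lam a * c) = ⊤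

end Pool.Agent.EB58
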