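import Mathlib

/-! # A basis for which a given set is equidistributed (helper94, for helper58) -/

set_option autoImplicit false
set_option linter.unusedSectionVars false

namespace Pool.Agent.EB58

open Finset Module

section step

variable {V : Type*} [AddCommGroup V] [Module (ZMod 2) V] [Fintype V] [DecidableEq V]

lemma zmod2_add_self (v : V) : v + v = 0 := by
  have h : ((1 : ZMod 2) + 1) • v = 0 := by
    rw [show (1 : ZMod 2) + 1 = 0 from rfl, zero_smul]
  rwa [add_smul, one_smul] at h

lemma mem_sup_single (S : Submodule (ZMod 2) V) (w d : V) :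
    d ∈ S ⊔ Submodule.span (ZMod 2) {w} ↔ d ∈ S ∨ d + w ∈ S := by
  rw [Submodule.mem_sup]
  constructor
  · rintro ⟨y, hy, z, hz, rfl⟩
    obtain ⟨a, rfl⟩ := Submodule.mem_span_singleton.mp hz
    rcases (by decide : ∀ a : ZMod 2, a = 0 ∨ a = 1) a with rfl | rfl
    · left
      rwa [zero_smul, add_zero]
    · right
      have : y + (1 : ZMod 2) • w + w = y := by
        rw [one_smul, add_assoc, zmod2_add_self, add_zero]
      rwa [this]
  · rintro (h | h)
    · exact ⟨d, h, 0, Submodule.zero_mem _, add_zero _⟩
    · refine ⟨d + w, h, w, Submodule.mem_span_singleton_self w, ?_⟩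
      rw [add_assoc, zmod2_add_self, add_zero]

open Classical in
/-- the number of ordered pairs of different elements of `U` with difference in `S` -/
noncomputable def pairs (U : Finset V) (S : Submodule (ZMod 2) V) : ℕ :=
  #{p ∈ U.offDiag | p.1 + p.2 ∈ S}

lemma card_sub (S : Submodule (ZMod 2) V) (d : V) [DecidablePred fun w => d + w ∈ S] :
    #{w : V | d + w ∈ S} = 2 ^ finrank (ZMod 2) S := by
  classical
  have h1 : #{w : V | d + w ∈ S} = Fintype.card S := by
    rw [Fintype.card_subtype]
    refine Finset.card_bij (fun w _ => d + w) ?_ ?_ ?_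
    · intro w hw
      simpa using hw
    · intro a _ b _ h
      exact add_left_cancel h
    · intro b hb
      refine ⟨d + b, ?_, ?_⟩
      · simp only [mem_filter, mem_univ, true_and] at hb ⊢
        rwa [← add_assoc, zmod2_add_self, zero_add]
      · rw [← add_assoc, zmod2_add_self, zero_add]
  rw [h1, Module.card_eq_pow_finrank (K := ZMod 2), ZMod.card]

lemma card_V : Fintype.card V = 2 ^ finrank (ZMod 2) V := by
  rw [Module.card_eq_pow_finrank (K := ZMod 2), ZMod.card]

lemma exists_step (U : Finset V) (S : Submodule (ZMod 2) V)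
    (hS : finrank (ZMod 2) S < finrank (ZMod 2) V) :
    ∃ w : V, w ∉ S ∧
      ((2 : ℝ) ^ finrank (ZMod 2) V - 2 ^ finrank (ZMod 2) S) *
          (pairs U (S ⊔ Submodule.span (ZMod 2) {w}) : ℝ) ≤
        ((2 : ℝ) ^ finrank (ZMod 2) V - 2 ^ finrank (ZMod 2) S) * pairs U S +
          ((#U : ℝ) * ((#U : ℝ) - 1) - pairs U S) * 2 ^ finrank (ZMod 2) S := by
  classical
  set r := finrank (ZMod 2) V
  set l := finrank (ZMod 2) S
  set T : Finset V := {w : V | w ∉ S} with hT
  have hST : #{w : V | w ∈ S} = 2 ^ l := by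
    have := card_sub S (0 : V)
    simpa using this
  have hTc : (#T : ℝ) = 2 ^ r - 2 ^ l := by
    have h1 : #{w : V | w ∈ S} + #T = 2 ^ r := by
      rw [hT, Finset.card_filter_add_card_filter_not, card_univ, card_V]
    rw [hST] at h1
    have h2 : ((2 : ℝ) ^ l) + #T = 2 ^ r := by exact_mod_cast h1
    linarith
  have hlt : (2 : ℝ) ^ l < 2 ^ r := pow_lt_pow_right₀ (by norm_num) hS
  have hTne : T.Nonempty := by
    rw [← Finset.card_pos]
    have : (0 : ℝ) < #T := by rw [hTc]; linarith
    exact_mod_cast this
  -- the sum over all `w`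
  have hsum : ∑ w ∈ T, (pairs U (S ⊔ Submodule.span (ZMod 2) {w}) : ℝ) =
      (2 ^ r - 2 ^ l) * pairs U S + ((#U : ℝ) * ((#U : ℝ) - 1) - pairs U S) * 2 ^ l := by
    have h1 : ∀ w ∈ T, (pairs U (S ⊔ Submodule.span (ZMod 2) {w}) : ℝ) =
        ∑ p ∈ U.offDiag, (if p.1 + p.2 ∈ S ∨ p.1 + p.2 + w ∈ S then (1 : ℝ) else 0) := by
      intro w _
      rw [Finset.sum_boole, pairs]
      congr 2
      ext p
      simp only [mem_filter, mem_sup_single]
    rw [Finset.sum_congr rfl h1, Finset.sum_comm]
    have h2 : ∀ p ∈ U.offDiag, ∑ w ∈ T,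
        (if p.1 + p.2 ∈ S ∨ p.1 + p.2 + w ∈ S then (1 : ℝ) else 0) =
        2 ^ l + (if p.1 + p.2 ∈ S then (2 ^ r - 2 ^ l - 2 ^ l : ℝ) else 0) := by
      intro p _
      by_cases hp : p.1 + p.2 ∈ S
      · simp only [hp, true_or, if_true, Finset.sum_const, nsmul_eq_mul, mul_one]
        rw [hTc]; ring
      · simp only [hp, false_or, if_false, add_zero, Finset.sum_boole]
        have h3 : #{w ∈ T | p.1 + p.2 + w ∈ S} = 2 ^ l := by
          rw [← card_sub S (p.1 + p.2)]
          congr 1
          ext w
          simp only [hT, mem_filter, mem_univ, true_and]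
          constructor
          · exact fun h => h.2
          · intro h
            refine ⟨fun hw => hp ?_, h⟩
            have := S.sub_mem h hw
            simpa using this
        rw [h3]; push_cast; ring
    rw [Finset.sum_congr rfl h2, Finset.sum_add_distrib, Finset.sum_const, nsmul_eq_mul,
      ← Finset.sum_filter, Finset.sum_const, nsmul_eq_mul, Finset.offDiag_card]
    have h4 : ((#U * #U - #U : ℕ) : ℝ) = (#U : ℝ) * ((#U : ℝ) - 1) := by
      rw [Nat.cast_sub (Nat.le_mul_self _)]
      push_cast; ring
    rw [h4, pairs]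
    have h5 : ∀ (x y : Finset (V × V)), x = y → ((#x : ℕ) : ℝ) = #y := by
      rintro x _ rfl; rfl
    ring
  have hex : ∃ w ∈ T, (pairs U (S ⊔ Submodule.span (ZMod 2) {w}) : ℝ) * (2 ^ r - 2 ^ l) ≤
      (2 ^ r - 2 ^ l) * pairs U S + ((#U : ℝ) * ((#U : ℝ) - 1) - pairs U S) * 2 ^ l := by
    by_contra hcon
    push Not at hcon
    have h6 := Finset.sum_lt_sum_of_nonempty hTne hcon
    rw [Finset.sum_const, nsmul_eq_mul, ← Finset.sum_mul, hsum, hTc, mul_comm] at h6
    exact lt_irrefl _ h6
  obtain ⟨w, hw, h⟩ := hex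
  refine ⟨w, by simpa [hT] using hw, ?_⟩
  rw [mul_comm]
  exact h

/-- the flag -/
lemma exists_flag (U : Finset V) (m : ℕ) (hm : m ≤ finrank (ZMod 2) V) :
    ∃ w : ℕ → V, (∀ i < m, w i ∉ Submodule.span (ZMod 2) (w '' Set.Iio i)) ∧
      (∀ l ≤ m, finrank (ZMod 2) (Submodule.span (ZMod 2) (w '' Set.Iio l)) = l) ∧
      ∀ l ≤ m, ((2 : ℝ) ^ finrank (ZMod 2) V - 1) *
        pairs U (Submodule.span (ZMod 2) (w '' Set.Iio l)) ≤
          (#U : ℝ) * ((#U : ℝ) - 1) * (2 ^ l - 1) := by
  classical
  induction m with
  | zero =>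
    refine ⟨fun _ => 0, fun i hi => absurd hi (Nat.not_lt_zero i), ?_, ?_⟩
    · intro l hl
      obtain rfl : l = 0 := by omega
      simp
    · intro l hl
      obtain rfl : l = 0 := by omega
      have : pairs U (Submodule.span (ZMod 2) ((fun _ : ℕ => (0 : V)) '' Set.Iio 0)) = 0 := by
        rw [pairs, Finset.card_eq_zero, Finset.filter_eq_empty_iff]
        intro p hp
        have hne := (Finset.mem_offDiag.mp hp).2.2
        have hi : (Set.Iio 0 : Set ℕ) = ∅ := by ext; simp
        rw [hi, Set.image_empty, Submodule.span_empty, Submodule.mem_bot]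
        intro h0
        apply hne
        have : p.1 + p.2 + p.2 = p.2 := by rw [h0, zero_add]
        rwa [add_assoc, zmod2_add_self, add_zero] at this
      rw [this]; simp
  | succ m ih =>
    obtain ⟨w, h1, h2, h3⟩ := ih (by omega)
    set S := Submodule.span (ZMod 2) (w '' Set.Iio m) with hS
    have hSm : finrank (ZMod 2) S = m := h2 m le_rfl
    obtain ⟨x, hx, hb⟩ := exists_step U S (by omega)
    rw [hSm] at hb
    have him : ∀ i ≤ m, (Function.update w m x) '' Set.Iio i = w '' Set.Iio i := by
      intro i hi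
      apply Set.image_congr
      intro j hj
      rw [Function.update_of_ne]
      have : j < i := hj
      omega
    have hlast : Submodule.span (ZMod 2) ((Function.update w m x) '' Set.Iio (m + 1)) =
        S ⊔ Submodule.span (ZMod 2) {x} := by
      have : Set.Iio (m + 1) = insert m (Set.Iio m) := by
        ext j; simp only [Set.mem_Iio, Set.mem_insert_iff]; omega
      rw [this, Set.image_insert_eq, him m le_rfl, Function.update_self,
        Submodule.span_insert, sup_comm]
    refine ⟨Function.update w m x, ?_, ?_, ?_⟩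
    · intro i hi
      rw [him i (by omega)]
      rcases Nat.lt_succ_iff_lt_or_eq.mp hi with h | rfl
      · rw [Function.update_of_ne (by omega)]
        exact h1 i h
      · rw [Function.update_self]
        exact hx
    · intro l hl
      rcases Nat.lt_or_ge l (m + 1) with h | h
      · rw [him l (by omega)]
        exact h2 l (by omega)
      · obtain rfl : l = m + 1 := by omega
        rw [hlast]
        have h4 : x ∉ S := hx
        have h5 : x ≠ 0 := by rintro rfl; exact h4 S.zero_mem
        have h6 := Submodule.finrank_sup_add_finrank_inf_eq S (Submodule.span (ZMod 2) {x})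
        have h7 : S ⊓ Submodule.span (ZMod 2) {x} = ⊥ := by
          rw [Submodule.eq_bot_iff]
          intro y hy
          obtain ⟨hy1, hy2⟩ := Submodule.mem_inf.mp hy
          obtain ⟨a, rfl⟩ := Submodule.mem_span_singleton.mp hy2
          by_contra hne
          have ha : a ≠ 0 := by rintro rfl; exact hne (zero_smul _ _)
          apply h4
          have := S.smul_mem a⁻¹ hy1
          rwa [smul_smul, inv_mul_cancel₀ ha, one_smul] at this
        rw [h7, finrank_bot, add_zero, hSm, finrank_span_singleton h5] at h6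
        exact h6
    · intro l hl
      rcases Nat.lt_or_ge l (m + 1) with h | h
      · rw [him l (by omega)]
        exact h3 l (by omega)
      · obtain rfl : l = m + 1 := by omega
        rw [hlast]
        have h4 := h3 m le_rfl
        rw [← hS] at h4
        have hr : (2 : ℝ) ^ (m + 1) ≤ 2 ^ finrank (ZMod 2) V :=
          pow_le_pow_right₀ (by norm_num) hm
        have hm0 : (1 : ℝ) ≤ 2 ^ m := one_le_pow₀ (by norm_num)
        rw [pow_succ] at hr ⊢
        set R : ℝ := 2 ^ finrank (ZMod 2) V
        set M : ℝ := 2 ^ m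
        set B : ℝ := (pairs U S : ℝ)
        set B' : ℝ := (pairs U (S ⊔ Submodule.span (ZMod 2) {x}) : ℝ)
        set u : ℝ := (#U : ℝ)
        have hRM : 0 < R - M := by linarith
        -- (R - M) B' ≤ (R - M) B + (u (u - 1) - B) M, (R - 1) B ≤ u (u - 1) (M - 1)
        have h5 : (R - M) * ((R - 1) * B') ≤ (R - M) * (u * (u - 1) * (M * 2 - 1)) := by
          have h6 : (R - 1) * ((R - M) * B') ≤ (R - 1) * ((R - M) * B + (u * (u - 1) - B) * M) :=
            mul_le_mul_of_nonneg_left hb (by linarith)
          have h7 : (R - 2 * M) * ((R - 1) * B) ≤ (R - 2 * M) * (u * (u - 1) * (M - 1)) :=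
            mul_le_mul_of_nonneg_left h4 (by linarith)
          linarith [h6, h7]
        exact le_of_mul_le_mul_left h5 hRM

end step

end Pool.Agent.EB58
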