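import Pool.Agent.EB58.Defs
import Pool.Agent.EB58.Equi

/-!
Choice of coordinates such that a given set is equidistributed. (module Q)
-/

set_option autoImplicit false

namespace Pool.Agent.EB58

open Finset

/-- the squares of the fibre cardinalities -/
lemma sum_fibre_sq {V Q : Type} [DecidableEq V] [Fintype Q] [DecidableEq Q] (U : Finset V)
    (π : V → Q) :
    ∑ q : Q, (((U.filter fun z => π z = q).card : ℝ)) ^ 2 =
      ((U ×ˢ U).filter fun z => π z.1 = π z.2).card := by
  have h := Finset.card_eq_sum_card_fiberwise (s := (U ×ˢ U).filter fun z => π z.1 = π z.2)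
    (t := (univ : Finset Q)) (f := fun z => π z.1) (fun _ _ => by simp)
  rw [h]
  push_cast
  refine Finset.sum_congr rfl fun q _ => ?_
  rw [sq]
  rw [← Nat.cast_mul, ← Finset.card_product]
  congr 2
  ext z
  simp only [mem_product, mem_filter]
  constructor
  · rintro ⟨⟨h1, h2⟩, h3, h4⟩
    exact ⟨⟨⟨h1, h3⟩, h2.trans h4.symm⟩, h2⟩
  · rintro ⟨⟨⟨h1, h2⟩, h3⟩, h4⟩
    exact ⟨⟨h1, h4⟩, h2, h3 ▸ h4⟩

/-- Coordinates `V ≃ E m × F` in which `U` is equidistributed over the cosets
`{(x, c) : phi x = p}`, `p : E ρ`, `c : F`, for every `ρ ≤ m` at once. -/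
theorem exists_model {V : Type} [AddCommGroup V] [Module (ZMod 2) V] [Fintype V] [DecidableEq V]
    {r m k : ℕ} (hr : Module.finrank (ZMod 2) V = r) (hrk : r = m + k)
    (F : Type) [Field F] [Fintype F] [DecidableEq F] [Algebra (ZMod 2) F]
    (hF : Fintype.card F = 2 ^ k) (U : Finset V) :
    ∃ e : V ≃ₗ[ZMod 2] (E m × F), ∀ (ρ : ℕ) (hρ : ρ ≤ m),
      ∑ p : E ρ, ∑ c : F,
        (((U.filter fun z => phi hρ (e z).1 = p ∧ (e z).2 = c).card : ℝ)
          - (U.card : ℝ) / 2 ^ (k + ρ)) ^ 2 ≤ (U.card : ℝ) := by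
  classical
  have hFk : Module.finrank (ZMod 2) F = k := by
    have h1 := Module.card_eq_pow_finrank (K := ZMod 2) (V := F)
    rw [hF, ZMod.card] at h1
    exact (Nat.pow_right_injective le_rfl h1).symm
  obtain ⟨w, -, hw2, hw3⟩ := exists_flag U m (by omega)
  set v : Fin m → V := fun t => w (m - 1 - t) with hv
  have hrange : Set.range v = w '' Set.Iio m := by
    ext y
    simp only [Set.mem_range, Set.mem_image, Set.mem_Iio, hv]
    constructor
    · rintro ⟨t, rfl⟩
      exact ⟨m - 1 - t, by omega, rfl⟩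
    · rintro ⟨i, hi, rfl⟩
      exact ⟨⟨m - 1 - i, by omega⟩, congrArg w (by simp only; omega)⟩
  have hli : LinearIndependent (ZMod 2) v := by
    rw [linearIndependent_iff_card_eq_finrank_span, Fintype.card_fin, Set.finrank, hrange,
      hw2 m le_rfl]
  set S := Submodule.span (ZMod 2) (Set.range v) with hS
  have hSf : Module.finrank (ZMod 2) S = m := by
    rw [hS, hrange]; exact hw2 m le_rfl
  obtain ⟨C, hC⟩ := S.exists_isCompl
  have hCf : Module.finrank (ZMod 2) C = Module.finrank (ZMod 2) F := by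
    have := Submodule.finrank_add_eq_of_isCompl hC
    omega
  set e : V ≃ₗ[ZMod 2] (E m × F) := (Submodule.prodEquivOfIsCompl S C hC).symm ≪≫ₗ
    LinearEquiv.prodCongr (Module.Basis.span hli).equivFun (LinearEquiv.ofFinrankEq C F hCf) with he
  have hev : ∀ t, e (v t) = (ee t, 0) := by
    intro t
    have hmem : v t ∈ S := Submodule.subset_span (Set.mem_range_self t)
    have h1 : (Submodule.prodEquivOfIsCompl S C hC).symm (v t) = (⟨v t, hmem⟩, 0) :=
      Submodule.prodEquivOfIsCompl_symm_apply_left S C hC ⟨v t, hmem⟩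
    have h2 : (⟨v t, hmem⟩ : S) = Module.Basis.span hli t := by
      apply Subtype.ext
      rw [Module.Basis.span_apply]
    rw [he, LinearEquiv.trans_apply, h1, LinearEquiv.prodCongr_apply]
    simp only [map_zero]
    rw [h2]
    congr 1
    ext i
    rw [Module.Basis.equivFun_self, ee, Pi.single_apply]
    by_cases h : i = t
    · rw [if_pos h, if_pos h.symm]
    · rw [if_neg h, if_neg (Ne.symm h)]
  refine ⟨e, fun ρ hρ => ?_⟩
  set S' := Submodule.span (ZMod 2) (w '' Set.Iio (m - ρ)) with hS'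
  have hmem : ∀ z : V, phi hρ (e z).1 = 0 → (e z).2 = 0 → z ∈ S' := by
    intro z h1 h2
    have h3 : z = ∑ t, (e z).1 t • v t := by
      apply e.injective
      rw [map_sum]
      simp only [map_smul, hev]
      refine Prod.ext ?_ ?_
      · rw [Prod.fst_sum]
        simp only [Prod.smul_fst]
        ext i
        rw [Finset.sum_apply]
        simp only [Pi.smul_apply, ee, Pi.single_apply, smul_eq_mul, mul_ite, mul_one, mul_zero]
        rw [Finset.sum_ite_eq]
        simp
      · rw [Prod.snd_sum]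
        simp only [Prod.smul_snd, smul_zero, Finset.sum_const_zero]
        exact h2
    rw [h3]
    refine Submodule.sum_mem _ fun t _ => ?_
    by_cases ht : (t : ℕ) < ρ
    · have h4 := congrFun h1 ⟨t, ht⟩
      have h5 : (Fin.castLE hρ ⟨t, ht⟩ : Fin m) = t := by ext; rfl
      simp only [phi, h5, Pi.zero_apply] at h4
      rw [h4, zero_smul]
      exact Submodule.zero_mem _
    · refine Submodule.smul_mem _ _ (Submodule.subset_span ⟨m - 1 - t, ?_, rfl⟩)
      simp only [Set.mem_Iio]
      omega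
  set π : V → E ρ × F := fun z => (phi hρ (e z).1, (e z).2) with hπ
  have hπS : ∀ z z' : V, π z = π z' → z + z' ∈ S' := by
    intro z z' h
    have h1 := congrArg Prod.fst h
    have h2 := congrArg Prod.snd h
    simp only [hπ] at h1 h2
    apply hmem
    · rw [map_add]
      ext i
      have h3 := congrFun h1 i
      simp only [phi, Prod.fst_add, Pi.add_apply, Pi.zero_apply] at h3 ⊢
      rw [h3]
      exact zmod2_add_self _
    · rw [map_add, Prod.snd_add, h2]
      exact zmod2_add_self _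
  -- the pairs in the same coset
  have hB : (((U ×ˢ U).filter fun z => π z.1 = π z.2).card : ℝ) ≤ (U.card : ℝ) + pairs U S' := by
    have h1 : ((U ×ˢ U).filter fun z => π z.1 = π z.2) ⊆
        U.diag ∪ (U.offDiag.filter fun p => p.1 + p.2 ∈ S') := by
      intro z hz
      rw [mem_filter, mem_product] at hz
      rw [mem_union, mem_filter, mem_diag, mem_offDiag]
      by_cases h : z.1 = z.2
      · exact Or.inl ⟨hz.1.1, h⟩
      · exact Or.inr ⟨⟨hz.1.1, hz.1.2, h⟩, hπS _ _ hz.2⟩
    have h2 := (Finset.card_le_card h1).trans (Finset.card_union_le _ _)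
    rw [Finset.diag_card] at h2
    rw [pairs]
    exact_mod_cast h2
  have hpairs := hw3 (m - ρ) (Nat.sub_le _ _)
  rw [hr, ← hS'] at hpairs
  -- the sum over the cosets
  have hsum : ∑ p : E ρ, ∑ c : F,
        (((U.filter fun z => phi hρ (e z).1 = p ∧ (e z).2 = c).card : ℝ)
          - (U.card : ℝ) / 2 ^ (k + ρ)) ^ 2 =
      ∑ q : E ρ × F, (((U.filter fun z => π z = q).card : ℝ)
          - (U.card : ℝ) / 2 ^ (k + ρ)) ^ 2 := by
    rw [Fintype.sum_prod_type]
    refine Finset.sum_congr rfl fun p _ => Finset.sum_congr rfl fun c _ => ?_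
    congr 4
    ext z
    simp only [hπ, mem_filter, Prod.mk.injEq]
  rw [hsum]
  have htot : ∑ q : E ρ × F, ((U.filter fun z => π z = q).card : ℝ) = U.card := by
    have := Finset.card_eq_sum_card_fiberwise (s := U) (t := (univ : Finset (E ρ × F)))
      (f := π) (fun _ _ => by simp)
    rw [this]
    push_cast
    rfl
  have hcardQ : ((univ : Finset (E ρ × F)).card : ℝ) = 2 ^ (k + ρ) := by
    rw [Finset.card_univ, Fintype.card_prod, hF, Fintype.card_fun, ZMod.card, Fintype.card_fin]
    push_cast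
    ring
  have hD : (0 : ℝ) < 2 ^ (k + ρ) := by positivity
  have hexp : ∑ q : E ρ × F, (((U.filter fun z => π z = q).card : ℝ)
          - (U.card : ℝ) / 2 ^ (k + ρ)) ^ 2 =
      (((U ×ˢ U).filter fun z => π z.1 = π z.2).card : ℝ) - (U.card : ℝ) ^ 2 / 2 ^ (k + ρ) := by
    have h1 : ∀ q : E ρ × F, (((U.filter fun z => π z = q).card : ℝ)
          - (U.card : ℝ) / 2 ^ (k + ρ)) ^ 2 = ((U.filter fun z => π z = q).card : ℝ) ^ 2 -
          2 * ((U.card : ℝ) / 2 ^ (k + ρ)) * ((U.filter fun z => π z = q).card : ℝ) +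
          ((U.card : ℝ) / 2 ^ (k + ρ)) ^ 2 := fun q => by ring
    simp only [h1, Finset.sum_add_distrib, Finset.sum_sub_distrib, ← Finset.mul_sum, htot,
      sum_fibre_sq, Finset.sum_const, nsmul_eq_mul, hcardQ]
    field_simp
    ring
  rw [hexp]
  have hk1 : 1 ≤ k := by
    rcases Nat.eq_zero_or_pos k with h0 | h0
    · rw [h0, pow_zero] at hF
      have := Fintype.one_lt_card (α := F)
      omega
    · exact h0
  have hR : (2 : ℝ) ^ r = 2 ^ (m - ρ) * 2 ^ (k + ρ) := by
    rw [← pow_add]; congr 1; omega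
  have hM1 : (1 : ℝ) ≤ 2 ^ (m - ρ) := one_le_pow₀ (by norm_num)
  have hD1 : (1 : ℝ) ≤ 2 ^ (k + ρ) := one_le_pow₀ (by norm_num)
  have hD2 : (2 : ℝ) ≤ 2 ^ (k + ρ) := by
    calc (2 : ℝ) = 2 ^ 1 := by norm_num
      _ ≤ 2 ^ (k + ρ) := pow_le_pow_right₀ (by norm_num) (by omega)
  rw [hR] at hpairs
  set M : ℝ := 2 ^ (m - ρ)
  set D : ℝ := 2 ^ (k + ρ)
  set u : ℝ := (U.card : ℝ)
  set B : ℝ := (pairs U S' : ℝ)
  have hu0 : 0 ≤ u := Nat.cast_nonneg _
  have hMD : 0 < M * D - 1 := by nlinarith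
  have h1 : D * B ≤ u ^ 2 := by
    have h2 : (M * D - 1) * (D * B) ≤ (M * D - 1) * u ^ 2 := by
      have h3 : (M * D - 1) * (D * B) ≤ D * (u * (u - 1) * (M - 1)) := by
        have := mul_le_mul_of_nonneg_left hpairs hD.le
        linarith
      have h4 : D * (u * (u - 1) * (M - 1)) ≤ D * (u ^ 2 * (M - 1)) := by
        have h5 : 0 ≤ D * (M - 1) * u := mul_nonneg (mul_nonneg hD.le (by linarith)) hu0
        nlinarith
      have h6 : D * (u ^ 2 * (M - 1)) ≤ (M * D - 1) * u ^ 2 := by
        have h7 : 0 ≤ u ^ 2 * (D - 1) := mul_nonneg (sq_nonneg u) (by linarith)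
        nlinarith
      linarith
    exact le_of_mul_le_mul_left h2 hMD
  have h8 : B ≤ u ^ 2 / D := by
    rw [le_div_iff₀ hD]
    linarith
  linarith

end Pool.Agent.EB58
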