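import Mathlib

/-!
# EB58/LemN: exact rainbow bases (Lemma N)

`repair`: a colouring of `A` can be changed to the colouring of `B` at good elements. `lemN`: the core
pieces `A` and the pairs `B t` of all types `t` can be matched such that the directions of every group are
a spanning set of the field `F`.
-/

set_option autoImplicit false

namespace Pool.Agent.EB58

open Finset

/-! ### changing a colouring -/

section repair

variable {α β C : Type*} [DecidableEq α] [DecidableEq β] [DecidableEq C]

theorem repair [Nonempty β] (q : α → C) (p : β → C) (G : α → C → Prop)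
    [∀ a c, Decidable (G a c)] : ∀ (n : ℕ) (A : Finset α) (B : Finset β), A.card = n → B.card = n →
    (∀ c', ∀ b ∈ B, (A.filter (fun a => q a = c')).card ≤ (B.filter (fun b => p b = c')).card +
      (A.filter (fun a => q a = c' ∧ G a (p b))).card) →
    ∃ f : α → β, Set.BijOn f A B ∧ ∀ a ∈ A, p (f a) = q a ∨ G a (p (f a)) := by
  intro n
  induction n with
  | zero =>
    intro A B hA hB _
    rw [Finset.card_eq_zero] at hA hB
    subst hA hB
    refine ⟨fun _ => Classical.arbitrary β, ?_, fun a ha => absurd ha (Finset.notMem_empty a)⟩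
    simp
  | succ n ih =>
    intro A B hA hB hc
    -- one step
    have step : ∀ a ∈ A, ∀ b ∈ B, (p b = q a ∨ G a (p b)) →
        (∀ c', ∀ b' ∈ B.erase b, ((A.erase a).filter (fun a => q a = c')).card ≤
          ((B.erase b).filter (fun b => p b = c')).card +
          ((A.erase a).filter (fun a => q a = c' ∧ G a (p b'))).card) →
        ∃ f : α → β, Set.BijOn f A B ∧ ∀ a ∈ A, p (f a) = q a ∨ G a (p (f a)) := by
      intro a ha b hb hab hc'
      obtain ⟨f, hf, hg⟩ := ih (A.erase a) (B.erase b)
        (by rw [Finset.card_erase_of_mem ha, hA]; rfl)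
        (by rw [Finset.card_erase_of_mem hb, hB]; rfl) hc'
      refine ⟨Function.update f a b, ?_, ?_⟩
      · have h1 : Set.BijOn (Function.update f a b) ↑(A.erase a) ↑(B.erase b) := by
          refine hf.congr ?_
          intro x hx
          have hx' : x ≠ a := (Finset.mem_erase.1 hx).1
          rw [Function.update_of_ne hx']
        have h2 := h1.insert (a := a) (by
          rw [Function.update_self]
          exact fun h => (Finset.mem_erase.1 h).1 rfl)
        rw [Function.update_self] at h2
        rw [← Finset.coe_insert, ← Finset.coe_insert, Finset.insert_erase ha,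
          Finset.insert_erase hb] at h2
        exact h2
      · intro x hx
        by_cases e : x = a
        · subst e
          rw [Function.update_self]
          exact hab
        · rw [Function.update_of_ne e]
          exact hg x (Finset.mem_erase.2 ⟨e, hx⟩)
    by_cases hs : ∃ c', (B.filter (fun b => p b = c')).card < (A.filter (fun a => q a = c')).card
    · obtain ⟨c', hs⟩ := hs
      -- a colour with a deficit
      have hd : ∃ c, (A.filter (fun a => q a = c)).card < (B.filter (fun b => p b = c)).card := by
        by_contra hno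
        push Not at hno
        have e1 : A.card = ∑ c ∈ A.image q ∪ B.image p, (A.filter (fun a => q a = c)).card :=
          Finset.card_eq_sum_card_fiberwise fun a ha =>
            Finset.mem_union_left _ (Finset.mem_image_of_mem _ ha)
        have e2 : B.card = ∑ c ∈ A.image q ∪ B.image p, (B.filter (fun b => p b = c)).card :=
          Finset.card_eq_sum_card_fiberwise fun a ha =>
            Finset.mem_union_right _ (Finset.mem_image_of_mem _ ha)
        have hmem : c' ∈ A.image q ∪ B.image p := by
          have : 0 < (A.filter (fun a => q a = c')).card := by omega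
          obtain ⟨a, ha⟩ := Finset.card_pos.1 this
          rw [Finset.mem_filter] at ha
          exact Finset.mem_union_left _ (Finset.mem_image.2 ⟨a, ha.1, ha.2⟩)
        have := Finset.sum_lt_sum (fun c _ => hno c) ⟨c', hmem, hs⟩
        omega
      obtain ⟨c, hd⟩ := hd
      have hcc : c ≠ c' := by
        rintro rfl
        omega
      have : 0 < (B.filter (fun b => p b = c)).card := by omega
      obtain ⟨b, hb⟩ := Finset.card_pos.1 this
      rw [Finset.mem_filter] at hb
      have h1 := hc c' b hb.1
      have : 0 < (A.filter (fun a => q a = c' ∧ G a (p b))).card := by omega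
      obtain ⟨a, ha⟩ := Finset.card_pos.1 this
      rw [Finset.mem_filter] at ha
      refine step a ha.1 b hb.1 (Or.inr ha.2.2) ?_
      intro c1 b1 hb1
      have h2 := hc c1 b1 (Finset.mem_of_mem_erase hb1)
      rw [Finset.filter_erase, Finset.filter_erase, Finset.filter_erase]
      have k1 := Finset.pred_card_le_card_erase (s := A.filter (fun a => q a = c1 ∧ G a (p b1)))
        (a := a)
      by_cases e1 : c1 = c'
      · rw [e1] at h2 k1 ⊢
        rw [Finset.card_erase_of_mem (Finset.mem_filter.2 ⟨ha.1, ha.2.1⟩),
          Finset.erase_eq_of_notMem (a := b) (s := B.filter (fun b => p b = c')) (by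
            rw [Finset.mem_filter]
            rintro ⟨-, h⟩
            exact hcc (hb.2.symm.trans h))]
        omega
      · by_cases e2 : c1 = c
        · rw [e2] at h2 k1 ⊢
          rw [Finset.erase_eq_of_notMem (a := a) (s := A.filter (fun a => q a = c)) (by
            rw [Finset.mem_filter]
            rintro ⟨-, h⟩
            exact hcc (h.symm.trans ha.2.1)),
            Finset.card_erase_of_mem (Finset.mem_filter.2 ⟨hb.1, hb.2⟩)]
          omega
        · rw [Finset.erase_eq_of_notMem (a := a) (s := A.filter (fun a => q a = c1)) (by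
            rw [Finset.mem_filter]
            rintro ⟨-, h⟩
            exact e1 (h.symm.trans ha.2.1)),
            Finset.erase_eq_of_notMem (a := b) (s := B.filter (fun b => p b = c1)) (by
            rw [Finset.mem_filter]
            rintro ⟨-, h⟩
            exact e2 (h.symm.trans hb.2)),
            Finset.erase_eq_of_notMem (a := a) (s := A.filter (fun a => q a = c1 ∧ G a (p b1)))
            (by
              rw [Finset.mem_filter]
              rintro ⟨-, h, -⟩
              exact e1 (h.symm.trans ha.2.1))]
          exact h2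
    · push Not at hs
      have : 0 < A.card := by omega
      obtain ⟨a, ha⟩ := Finset.card_pos.1 this
      have h1 : 0 < (A.filter (fun x => q x = q a)).card :=
        Finset.card_pos.2 ⟨a, Finset.mem_filter.2 ⟨ha, rfl⟩⟩
      have h2 := hs (q a)
      have : 0 < (B.filter (fun b => p b = q a)).card := by omega
      obtain ⟨b, hb⟩ := Finset.card_pos.1 this
      rw [Finset.mem_filter] at hb
      refine step a ha b hb.1 (Or.inl hb.2) ?_
      intro c1 b1 hb1
      rw [Finset.filter_erase, Finset.filter_erase]
      refine le_trans ?_ (Nat.le_add_right _ _)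
      have h3 := hs c1
      by_cases e1 : q a = c1
      · rw [Finset.card_erase_of_mem (Finset.mem_filter.2 ⟨ha, e1⟩),
          Finset.card_erase_of_mem (Finset.mem_filter.2 ⟨hb.1, hb.2.trans e1⟩)]
        omega
      · rw [Finset.erase_eq_of_notMem (a := a) (by
            rw [Finset.mem_filter]
            rintro ⟨-, h⟩
            exact e1 h),
          Finset.erase_eq_of_notMem (a := b) (by
            rw [Finset.mem_filter]
            rintro ⟨-, h⟩
            exact e1 (hb.2.symm.trans h))]
        exact h3

/-- the form for finite types -/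
theorem repair_equiv [Fintype α] [Fintype β] (q : α → C) (p : β → C) (G : α → C → Prop)
    [∀ a c, Decidable (G a c)] (hcard : Fintype.card β = Fintype.card α)
    (hc : ∀ c' b, (univ.filter (fun a => q a = c')).card ≤ (univ.filter (fun b => p b = c')).card +
      (univ.filter (fun a => q a = c' ∧ G a (p b))).card) :
    ∃ e : α ≃ β, ∀ a, p (e a) = q a ∨ G a (p (e a)) := by
  rcases isEmpty_or_nonempty β with hβ | hβ
  · have : IsEmpty α := by
      rw [← Fintype.card_eq_zero_iff, ← hcard]
      exact Fintype.card_eq_zero_iff.2 hβ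
    exact ⟨Equiv.equivOfIsEmpty α β, fun a => isEmptyElim a⟩
  · obtain ⟨f, hf, hg⟩ := repair q p G (Fintype.card α) univ univ rfl hcard
      (fun c' b _ => hc c' b)
    have hb : Function.Bijective f := by
      rw [Finset.coe_univ, Finset.coe_univ] at hf
      exact Set.bijOn_univ.1 hf
    exact ⟨Equiv.ofBijective f hb, fun a => hg a (Finset.mem_univ a)⟩

end repair

/-! ### balanced splitting -/

theorem card_mod {N M : ℕ} (hM : 0 < M) (i : ℕ) (hi : i < M) :
    N / M ≤ (univ.filter (fun v : Fin N => v.val % M = i)).card ∧
      (univ.filter (fun v : Fin N => v.val % M = i)).card ≤ N / M + 1 := by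
  have h1 : (univ.filter (fun v : Fin N => v.val % M = i)).card =
      Nat.count (· ≡ i [MOD M]) N := by
    rw [Nat.count_eq_card_filter_range, Finset.card_filter, Finset.card_filter,
      Fin.sum_univ_eq_sum_range (fun v => if v % M = i then 1 else 0) N]
    apply Finset.sum_congr rfl
    intro v _
    have : (v ≡ i [MOD M]) ↔ v % M = i := by
      unfold Nat.ModEq
      rw [Nat.mod_eq_of_lt hi]
    simp only [this]
  rw [h1, Nat.count_modEq_card N hM i]
  split_ifs <;> omega

/-- a balanced splitting of all colour classes -/
theorem exists_balanced {A C I : Type*} [Fintype A] [DecidableEq C] [Fintype I] [DecidableEq I]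
    [Nonempty I] (c : A → C) : ∃ ι : A → I, ∀ x i,
      (univ.filter (fun a => c a = x)).card / Fintype.card I ≤
        (univ.filter (fun a => c a = x ∧ ι a = i)).card ∧
      (univ.filter (fun a => c a = x ∧ ι a = i)).card ≤
        (univ.filter (fun a => c a = x)).card / Fintype.card I + 1 := by
  classical
  have hM : 0 < Fintype.card I := Fintype.card_pos
  let eI : I ≃ Fin (Fintype.card I) := Fintype.equivFin I
  let e : ∀ x, {a // c a = x} ≃ Fin (Fintype.card {a // c a = x}) := fun x => Fintype.equivFin _
  refine ⟨fun a => eI.symm ⟨(e (c a) ⟨a, rfl⟩).val % Fintype.card I, Nat.mod_lt _ hM⟩, ?_⟩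
  intro x i
  have hN : (univ.filter (fun a => c a = x)).card = Fintype.card {a // c a = x} :=
    (Fintype.card_subtype _).symm
  have h1 : (univ.filter (fun a => c a = x ∧
      eI.symm ⟨(e (c a) ⟨a, rfl⟩).val % Fintype.card I, Nat.mod_lt _ hM⟩ = i)).card =
      (univ.filter (fun v : Fin (Fintype.card {a // c a = x}) =>
        v.val % Fintype.card I = (eI i).val)).card := by
    symm
    apply Finset.card_bij (fun v _ => ((e x).symm v).1)
    · intro v hv
      rw [Finset.mem_filter] at hv ⊢
      have key : ∀ (y : {a // c a = x}), (e (c y.1) ⟨y.1, rfl⟩).val = (e x y).val := by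
        rintro ⟨y, rfl⟩
        rfl
      refine ⟨Finset.mem_univ _, ((e x).symm v).2, ?_⟩
      rw [Equiv.symm_apply_eq]
      apply Fin.ext
      show (e (c ((e x).symm v).1) ⟨((e x).symm v).1, rfl⟩).val % Fintype.card I = _
      rw [key, Equiv.apply_symm_apply]
      exact hv.2
    · intro v _ v' _ h
      exact (e x).symm.injective (Subtype.ext h)
    · intro a ha
      rw [Finset.mem_filter] at ha
      obtain ⟨-, h2, h3⟩ := ha
      subst h2
      refine ⟨e (c a) ⟨a, rfl⟩, ?_, ?_⟩
      · rw [Finset.mem_filter]
        refine ⟨Finset.mem_univ _, ?_⟩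
        rw [← h3, Equiv.apply_symm_apply]
      · rw [Equiv.symm_apply_apply]
  rw [h1, hN]
  exact card_mod hM _ (eI i).2

/-! ### families of bases -/

section fam

variable {F : Type*} [Field F] [Fintype F] [Algebra (ZMod 2) F]

/-- a spanning family with one free place -/
theorem exists_fam {T : Type*} [Fintype T] [DecidableEq T] (D : Finset F)
    (hD : LinearIndependent (ZMod 2) (fun x : D => (x : F)))
    (hk : Fintype.card T + D.card = Module.finrank (ZMod 2) F)
    (μ : F →ₗ[ZMod 2] ZMod 2) (h1 : μ 1 = 1) (t : T) :
    ∃ (b : T → F) (s : F), b t = 1 ∧ (∀ x, b x ≠ 0) ∧ s ≠ 0 ∧ ∀ z, μ z = 1 →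
      Submodule.span (ZMod 2) (Set.range (Function.update b t z) ∪ (fun x => x * s) '' (D : Set F))
        = ⊤ := by
  classical
  have : Module.Finite (ZMod 2) F := inferInstance
  have hT : 0 < Fintype.card T := Fintype.card_pos_iff.2 ⟨t⟩
  -- the core
  let Φ : F →ₗ[ZMod 2] (D → ZMod 2) :=
    LinearMap.pi fun d : D => μ ∘ₗ LinearMap.mulLeft (ZMod 2) (d : F)
  have hΦ : LinearMap.ker Φ ≠ ⊥ := by
    apply LinearMap.ker_ne_bot_of_finrank_lt
    rw [Module.finrank_fintype_fun_eq_card, Fintype.card_coe]
    omega
  obtain ⟨s, hs, hs0⟩ := (Submodule.ne_bot_iff _).1 hΦ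
  have hsμ : ∀ d ∈ D, μ (d * s) = 0 := by
    intro d hd
    have h2 := congrFun (LinearMap.mem_ker.1 hs) ⟨d, hd⟩
    exact h2
  -- the hyperplane
  have hrange : LinearMap.range μ = ⊤ := by
    rw [LinearMap.range_eq_top]
    intro x
    exact ⟨x • 1, by rw [map_smul, h1, smul_eq_mul, mul_one]⟩
  have hker : Module.finrank (ZMod 2) (LinearMap.ker μ) + 1 = Module.finrank (ZMod 2) F := by
    have h2 := μ.finrank_range_add_finrank_ker
    rw [hrange, finrank_top, Module.finrank_self] at h2
    omega
  -- the span of the core
  let U : Submodule (ZMod 2) F := Submodule.span (ZMod 2) ((fun x => x * s) '' (D : Set F))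
  have hUli : LinearIndependent (ZMod 2) (fun x : D => (x : F) * s) := by
    have h2 := hD.map' (LinearMap.mulRight (ZMod 2) s) (by
      rw [LinearMap.ker_eq_bot]
      intro x y h
      exact mul_right_cancel₀ hs0 h)
    exact h2
  have hUrange : Set.range (fun x : D => (x : F) * s) = (fun x => x * s) '' (D : Set F) := by
    ext y
    constructor
    · rintro ⟨⟨x, hx⟩, rfl⟩
      exact ⟨x, hx, rfl⟩
    · rintro ⟨x, hx, rfl⟩
      exact ⟨⟨x, hx⟩, rfl⟩
  have hUdim : Module.finrank (ZMod 2) U = D.card := by
    have h2 := finrank_span_eq_card hUli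
    rw [hUrange, Fintype.card_coe] at h2
    exact h2
  have hUK : U ≤ LinearMap.ker μ := by
    rw [Submodule.span_le]
    rintro _ ⟨d, hd, rfl⟩
    exact LinearMap.mem_ker.2 (hsμ d hd)
  -- the complement
  let U' : Submodule (ZMod 2) (LinearMap.ker μ) := U.comap (LinearMap.ker μ).subtype
  have hU'dim : Module.finrank (ZMod 2) U' = D.card := by
    rw [← hUdim]
    exact (Submodule.comapSubtypeEquivOfLe hUK).finrank_eq
  obtain ⟨W, hW⟩ := Submodule.exists_isCompl U'
  have hWdim : Module.finrank (ZMod 2) W = Fintype.card {x : T // x ≠ t} := by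
    have h2 := Submodule.finrank_add_eq_of_isCompl hW
    have h3 : Fintype.card {x : T // x ≠ t} = Fintype.card T - 1 := by
      rw [Fintype.card_subtype_compl, Fintype.card_subtype_eq]
    omega
  let B : Module.Basis {x : T // x ≠ t} (ZMod 2) W :=
    (Module.finBasisOfFinrankEq (ZMod 2) W hWdim).reindex (Fintype.equivFin _).symm
  refine ⟨fun x => if h : x = t then 1 else ((B ⟨x, h⟩ : W) : LinearMap.ker μ), s, ?_, ?_, hs0, ?_⟩
  · simp
  · intro x
    by_cases h : x = t
    · simp [h]
    · simp only [h, dif_neg, not_false_eq_true]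
      intro e
      have h2 := B.ne_zero ⟨x, h⟩
      apply h2
      apply Subtype.ext
      apply Subtype.ext
      exact e
  · intro z hz
    rw [eq_top_iff]
    set S := Submodule.span (ZMod 2) (Set.range (Function.update (fun x => if h : x = t then (1 : F)
      else ((B ⟨x, h⟩ : W) : LinearMap.ker μ)) t z) ∪ (fun x => x * s) '' (D : Set F)) with hS
    have zS : z ∈ S := by
      apply Submodule.subset_span
      left
      exact ⟨t, by rw [Function.update_self]⟩
    have US : U ≤ S := Submodule.span_mono Set.subset_union_right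
    have WS : ∀ y : W, ((y : LinearMap.ker μ) : F) ∈ S := by
      intro y
      have h2 : y ∈ (⊤ : Submodule (ZMod 2) W) := trivial
      rw [← B.span_eq] at h2
      induction h2 using Submodule.span_induction with
      | mem y hy =>
        obtain ⟨⟨x, hx⟩, rfl⟩ := hy
        apply Submodule.subset_span
        left
        refine ⟨x, ?_⟩
        rw [Function.update_of_ne hx]
        simp [hx]
      | zero => exact Submodule.zero_mem _
      | add x y _ _ hx hy => exact Submodule.add_mem _ hx hy
      | smul a x _ hx => exact Submodule.smul_mem _ a hx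
    have KS : LinearMap.ker μ ≤ S := by
      intro x hx
      have h2 : (⟨x, hx⟩ : LinearMap.ker μ) ∈ U' ⊔ W := by
        rw [hW.sup_eq_top]
        trivial
      obtain ⟨a, ha, b, hb, hab⟩ := Submodule.mem_sup.1 h2
      have h3 : (a : F) + (b : F) = x := congrArg Subtype.val hab
      rw [← h3]
      exact Submodule.add_mem _ (US ha) (WS ⟨b, hb⟩)
    intro x _
    have h2 : μ x = 0 ∨ μ x = 1 := by
      generalize μ x = y
      revert y
      decide
    rcases h2 with h2 | h2
    · exact KS (LinearMap.mem_ker.2 h2)
    · have h3 : x - z ∈ LinearMap.ker μ := by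
        rw [LinearMap.mem_ker, map_sub, h2, hz, sub_self]
      have h4 := Submodule.add_mem _ (KS h3) zS
      rwa [sub_add_cancel] at h4

/-- functionals which are `1` at `1` and detect everything -/
theorem exists_func : ∃ μ : Fin (Module.finrank (ZMod 2) F) → (F →ₗ[ZMod 2] ZMod 2),
    (∀ j, μ j 1 = 1) ∧ ∀ z, z ≠ 0 → ∃ j, μ j z = 1 := by
  classical
  have : Module.Finite (ZMod 2) F := inferInstance
  let B := Module.finBasis (ZMod 2) F
  have h01 : ∀ y : ZMod 2, y ≠ 1 → y = 0 := by decide
  have det : ∀ z : F, z ≠ 0 → ∃ j, B.coord j z = 1 := by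
    intro z hz
    by_contra hno
    push Not at hno
    apply hz
    apply B.ext_elem
    intro j
    rw [map_zero, Finsupp.zero_apply]
    exact h01 _ (hno j)
  obtain ⟨i0, h0⟩ := det 1 one_ne_zero
  refine ⟨fun j => if B.coord j 1 = 1 then B.coord j else B.coord j + B.coord i0, ?_, ?_⟩
  · intro j
    beta_reduce
    split_ifs with h
    · exact h
    · rw [LinearMap.add_apply, h01 _ h, h0, zero_add]
  · intro z hz
    by_cases h1 : B.coord i0 z = 1
    · refine ⟨i0, ?_⟩
      beta_reduce
      rw [if_pos h0]
      exact h1
    · obtain ⟨j, hj⟩ := det z hz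
      refine ⟨j, ?_⟩
      beta_reduce
      split_ifs with h
      · exact hj
      · rw [LinearMap.add_apply, hj, h01 _ h1, add_zero]

end fam

/-! ### exact rainbow bases -/

section lem

variable {F : Type*} [Field F] [Fintype F] [DecidableEq F] [Algebra (ZMod 2) F]

/-- LEMMA N: the core pieces `A` and the pairs `B t` can be matched such that the directions of every
group are a spanning set -/
theorem lemN {T : Type*} [Fintype T] [DecidableEq T] [Nonempty T] {n d : ℕ} (D : Finset F)
    (hD : LinearIndependent (ZMod 2) (fun x : D => (x : F)))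
    (hk : Fintype.card T + D.card = Module.finrank (ZMod 2) F)
    (hn : (Fintype.card T * Module.finrank (ZMod 2) F) *
      (d + Fintype.card T * Module.finrank (ZMod 2) F + 1) ≤ n)
    {A : Type*} [Fintype A] (cA : A → F) (hA0 : ∀ a, cA a ≠ 0)
    (hA : ∀ c, c ≠ 0 → n ≤ (univ.filter (fun a => cA a = c)).card ∧
      (univ.filter (fun a => cA a = c)).card ≤ n + 1)
    {B : T → Type*} [∀ t, Fintype (B t)] (cB : ∀ t, B t → F) (hB0 : ∀ t b, cB t b ≠ 0)
    (hB : ∀ t c, c ≠ 0 → n ≤ (univ.filter (fun b => cB t b = c)).card + d)
    (hc : ∀ t, Fintype.card (B t) = Fintype.card A) :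
    ∃ e : ∀ t, A ≃ B t, ∀ a, Submodule.span (ZMod 2)
      (Set.range (fun t => cB t (e t a)) ∪ (fun x => x * cA a) '' (D : Set F)) = ⊤ := by
  classical
  have : Module.Finite (ZMod 2) F := inferInstance
  have hT : 0 < Fintype.card T := Fintype.card_pos
  have hk0 : 0 < Module.finrank (ZMod 2) F := Module.finrank_pos
  obtain ⟨μ, hμ1, hμ⟩ := exists_func (F := F)
  choose b s hb1 hb0 hs0 hspan using fun (i : T × Fin (Module.finrank (ZMod 2) F)) =>
    exists_fam D hD hk (μ i.2) (hμ1 i.2) i.1
  have : Nonempty (Fin (Module.finrank (ZMod 2) F)) := ⟨⟨0, hk0⟩⟩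
  obtain ⟨ι, hι⟩ := exists_balanced (I := T × Fin (Module.finrank (ZMod 2) F)) cA
  have hM : Fintype.card (T × Fin (Module.finrank (ZMod 2) F)) =
      Fintype.card T * Module.finrank (ZMod 2) F := by
    rw [Fintype.card_prod, Fintype.card_fin]
  rw [hM] at hι
  set M := Fintype.card T * Module.finrank (ZMod 2) F with hMdef
  have hM0 : 0 < M := Nat.mul_pos hT hk0
  -- the scale
  let θ : A → F := fun a => cA a / s (ι a)
  have hθ0 : ∀ a, θ a ≠ 0 := fun a => div_ne_zero (hA0 a) (hs0 _)
  have hθ : ∀ a, cA a = θ a * s (ι a) := fun a => (div_mul_cancel₀ _ (hs0 _)).symm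
  -- one type
  have key : ∀ t, ∃ e : A ≃ B t, ∀ a, cB t (e a) = θ a * b (ι a) t ∨
      ((ι a).1 = t ∧ μ (ι a).2 (cB t (e a) / θ a) = 1) := by
    intro t
    apply repair_equiv (fun a => θ a * b (ι a) t) (cB t)
      (fun a c => (ι a).1 = t ∧ μ (ι a).2 (c / θ a) = 1) (hc t)
    intro c' b1
    by_cases hc' : c' = 0
    · have : univ.filter (fun a => θ a * b (ι a) t = c') = ∅ := by
        rw [Finset.filter_eq_empty_iff]
        intro a _
        rw [hc']
        exact mul_ne_zero (hθ0 a) (hb0 _ _)
      rw [this, Finset.card_empty]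
      exact Nat.zero_le _
    -- the upper bound
    have h1 : (univ.filter (fun a => θ a * b (ι a) t = c')).card ≤ n + 1 + M := by
      have e1 : (univ.filter (fun a => θ a * b (ι a) t = c')).card =
          ∑ i : T × Fin (Module.finrank (ZMod 2) F),
            ((univ.filter (fun a => θ a * b (ι a) t = c')).filter (fun a => ι a = i)).card :=
        Finset.card_eq_sum_card_fiberwise fun a _ => Finset.mem_coe.2 (Finset.mem_univ (ι a))
      have e2 : ∀ i, ((univ.filter (fun a => θ a * b (ι a) t = c')).filter
          (fun a => ι a = i)).card ≤ (n + 1) / M + 1 := by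
        intro i
        have h2 : ((univ.filter (fun a => θ a * b (ι a) t = c')).filter (fun a => ι a = i)) ⊆
            univ.filter (fun a => cA a = c' / b i t * s i ∧ ι a = i) := by
          intro a ha
          rw [Finset.mem_filter, Finset.mem_filter] at ha
          obtain ⟨⟨-, h3⟩, h4⟩ := ha
          rw [Finset.mem_filter]
          refine ⟨Finset.mem_univ _, ?_, h4⟩
          rw [h4] at h3
          rw [hθ, h4, ← h3, mul_div_assoc, div_self (hb0 i t), mul_one]
        have h3 := Finset.card_le_card h2
        have h4 := (hι (c' / b i t * s i) i).2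
        have h5 := (hA (c' / b i t * s i) (mul_ne_zero (div_ne_zero hc' (hb0 _ _)) (hs0 _))).2
        have h6 := Nat.div_le_div_right (c := M) h5
        omega
      rw [e1]
      refine le_trans (Finset.sum_le_sum fun i _ => e2 i) ?_
      rw [Finset.sum_const, Finset.card_univ, hM, smul_eq_mul, Nat.mul_add, mul_one]
      have := Nat.mul_div_le (n + 1) M
      omega
    -- the good pieces
    have hz : cB t b1 / c' ≠ 0 := div_ne_zero (hB0 t b1) hc'
    obtain ⟨j, hj⟩ := hμ _ hz
    have h2 : d + M + 1 ≤ (univ.filter (fun a => θ a * b (ι a) t = c' ∧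
        ((ι a).1 = t ∧ μ (ι a).2 (cB t b1 / θ a) = 1))).card := by
      have h3 : univ.filter (fun a => cA a = c' * s (t, j) ∧ ι a = (t, j)) ⊆
          univ.filter (fun a => θ a * b (ι a) t = c' ∧
            ((ι a).1 = t ∧ μ (ι a).2 (cB t b1 / θ a) = 1)) := by
        intro a ha
        rw [Finset.mem_filter] at ha
        obtain ⟨-, h4, h5⟩ := ha
        have h6 : θ a = c' := by
          show cA a / s (ι a) = c'
          rw [h5, h4, mul_div_assoc, div_self (hs0 _), mul_one]
        rw [Finset.mem_filter]
        refine ⟨Finset.mem_univ _, ?_, ?_, ?_⟩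
        · rw [h6, h5, hb1 (t, j), mul_one]
        · rw [h5]
        · rw [h6, h5]
          exact hj
      refine le_trans ?_ (Finset.card_le_card h3)
      refine le_trans ?_ (hι _ _).1
      rw [Nat.le_div_iff_mul_le hM0]
      refine le_trans ?_ (hA _ (mul_ne_zero hc' (hs0 _))).1
      rw [mul_comm]
      exact hn
    have h3 := hB t c' hc'
    omega
  choose e he using key
  refine ⟨e, fun a => ?_⟩
  -- the span
  have hz : μ (ι a).2 (cB (ι a).1 (e (ι a).1 a) / θ a) = 1 := by
    rcases he (ι a).1 a with h | h
    · rw [h, hb1, mul_one, div_self (hθ0 a)]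
      exact hμ1 _
    · exact h.2
  have hS := hspan (ι a) _ hz
  have hset : Set.range (fun t => cB t (e t a)) ∪ (fun x => x * cA a) '' (D : Set F) =
      (LinearMap.mulLeft (ZMod 2) (θ a)) '' (Set.range (Function.update (b (ι a)) (ι a).1
        (cB (ι a).1 (e (ι a).1 a) / θ a)) ∪ (fun x => x * s (ι a)) '' (D : Set F)) := by
    have hpt : ∀ t, θ a * Function.update (b (ι a)) (ι a).1
        (cB (ι a).1 (e (ι a).1 a) / θ a) t = cB t (e t a) := by
      intro t
      by_cases h : t = (ι a).1
      · subst h
        rw [Function.update_self, mul_comm, div_mul_cancel₀ _ (hθ0 a)]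
      · rw [Function.update_of_ne h]
        rcases he t a with h' | h'
        · exact h'.symm
        · exact absurd h'.1.symm h
    rw [Set.image_union]
    congr 1
    · rw [← Set.range_comp]
      apply congrArg Set.range
      funext t
      exact (hpt t).symm
    · rw [← Set.image_comp]
      apply Set.image_congr
      intro x _
      show x * cA a = θ a * (x * s (ι a))
      rw [hθ a]
      ring
  rw [hset, Submodule.span_image, hS, Submodule.map_top, LinearMap.range_eq_top]
  intro x
  exact ⟨x / θ a, by
    show θ a * (x / θ a) = x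
    rw [mul_comm, div_mul_cancel₀ _ (hθ0 a)]⟩

end lem

end Pool.Agent.EB58
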