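import Pool.Agent.EB58.Defs
import Pool.Agent.EB58.LemN

/-!
Lemma N: exact decomposition into rainbow bases. (module N)
-/

set_option autoImplicit false

namespace Pool.Agent.EB58

open Finset

/-! ### the core directions -/

section

set_option linter.unusedSectionVars false

variable {F : Type} [Field F] [Fintype F] [DecidableEq F] [Algebra (ZMod 2) F]

theorem N_finrank {k : ℕ} (hF : Fintype.card F = 2 ^ k) : Module.finrank (ZMod 2) F = k := by
  have h1 := Module.card_eq_pow_finrank (K := ZMod 2) (V := F)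
  rw [ZMod.card, hF] at h1
  exact (Nat.pow_right_injective (le_refl 2) h1).symm

theorem N_add_self (x : F) : x + x = 0 := by
  have h1 : (1 : ZMod 2) + 1 = 0 := by decide
  have h2 : ((1 : ZMod 2) + 1) • x = 0 := by rw [h1, zero_smul]
  rwa [add_smul, one_smul] at h2

/-- independent core directions -/
theorem N_core {m κ k : ℕ} (hκ : κ = 2 ∨ κ = 3) (hk : k + 1 = m + κ)
    (hF : Fintype.card F = 2 ^ k)
    (lam : Fin κ → F) (hlam : ∀ a, lam a ≠ 0) (hsum : ∑ a, lam a = 0) :
    ∃ D : Finset F, LinearIndependent (ZMod 2) (fun x : D => (x : F)) ∧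
      Fintype.card (Fin m) + D.card = Module.finrank (ZMod 2) F ∧
      ∀ x ∈ D, ∃ a, lam a = x := by
  rw [N_finrank hF, Fintype.card_fin]
  rcases hκ with rfl | rfl
  · refine ⟨{lam 0}, ?_, ?_, ?_⟩
    · have h1 : LinearIndepOn (ZMod 2) id ({lam 0} : Set F) :=
        (LinearIndepOn.singleton (by exact hlam 0))
      have h2 : ((({lam 0} : Finset F) : Set F)) = {lam 0} := Finset.coe_singleton _
      rw [← h2] at h1
      exact h1
    · rw [Finset.card_singleton]
      omega
    · intro x hx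
      exact ⟨0, (Finset.mem_singleton.1 hx).symm⟩
  · have hne : lam 0 ≠ lam 1 := by
      intro e
      rw [Fin.sum_univ_three, e, N_add_self, zero_add] at hsum
      exact hlam 2 hsum
    refine ⟨{lam 0, lam 1}, ?_, ?_, ?_⟩
    · have h1 : LinearIndepOn (ZMod 2) id ({lam 0, lam 1} : Set F) := by
        refine LinearIndepOn.pair_iff (id : F → F) hne |>.2 ?_
        intro s t hst
        have h01 : ∀ y : ZMod 2, y = 0 ∨ y = 1 := by decide
        rcases h01 s with rfl | rfl <;> rcases h01 t with rfl | rfl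
        · exact ⟨rfl, rfl⟩
        · rw [zero_smul, one_smul, zero_add] at hst
          exact absurd hst (hlam 1)
        · rw [zero_smul, one_smul, add_zero] at hst
          exact absurd hst (hlam 0)
        · exfalso
          rw [one_smul, one_smul] at hst
          apply hne
          have h2 := N_add_self (lam 1)
          exact add_right_cancel ((show lam 0 + lam 1 = 0 from hst).trans h2.symm)
      have h2 : ((({lam 0, lam 1} : Finset F) : Set F)) = {lam 0, lam 1} := by
        rw [Finset.coe_insert, Finset.coe_singleton]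
      rw [← h2] at h1
      exact h1
    · rw [Finset.card_pair hne]
      omega
    · intro x hx
      rw [Finset.mem_insert, Finset.mem_singleton] at hx
      rcases hx with rfl | rfl
      · exact ⟨0, rfl⟩
      · exact ⟨1, rfl⟩

theorem N_sp {m κ : ℕ} {lam : Fin κ → F} {D : Finset F} (hD : ∀ x ∈ D, ∃ a, lam a = x)
    {f : Fin m → F} {c : F}
    (h : Submodule.span (ZMod 2) (Set.range f ∪ (fun x => x * c) '' (D : Set F)) = ⊤) :
    Sp lam f c := by
  unfold Sp
  rw [eq_top_iff, ← h]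
  apply Submodule.span_mono
  apply Set.union_subset_union_right
  rintro _ ⟨x, hx, rfl⟩
  obtain ⟨a, rfl⟩ := hD x hx
  exact ⟨a, rfl⟩

end

/-- Lemma N (see note 3134). The circuits are indexed by the core pieces `⟨c, j⟩`, `c ≠ 0`,
`j < Ps c`; `f t ⟨c, j⟩` is the coset of the pair of type `t`. -/
theorem lemmaN {m κ k : ℕ} (hκ : κ = 2 ∨ κ = 3) (hk : k + 1 = m + κ) (hm : 2 ≤ m)
    {F : Type} [Field F] [Fintype F] [DecidableEq F] [Algebra (ZMod 2) F]
    (hF : Fintype.card F = 2 ^ k)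
    (lam : Fin κ → F) (hlam : ∀ a, lam a ≠ 0) (hsum : ∑ a, lam a = 0)
    (P : Fin m → F → ℕ) (Ps : F → ℕ) (n d : ℕ)
    (hP : ∀ t, ∑ c ∈ univ.erase (0 : F), P t c = ∑ c ∈ univ.erase (0 : F), Ps c)
    (hPs : ∀ c, c ≠ 0 → n ≤ Ps c ∧ Ps c ≤ n + 1)
    (hPd : ∀ t c, c ≠ 0 → P t c ≤ n + d ∧ n ≤ P t c + d)
    (hn : m * (m * k) * (d + m * k + 4) ≤ n) :
    ∃ f : Fin m → (Σ _ : F, ℕ) → F,
      (∀ c, c ≠ 0 → ∀ j, j < Ps c →
        (∀ t, f t ⟨c, j⟩ ≠ 0) ∧ Sp lam (fun t => f t ⟨c, j⟩) c) ∧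
      ∀ t c, c ≠ 0 →
        (((univ.erase (0 : F)).sigma fun c' => range (Ps c')).filter
          fun i => f t i = c).card = P t c := by
  classical
  obtain ⟨D, hD, hDk, hDl⟩ := N_core hκ hk hF lam hlam hsum
  have : Nonempty (Fin m) := ⟨⟨0, by omega⟩⟩
  -- the sets of the pieces
  let S : (F → ℕ) → Finset (Σ _ : F, ℕ) := fun Q => (univ.erase (0 : F)).sigma fun c' => range (Q c')
  have hS : ∀ (Q : F → ℕ) (i : Σ _ : F, ℕ), i ∈ S Q ↔ i.1 ≠ 0 ∧ i.2 < Q i.1 := by
    intro Q i
    rw [Finset.mem_sigma, Finset.mem_erase, Finset.mem_range]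
    simp
  have hcS : ∀ Q : F → ℕ, (S Q).card = ∑ c ∈ univ.erase (0 : F), Q c := by
    intro Q
    rw [Finset.card_sigma]
    apply Finset.sum_congr rfl
    intro c _
    rw [Finset.card_range]
  have hcol : ∀ (Q : F → ℕ) (c : F), c ≠ 0 →
      (univ.filter (fun a : S Q => a.1.1 = c)).card = Q c := by
    intro Q c hc
    rw [← Finset.card_range (Q c)]
    symm
    apply Finset.card_bij (fun (j : ℕ) (hj : j ∈ range (Q c)) =>
      (⟨⟨c, j⟩, (hS Q _).2 ⟨hc, Finset.mem_range.1 hj⟩⟩ : S Q))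
    · intro j hj
      rw [Finset.mem_filter]
      exact ⟨Finset.mem_univ _, rfl⟩
    · intro j hj j' hj' e
      have e1 := congrArg Subtype.val e
      have e2 := (Sigma.mk.inj_iff.1 e1).2
      exact eq_of_heq e2
    · rintro ⟨⟨c', j⟩, hj⟩ h
      rw [Finset.mem_filter] at h
      obtain ⟨-, h⟩ := h
      have h : c' = c := h
      subst h
      exact ⟨j, Finset.mem_range.2 ((hS Q _).1 hj).2, rfl⟩
  have hn' : (Fintype.card (Fin m) * Module.finrank (ZMod 2) F) *
      (d + Fintype.card (Fin m) * Module.finrank (ZMod 2) F + 1) ≤ n := by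
    rw [N_finrank hF, Fintype.card_fin]
    refine le_trans ?_ hn
    have h1 : m * k * (d + m * k + 1) ≤ m * k * (d + m * k + 4) :=
      Nat.mul_le_mul_left _ (by omega)
    have h2 : m * (m * k) * (d + m * k + 4) = m * (m * k * (d + m * k + 4)) := mul_assoc _ _ _
    rw [h2]
    exact le_trans h1 (Nat.le_mul_of_pos_left _ (by omega))
  obtain ⟨e, he⟩ := lemN (T := Fin m) (n := n) (d := d) D hD hDk hn'
    (A := S Ps) (fun a => a.1.1) (fun a => ((hS Ps _).1 a.2).1)
    (fun c hc => by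
      rw [hcol Ps c hc]
      exact hPs c hc)
    (B := fun t => S (P t)) (fun t b => b.1.1) (fun t b => ((hS (P t) _).1 b.2).1)
    (fun t c hc => by
      rw [hcol (P t) c hc]
      exact (hPd t c hc).2)
    (fun t => by
      rw [Fintype.card_coe, Fintype.card_coe, hcS, hcS]
      exact hP t)
  refine ⟨fun t i => if h : i ∈ S Ps then (e t ⟨i, h⟩).1.1 else 1, ?_, ?_⟩
  · intro c hc j hj
    have hm' : (⟨c, j⟩ : Σ _ : F, ℕ) ∈ S Ps := (hS Ps _).2 ⟨hc, hj⟩
    refine ⟨fun t => ?_, ?_⟩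
    · beta_reduce
      rw [dif_pos hm']
      exact ((hS (P t) _).1 (e t ⟨_, hm'⟩).2).1
    · have h1 := he ⟨_, hm'⟩
      have h2 : (fun t => if h : (⟨c, j⟩ : Σ _ : F, ℕ) ∈ S Ps then (e t ⟨⟨c, j⟩, h⟩).1.1 else 1) =
          fun t => (e t ⟨⟨c, j⟩, hm'⟩).1.1 := by
        funext t
        rw [dif_pos hm']
      rw [h2]
      exact N_sp hDl h1
  · intro t c hc
    rw [← hcol (P t) c hc]
    symm
    apply Finset.card_bij (fun (b : S (P t)) _ => ((e t).symm b).1)
    · intro b hb
      rw [Finset.mem_filter] at hb ⊢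
      refine ⟨((e t).symm b).2, ?_⟩
      beta_reduce
      rw [dif_pos ((e t).symm b).2]
      show (e t ((e t).symm b)).1.1 = c
      rw [Equiv.apply_symm_apply]
      exact hb.2
    · intro b _ b' _ h
      exact (e t).symm.injective (Subtype.ext h)
    · intro i hi
      rw [Finset.mem_filter] at hi
      obtain ⟨h1, h2⟩ := hi
      beta_reduce at h2
      have h1 : i ∈ S Ps := h1
      rw [dif_pos h1] at h2
      refine ⟨e t ⟨i, h1⟩, ?_, ?_⟩
      · rw [Finset.mem_filter]
        exact ⟨Finset.mem_univ _, h2⟩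
      · rw [Equiv.symm_apply_apply]

/-- One basis (used for regime 2). -/
theorem exists_basis {m κ k : ℕ} (hκ : κ = 2 ∨ κ = 3) (hk : k + 1 = m + κ) (hm : 2 ≤ m)
    {F : Type} [Field F] [Fintype F] [DecidableEq F] [Algebra (ZMod 2) F]
    (hF : Fintype.card F = 2 ^ k)
    (lam : Fin κ → F) (hlam : ∀ a, lam a ≠ 0) (hsum : ∑ a, lam a = 0) :
    ∃ (b : Fin m → F) (bs : F), (∀ t, b t ≠ 0) ∧ bs ≠ 0 ∧
      ∀ θ : F, θ ≠ 0 → Sp lam (fun t => θ * b t) (θ * bs) := by
  classical
  obtain ⟨D, hD, hDk, hDl⟩ := N_core hκ hk hF lam hlam hsum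
  obtain ⟨μ, hμ1, hμ⟩ := exists_func (F := F)
  obtain ⟨j, -⟩ := hμ 1 one_ne_zero
  obtain ⟨b, s, hb1, hb0, hs0, hspan⟩ := exists_fam D hD hDk (μ j) (hμ1 j) (⟨0, by omega⟩ : Fin m)
  refine ⟨b, s, hb0, hs0, fun θ hθ => ?_⟩
  have h1 := hspan 1 (hμ1 j)
  rw [← hb1, Function.update_eq_self] at h1
  apply N_sp hDl
  have hset : Set.range (fun t => θ * b t) ∪ (fun x => x * (θ * s)) '' (D : Set F) =
      (LinearMap.mulLeft (ZMod 2) θ) '' (Set.range b ∪ (fun x => x * s) '' (D : Set F)) := by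
    rw [Set.image_union, ← Set.range_comp, ← Set.image_comp]
    congr 1
    apply Set.image_congr
    intro x _
    show x * (θ * s) = θ * (x * s)
    ring
  rw [hset, Submodule.span_image, h1, Submodule.map_top, LinearMap.range_eq_top]
  intro x
  exact ⟨x / θ, by
    show θ * (x / θ) = x
    rw [mul_comm, div_mul_cancel₀ _ hθ]⟩

end Pool.Agent.EB58
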