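import Pool.Agent.EB58.Defs
import Pool.Agent.EB58.LemmaN

/-!
Normal circuits. (module Z)
-/

set_option autoImplicit false
set_option linter.unusedVariables false

namespace Pool.Agent.EB58

open Finset

lemma z_add_self {V : Type*} [AddCommGroup V] [Module (ZMod 2) V] (v : V) : v + v = 0 := by
  have h : ((1 : ZMod 2) + 1) • v = 0 := by
    rw [show (1 : ZMod 2) + 1 = 0 from rfl, zero_smul]
  rwa [add_smul, one_smul] at h

lemma z_ee_ne {m : ℕ} (t : Fin m) : (ee t : E m) ≠ 0 := by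
  intro h
  have := congrFun h t
  simp [ee] at this

lemma z_sum_ee {m : ℕ} : ∑ t : Fin m, (ee t : E m) = on m := by
  ext i
  rw [Finset.sum_apply]
  simp only [ee, Pi.single_apply, on]
  rw [Finset.sum_ite_eq]
  simp

lemma z_eq_sum {m : ℕ} (y : E m) : y = ∑ t : Fin m, y t • (ee t : E m) := by
  ext i
  rw [Finset.sum_apply]
  simp only [Pi.smul_apply, ee, Pi.single_apply, smul_eq_mul, mul_ite, mul_one, mul_zero]
  rw [Finset.sum_ite_eq]
  simp

lemma z_card_pr {m : ℕ} {F : Type} [DecidableEq F] (t : Fin m) (x : E m) (c : F) :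
    (pr t x c).card = 2 := by
  rw [pr, Finset.card_pair]
  intro h
  have h1 := congrArg Prod.fst h
  exact z_ee_ne t (left_eq_add.mp h1)

lemma z_card_pc {m κ : ℕ} {F : Type} [Field F] [DecidableEq F] (K : Core m κ F) {x : E m}
    (hx : x ∈ K.J) (c : F) : (K.pc x c).card = κ := by
  rw [Core.pc, Finset.card_image_of_injective, Finset.card_univ, Fintype.card_fin]
  intro a a' h
  exact (K.h_inj a a' x hx x hx (congrArg Prod.fst h)).1

lemma z_sum_pr {m : ℕ} {F : Type} [DecidableEq F] [AddCommGroup F] [Module (ZMod 2) F]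
    (t : Fin m) (x : E m) (c : F) : ∑ v ∈ pr t x c, v = (ee t, 0) := by
  rw [pr, Finset.sum_pair]
  · ext i
    · have := congrFun (z_add_self x) i
      simp only [Prod.mk_add_mk, Pi.add_apply, Pi.zero_apply] at this ⊢
      rw [← add_assoc, this, zero_add]
    · exact z_add_self c
  · intro h
    exact z_ee_ne t (left_eq_add.mp (congrArg Prod.fst h))

lemma z_sum_pc {m κ : ℕ} {F : Type} [Field F] [DecidableEq F] (K : Core m κ F) {x : E m}
    (hx : x ∈ K.J) (c : F) : ∑ v ∈ K.pc x c, v = (on m, 0) := by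
  rw [Core.pc, Finset.sum_image]
  · refine Prod.ext ?_ ?_
    · rw [Prod.fst_sum]
      exact K.h_sum x hx
    · rw [Prod.snd_sum]
      simp only
      rw [← Finset.sum_mul, K.lam_sum, zero_mul]
  · intro a _ a' _ h
    exact (K.h_inj a a' x hx x hx (congrArg Prod.fst h)).1

lemma z_pr_fst {m : ℕ} {F : Type} [DecidableEq F] {t : Fin m} {x : E m} {c : F}
    {R : Finset (E m)} (hx : x ∈ R ∧ x + ee t ∈ R) {y : E m × F} (hy : y ∈ pr t x c) :
    y.1 ∈ R := by
  rw [pr, mem_insert, mem_singleton] at hy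
  rcases hy with rfl | rfl
  · exact hx.1
  · exact hx.2

/-- One pair of every type and a core piece form a full circuit. -/
theorem full_normal {m κ k r : ℕ} (hκ : κ = 2 ∨ κ = 3) (hk : k + 1 = m + κ) (hr : r = m + k)
    {F : Type} [Field F] [Fintype F] [DecidableEq F] [Algebra (ZMod 2) F]
    (hF : Fintype.card F = 2 ^ k) (K : Core m κ F) (R : Fin m → Finset (E m))
    (hR : Pairwise fun t t' => Disjoint (R t) (R t'))
    (hRK : ∀ x ∈ K.J, ∀ a t, K.h a x ∉ R t)
    (x : Fin m → E m) (c : Fin m → F) (hx : ∀ t, x t ∈ R t ∧ x t + ee t ∈ R t)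
    (xs : E m) (hxs : xs ∈ K.J) (cs : F) (hcs : cs ≠ 0) (hSp : Sp K.lam c cs) :
    Full r ((univ.biUnion fun t => pr t (x t) (c t)) ∪ K.pc xs cs) := by
  have hdp : ∀ t ∈ (univ : Finset (Fin m)), ∀ t' ∈ (univ : Finset (Fin m)), t ≠ t' →
      Disjoint (pr t (x t) (c t)) (pr t' (x t') (c t')) := by
    intro t _ t' _ htt
    rw [Finset.disjoint_left]
    intro y hy hy'
    exact Finset.disjoint_left.mp (hR htt) (z_pr_fst (hx t) hy) (z_pr_fst (hx t') hy')
  have hdc : Disjoint (univ.biUnion fun t => pr t (x t) (c t)) (K.pc xs cs) := by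
    rw [Finset.disjoint_left]
    intro y hy hy'
    obtain ⟨t, _, ht⟩ := Finset.mem_biUnion.mp hy
    rw [Core.pc, mem_image] at hy'
    obtain ⟨a, _, rfl⟩ := hy'
    exact hRK xs hxs a t (z_pr_fst (hx t) ht)
  refine ⟨?_, ?_, ?_⟩
  · rw [Finset.card_union_of_disjoint hdc, Finset.card_biUnion hdp, z_card_pc K hxs]
    simp only [z_card_pr, Finset.sum_const, Finset.card_univ, Fintype.card_fin, smul_eq_mul]
    omega
  · rw [Finset.sum_union hdc, Finset.sum_biUnion (fun t ht t' ht' h => hdp t ht t' ht' h),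
      z_sum_pc K hxs]
    simp only [z_sum_pr]
    have h1 : ∑ t : Fin m, ((ee t, 0) : E m × F) = (on m, 0) := by
      refine Prod.ext ?_ ?_
      · rw [Prod.fst_sum]; exact z_sum_ee
      · rw [Prod.snd_sum]; simp
    rw [h1]
    exact z_add_self _
  · set S := Submodule.span (ZMod 2)
      (((univ.biUnion fun t => pr t (x t) (c t)) ∪ K.pc xs cs : Finset (E m × F)) : Set (E m × F))
      with hS
    have hp : ∀ t, ∀ y ∈ pr t (x t) (c t), y ∈ S := by
      intro t y hy
      apply Submodule.subset_span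
      rw [Finset.mem_coe, mem_union]
      exact Or.inl (Finset.mem_biUnion.mpr ⟨t, mem_univ _, hy⟩)
    have hc : ∀ y ∈ K.pc xs cs, y ∈ S := by
      intro y hy
      apply Submodule.subset_span
      rw [Finset.mem_coe, mem_union]
      exact Or.inr hy
    have h1 : ∀ t, ((ee t, 0) : E m × F) ∈ S := by
      intro t
      rw [← z_sum_pr t (x t) (c t)]
      exact Submodule.sum_mem _ fun y hy => hp t y hy
    have h2 : ∀ y : E m, ((y, 0) : E m × F) ∈ S := by
      intro y
      have h3 : ((y, 0) : E m × F) = ∑ t, y t • ((ee t, 0) : E m × F) := by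
        refine Prod.ext ?_ ?_
        · rw [Prod.fst_sum]; exact z_eq_sum y
        · rw [Prod.snd_sum]; simp
      rw [h3]
      exact Submodule.sum_mem _ fun t _ => Submodule.smul_mem _ _ (h1 t)
    have h4 : ∀ (y : E m) (z : F), ((y, z) : E m × F) ∈ S → ((0, z) : E m × F) ∈ S := by
      intro y z h
      have := S.sub_mem h (h2 y)
      simpa using this
    have h5 : ∀ z : F, ((0, z) : E m × F) ∈ S := by
      have h6 : Submodule.span (ZMod 2) (Set.range c ∪ Set.range fun a => K.lam a * cs) ≤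
          S.comap (LinearMap.inr (ZMod 2) (E m) F) := by
        rw [Submodule.span_le]
        rintro z (⟨t, rfl⟩ | ⟨a, rfl⟩)
        · exact h4 (x t) (c t) (hp t _ (by rw [pr]; exact mem_insert_self _ _))
        · refine h4 (K.h a xs) (K.lam a * cs) (hc _ ?_)
          rw [Core.pc]
          exact mem_image_of_mem _ (mem_univ a)
      intro z
      have h7 : z ∈ Submodule.span (ZMod 2) (Set.range c ∪ Set.range fun a => K.lam a * cs) := by
        rw [show Submodule.span (ZMod 2) (Set.range c ∪ Set.range fun a => K.lam a * cs) = ⊤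
          from hSp]
        exact Submodule.mem_top
      exact h6 h7
    rw [eq_top_iff]
    rintro ⟨y, z⟩ -
    have := S.add_mem (h2 y) (h5 z)
    simpa using this

lemma z_exists_bij {α β : Type*} [Inhabited β] (s : Finset α) (t : Finset β)
    (h : s.card = t.card) : ∃ g : α → β, (∀ a ∈ s, g a ∈ t) ∧ Set.InjOn g s := by
  classical
  let e := Finset.equivOfCardEq h
  refine ⟨fun a => if ha : a ∈ s then (e ⟨a, ha⟩ : β) else default, ?_, ?_⟩
  · intro a ha
    simp only [ha, dite_true]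
    exact (e ⟨a, ha⟩).2
  · intro a ha b hb hab
    rw [Finset.mem_coe] at ha hb
    simp only [ha, hb, dite_true] at hab
    have := e.injective (Subtype.ext hab)
    exact congrArg Subtype.val this

/-- the normalised index of a pair is determined by an element of the pair -/
lemma z_pr_index {m : ℕ} {F : Type} [DecidableEq F] {t : Fin m} {x x' : E m} {c c' : F}
    (h0 : x t = 0) (h0' : x' t = 0) {y : E m × F} (hy : y ∈ pr t x c) (hy' : y ∈ pr t x' c') :
    x = x' ∧ c = c' := by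
  have key : ∀ (x : E m) (c : F), x t = 0 → y ∈ pr t x c →
      (x = fun i => if i = t then 0 else y.1 i) ∧ c = y.2 := by
    intro x c h0 hy
    rw [pr, mem_insert, mem_singleton] at hy
    rcases hy with rfl | rfl
    · refine ⟨?_, rfl⟩
      ext i
      by_cases h : i = t
      · rw [if_pos h, h, h0]
      · rw [if_neg h]
    · refine ⟨?_, rfl⟩
      ext i
      by_cases h : i = t
      · rw [if_pos h, h, h0]
      · rw [if_neg h]
        simp [ee, h]
  obtain ⟨h1, h2⟩ := key x c h0 hy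
  obtain ⟨h3, h4⟩ := key x' c' h0' hy'
  exact ⟨h1.trans h3.symm, h2.trans h4.symm⟩

/-- The normal phase: the available pieces are used up by disjoint full circuits. -/
theorem normal_phase {m κ k r : ℕ} (hκ : κ = 2 ∨ κ = 3) (hk : k + 1 = m + κ) (hm : 2 ≤ m)
    (hr : r = m + k)
    {F : Type} [Field F] [Fintype F] [DecidableEq F] [Algebra (ZMod 2) F]
    (hF : Fintype.card F = 2 ^ k) (K : Core m κ F) (R : Fin m → Finset (E m))
    (hR : Pairwise fun t t' => Disjoint (R t) (R t'))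
    (hRK : ∀ x ∈ K.J, ∀ a t, K.h a x ∉ R t)
    (av : Fin m → F → Finset (E m))
    (hav : ∀ t c, ∀ x ∈ av t c, x ∈ R t ∧ x + ee t ∈ R t ∧ x t = 0)
    (avs : F → Finset (E m)) (havs : ∀ c, avs c ⊆ K.J)
    (n d N' : ℕ) (hN : ∑ c ∈ univ.erase (0 : F), (avs c).card = N')
    (h1 : ∀ t, ∑ c ∈ univ.erase (0 : F), (av t c).card = N')
    (h2 : ∀ c, c ≠ 0 → n ≤ (avs c).card ∧ (avs c).card ≤ n + 1)
    (h3 : ∀ t c, c ≠ 0 → (av t c).card ≤ n + d ∧ n ≤ (av t c).card + d)
    (hn : m * (m * k) * (d + m * k + 4) ≤ n) :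
    ∃ C : Fin N' → Finset (E m × F), (∀ i, Full r (C i) ∧ ∀ y ∈ C i,
        (∃ t c x, c ≠ 0 ∧ x ∈ av t c ∧ y ∈ pr t x c) ∨
        (∃ c x, c ≠ 0 ∧ x ∈ avs c ∧ y ∈ K.pc x c)) ∧
      Pairwise fun i j => Disjoint (C i) (C j) := by
  classical
  obtain ⟨f, hf1, hf2⟩ := lemmaN hκ hk hm hF K.lam K.lam_ne K.lam_sum
    (fun t c => (av t c).card) (fun c => (avs c).card) n d (fun t => (h1 t).trans hN.symm)
    h2 h3 hn
  set idx : Finset (Σ _ : F, ℕ) :=
    (univ.erase (0 : F)).sigma fun c' => range (avs c').card with hidx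
  have hcard : idx.card = N' := by
    rw [hidx, Finset.card_sigma]
    simp only [Finset.card_range]
    exact hN
  -- the indices of the pieces
  have hX : ∀ t c, ∃ g : (Σ _ : F, ℕ) → E m, c ≠ 0 →
      (∀ i ∈ idx.filter (fun i => f t i = c), g i ∈ av t c) ∧
        Set.InjOn g (idx.filter (fun i => f t i = c)) := by
    intro t c
    by_cases hc : c = 0
    · exact ⟨fun _ => 0, fun h => absurd hc h⟩
    · obtain ⟨g, hg⟩ := z_exists_bij (idx.filter (fun i => f t i = c)) (av t c) (hf2 t c hc)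
      exact ⟨g, fun _ => hg⟩
  choose X hX using hX
  have hY : ∀ c, ∃ g : ℕ → E m, (∀ j ∈ range (avs c).card, g j ∈ avs c) ∧
      Set.InjOn g (range (avs c).card) := fun c =>
    z_exists_bij (range (avs c).card) (avs c) (Finset.card_range _)
  choose Y hY1 hY2 using hY
  have hidx' : ∀ i ∈ idx, i.1 ≠ 0 ∧ i.2 < (avs i.1).card := by
    intro i hi
    rw [hidx, Finset.mem_sigma, Finset.mem_erase, Finset.mem_range] at hi
    exact ⟨hi.1.1, hi.2⟩
  have hfi : ∀ i ∈ idx, (∀ t, f t i ≠ 0) ∧ Sp K.lam (fun t => f t i) i.1 := by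
    intro i hi
    obtain ⟨a, b⟩ := i
    exact hf1 a (hidx' _ hi).1 b (hidx' _ hi).2
  have hXi : ∀ i ∈ idx, ∀ t, X t (f t i) i ∈ av t (f t i) := fun i hi t =>
    (hX t (f t i) ((hfi i hi).1 t)).1 i (mem_filter.mpr ⟨hi, rfl⟩)
  have hYi : ∀ i ∈ idx, Y i.1 i.2 ∈ avs i.1 := fun i hi =>
    hY1 i.1 i.2 (mem_range.mpr (hidx' i hi).2)
  set G : (Σ _ : F, ℕ) → Finset (E m × F) := fun i =>
    (univ.biUnion fun t => pr t (X t (f t i) i) (f t i)) ∪ K.pc (Y i.1 i.2) i.1 with hG
  have hGmem : ∀ i y, y ∈ G i → (∃ t, y ∈ pr t (X t (f t i) i) (f t i)) ∨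
      ∃ a, y = (K.h a (Y i.1 i.2), K.lam a * i.1) := by
    intro i y hy
    rw [hG, mem_union, mem_biUnion] at hy
    rcases hy with ⟨t, _, ht⟩ | h
    · exact Or.inl ⟨t, ht⟩
    · rw [Core.pc, mem_image] at h
      obtain ⟨a, _, ha⟩ := h
      exact Or.inr ⟨a, ha.symm⟩
  have hGd : ∀ i ∈ idx, ∀ i' ∈ idx, i ≠ i' → Disjoint (G i) (G i') := by
    intro i hi i' hi' hii
    rw [Finset.disjoint_left]
    intro y hy hy'
    have hRt : ∀ i ∈ idx, ∀ t, y ∈ pr t (X t (f t i) i) (f t i) → y.1 ∈ R t := by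
      intro i hi t ht
      have h4 := hav t (f t i) _ (hXi i hi t)
      exact z_pr_fst ⟨h4.1, h4.2.1⟩ ht
    rcases hGmem i y hy with ⟨t, ht⟩ | ⟨a, ha⟩
    · rcases hGmem i' y hy' with ⟨t', ht'⟩ | ⟨a', ha'⟩
      · have htt : t = t' := by
          by_contra hne
          exact Finset.disjoint_left.mp (hR hne) (hRt i hi t ht) (hRt i' hi' t' ht')
        subst htt
        have h4 := hav t (f t i) _ (hXi i hi t)
        have h5 := hav t (f t i') _ (hXi i' hi' t)
        obtain ⟨h6, h7⟩ := z_pr_index h4.2.2 h5.2.2 ht ht'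
        have h8 : X t (f t i') i = X t (f t i') i' := by
          rw [← h6, h7]
        exact hii ((hX t (f t i') ((hfi i' hi').1 t)).2
          (Finset.mem_coe.mpr (mem_filter.mpr ⟨hi, h7⟩))
          (Finset.mem_coe.mpr (mem_filter.mpr ⟨hi', rfl⟩)) h8)
      · refine hRK (Y i'.1 i'.2) (havs _ (hYi i' hi')) a' t ?_
        have h4 := hRt i hi t ht
        rw [ha'] at h4
        exact h4
    · rcases hGmem i' y hy' with ⟨t', ht'⟩ | ⟨a', ha'⟩
      · refine hRK (Y i.1 i.2) (havs _ (hYi i hi)) a t' ?_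
        have h4 := hRt i' hi' t' ht'
        rw [ha] at h4
        exact h4
      · rw [ha] at ha'
        obtain ⟨h4, h5⟩ := K.h_inj a a' _ (havs _ (hYi i hi)) _ (havs _ (hYi i' hi'))
          (congrArg Prod.fst ha')
        subst h4
        have h6 : i.1 = i'.1 := mul_left_cancel₀ (K.lam_ne a) (congrArg Prod.snd ha')
        obtain ⟨c, j⟩ := i
        obtain ⟨c', j'⟩ := i'
        simp only at h6
        subst h6
        have h7 := hY2 c (Finset.mem_coe.mpr (mem_range.mpr (hidx' _ hi).2))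
          (Finset.mem_coe.mpr (mem_range.mpr (hidx' _ hi').2)) h5
        simp only at h7
        exact hii (by rw [h7])
  let eq := (idx.equivFinOfCardEq hcard).symm
  refine ⟨fun i => G (eq i), ?_, ?_⟩
  · intro i
    have hi := (eq i).2
    refine ⟨?_, ?_⟩
    · exact full_normal hκ hk hr hF K R hR hRK _ _
        (fun t => ⟨(hav t _ _ (hXi _ hi t)).1, (hav t _ _ (hXi _ hi t)).2.1⟩) _
        (havs _ (hYi _ hi)) _ (hidx' _ hi).1 (hfi _ hi).2
    · intro y hy
      rcases hGmem _ y hy with ⟨t, ht⟩ | ⟨a, ha⟩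
      · exact Or.inl ⟨t, f t (eq i), X t (f t (eq i)) (eq i), (hfi _ hi).1 t, hXi _ hi t, ht⟩
      · refine Or.inr ⟨(eq i : Σ _ : F, ℕ).1, Y _ _, (hidx' _ hi).1, hYi _ hi, ?_⟩
        rw [ha, Core.pc]
        exact mem_image_of_mem _ (mem_univ a)
  · intro i j hij
    exact hGd _ (eq i).2 _ (eq j).2 (fun h => hij (eq.injective (Subtype.ext h)))

end Pool.Agent.EB58
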