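import Pool.Agent.EB58.Defs
import Pool.Agent.EB58.Cells
import Pool.Agent.EB58.LemmaN
import Pool.Agent.EB58.Normal

/-!
Regime 2: near perfect packing when the complement is not too small. (module R)
-/

set_option autoImplicit false
set_option linter.unusedVariables false

namespace Pool.Agent.EB58

open Finset

theorem w_exists_inj {α : Type*} (s : Finset α) {N : ℕ} (h : N ≤ s.card) :
    ∃ g : Fin N → α, Function.Injective g ∧ ∀ i, g i ∈ s := by
  refine ⟨fun i => (s.equivFin.symm (Fin.castLE h i) : α), fun i j hij => ?_,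
    fun i => (s.equivFin.symm (Fin.castLE h i)).2⟩
  have := s.equivFin.symm.injective (Subtype.ext hij)
  exact Fin.castLE_injective h this

theorem w_pack_of_fintype {V : Type} [AddCommGroup V] [Module (ZMod 2) V] [DecidableEq V]
    {r : ℕ} {M : Finset V} {ι : Type*} [Fintype ι] (C : ι → Finset V)
    (h : ∀ i, Full r (C i) ∧ C i ⊆ M) (hd : Pairwise fun i j => Disjoint (C i) (C j)) :
    Pack r M (Fintype.card ι) := by
  refine ⟨fun i => C ((Fintype.equivFin ι).symm i), fun i => h _, fun i j hij => hd ?_⟩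
  exact fun he => hij ((Fintype.equivFin ι).symm.injective he)

/-- Disjoint sets and an equidistributed function. -/
theorem w_sum_le {X ι : Type*} [Fintype X] [DecidableEq X] (f : X → ℝ) (μ u : ℝ) (hμ : 0 ≤ μ)
    (hf : ∑ x, (f x - μ) ^ 2 ≤ u) (Θ : Finset ι) (S : ι → Finset X)
    (hS : ∀ i ∈ Θ, ∀ j ∈ Θ, i ≠ j → Disjoint (S i) (S j)) (s : ℕ)
    (hs : ∀ i ∈ Θ, (S i).card ≤ s) :
    ∑ i ∈ Θ, ∑ x ∈ S i, f x ≤ Θ.card * (s * μ) + Real.sqrt (Fintype.card X * u) := by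
  classical
  have h1 : ∀ i ∈ Θ, ∑ x ∈ S i, f x ≤ s * μ + ∑ x ∈ S i, |f x - μ| := by
    intro i hi
    have h : ∑ x ∈ S i, f x = ∑ x ∈ S i, (μ + (f x - μ)) := by
      refine sum_congr rfl fun x _ => by ring
    rw [h, sum_add_distrib, sum_const, nsmul_eq_mul]
    refine add_le_add ?_ (sum_le_sum fun x _ => le_abs_self _)
    exact mul_le_mul_of_nonneg_right (by exact_mod_cast hs i hi) hμ
  have h2 : ∑ i ∈ Θ, ∑ x ∈ S i, |f x - μ| ≤ ∑ x, |f x - μ| := by
    rw [← sum_biUnion (fun i hi j hj hij => hS i hi j hj hij)]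
    exact sum_le_sum_of_subset_of_nonneg (subset_univ _) fun _ _ _ => abs_nonneg _
  have h3 : ∑ x, |f x - μ| ≤ Real.sqrt (Fintype.card X * u) := by
    refine Real.le_sqrt_of_sq_le ?_
    refine (sq_sum_le_card_mul_sum_sq).trans ?_
    simp only [sq_abs, card_univ]
    exact mul_le_mul_of_nonneg_left hf (Nat.cast_nonneg _)
  calc ∑ i ∈ Θ, ∑ x ∈ S i, f x ≤ ∑ i ∈ Θ, (s * μ + ∑ x ∈ S i, |f x - μ|) := sum_le_sum h1
    _ = Θ.card * (s * μ) + ∑ i ∈ Θ, ∑ x ∈ S i, |f x - μ| := by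
        rw [sum_add_distrib, sum_const, nsmul_eq_mul]
    _ ≤ _ := by linarith

/-- Packing by classes: for every `θ ≠ 0`, `N θ` full circuits with the cosets `θ * b t`,
`θ * bs`. -/
theorem w_class_pack {m κ k r : ℕ} (hκ : κ = 2 ∨ κ = 3) (hk : k + 1 = m + κ) (hr : r = m + k)
    {F : Type} [Field F] [Fintype F] [DecidableEq F] [Algebra (ZMod 2) F]
    (hF : Fintype.card F = 2 ^ k) (K : Core m κ F) (R : Fin m → Finset (E m))
    (hR : Pairwise fun t t' => Disjoint (R t) (R t'))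
    (hRK : ∀ x ∈ K.J, ∀ a t, K.h a x ∉ R t)
    (M : Finset (E m × F)) (b : Fin m → F) (bs : F) (hb : ∀ t, b t ≠ 0) (hbs : bs ≠ 0)
    (hSp : ∀ θ : F, θ ≠ 0 → Sp K.lam (fun t => θ * b t) (θ * bs))
    (av : Fin m → F → Finset (E m))
    (hav : ∀ t θ, ∀ x ∈ av t θ, (x ∈ R t ∧ x + ee t ∈ R t ∧ x t = 0) ∧
      pr t x (θ * b t) ⊆ M)
    (avs : F → Finset (E m)) (havs : ∀ θ, ∀ x ∈ avs θ, x ∈ K.J ∧ K.pc x (θ * bs) ⊆ M)
    (N : F → ℕ) (h1 : ∀ t θ, θ ≠ 0 → N θ ≤ (av t θ).card)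
    (h2 : ∀ θ, θ ≠ 0 → N θ ≤ (avs θ).card) :
    Pack r M (∑ θ ∈ univ.erase (0 : F), N θ) := by
  classical
  have hX : ∀ t, ∀ θ : {θ : F // θ ≠ 0}, ∃ g : Fin (N θ) → E m,
      Function.Injective g ∧ ∀ i, g i ∈ av t θ := fun t θ => w_exists_inj _ (h1 t θ θ.2)
  choose X hX1 hX2 using hX
  have hY : ∀ θ : {θ : F // θ ≠ 0}, ∃ g : Fin (N θ) → E m,
      Function.Injective g ∧ ∀ i, g i ∈ avs θ := fun θ => w_exists_inj _ (h2 θ θ.2)
  choose Y hY1 hY2 using hY
  obtain ⟨G, hG⟩ : ∃ G : (Σ θ : {θ : F // θ ≠ 0}, Fin (N θ)) → Finset (E m × F),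
      G = fun i => (univ.biUnion fun t => pr t (X t i.1 i.2) ((i.1 : F) * b t)) ∪
        K.pc (Y i.1 i.2) ((i.1 : F) * bs) := ⟨_, rfl⟩
  have hmem : ∀ (i : Σ θ : {θ : F // θ ≠ 0}, Fin (N θ)) (y : E m × F), y ∈ G i → (∃ t, y ∈ pr t (X t i.1 i.2) ((i.1 : F) * b t)) ∨
      ∃ a, y = (K.h a (Y i.1 i.2), K.lam a * ((i.1 : F) * bs)) := by
    intro i y hy
    rw [hG, mem_union, mem_biUnion] at hy
    rcases hy with ⟨t, _, ht⟩ | h
    · exact Or.inl ⟨t, ht⟩
    · rw [Core.pc, mem_image] at h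
      obtain ⟨a, _, ha⟩ := h
      exact Or.inr ⟨a, ha.symm⟩
  have hRt : ∀ (i : Σ θ : {θ : F // θ ≠ 0}, Fin (N θ)) (t : Fin m) (y : E m × F), y ∈ pr t (X t i.1 i.2) ((i.1 : F) * b t) → y.1 ∈ R t := by
    intro i t y ht
    have h4 := (hav t _ _ (hX2 t i.1 i.2)).1
    exact z_pr_fst ⟨h4.1, h4.2.1⟩ ht
  have hcard : Fintype.card (Σ θ : {θ : F // θ ≠ 0}, Fin (N θ)) =
      ∑ θ ∈ univ.erase (0 : F), N θ := by
    rw [Fintype.card_sigma]
    simp only [Fintype.card_fin]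
    rw [← Finset.sum_subtype (univ.erase (0 : F)) (fun x => by simp) (fun θ => N θ)]
  rw [← hcard]
  refine w_pack_of_fintype G (fun i => ⟨?_, ?_⟩) ?_
  · rw [hG]
    refine full_normal hκ hk hr hF K R hR hRK _ _ (fun t => ?_) _ ?_ _ ?_ ?_
    · have h4 := (hav t _ _ (hX2 t i.1 i.2)).1
      exact ⟨h4.1, h4.2.1⟩
    · exact (havs _ _ (hY2 i.1 i.2)).1
    · exact mul_ne_zero i.1.2 hbs
    · exact hSp _ i.1.2
  · rw [hG]
    refine union_subset (biUnion_subset.2 fun t _ => ?_) ?_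
    · exact (hav t _ _ (hX2 t i.1 i.2)).2
    · exact (havs _ _ (hY2 i.1 i.2)).2
  · intro i i' hii
    rw [Finset.disjoint_left]
    intro y hy hy'
    rcases hmem i y hy with ⟨t, ht⟩ | ⟨a, ha⟩
    · rcases hmem i' y hy' with ⟨t', ht'⟩ | ⟨a', ha'⟩
      · have htt : t = t' := by
          by_contra hne
          exact Finset.disjoint_left.mp (hR hne) (hRt i t y ht) (hRt i' t' y ht')
        subst htt
        have h4 := (hav t _ _ (hX2 t i.1 i.2)).1
        have h5 := (hav t _ _ (hX2 t i'.1 i'.2)).1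
        obtain ⟨h6, h7⟩ := z_pr_index h4.2.2 h5.2.2 ht ht'
        have h8 : (i.1 : F) = i'.1 := mul_right_cancel₀ (hb t) h7
        obtain ⟨θ, j⟩ := i
        obtain ⟨θ', j'⟩ := i'
        have h9 : θ = θ' := Subtype.ext h8
        subst h9
        have h10 : j = j' := hX1 t θ h6
        exact hii (by rw [h10])
      · refine hRK (Y i'.1 i'.2) (havs _ _ (hY2 i'.1 i'.2)).1 a' t ?_
        have h4 := hRt i t y ht
        rw [ha'] at h4
        exact h4
    · rcases hmem i' y hy' with ⟨t', ht'⟩ | ⟨a', ha'⟩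
      · refine hRK (Y i.1 i.2) (havs _ _ (hY2 i.1 i.2)).1 a t' ?_
        have h4 := hRt i' t' y ht'
        rw [ha] at h4
        exact h4
      · rw [ha] at ha'
        have h4 := congrArg Prod.fst ha'
        have h5 := congrArg Prod.snd ha'
        simp only at h4 h5
        obtain ⟨h6, h7⟩ := K.h_inj a a' _ (havs _ _ (hY2 i.1 i.2)).1 _
          (havs _ _ (hY2 i'.1 i'.2)).1 h4
        subst h6
        have h8 : (i.1 : F) = i'.1 :=
          mul_right_cancel₀ hbs (mul_left_cancel₀ (K.lam_ne a) h5)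
        obtain ⟨θ, j⟩ := i
        obtain ⟨θ', j'⟩ := i'
        have h9 : θ = θ' := Subtype.ext h8
        subst h9
        have h10 : j = j' := hY1 θ h7
        exact hii (by rw [h10])

/-- Intact pairs. -/
theorem w_intact_pairs {m : ℕ} {F : Type} [Fintype F] [DecidableEq F]
    (M : Finset (E m × F)) (t : Fin m) (c : F) (P : Finset (E m)) (hP : ∀ x ∈ P, x t = 0)
    (Z : Finset (E m × F)) (hZ : ∀ x ∈ P, ∀ y ∈ pr t x c, y ∉ M → y ∈ Z) :
    P.card ≤ (P.filter fun x => pr t x c ⊆ M).card + Z.card := by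
  classical
  have h1 : (P.filter fun x => ¬ pr t x c ⊆ M).card ≤ Z.card := by
    have hch : ∀ x : E m, ∃ y : E m × F, ¬ pr t x c ⊆ M → y ∈ pr t x c ∧ y ∉ M := by
      intro x
      by_cases h : pr t x c ⊆ M
      · exact ⟨(x, c), fun h' => absurd h h'⟩
      · obtain ⟨y, hy1, hy2⟩ := Finset.not_subset.1 h
        exact ⟨y, fun _ => ⟨hy1, hy2⟩⟩
    choose g hg using hch
    refine Finset.card_le_card_of_injOn g (fun x hx => ?_) fun x hx x' hx' h => ?_
    · obtain ⟨h3, h4⟩ := mem_filter.1 (Finset.mem_coe.1 hx)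
      exact Finset.mem_coe.2 (hZ x h3 _ (hg x h4).1 (hg x h4).2)
    · obtain ⟨h3, h4⟩ := mem_filter.1 (Finset.mem_coe.1 hx)
      obtain ⟨h5, h6⟩ := mem_filter.1 (Finset.mem_coe.1 hx')
      exact (z_pr_index (hP x h3) (hP x' h5) (hg x h4).1 (h ▸ (hg x' h6).1)).1
  have h2 := Finset.card_filter_add_card_filter_not (s := P) (fun x => pr t x c ⊆ M)
  omega

/-- Intact core pieces. -/
theorem w_intact_core {m κ : ℕ} {F : Type} [Field F] [Fintype F] [DecidableEq F]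
    (K : Core m κ F) (M : Finset (E m × F)) (c : F)
    (Z : Finset (E m × F)) (hZ : ∀ x ∈ K.J, ∀ y ∈ K.pc x c, y ∉ M → y ∈ Z) :
    K.J.card ≤ (K.J.filter fun x => K.pc x c ⊆ M).card + Z.card := by
  classical
  have h1 : (K.J.filter fun x => ¬ K.pc x c ⊆ M).card ≤ Z.card := by
    have hch : ∀ x : E m, ∃ y : E m × F, ¬ K.pc x c ⊆ M → y ∈ K.pc x c ∧ y ∉ M := by
      intro x
      by_cases h : K.pc x c ⊆ M
      · exact ⟨(x, c), fun h' => absurd h h'⟩
      · obtain ⟨y, hy1, hy2⟩ := Finset.not_subset.1 h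
        exact ⟨y, fun _ => ⟨hy1, hy2⟩⟩
    choose g hg using hch
    refine Finset.card_le_card_of_injOn g (fun x hx => ?_) fun x hx x' hx' h => ?_
    · obtain ⟨h3, h4⟩ := mem_filter.1 (Finset.mem_coe.1 hx)
      exact Finset.mem_coe.2 (hZ x h3 _ (hg x h4).1 (hg x h4).2)
    · obtain ⟨h3, h4⟩ := mem_filter.1 (Finset.mem_coe.1 hx)
      obtain ⟨h5, h6⟩ := mem_filter.1 (Finset.mem_coe.1 hx')
      have h7 := (hg x h4).1
      have h8 := (hg x' h6).1
      rw [← h] at h8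
      rw [Core.pc, mem_image] at h7 h8
      obtain ⟨a, _, ha⟩ := h7
      obtain ⟨a', _, ha'⟩ := h8
      rw [← ha] at ha'
      exact (K.h_inj a a' x h3 x' h5 (congrArg Prod.fst ha').symm).2
  have h2 := Finset.card_filter_add_card_filter_not (s := K.J) (fun x => K.pc x c ⊆ M)
  omega

/-- Elementary arithmetic of the packing. -/
theorem w_arith {A B C s g u κ Q Y W : ℝ} (hA : 1 ≤ A) (hB : 0 < B) (hC : 0 < C) (hs : 0 ≤ s)
    (hg : 0 ≤ g) (hu : 0 ≤ u) (hκ : 0 ≤ κ) (hκ3 : κ ≤ 3) (h1 : s * g ≤ B) (h2 : B ≤ s * (g + 1))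
    (hQ : (A - 1) * (g * C) - Y ≤ Q)
    (hY : Y ≤ (A - 1) * (κ * g * (u / (A * B))) + W) :
    A * B * C ≤ s * Q + (B * C + 2 * s * (A * C) + 3 * u + s * W) := by
  have h3 : s * ((A - 1) * (g * C) - Y) ≤ s * Q := mul_le_mul_of_nonneg_left hQ hs
  have h4 : s * Y ≤ s * ((A - 1) * (κ * g * (u / (A * B))) + W) :=
    mul_le_mul_of_nonneg_left hY hs
  have h5 : s * ((A - 1) * (κ * g * (u / (A * B)))) ≤ 3 * u := by
    have e : s * ((A - 1) * (κ * g * (u / (A * B)))) = κ * ((s * g) * ((A - 1) * (u / (A * B)))) := by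
      ring
    rw [e]
    have h6 : (s * g) * ((A - 1) * (u / (A * B))) ≤ B * (A * (u / (A * B))) := by
      have hnn : 0 ≤ u / (A * B) := div_nonneg hu (by positivity)
      refine mul_le_mul h1 (mul_le_mul_of_nonneg_right (by linarith) hnn)
        (mul_nonneg (by linarith) hnn) hB.le
    have h7 : B * (A * (u / (A * B))) = u := by
      field_simp
    rw [h7] at h6
    calc κ * ((s * g) * ((A - 1) * (u / (A * B)))) ≤ κ * u := mul_le_mul_of_nonneg_left h6 hκ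
      _ ≤ 3 * u := mul_le_mul_of_nonneg_right hκ3 hu
  have h8 : (A - 1) * C * (B - s) ≤ (A - 1) * C * (s * g) :=
    mul_le_mul_of_nonneg_left (by linarith) (mul_nonneg (by linarith) hC.le)
  have h9 : 0 ≤ s * (A * C) := by positivity
  have h10 : 0 ≤ s * C := by positivity
  nlinarith [h3, h4, h5, h8, h9, h10]

/-- Near perfect packing. Use `exists_system` with `g t = 2 * γ`, `gs = γ`, `γ = 2^ρ / (2m+κ)`,
`Z = ∅`, one basis `b, bs` (`exists_basis`); for `θ ≠ 0` the class `θ` uses pairs of type `t` in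
the coset `θ * b t` and core pieces of parameter `θ * bs`; the number of intact pieces of a type
is at least `γ * 2^(m-ρ)` minus the number of missing elements in its region
(cells `I t` in the coset `θ * b t`, resp. `Sc (θ * bs)`), take the minimum over the types;
every (cell, coset) belongs to one (type, θ) only, so the deviations add up to at most
`∑ |U_(p,c) - mean| ≤ sqrt (2^(k+ρ) u)`. -/
theorem near_packing {m κ k r ρ : ℕ} (hκ : κ = 2 ∨ κ = 3) (hk : k + 1 = m + κ) (hr : r = m + k)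
    (hρ5 : 5 ≤ ρ) (hρ : ρ ≤ m) (hρm : 8 * ρ + 9 ≤ 3 * m)
    {F : Type} [Field F] [Fintype F] [DecidableEq F] [Algebra (ZMod 2) F]
    (hF : Fintype.card F = 2 ^ k) (M : Finset (E m × F)) (u : ℕ) (hu : (univ \ M).card = u)
    (heq : ∑ p : E ρ, ∑ c : F,
        ((((univ \ M).filter fun z => phi hρ z.1 = p ∧ z.2 = c).card : ℝ)
          - (u : ℝ) / 2 ^ (k + ρ)) ^ 2 ≤ (u : ℝ)) :
    ∃ q, Pack r M q ∧ (2 : ℝ) ^ r ≤ ((r : ℝ) + 1) * q +
      (2 ^ m + 2 * ((r : ℝ) + 1) * 2 ^ (r - ρ) + 3 * (u : ℝ) +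
        ((r : ℝ) + 1) * Real.sqrt (2 ^ (k + ρ) * (u : ℝ))) := by
  classical
  have hκ' : 2 ≤ κ ∧ κ ≤ 3 := by omega
  have hρm1 : ρ < m := by omega
  obtain ⟨γ, hγ⟩ : ∃ γ, γ = 2 ^ ρ / (2 * m + κ) := ⟨_, rfl⟩
  have hγ1 : (2 * m + κ) * γ ≤ 2 ^ ρ := by rw [hγ]; exact Nat.mul_div_le _ _
  have hγ2 : 2 ^ ρ < (2 * m + κ) * (γ + 1) := by
    rw [hγ]; exact Nat.lt_mul_div_succ _ (by omega)
  have h32 : 32 ≤ 2 ^ ρ := by
    calc 32 = 2 ^ 5 := by norm_num
      _ ≤ 2 ^ ρ := Nat.pow_le_pow_right (by norm_num) hρ5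
  have hcρ : ((univ : Finset (Fin m)).filter (fun t : Fin m => (t : ℕ) < ρ)).card ≤ ρ := by
    have : ((univ : Finset (Fin m)).filter (fun t : Fin m => (t : ℕ) < ρ)).card
        ≤ (Finset.range ρ).card := by
      refine Finset.card_le_card_of_injOn (fun t => (t : ℕ)) (fun t ht => ?_)
        (fun t _ t' _ h => Fin.ext h)
      have := (mem_filter.1 (Finset.mem_coe.1 ht)).2
      exact Finset.mem_coe.2 (Finset.mem_range.2 this)
    rwa [Finset.card_range] at this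
  have hsys1 : 2 * (∑ t ∈ (univ : Finset (Fin m)).filter (fun t : Fin m => (t : ℕ) < ρ), 2 * γ
      + κ * γ + (∅ : Finset (E ρ)).card + 3) < 2 ^ ρ := by
    rw [sum_const, smul_eq_mul, Finset.card_empty]
    have h3 : ((univ : Finset (Fin m)).filter (fun t : Fin m => (t : ℕ) < ρ)).card * (2 * γ)
        ≤ ρ * (2 * γ) := Nat.mul_le_mul_right _ hcρ
    have h4 : (16 * ρ + 8 * κ) * γ ≤ (3 * (2 * m + κ)) * γ := Nat.mul_le_mul_right _ (by omega)
    nlinarith [h3, h4, hγ1, h32]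
  have hsys2 : ∑ _t : Fin m, 2 * γ + κ * γ ≤ 2 ^ ρ := by
    rw [sum_const, smul_eq_mul, Finset.card_univ, Fintype.card_fin]
    calc m * (2 * γ) + κ * γ = (2 * m + κ) * γ := by ring
      _ ≤ _ := hγ1
  obtain ⟨I, Is, K, Sc, hI, hIs, hIc, hId, -, hJ, hSc, hSc1, hSc2, hSc3⟩ :=
    exists_system (m := m) (ρ := ρ) (k := k) (κ := κ) hκ (by omega) (by omega) hρ (by omega) hF
      (⟨ρ, hρm1⟩ : Fin m) le_rfl (fun _ => 2 * γ) (fun t _ => even_two_mul γ) γ ∅ (by simp)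
      hsys1 hsys2
  obtain ⟨b, bs, hb, hbs, hSp⟩ := exists_basis hκ hk (by omega) hF K.lam K.lam_ne K.lam_sum
  obtain ⟨R, hRdef⟩ : ∃ R : Fin m → Finset (E m),
      R = fun t => (univ : Finset (E m)).filter fun x => phi hρ x ∈ I t := ⟨_, rfl⟩
  have hRmem : ∀ t x, x ∈ R t ↔ phi hρ x ∈ I t := by
    intro t x
    rw [hRdef]
    simp
  have hR : Pairwise fun t t' => Disjoint (R t) (R t') := by
    intro t t' htt
    rw [Finset.disjoint_left]
    intro x hx hx'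
    exact Finset.disjoint_left.1 (hI htt) ((hRmem t x).1 hx) ((hRmem t' x).1 hx')
  have hRK : ∀ x ∈ K.J, ∀ a t, K.h a x ∉ R t := by
    intro x hx a t h
    have h3 := hSc3 1 one_ne_zero x hx a
    have h4 := (hSc1 1 one_ne_zero _ h3).1
    exact Finset.disjoint_left.1 (hIs t) ((hRmem t _).1 h) h4
  have hRadd : ∀ t x, x ∈ R t → x + ee t ∈ R t := by
    intro t x hx
    exact (hRmem t _).2 (hId t x ((hRmem t x).1 hx))
  obtain ⟨P, hP⟩ : ∃ P : Fin m → Finset (E m),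
      P = fun t => (univ : Finset (E m)).filter fun x => phi hρ x ∈ I t ∧ x t = 0 := ⟨_, rfl⟩
  have hPmem : ∀ t x, x ∈ P t ↔ (x ∈ R t ∧ x t = 0) := by
    intro t x
    rw [hP, hRmem]
    simp
  obtain ⟨n0, hn0⟩ : ∃ n0, n0 = γ * 2 ^ (m - ρ) := ⟨_, rfl⟩
  have hPc : ∀ t, (P t).card = n0 := by
    intro t
    rw [hP]
    have h3 := card_index hρm1 hρ t (I t) (hId t)
    rw [hIc t] at h3
    simp only
    rw [h3, hn0]
    have h4 : m - ρ = (m - ρ - 1) + 1 := by omega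
    conv_rhs => rw [h4, pow_succ]
    ring
  -- regions
  obtain ⟨Reg, hReg⟩ : ∃ Reg : Option (Fin m) → F → Finset (E ρ × F),
      (∀ θ, Reg none θ = Sc (θ * bs)) ∧ ∀ t θ, Reg (some t) θ = I t ×ˢ {θ * b t} :=
    ⟨fun τ θ => match τ with
      | none => Sc (θ * bs)
      | some t => I t ×ˢ {θ * b t}, fun _ => rfl, fun _ _ => rfl⟩
  obtain ⟨hReg0, hReg1⟩ := hReg
  have hRegd : ∀ τ τ' θ θ', θ ≠ 0 → θ' ≠ 0 → θ ≠ θ' → Disjoint (Reg τ θ) (Reg τ' θ') := by
    intro τ τ' θ θ' h0 h0' hθ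
    rcases τ with _ | t
    · rcases τ' with _ | t'
      · rw [hReg0, hReg0]
        exact hSc2 _ _ (mul_ne_zero h0 hbs) (mul_ne_zero h0' hbs)
          (fun h => hθ (mul_right_cancel₀ hbs h))
      · rw [hReg0, hReg1, Finset.disjoint_left]
        intro q hq hq'
        have h3 := (hSc1 _ (mul_ne_zero h0 hbs) q hq).1
        exact Finset.disjoint_left.1 (hIs t') (Finset.mem_product.1 hq').1 h3
    · rcases τ' with _ | t'
      · rw [hReg0, hReg1, Finset.disjoint_left]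
        intro q hq hq'
        have h3 := (hSc1 _ (mul_ne_zero h0' hbs) q hq').1
        exact Finset.disjoint_left.1 (hIs t) (Finset.mem_product.1 hq).1 h3
      · rw [hReg1, hReg1, Finset.disjoint_left]
        intro q hq hq'
        obtain ⟨h3, h4⟩ := Finset.mem_product.1 hq
        obtain ⟨h5, h6⟩ := Finset.mem_product.1 hq'
        have htt : t = t' := by
          by_contra hne
          exact Finset.disjoint_left.1 (hI hne) h3 h5
        subst htt
        rw [Finset.mem_singleton] at h4 h6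
        exact hθ (mul_right_cancel₀ (hb t) (h4.symm.trans h6))
  have hRegc : ∀ τ θ, θ ≠ 0 → (Reg τ θ).card ≤ κ * γ := by
    intro τ θ h0
    rcases τ with _ | t
    · rw [hReg0, hSc _ (mul_ne_zero h0 hbs)]
    · rw [hReg1, Finset.card_product, Finset.card_singleton, mul_one, hIc]
      exact Nat.mul_le_mul_right _ hκ'.1
  -- missing elements
  obtain ⟨Z, hZ⟩ : ∃ Z : Option (Fin m) → F → Finset (E m × F),
      Z = fun τ θ => (univ \ M).filter fun z => (phi hρ z.1, z.2) ∈ Reg τ θ := ⟨_, rfl⟩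
  have hZmem : ∀ τ θ z, z ∈ Z τ θ ↔ z ∉ M ∧ (phi hρ z.1, z.2) ∈ Reg τ θ := by
    intro τ θ z
    rw [hZ]
    simp
  obtain ⟨f, hf⟩ : ∃ f : E ρ × F → ℝ, f = fun q =>
      (((univ \ M).filter fun z => phi hρ z.1 = q.1 ∧ z.2 = q.2).card : ℝ) := ⟨_, rfl⟩
  have hZc : ∀ τ θ, ((Z τ θ).card : ℝ) = ∑ q ∈ Reg τ θ, f q := by
    intro τ θ
    have h3 := Finset.card_eq_sum_card_fiberwise (s := Z τ θ) (t := Reg τ θ)
      (f := fun z : E m × F => (phi hρ z.1, z.2)) (fun z hz => ((hZmem τ θ z).1 hz).2)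
    rw [h3, Nat.cast_sum, hf]
    refine Finset.sum_congr rfl fun q hq => ?_
    congr 2
    ext z
    rw [mem_filter, hZmem, mem_filter, mem_sdiff, Prod.ext_iff]
    constructor
    · rintro ⟨⟨h4, _⟩, h5, h6⟩
      exact ⟨⟨mem_univ _, h4⟩, h5, h6⟩
    · rintro ⟨⟨_, h4⟩, h5, h6⟩
      refine ⟨⟨h4, ?_⟩, h5, h6⟩
      have h7 : ((phi hρ z.1, z.2) : E ρ × F) = q := Prod.ext h5 h6
      rw [h7]
      exact hq
  have hmax : ∀ θ, ∃ τ, ∀ τ', (Z τ' θ).card ≤ (Z τ θ).card := by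
    intro θ
    obtain ⟨τ, -, hτ⟩ := Finset.exists_max_image (univ : Finset (Option (Fin m)))
      (fun τ => (Z τ θ).card) ⟨none, mem_univ _⟩
    exact ⟨τ, fun τ' => hτ τ' (mem_univ _)⟩
  choose τ hτ using hmax
  have hpack := w_class_pack hκ hk hr hF K R hR hRK M b bs hb hbs hSp
    (fun t θ => (P t).filter fun x => pr t x (θ * b t) ⊆ M)
    (fun t θ x hx => by
      obtain ⟨h3, h4⟩ := mem_filter.1 hx
      obtain ⟨h5, h6⟩ := (hPmem t x).1 h3
      exact ⟨⟨h5, hRadd t x h5, h6⟩, h4⟩)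
    (fun θ => K.J.filter fun x => K.pc x (θ * bs) ⊆ M)
    (fun θ x hx => mem_filter.1 hx)
    (fun θ => n0 - (Z (τ θ) θ).card)
    (fun t θ h0 => by
      have h3 := w_intact_pairs M t (θ * b t) (P t) (fun x hx => ((hPmem t x).1 hx).2)
        (Z (some t) θ) (fun x hx y hy hyM => by
          obtain ⟨h5, h6⟩ := (hPmem t x).1 hx
          refine (hZmem _ _ _).2 ⟨hyM, ?_⟩
          rw [hReg1, Finset.mem_product]
          refine ⟨(hRmem t _).1 (z_pr_fst ⟨h5, hRadd t x h5⟩ hy), ?_⟩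
          rw [pr, mem_insert, mem_singleton] at hy
          rcases hy with rfl | rfl <;> exact Finset.mem_singleton_self _)
      have h4 := hτ θ (some t)
      rw [hPc] at h3
      omega)
    (fun θ h0 => by
      have h3 := w_intact_core K M (θ * bs) (Z none θ) (fun x hx y hy hyM => by
          refine (hZmem _ _ _).2 ⟨hyM, ?_⟩
          rw [hReg0]
          rw [Core.pc, mem_image] at hy
          obtain ⟨a, _, rfl⟩ := hy
          exact hSc3 _ (mul_ne_zero h0 hbs) x hx a)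
      have h4 := hτ θ none
      rw [hJ, ← hn0] at h3
      omega)
  refine ⟨_, hpack, ?_⟩
  -- the estimate
  have hcardE : Fintype.card (E ρ × F) = 2 ^ (k + ρ) := by
    rw [Fintype.card_prod, hF, pow_add, mul_comm]
    congr 1
    simp [E, ZMod.card]
  have hY := w_sum_le f ((u : ℝ) / 2 ^ (k + ρ)) u (by positivity)
    (by
      rw [Fintype.sum_prod_type, hf]
      exact heq)
    (univ.erase (0 : F)) (fun θ => Reg (τ θ) θ)
    (fun θ hθ θ' hθ' hne => hRegd _ _ _ _ (Finset.ne_of_mem_erase hθ)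
      (Finset.ne_of_mem_erase hθ') hne)
    (κ * γ) (fun θ hθ => hRegc _ _ (Finset.ne_of_mem_erase hθ))
  have hΘ : ((univ.erase (0 : F)).card : ℝ) = 2 ^ k - 1 := by
    rw [Finset.card_erase_of_mem (mem_univ _), Finset.card_univ, hF, Nat.cast_sub Nat.one_le_two_pow]
    push_cast
    ring
  rw [hΘ, hcardE] at hY
  have hQ : ((2 : ℝ) ^ k - 1) * (γ * 2 ^ (m - ρ)) -
      ∑ θ ∈ univ.erase (0 : F), ∑ q ∈ Reg (τ θ) θ, f q ≤
      ((∑ θ ∈ univ.erase (0 : F), (n0 - (Z (τ θ) θ).card) : ℕ) : ℝ) := by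
    rw [Nat.cast_sum, ← hΘ, ← nsmul_eq_mul, ← Finset.sum_const, ← Finset.sum_sub_distrib]
    refine Finset.sum_le_sum fun θ _ => ?_
    rw [← hZc]
    have h3 : ((n0 : ℕ) : ℝ) = γ * 2 ^ (m - ρ) := by rw [hn0]; push_cast; ring
    rw [← h3, sub_le_iff_le_add]
    have h4 : n0 ≤ (n0 - (Z (τ θ) θ).card) + (Z (τ θ) θ).card := by omega
    exact_mod_cast h4
  have hrs : (r : ℝ) + 1 = 2 * m + κ := by
    have : r + 1 = 2 * m + κ := by omega
    exact_mod_cast this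
  have e1 : (2 : ℝ) ^ m = 2 ^ ρ * 2 ^ (m - ρ) := by
    rw [← pow_add]; congr 1; omega
  have e2 : (2 : ℝ) ^ r = 2 ^ k * 2 ^ ρ * 2 ^ (m - ρ) := by
    rw [← pow_add, ← pow_add]; congr 1; omega
  have e3 : (2 : ℝ) ^ (r - ρ) = 2 ^ k * 2 ^ (m - ρ) := by
    rw [← pow_add]; congr 1; omega
  have e4 : (2 : ℝ) ^ (k + ρ) = 2 ^ k * 2 ^ ρ := pow_add _ _ _
  rw [e1, e2, e3]
  have hcast : (((2 ^ (k + ρ) : ℕ) : ℝ)) = 2 ^ (k + ρ) := by push_cast; ring
  rw [hcast] at hY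
  refine w_arith (A := 2 ^ k) (B := 2 ^ ρ) (C := 2 ^ (m - ρ)) (s := (r : ℝ) + 1) (g := γ)
    (u := u) (κ := κ) (one_le_pow₀ (by norm_num)) (by positivity) (by positivity)
    (by positivity) (by positivity) (by positivity) (by positivity) (by exact_mod_cast hκ'.2)
    ?_ ?_ hQ ?_
  · rw [hrs]; exact_mod_cast hγ1
  · rw [hrs]; exact_mod_cast hγ2.le
  · refine hY.trans (le_of_eq ?_)
    rw [e4]
    push_cast
    ring

end Pool.Agent.EB58
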