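import Pool.Agent.EB58.Defs
import Pool.Agent.EB58.Model
import Pool.Agent.EB58.Cyc
import Pool.Agent.EB58.Near

/-!
Regime 2. (module T)
-/

set_option autoImplicit false

namespace Pool.Agent.EB58

open Finset Pool.Agent.H41.Circ

/-- transport of full sets -/
lemma t_full_image {V W : Type} [AddCommGroup V] [Module (ZMod 2) V] [AddCommGroup W]
    [Module (ZMod 2) W] [DecidableEq V] (e : W ≃ₗ[ZMod 2] V) {r : ℕ} {C : Finset W}
    (h : Full r C) : Full r (C.image e) := by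
  obtain ⟨h1, h2, h3⟩ := h
  refine ⟨?_, ?_, ?_⟩
  · rw [Finset.card_image_of_injective _ e.injective, h1]
  · rw [Finset.sum_image (fun a _ b _ hab => e.injective hab), ← map_sum, h2, map_zero]
  · rw [Finset.coe_image]
    have : Submodule.span (ZMod 2) (e '' (C : Set W)) =
        (Submodule.span (ZMod 2) (C : Set W)).map e.toLinearMap := by
      rw [Submodule.map_span]; rfl
    rw [this, h3, Submodule.map_top, LinearEquiv.range]

/-- transport of packings -/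
lemma t_pack_image {V W : Type} [AddCommGroup V] [Module (ZMod 2) V] [AddCommGroup W]
    [Module (ZMod 2) W] [DecidableEq V] [DecidableEq W] (e : V ≃ₗ[ZMod 2] W) {r : ℕ}
    {M : Finset V} {q : ℕ} (h : Pack r (M.image e) q) : Pack r M q := by
  obtain ⟨C, hC, hd⟩ := h
  refine ⟨fun i => (C i).image e.symm, fun i => ⟨t_full_image e.symm (hC i).1, ?_⟩, ?_⟩
  · intro v hv
    obtain ⟨w, hw, rfl⟩ := Finset.mem_image.mp hv
    obtain ⟨v', hv', rfl⟩ := Finset.mem_image.mp ((hC i).2 hw)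
    simpa using hv'
  · intro i j hij
    rw [Finset.disjoint_image e.symm.injective]
    exact hd hij

/-- the exponential beats the polynomial -/
lemma t_pow {r : ℕ} (hr : 3000 ≤ r) : 10 ^ 6 * (r + 1) ^ 2 ≤ 2 ^ (r / 20) := by
  have key : ∀ j : ℕ, 150 ≤ j → 400000000 * (j + 1) ^ 2 ≤ 2 ^ j := by
    intro j hj
    induction j, hj using Nat.le_induction with
    | base => norm_num
    | succ j hj ih =>
      have h1 : (j + 1 + 1) ^ 2 ≤ 2 * (j + 1) ^ 2 := by nlinarith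
      rw [pow_succ 2 j]
      nlinarith
  have h1 := key (r / 20) (by omega)
  have h2 : r + 1 ≤ 20 * (r / 20 + 1) := by omega
  have h3 : (r + 1) ^ 2 ≤ (20 * (r / 20 + 1)) ^ 2 := Nat.pow_le_pow_left h2 2
  have h4 : (20 * (r / 20 + 1)) ^ 2 = 400 * (r / 20 + 1) ^ 2 := by ring
  rw [h4] at h3
  calc 10 ^ 6 * (r + 1) ^ 2 ≤ 10 ^ 6 * (400 * (r / 20 + 1) ^ 2) := Nat.mul_le_mul_left _ h3
    _ = 400000000 * (r / 20 + 1) ^ 2 := by ring
    _ ≤ 2 ^ (r / 20) := h1

/-- Regime 2: `near_packing` with `ρ = 3 * (r / 20)` in the model of `exists_model`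
(`F = GaloisField 2 k`), the rest by `Pool.Agent.H41.Circ.bound_aux` (`T = r / 4`). -/
theorem regime2 : ∀ (V : Type) [AddCommGroup V] [Module (ZMod 2) V] [Fintype V]
    [DecidableEq V] (r : ℕ), 4000 ≤ r → Module.finrank (ZMod 2) V = r →
    ∀ M : Finset V, (0 : V) ∉ M → ∑ v ∈ M, v = 0 →
    2 ^ (r - 2 * (r / 20)) ≤ (univ \ M).card →
    ((univ \ M).card : ℝ) ≤ 202 * 2 ^ r / ((r : ℝ) + 1) →
    ∃ q, Dec M q ∧ q ≤ (2 ^ r - 1 + r) / (r + 1) := by
  intro V _ _ _ _ r hr hrank M hM0 hMs hu1 hu2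
  classical
  have hr3 : 3000 ≤ r := by omega
  have hpow := t_pow hr3
  set j := r / 20 with hj
  have hj2 : 150 ≤ j := by omega
  have hjr : 20 * j ≤ r := by omega
  -- the parameters of the model
  obtain ⟨κ, m, k, hκ, hk, hrmk⟩ : ∃ κ m k : ℕ, (κ = 2 ∨ κ = 3) ∧ k + 1 = m + κ ∧
      r = m + k := by
    rcases Nat.even_or_odd r with ⟨a, ha⟩ | ⟨a, ha⟩
    · exact ⟨3, a - 1, a + 1, Or.inr rfl, by omega, by omega⟩
    · exact ⟨2, a, a + 1, Or.inl rfl, by omega, by omega⟩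
  have hk0 : k ≠ 0 := by omega
  let F : Type := GaloisField 2 k
  letI : Fintype F := Fintype.ofFinite _
  letI : DecidableEq F := Classical.decEq _
  have hF : Fintype.card F = 2 ^ k := by
    rw [← Nat.card_eq_fintype_card]
    exact GaloisField.card 2 k hk0
  set U : Finset V := univ \ M with hU
  set u := U.card with hu
  obtain ⟨e, he⟩ := exists_model hrank hrmk F hF U
  have hρm : 3 * j ≤ m := by omega
  have hinj : Function.Injective e := e.injective
  have hcompl : (univ : Finset (E m × F)) \ M.image e = U.image e := by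
    ext w
    simp only [mem_sdiff, mem_univ, true_and, mem_image, hU]
    constructor
    · intro h
      exact ⟨e.symm w, fun h' => h ⟨_, h', e.apply_symm_apply w⟩, e.apply_symm_apply w⟩
    · rintro ⟨v, hv, rfl⟩ ⟨v', hv', h⟩
      exact hv (hinj h ▸ hv')
  have hcompl_card : ((univ : Finset (E m × F)) \ M.image e).card = u := by
    rw [hcompl, Finset.card_image_of_injective _ hinj]
  have heq : ∑ p : E (3 * j), ∑ c : F,
        ((((univ \ M.image e).filter fun z => phi hρm z.1 = p ∧ z.2 = c).card : ℝ)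
          - (u : ℝ) / 2 ^ (k + 3 * j)) ^ 2 ≤ (u : ℝ) := by
    refine le_trans (le_of_eq ?_) (he (3 * j) hρm)
    refine Finset.sum_congr rfl fun p _ => Finset.sum_congr rfl fun c _ => ?_
    rw [hcompl, Finset.filter_image, Finset.card_image_of_injective _ hinj]
  obtain ⟨q, hpack, hq⟩ := near_packing hκ hk hrmk (by omega) hρm (by omega) hF (M.image e) u
    hcompl_card heq
  obtain ⟨C, hC, hCd⟩ := t_pack_image e hpack
  -- the rest
  set R := M \ univ.biUnion C with hR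
  have hbiU : (univ.biUnion C).card = q * (r + 1) := by
    rw [Finset.card_biUnion (fun a _ b _ hab => hCd hab)]
    simp only [(hC _).1.1, Finset.sum_const, Finset.card_univ, Fintype.card_fin, smul_eq_mul]
  have hsub : univ.biUnion C ⊆ M := Finset.biUnion_subset.mpr fun i _ => (hC i).2
  have hR0 : (0 : V) ∉ R := fun h => hM0 (Finset.mem_sdiff.mp h).1
  have hRs : ∑ v ∈ R, v = 0 := by
    refine sum_sdiff_zero hsub ?_ hMs
    rw [Finset.sum_biUnion (fun a _ b _ hab => hCd hab)]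
    exact Finset.sum_eq_zero fun i _ => (hC i).1.2.1
  have hcardV : Fintype.card V = 2 ^ r := by rw [card_V, hrank]
  have hMu : M.card + u = 2 ^ r := by
    have h1 := Finset.card_sdiff_add_card_eq_card (Finset.subset_univ M)
    rw [Finset.card_univ, hcardV] at h1
    rw [hu, hU]; omega
  have hRc : R.card + q * (r + 1) = M.card := by
    rw [← hbiU]
    exact Finset.card_sdiff_add_card_eq_card hsub
  set a := R.card with ha
  -- real versions
  have hKr : (10 : ℝ) ^ 6 * ((r : ℝ) + 1) ^ 2 ≤ 2 ^ j := by exact_mod_cast hpow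
  have hr3' : (3000 : ℝ) ≤ r := by exact_mod_cast hr3
  have hu1' : (2 : ℝ) ^ (r - 2 * j) ≤ u := by exact_mod_cast hu1
  have hu0 : (0 : ℝ) < u := lt_of_lt_of_le (by positivity) hu1'
  have hra : (a : ℝ) + ((r : ℝ) + 1) * q + u = 2 ^ r := by
    have h1 : a + (r + 1) * q + u = 2 ^ r := by
      rw [← hMu, ← hRc]; ring
    exact_mod_cast h1
  have hlarge : ∀ s : ℕ, s + j ≤ r - 2 * j → (2 : ℝ) ^ s * (10 ^ 6 * ((r : ℝ) + 1) ^ 2) ≤ u := by
    intro s hs
    calc (2 : ℝ) ^ s * (10 ^ 6 * ((r : ℝ) + 1) ^ 2) ≤ 2 ^ s * 2 ^ j := by gcongr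
      _ = 2 ^ (s + j) := by rw [pow_add]
      _ ≤ 2 ^ (r - 2 * j) := pow_le_pow_right₀ (by norm_num) hs
      _ ≤ u := hu1'
  have hr1p : (1 : ℝ) ≤ ((r : ℝ) + 1) ^ 2 := one_le_pow₀ (by linarith)
  have hr1q : ((r : ℝ) + 1) ≤ ((r : ℝ) + 1) ^ 2 := by nlinarith
  -- a ≤ 2.1 u
  have hA1 : (2 : ℝ) ^ m ≤ u / 1000 := by
    have h1 := hlarge m (by omega)
    have h2 : (2 : ℝ) ^ m * 1000 ≤ 2 ^ m * (10 ^ 6 * ((r : ℝ) + 1) ^ 2) := by
      gcongr; nlinarith
    linarith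
  have hA2 : 2 * ((r : ℝ) + 1) * 2 ^ (r - 3 * j) ≤ u / 1000 := by
    have h1 := hlarge (r - 3 * j) (by omega)
    have h2 : (2 : ℝ) ^ (r - 3 * j) * (2000 * ((r : ℝ) + 1)) ≤
        2 ^ (r - 3 * j) * (10 ^ 6 * ((r : ℝ) + 1) ^ 2) := by
      gcongr; nlinarith
    linarith
  have hA3 : ((r : ℝ) + 1) * Real.sqrt (2 ^ (k + 3 * j) * (u : ℝ)) ≤ u / 1000 := by
    have h1 := hlarge (k + 3 * j) (by omega)
    have h3 : Real.sqrt (2 ^ (k + 3 * j) * (u : ℝ)) ≤ u / (1000 * ((r : ℝ) + 1)) := by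
      rw [Real.sqrt_le_left (by positivity), div_pow, le_div_iff₀ (by positivity)]
      have h4 := mul_le_mul_of_nonneg_right h1 hu0.le
      have h5 : (2 : ℝ) ^ (k + 3 * j) * (u : ℝ) * (1000 * ((r : ℝ) + 1)) ^ 2 =
          2 ^ (k + 3 * j) * (10 ^ 6 * ((r : ℝ) + 1) ^ 2) * (u : ℝ) := by ring
      rw [h5, sq (u : ℝ)]
      exact h4
    calc ((r : ℝ) + 1) * Real.sqrt (2 ^ (k + 3 * j) * (u : ℝ)) ≤
        ((r : ℝ) + 1) * (u / (1000 * ((r : ℝ) + 1))) := by gcongr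
      _ = u / 1000 := by field_simp
  have hau : (a : ℝ) ≤ 2.1 * u := by
    linarith [hq, hA1, hA2, hA3]
  -- the scale
  set s := Nat.log 2 (3 * u) + 1 with hs
  have hu0' : 0 < u := by exact_mod_cast hu0
  have hs1 : 3 * u < 2 ^ s := Nat.lt_pow_succ_log_self (by norm_num) _
  have hs2 : 2 ^ s ≤ 6 * u := by
    have h1 := Nat.pow_log_le_self 2 (x := 3 * u) (by omega)
    rw [hs, pow_succ]; omega
  have hs3 : s ≤ r := by
    have h1 : (6 : ℝ) * u ≤ 2 ^ r := by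
      have h2 : 202 * (2 : ℝ) ^ r / ((r : ℝ) + 1) ≤ 2 ^ r / 6 := by
        rw [div_le_div_iff₀ (by positivity) (by norm_num)]
        have : (0 : ℝ) < 2 ^ r := by positivity
        nlinarith
      linarith
    have h3 : 6 * u ≤ 2 ^ r := by exact_mod_cast h1
    exact (Nat.pow_le_pow_iff_right (by norm_num : 1 < 2)).mp (hs2.trans h3)
  have hs4 : r - 2 * j + 2 ≤ s := by
    have h1 : 2 ^ (r - 2 * j + 1) ≤ 3 * u := by
      rw [pow_succ]; omega
    have h2 := Nat.le_log_of_pow_le (by norm_num : 1 < 2) h1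
    omega
  set t := r - s with ht
  have hrt : r - t = s := by omega
  have hmain := bound_aux (U := (univ : Finset V)) (r := r) (T := r / 4) (by omega) (by omega)
    (by rw [Finset.card_univ, hcardV]) (mem_univ _) (fun _ _ _ _ => mem_univ _)
    (r / 4 - t) t (by omega) R (Finset.subset_univ _) hR0 hRs (by
      rw [hrt]
      have h1 : a < 3 * u := by
        have : (a : ℝ) < 3 * u := by linarith
        exact_mod_cast this
      omega)
  obtain ⟨k', hk', hk'b⟩ := hmain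
  refine ⟨k' + q, Pack.dec hrank C hC hCd hk', ?_⟩
  rw [Nat.le_div_iff_mul_le (by omega)]
  -- the numerics
  have hT1 : (2 : ℝ) ^ (r - r / 4) ≤ u / 10 ^ 6 / ((r : ℝ) + 1) := by
    have h1 := hlarge (r - r / 4) (by omega)
    rw [div_div, le_div_iff₀ (by positivity)]
    refine le_trans ?_ h1
    gcongr
  have hT0 : (0 : ℝ) < 2 ^ (r - r / 4) := by positivity
  have hts : (2 : ℝ) ^ (r - t) ≤ 6 * u := by
    rw [hrt]; exact_mod_cast hs2
  have htj : (t : ℝ) + 2 ≤ 2 * j := by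
    have : t + 2 ≤ 2 * j := by omega
    exact_mod_cast this
  have hjr' : 20 * (j : ℝ) ≤ r := by exact_mod_cast hjr
  have hden : (4 / 5 : ℝ) * r ≤ (r : ℝ) - 2 * t - 4 := by linarith
  have hr0 : (0 : ℝ) < r := by linarith
  have ha0 : (0 : ℝ) ≤ a := Nat.cast_nonneg _
  have hB1 : (a : ℝ) / ((r : ℝ) - 2 * t - 4) ≤ a / ((4 / 5 : ℝ) * r) := by
    gcongr
  have hB2 : ((r : ℝ) + 1) * (a / ((4 / 5 : ℝ) * r)) ≤ 1.26 * a := by
    rw [mul_div_assoc', div_le_iff₀ (by positivity)]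
    nlinarith
  have hB3 : ((r : ℝ) + 1) * (2 ^ (r - r / 4) / 3) ≤ u / 1000 := by
    have h1 : ((r : ℝ) + 1) * 2 ^ (r - r / 4) ≤ u / 10 ^ 6 := by
      calc ((r : ℝ) + 1) * 2 ^ (r - r / 4) ≤ ((r : ℝ) + 1) * (u / 10 ^ 6 / ((r : ℝ) + 1)) := by
            gcongr
        _ = u / 10 ^ 6 := by field_simp
    linarith
  have hB4 : ((r : ℝ) + 1) * (18 / (r : ℝ) ^ 2 * (2 ^ (r - t) - 2 ^ (r - r / 4))) ≤ u / 10 := by
    have h1 : (2 : ℝ) ^ (r - t) - 2 ^ (r - r / 4) ≤ 6 * u := by linarith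
    have h2 : 18 / (r : ℝ) ^ 2 * (2 ^ (r - t) - 2 ^ (r - r / 4)) ≤ 18 / (r : ℝ) ^ 2 * (6 * u) := by
      gcongr
    have h3 : ((r : ℝ) + 1) * (18 / (r : ℝ) ^ 2 * (6 * u)) ≤ u / 10 := by
      have h4 : ((r : ℝ) + 1) * (18 / (r : ℝ) ^ 2 * (6 * u)) =
          (108 * ((r : ℝ) + 1) * u) / (r : ℝ) ^ 2 := by ring
      rw [h4, div_le_div_iff₀ (by positivity) (by norm_num)]
      have h5 : 1080 * ((r : ℝ) + 1) ≤ (r : ℝ) ^ 2 := by nlinarith
      nlinarith
    calc _ ≤ ((r : ℝ) + 1) * (18 / (r : ℝ) ^ 2 * (6 * u)) := by gcongr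
      _ ≤ _ := h3
  have hfin : ((r : ℝ) + 1) * k' ≤ 1.26 * a + u / 1000 + u / 10 := by
    have h1 := mul_le_mul_of_nonneg_left hk'b (by positivity : (0 : ℝ) ≤ (r : ℝ) + 1)
    have h2 := mul_le_mul_of_nonneg_left hB1 (by positivity : (0 : ℝ) ≤ (r : ℝ) + 1)
    rw [mul_add, mul_add] at h1
    linarith
  have hgoal : ((k' : ℝ) + q) * ((r : ℝ) + 1) ≤ 2 ^ r := by
    nlinarith [hfin, hra, hau]
  have hgoal' : (k' + q) * (r + 1) ≤ 2 ^ r := by exact_mod_cast hgoal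
  omega

end Pool.Agent.EB58
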