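import Pool.Agent.EB58.Regime1
import Pool.Agent.EB58.Regime2
import Pool.Agent.Results.MP_c35a4c_co.AlmostAllSizes

/-!
All ranks `r ≥ r0`. (module Fin)
-/

set_option autoImplicit false

namespace Pool.Agent.EB58

open Finset Pool.Agent.H41.Circ

/-! ### transport along an injective linear map -/

section map

variable {V V' : Type*} [AddCommGroup V] [Module (ZMod 2) V] [DecidableEq V]
  [AddCommGroup V'] [Module (ZMod 2) V'] [DecidableEq V']

omit [DecidableEq V] [DecidableEq V'] in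
theorem F_sum_map (f : V →ₗ[ZMod 2] V') (hf : Function.Injective f) (C : Finset V) :
    ∑ v ∈ C.map ⟨f, hf⟩, v = f (∑ v ∈ C, v) := by
  rw [Finset.sum_map, map_sum]
  rfl

theorem F_circuit_map (f : V →ₗ[ZMod 2] V') (hf : Function.Injective f) {C : Finset V}
    (h : IsCircuit C) : IsCircuit (C.map ⟨f, hf⟩) := by
  obtain ⟨h1, h2, h3⟩ := h
  refine ⟨(Finset.map_nonempty).2 h1, ?_, ?_⟩
  · rw [F_sum_map, h2, map_zero]
  · intro D hD hDn hD0
    have e : D = (C.filter fun v => f v ∈ D).map ⟨f, hf⟩ := by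
      ext x
      rw [Finset.mem_map]
      constructor
      · intro hx
        obtain ⟨v, hv, rfl⟩ := Finset.mem_map.1 (hD hx)
        exact ⟨v, Finset.mem_filter.2 ⟨hv, hx⟩, rfl⟩
      · rintro ⟨v, hv, rfl⟩
        exact (Finset.mem_filter.1 hv).2
    have h4 : (C.filter fun v => f v ∈ D) = C := by
      apply h3 _ (Finset.filter_subset _ _)
      · rw [e] at hDn
        exact (Finset.map_nonempty).1 hDn
      · rw [e, F_sum_map] at hD0
        exact hf (hD0.trans (map_zero f).symm)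
    rw [e, h4]

theorem F_dec_map (f : V →ₗ[ZMod 2] V') (hf : Function.Injective f) {M : Finset V} {q : ℕ}
    (h : Dec M q) : Dec (M.map ⟨f, hf⟩) q := by
  obtain ⟨P, hP, hPc, hPd, hPu⟩ := h
  refine ⟨P.map ⟨fun C => C.map ⟨f, hf⟩, Finset.map_injective _⟩, ?_, ?_, ?_, ?_⟩
  · rw [Finset.card_map, hP]
  · intro C hC
    obtain ⟨C', hC', rfl⟩ := Finset.mem_map.1 hC
    exact F_circuit_map f hf (hPc C' hC')
  · intro C hC D hD hne
    obtain ⟨C', hC', rfl⟩ := Finset.mem_map.1 (Finset.mem_coe.1 hC)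
    obtain ⟨D', hD', rfl⟩ := Finset.mem_map.1 (Finset.mem_coe.1 hD)
    have h1 : C' ≠ D' := by
      rintro rfl
      exact hne rfl
    have h2 : Disjoint C' D' := hPd hC' hD' h1
    show Disjoint (C'.map ⟨f, hf⟩) (D'.map ⟨f, hf⟩)
    rw [Finset.disjoint_map]
    exact h2
  · ext x
    rw [Finset.mem_biUnion, Finset.mem_map]
    constructor
    · rintro ⟨C, hC, hx⟩
      obtain ⟨C', hC', rfl⟩ := Finset.mem_map.1 hC
      obtain ⟨v, hv, rfl⟩ := Finset.mem_map.1 hx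
      refine ⟨v, ?_, rfl⟩
      rw [← hPu]
      exact Finset.mem_biUnion.2 ⟨C', hC', hv⟩
    · rintro ⟨v, hv, rfl⟩
      rw [← hPu] at hv
      obtain ⟨C', hC', hv⟩ := Finset.mem_biUnion.1 hv
      exact ⟨C'.map ⟨f, hf⟩, Finset.mem_map.2 ⟨C', hC', rfl⟩, Finset.mem_map.2 ⟨v, hv, rfl⟩⟩

end map

theorem F_ceil {r q a : ℕ} (h : q ≤ (a + r) / (r + 1)) :
    q ≤ ⌈(a : ℝ) / ((r : ℝ) + 1)⌉₊ := by
  refine h.trans ?_
  set c := ⌈(a : ℝ) / ((r : ℝ) + 1)⌉₊ with hc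
  have h1 : (a : ℝ) / ((r : ℝ) + 1) ≤ c := Nat.le_ceil _
  have h2 : (0 : ℝ) < (r : ℝ) + 1 := by positivity
  rw [div_le_iff₀ h2] at h1
  have h3 : a ≤ c * (r + 1) := by exact_mod_cast h1
  have h5 : a + r ≤ c * (r + 1) + r := by omega
  refine (Nat.div_le_div_right h5).trans ?_
  rw [Nat.mul_comm, Nat.mul_add_div (Nat.succ_pos r), Nat.div_eq_of_lt (Nat.lt_succ_self r),
    Nat.add_zero]

theorem final : ∀ (n r : ℕ) (M : Finset (Fin n → ZMod 2)), 4000 ≤ r →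
    (0 : Fin n → ZMod 2) ∉ M → ∑ v ∈ M, v = 0 →
    Module.finrank (ZMod 2) (Submodule.span (ZMod 2) (M : Set (Fin n → ZMod 2))) = r →
    ∃ P : Finpartition M,
      (∀ C ∈ P.parts, C.Nonempty ∧ ∑ v ∈ C, v = 0 ∧
        ∀ D ⊆ C, D.Nonempty → ∑ v ∈ D, v = 0 → D = C) ∧
      P.parts.card ≤ ⌈((2 : ℝ) ^ r - 1) / ((r : ℝ) + 1)⌉₊ ∧
      ((2 : ℝ) ^ r - 2 ^ (r - 2 * (r / 20)) ≤ (M.card : ℝ) →
        P.parts.card ≤ ⌈(M.card : ℝ) / ((r : ℝ) + 1)⌉₊) := by
  classical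
  intro n r M hr0 h0 hs hr
  set W := Submodule.span (ZMod 2) (M : Set (Fin n → ZMod 2)) with hW
  have hMW : ∀ x ∈ M, x ∈ W := fun x hx => Submodule.subset_span hx
  let M' : Finset W := M.subtype (fun x => x ∈ W)
  have hmap : M'.map ⟨W.subtype, Subtype.val_injective⟩ = M := by
    ext x
    rw [Finset.mem_map]
    constructor
    · rintro ⟨v, hv, rfl⟩
      exact Finset.mem_subtype.1 hv
    · intro hx
      exact ⟨⟨x, hMW x hx⟩, Finset.mem_subtype.2 hx, rfl⟩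
  have hcard : M'.card = M.card := by
    rw [← hmap, Finset.card_map]
  have h0' : (0 : W) ∉ M' := fun h => h0 (Finset.mem_subtype.1 h)
  have hs' : ∑ v ∈ M', v = 0 := by
    have h1 := F_sum_map W.subtype Subtype.val_injective M'
    rw [hmap, hs] at h1
    exact Subtype.val_injective h1.symm
  have hWc : Fintype.card W = 2 ^ r := by
    rw [Module.card_eq_pow_finrank (K := ZMod 2) (V := W), ZMod.card, hr]
  have hu : (univ \ M').card + M.card = 2 ^ r := by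
    rw [← hcard, ← hWc]
    have := Finset.card_sdiff_add_card_eq_card (Finset.subset_univ M')
    rw [this, Finset.card_univ]
  have hur : ((univ \ M').card : ℝ) + M.card = 2 ^ r := by exact_mod_cast hu
  -- `M` does not contain `0`
  have hMc : M.card ≤ 2 ^ r - 1 := by
    have h1 : 0 < (univ \ M').card :=
      Finset.card_pos.2 ⟨0, Finset.mem_sdiff.2 ⟨Finset.mem_univ _, h0'⟩⟩
    omega
  have hN : ∀ q, q ≤ (2 ^ r - 1 + r) / (r + 1) → q ≤ ⌈((2 : ℝ) ^ r - 1) / ((r : ℝ) + 1)⌉₊ := by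
    intro q hq
    have h1 := F_ceil hq
    have h2 : ((2 ^ r - 1 : ℕ) : ℝ) = (2 : ℝ) ^ r - 1 := by
      rw [Nat.cast_sub Nat.one_le_two_pow]
      push_cast
      ring
    rwa [h2] at h1
  -- a decomposition of `M'` gives a partition
  have fin : ∀ q, Dec M' q → q ≤ (2 ^ r - 1 + r) / (r + 1) →
      ((2 : ℝ) ^ r - 2 ^ (r - 2 * (r / 20)) ≤ (M.card : ℝ) → q ≤ (M.card + r) / (r + 1)) →
      ∃ P : Finpartition M,
      (∀ C ∈ P.parts, C.Nonempty ∧ ∑ v ∈ C, v = 0 ∧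
        ∀ D ⊆ C, D.Nonempty → ∑ v ∈ D, v = 0 → D = C) ∧
      P.parts.card ≤ ⌈((2 : ℝ) ^ r - 1) / ((r : ℝ) + 1)⌉₊ ∧
      ((2 : ℝ) ^ r - 2 ^ (r - 2 * (r / 20)) ≤ (M.card : ℝ) →
        P.parts.card ≤ ⌈(M.card : ℝ) / ((r : ℝ) + 1)⌉₊) := by
    intro q hq hqb hqc
    have hdec : Dec M q := by
      have h1 := F_dec_map W.subtype Subtype.val_injective hq
      rw [hmap] at h1
      exact h1
    obtain ⟨P, hP, hPc, hPd, hPu⟩ := hdec
    refine ⟨⟨P, ?_, ?_, ?_⟩, ?_, ?_, ?_⟩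
    · exact Finset.supIndep_iff_pairwiseDisjoint.mpr hPd
    · rw [Finset.sup_eq_biUnion]; exact hPu
    · intro hbot
      exact (hPc _ hbot).1.ne_empty rfl
    · exact hPc
    · show P.card ≤ _
      rw [hP]
      exact hN q hqb
    · intro h
      show P.card ≤ _
      rw [hP]
      exact F_ceil (hqc h)
  by_cases hreg : (2 : ℝ) ^ r - 2 ^ (r - 2 * (r / 20)) ≤ (M.card : ℝ)
  · -- regime 1
    have h1 : (univ \ M').card ≤ 2 ^ (r - 2 * (r / 20)) := by
      have h2 : ((univ \ M').card : ℝ) ≤ 2 ^ (r - 2 * (r / 20)) := by linarith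
      exact_mod_cast h2
    obtain ⟨q, hq, hqb⟩ := regime1 W r hr0 hr M' h0' hs' h1
    rw [hcard] at hqb
    refine fin q hq (hqb.trans (Nat.div_le_div_right ?_)) fun _ => hqb
    omega
  push Not at hreg
  by_cases hM : (M.card : ℝ) ≤ 2 ^ r - 1 - 200 * 2 ^ r / ((r : ℝ) + 1)
  · obtain ⟨P, h1, -, h2⟩ :=
      Pool.Agent.Results.MP_c35a4c_co.AlmostAllSizes.result n r M h0 hs hr
    exact ⟨P, h1, h2 hM, fun h => absurd h (not_le.2 hreg)⟩
  push Not at hM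
  -- regime 2
  have h1 : 2 ^ (r - 2 * (r / 20)) ≤ (univ \ M').card := by
    have h2 : (2 : ℝ) ^ (r - 2 * (r / 20)) ≤ ((univ \ M').card : ℝ) := by linarith
    exact_mod_cast h2
  have h3 : ((univ \ M').card : ℝ) ≤ 202 * 2 ^ r / ((r : ℝ) + 1) := by
    have h2 : (1 : ℝ) ≤ 2 * 2 ^ r / ((r : ℝ) + 1) := by
      rw [le_div_iff₀ (by positivity)]
      have h3 : r < 2 ^ r := Nat.lt_two_pow_self
      have h4 : (r : ℝ) ≤ 2 ^ r := by exact_mod_cast h3.le
      have h5 : (1 : ℝ) ≤ 2 ^ r := one_le_pow₀ (by norm_num)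
      linarith
    have h3 : (202 : ℝ) * 2 ^ r / ((r : ℝ) + 1) =
        200 * 2 ^ r / ((r : ℝ) + 1) + 2 * 2 ^ r / ((r : ℝ) + 1) := by
      rw [← add_div]
      congr 1
      ring
    rw [h3]
    linarith
  obtain ⟨q, hq, hqb⟩ := regime2 W r hr0 hr M' h0' hs' h1 h3
  exact fin q hq hqb fun h => absurd h (not_le.2 hreg)

end Pool.Agent.EB58
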