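import Pool.Agent.EB58.Defs
import Pool.Agent.EB58.Greedy
import Pool.Agent.EB58.Cyc

/-!
The items of the special circuits. (module I)
-/

set_option autoImplicit false

namespace Pool.Agent.EB58

open Finset

/-- At most two different nonzero vectors over the field with two elements are independent. -/
theorem iindep {F : Type} [AddCommGroup F] [Module (ZMod 2) F] [DecidableEq F] (S : Finset F)
    (h0 : (0 : F) ∉ S) (h2 : S.card ≤ 2) : LinearIndepOn (ZMod 2) id (S : Set F) := by
  have hc : S.card = 0 ∨ S.card = 1 ∨ S.card = 2 := by omega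
  rcases hc with hc | hc | hc
  · rw [Finset.card_eq_zero] at hc
    subst hc
    rw [coe_empty]
    exact linearIndepOn_empty _ _
  · obtain ⟨a, rfl⟩ := Finset.card_eq_one.mp hc
    rw [coe_singleton]
    have ha : a ≠ 0 := fun h => h0 (by rw [h]; exact mem_singleton_self _)
    exact LinearIndepOn.singleton (R := ZMod 2) (v := (id : F → F)) ha
  · obtain ⟨a, b, hab, rfl⟩ := Finset.card_eq_two.mp hc
    have ha : a ≠ 0 := fun h => h0 (by rw [h]; simp)
    have hb : b ≠ 0 := fun h => h0 (by rw [h]; simp)
    rw [coe_insert, coe_singleton]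
    refine LinearIndepOn.id_insert (LinearIndepOn.singleton (R := ZMod 2) (v := (id : F → F)) hb) ?_
    rw [Submodule.mem_span_singleton]
    rintro ⟨c, hc⟩
    have hc2 : c = 0 ∨ c = 1 := (by decide : ∀ c : ZMod 2, c = 0 ∨ c = 1) c
    rcases hc2 with rfl | rfl
    · rw [zero_smul] at hc; exact ha hc.symm
    · rw [one_smul] at hc; exact hab hc.symm

/-- Singles and cycles. `κ = 2`: two singles in different cosets; `κ = 3`: one single. -/
theorem exists_items {m k r b s : ℕ} (hb : b = 1 ∨ b = 2) (hr : r = m + k)
    {F : Type} [Field F] [Fintype F] [DecidableEq F] [Algebra (ZMod 2) F]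
    (hF : Fintype.card F = 2 ^ k) (B : Finset (E m × F)) (hB : B.card = b * s)
    (hB0 : ∀ y ∈ B, y.2 ≠ 0) (hs : 2 ^ m ≤ s) (hs2 : 2 ≤ s) (hk : 4 * (3 * (r + 1)) < 2 ^ k)
    (w : E m × F) (hw : w.2 = 0) (hsum : ∑ y ∈ B, y + s • w = 0) :
    ∃ (β : Fin s → Finset (E m × F)) (nx : Equiv.Perm (Fin s)) (v : Fin s → E m × F),
      (∀ i, (β i).card = b ∧ β i ⊆ B) ∧ (Pairwise fun i j => Disjoint (β i) (β j)) ∧
      (∀ i, nx i ≠ i) ∧ (∀ i, v (nx i) = v i + (∑ y ∈ β (nx i), y + w)) ∧
      (∀ i, (v i).2 ≠ 0) ∧
      ∀ i, Module.finrank (ZMod 2) (Submodule.span (ZMod 2)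
        (Prod.snd '' (β (nx i) : Set (E m × F)) ∪ {(v i).2})) = b + 1 := by
  classical
  -- the singles
  have hβ : ∃ β : Fin s → Finset (E m × F), (∀ i, (β i).card = b ∧ β i ⊆ B ∧
      ((β i).image Prod.snd).card = b) ∧ (Pairwise fun i j => Disjoint (β i) (β j)) := by
    rcases hb with rfl | rfl
    · rw [one_mul] at hB
      let e : Fin s ≃ B := (Fintype.equivFinOfCardEq (by rw [Fintype.card_coe, hB])).symm
      refine ⟨fun i => {(e i : E m × F)}, fun i => ⟨card_singleton _,
        singleton_subset_iff.mpr (e i).2, by rw [image_singleton, card_singleton]⟩, ?_⟩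
      intro i j hij
      rw [Finset.disjoint_singleton]
      exact fun h => hij (e.injective (Subtype.ext h))
    · obtain ⟨β, h1, h2, h3⟩ := exists_pairing B (fun y => y.2) s hB (by
        intro c
        refine le_trans ?_ hs
        calc (B.filter fun x => x.2 = c).card ≤ (univ : Finset (E m)).card := by
              refine card_le_card_of_injOn Prod.fst (fun x _ => mem_univ _) ?_
              intro x hx y hy hxy
              rw [mem_coe, mem_filter] at hx hy
              exact Prod.ext hxy (hx.2.trans hy.2.symm)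
          _ = 2 ^ m := by
              rw [Finset.card_univ, Fintype.card_fun, Fintype.card_fin, ZMod.card])
      have hne : ∀ i, β i 0 ≠ β i 1 := fun i h => h3 i (by rw [h])
      refine ⟨fun i => {β i 0, β i 1}, fun i => ⟨card_pair (hne i), ?_, ?_⟩, ?_⟩
      · rw [insert_subset_iff, singleton_subset_iff]
        exact ⟨h2 i 0, h2 i 1⟩
      · rw [image_insert, image_singleton]
        exact card_pair (h3 i)
      · intro i j hij
        rw [Finset.disjoint_left]
        intro y hy hy'
        apply hij
        rw [mem_insert, mem_singleton] at hy hy'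
        have key : ∀ a a' : Fin 2, β i a = β j a' → i = j := fun a a' h =>
          (Prod.ext_iff.mp (@h1 (i, a) (j, a') h)).1
        rcases hy with hy | hy <;> rcases hy' with hy' | hy'
        · exact key _ _ (hy.symm.trans hy')
        · exact key _ _ (hy.symm.trans hy')
        · exact key _ _ (hy.symm.trans hy')
        · exact key _ _ (hy.symm.trans hy')
  obtain ⟨β, hβ1, hβ2⟩ := hβ
  have hun : (univ : Finset (Fin s)).biUnion β = B := by
    refine Finset.eq_of_subset_of_card_le (biUnion_subset.mpr fun i _ => (hβ1 i).2.1) ?_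
    rw [card_biUnion fun i _ j _ h => hβ2 h, sum_congr rfl fun i _ => (hβ1 i).1, sum_const,
      smul_eq_mul, Finset.card_univ, Fintype.card_fin, hB, mul_comm]
  have hS0 : ∀ i, (0 : F) ∉ (β i).image Prod.snd := by
    intro i h
    obtain ⟨y, hy, h0⟩ := mem_image.mp h
    exact hB0 y ((hβ1 i).2.1 hy) h0
  have hb2 : b ≤ 2 := by rcases hb with rfl | rfl <;> norm_num
  have hind : ∀ i, LinearIndepOn (ZMod 2) id (((β i).image Prod.snd : Finset F) : Set F) :=
    fun i => iindep _ (hS0 i) ((hβ1 i).2.2.trans_le hb2)
  have hfin : ∀ i, Module.finrank (ZMod 2)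
      (Submodule.span (ZMod 2) (((β i).image Prod.snd : Finset F) : Set F)) = b := by
    intro i
    rw [finrank_span_finset_eq_card (hind i), (hβ1 i).2.2]
  set g : Fin s → E m × F := fun i => ∑ y ∈ β i, y + w with hg
  have hg0 : ∑ i ∈ (univ : Finset (Fin s)), g i = 0 := by
    rw [hg, sum_add_distrib, sum_const, Finset.card_univ, Fintype.card_fin,
      ← sum_biUnion fun i _ j _ h => hβ2 h, hun]
    exact hsum
  have hrk : Module.finrank (ZMod 2) (E m × F) = r := by
    have h1 : Module.finrank (ZMod 2) F = k := by
      have := Module.card_eq_pow_finrank (K := ZMod 2) (V := F)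
      rw [hF, ZMod.card] at this
      exact (Nat.pow_right_injective (le_refl 2) this).symm
    rw [Module.finrank_prod, h1, Module.finrank_fin_fun, hr]
  obtain ⟨nx, v, h1, h2, h3⟩ := exists_cyc (ι := Fin s) (V := E m × F) (Q := F) hrk
    (LinearMap.snd (ZMod 2) (E m) F) Prod.snd_surjective univ
    (by rw [Finset.card_univ, Fintype.card_fin]; exact hs2) g hg0
    (fun i => univ.filter fun c => c ∈ Submodule.span (ZMod 2)
      (((β i).image Prod.snd : Finset F) : Set F))
    (by
      intro i _
      have e1 : (univ.filter fun c => c ∈ Submodule.span (ZMod 2)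
          (((β i).image Prod.snd : Finset F) : Set F)).card =
          Fintype.card (Submodule.span (ZMod 2)
          (((β i).image Prod.snd : Finset F) : Set F)) := by
        rw [← Fintype.card_subtype]
      rw [e1, Module.card_eq_pow_finrank (K := ZMod 2), ZMod.card, hfin i]
      rcases hb with rfl | rfl <;> norm_num)
    (by rw [hF]; exact hk)
  have hinj : Function.Injective nx := fun i j h => h2 (by simp) (by simp) h
  have hbij : Function.Bijective nx := Finite.injective_iff_bijective.mp hinj
  have h4 : ∀ i, (v i).2 ∉ Submodule.span (ZMod 2)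
      (((β (nx i)).image Prod.snd : Finset F) : Set F) := by
    intro i hi
    exact (h3 i (mem_univ _)).2 (mem_filter.mpr ⟨mem_univ _, hi⟩)
  refine ⟨β, Equiv.ofBijective nx hbij, v, fun i => ⟨(hβ1 i).1, (hβ1 i).2.1⟩, hβ2,
    fun i => (h1 i (mem_univ _)).2, fun i => (h3 i (mem_univ _)).1, ?_, ?_⟩
  · intro i h
    exact h4 i (by rw [h]; exact Submodule.zero_mem _)
  · intro i
    show Module.finrank (ZMod 2) (Submodule.span (ZMod 2)
        (Prod.snd '' (β (nx i) : Set (E m × F)) ∪ {(v i).2})) = b + 1
    have e : Prod.snd '' (β (nx i) : Set (E m × F)) ∪ {(v i).2} =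
        ((insert (v i).2 ((β (nx i)).image Prod.snd) : Finset F) : Set F) := by
      rw [coe_insert, coe_image, Set.union_singleton]
    have hli : LinearIndepOn (ZMod 2) id
        ((insert (v i).2 ((β (nx i)).image Prod.snd) : Finset F) : Set F) := by
      rw [coe_insert]
      exact LinearIndepOn.id_insert (hind _) (h4 i)
    rw [e, finrank_span_finset_eq_card hli, card_insert_of_notMem, (hβ1 _).2.2]
    exact fun h => h4 i (Submodule.subset_span h)

/-- Dimension of the span of `n` vectors independent modulo `W` and of `ee t`, `t ∈ S`. -/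
theorem finrank_lift {m : ℕ} {F : Type} [Field F] [Fintype F] [Algebra (ZMod 2) F]
    (S : Finset (Fin m)) (Y : Finset (E m × F)) (n : ℕ) (hY : Y.card ≤ n)
    (h : Module.finrank (ZMod 2) (Submodule.span (ZMod 2)
      (Prod.snd '' (Y : Set (E m × F)))) = n) :
    Module.finrank (ZMod 2) (Submodule.span (ZMod 2)
      ((Y : Set (E m × F)) ∪ (fun t => ((ee t, 0) : E m × F)) '' (S : Set (Fin m))))
        = n + S.card := by
  classical
  set T : Set (E m × F) := (fun t => ((ee t, 0) : E m × F)) '' (S : Set (Fin m)) with hT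
  set P := Submodule.span (ZMod 2) ((Y : Set (E m × F)) ∪ T) with hP
  apply le_antisymm
  · have e : (Y : Set (E m × F)) ∪ T =
        ((Y ∪ S.image fun t => ((ee t, 0) : E m × F) : Finset (E m × F)) : Set (E m × F)) := by
      rw [coe_union, coe_image]
    rw [hP, e]
    refine (finrank_span_finset_le_card _).trans ((card_union_le _ _).trans ?_)
    exact Nat.add_le_add hY card_image_le
  · set f := (LinearMap.snd (ZMod 2) (E m) F).domRestrict P with hf
    have h1 := LinearMap.finrank_range_add_finrank_ker f
    have h2 : LinearMap.range f = Submodule.span (ZMod 2) (Prod.snd '' (Y : Set (E m × F))) := by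
      rw [hf, LinearMap.range_domRestrict, hP, Submodule.map_span, Set.image_union,
        Submodule.span_union]
      have e0 : Submodule.span (ZMod 2) ((LinearMap.snd (ZMod 2) (E m) F) '' T) = ⊥ := by
        rw [Submodule.span_eq_bot]
        rintro _ ⟨y, ⟨t, _, rfl⟩, rfl⟩
        rfl
      rw [e0, sup_bot_eq]
      rfl
    have h3 : S.card ≤ Module.finrank (ZMod 2) (LinearMap.ker f) := by
      have hmem : ∀ t : S, ((ee (t : Fin m), 0) : E m × F) ∈ P := fun t =>
        Submodule.subset_span (Or.inr ⟨t, t.2, rfl⟩)
      let g : S → LinearMap.ker f := fun t => ⟨⟨(ee (t : Fin m), 0), hmem t⟩, by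
        rw [LinearMap.mem_ker]; rfl⟩
      have hli : LinearIndependent (ZMod 2) g := by
        refine LinearIndependent.of_comp
          ((LinearMap.fst (ZMod 2) (E m) F).comp (P.subtype.comp (LinearMap.ker f).subtype)) ?_
        have := ((Pi.basisFun (ZMod 2) (Fin m)).linearIndependent).comp
          (fun t : S => (t : Fin m)) Subtype.val_injective
        convert this using 1
        funext t
        simp [g, ee, Pi.basisFun_apply]
      have := hli.fintype_card_le_finrank
      rwa [Fintype.card_coe] at this
    rw [h2, h] at h1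
    rw [← h1]
    exact Nat.add_le_add_left h3 n

end Pool.Agent.EB58
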