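import Pool.Agent.EB58.Defs

/-!
Counting lemmas for regime 1. (module K)
-/

set_option autoImplicit false

namespace Pool.Agent.EB58

open Finset

/-- The cells used by the links: first block zero or second block zero. -/
def ZZ (ρ a0 : ℕ) : Finset (E ρ) := (univ : Finset (E ρ)).filter fun p =>
  (∀ i : Fin ρ, (i : ℕ) < a0 → p i = 0) ∨ (∀ i : Fin ρ, a0 ≤ (i : ℕ) → (i : ℕ) < 2 * a0 → p i = 0)

theorem card_fix {m : ℕ} (A : Finset (Fin m)) (y : E m) :
    ((univ : Finset (E m)).filter fun x => ∀ i ∈ A, x i = y i).card = 2 ^ (m - A.card) := by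
  have h1 : ((univ : Finset (E m)).filter fun x => ∀ i ∈ A, x i = y i)
      = Fintype.piFinset (fun i => if i ∈ A then ({y i} : Finset (ZMod 2)) else univ) := by
    ext x
    simp only [mem_filter, mem_univ, true_and, Fintype.mem_piFinset]
    constructor
    · intro h i
      by_cases hi : i ∈ A
      · simp [hi, h i hi]
      · simp [hi]
    · intro h i hi
      have := h i
      simpa [hi] using this
  rw [h1, Fintype.card_piFinset]
  have h2 : ∀ i : Fin m, (if i ∈ A then ({y i} : Finset (ZMod 2)) else univ).card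
      = if i ∈ A then 1 else 2 := by
    intro i
    by_cases hi : i ∈ A
    · simp [hi]
    · simp [hi, ZMod.card]
  rw [Finset.prod_congr rfl fun i _ => h2 i, Finset.prod_ite]
  simp only [prod_const_one, one_mul, prod_const]
  congr 1
  rw [Finset.filter_not, Finset.card_sdiff_of_subset (Finset.filter_subset _ _)]
  simp

theorem card_iv {m a b : ℕ} (h : b ≤ m) :
    ((univ : Finset (Fin m)).filter fun i : Fin m => a ≤ (i : ℕ) ∧ (i : ℕ) < b).card = b - a := by
  have h1 : ((univ : Finset (Fin m)).filter fun i : Fin m => a ≤ (i : ℕ) ∧ (i : ℕ) < b).map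
      Fin.valEmbedding = Finset.Ico a b := by
    ext x
    simp only [mem_map, mem_filter, mem_univ, true_and, Fin.valEmbedding_apply, mem_Ico]
    constructor
    · rintro ⟨i, hi, rfl⟩
      exact hi
    · intro hx
      exact ⟨⟨x, lt_of_lt_of_le hx.2 h⟩, hx, rfl⟩
  rw [← Finset.card_map Fin.valEmbedding, h1, Nat.card_Ico]

theorem card_lt {m b : ℕ} (h : b ≤ m) :
    ((univ : Finset (Fin m)).filter fun i : Fin m => (i : ℕ) < b).card = b := by
  have := card_iv (m := m) (a := 0) (b := b) h
  simpa using this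

theorem card_ZZ {ρ a0 : ℕ} (h : 2 * a0 ≤ ρ) : (ZZ ρ a0).card ≤ 2 * 2 ^ (ρ - a0) := by
  unfold ZZ
  rw [Finset.filter_or]
  refine le_trans (Finset.card_union_le _ _) ?_
  have h1 : ((univ : Finset (E ρ)).filter fun p => ∀ i : Fin ρ, (i : ℕ) < a0 → p i = 0).card
      = 2 ^ (ρ - a0) := by
    have := card_fix ((univ : Finset (Fin ρ)).filter fun i : Fin ρ => (i : ℕ) < a0) (0 : E ρ)
    rw [card_lt (by omega)] at this
    rw [← this]
    congr 1
    ext x
    simp
  have h2 : ((univ : Finset (E ρ)).filter fun p => ∀ i : Fin ρ, a0 ≤ (i : ℕ) →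
      (i : ℕ) < 2 * a0 → p i = 0).card = 2 ^ (ρ - a0) := by
    have := card_fix ((univ : Finset (Fin ρ)).filter fun i : Fin ρ => a0 ≤ (i : ℕ) ∧ (i : ℕ) < 2 * a0)
      (0 : E ρ)
    rw [card_iv (by omega)] at this
    have e : 2 * a0 - a0 = a0 := by omega
    rw [e] at this
    rw [← this]
    congr 1
    ext x
    simp
  rw [h1, h2]
  omega

theorem card_region {m ρ : ℕ} (hρ : ρ ≤ m) (I : Finset (E ρ)) :
    ((univ : Finset (E m)).filter fun x => phi hρ x ∈ I).card = I.card * 2 ^ (m - ρ) := by
  classical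
  rw [Finset.card_eq_sum_card_fiberwise (f := phi hρ) (t := I)
    (fun x hx => by simpa using hx)]
  rw [Finset.sum_const_nat (m := 2 ^ (m - ρ))]
  intro p hp
  have := card_fix ((univ : Finset (Fin m)).filter fun i : Fin m => (i : ℕ) < ρ)
    (fun i => if h : (i : ℕ) < ρ then p ⟨i, h⟩ else 0 : E m)
  rw [card_lt hρ] at this
  rw [← this]
  congr 1
  ext x
  simp only [mem_filter, mem_univ, true_and]
  constructor
  · rintro ⟨_, h⟩ i hi
    rw [dif_pos hi, ← h]
    rfl
  · intro h
    have e : phi hρ x = p := by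
      funext i
      have h1 := h (Fin.castLE hρ i) (by simp)
      have h2 : ((Fin.castLE hρ i : Fin m) : ℕ) < ρ := by simp
      rw [dif_pos h2] at h1
      exact h1
    exact ⟨e ▸ hp, e⟩

/-- Candidates for a link with vector `(y, d)`. -/
def lset {m : ℕ} {F : Type} [Field F] [Fintype F] [DecidableEq F] (a0 : ℕ) (y : E m) (d : F) :
    Finset (E m × F) := (univ : Finset (E m × F)).filter fun a =>
  ((∀ i : Fin m, (i : ℕ) < a0 → a.1 i = 0) ∧
    (∀ i : Fin m, a0 ≤ (i : ℕ) → (i : ℕ) < 2 * a0 → a.1 i = y i)) ∧ a.2 ≠ 0 ∧ a.2 ≠ d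

theorem card_block {m a0 : ℕ} (ha : 2 * a0 ≤ m) (y : E m) :
    ((univ : Finset (E m)).filter fun x => (∀ i : Fin m, (i : ℕ) < a0 → x i = 0) ∧
      (∀ i : Fin m, a0 ≤ (i : ℕ) → (i : ℕ) < 2 * a0 → x i = y i)).card
      = 2 ^ (m - 2 * a0) := by
  have := card_fix ((univ : Finset (Fin m)).filter fun i : Fin m => (i : ℕ) < 2 * a0)
    (fun i => if (i : ℕ) < a0 then 0 else y i : E m)
  rw [card_lt ha] at this
  rw [← this]
  congr 1
  ext x
  simp only [mem_filter, mem_univ, true_and]
  constructor
  · rintro ⟨h1, h2⟩ i hi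
    by_cases h : (i : ℕ) < a0
    · rw [if_pos h]; exact h1 i h
    · rw [if_neg h]; exact h2 i (by omega) hi
  · intro h
    constructor
    · intro i hi
      have := h i (by omega)
      rwa [if_pos hi] at this
    · intro i h1 h2
      have := h i h2
      rwa [if_neg (by omega)] at this

theorem card_lset {m a0 k : ℕ} (ha : 2 * a0 ≤ m) {F : Type} [Field F] [Fintype F]
    [DecidableEq F] (hF : Fintype.card F = 2 ^ k) (y : E m) (d : F) (hd : d ≠ 0) :
    (lset a0 y d).card = 2 ^ (m - 2 * a0) * (2 ^ k - 2) := by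
  have h1 : lset a0 y d = ((univ : Finset (E m)).filter fun x =>
      (∀ i : Fin m, (i : ℕ) < a0 → x i = 0) ∧
      (∀ i : Fin m, a0 ≤ (i : ℕ) → (i : ℕ) < 2 * a0 → x i = y i)) ×ˢ
      (((univ : Finset F).erase 0).erase d) := by
    ext ⟨x, c⟩
    simp only [lset, mem_filter, mem_univ, true_and, mem_product, mem_erase, and_true]
    tauto
  rw [h1, card_product, card_block ha]
  congr 1
  rw [card_erase_of_mem (mem_erase.2 ⟨hd, mem_univ _⟩), card_erase_of_mem (mem_univ _),
    card_univ, hF]
  omega

theorem card_lset_fiber {m a0 : ℕ} (ha : 2 * a0 ≤ m) {F : Type} [Field F] [Fintype F]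
    [DecidableEq F] (y : E m) (d c : F) :
    ((lset a0 y d).filter fun a => a.2 = c).card ≤ 2 ^ (m - 2 * a0) := by
  rw [← card_block ha y]
  refine Finset.card_le_card_of_injOn Prod.fst ?_ ?_
  · intro a h
    simp only [lset, coe_filter, mem_filter, mem_univ, true_and, Set.mem_setOf_eq] at h ⊢
    exact h.1.1
  · intro a h b h' e
    simp only [coe_filter, Set.mem_setOf_eq] at h h'
    exact Prod.ext e (h.2.trans h'.2.symm)

theorem card_def {m : ℕ} (t : Fin m) (R : Finset (E m)) (hR : ∀ x ∈ R, x + ee t ∈ R)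
    (D : Finset (E m)) (hD : ∀ x ∈ D, x ∈ R ∧ x t = 0) :
    (R.filter fun x => Function.update x t 0 ∈ D).card = 2 * D.card := by
  classical
  have h1 : (R.filter fun x => Function.update x t 0 ∈ D) = D ∪ D.image (fun x => x + ee t) := by
    ext x
    simp only [mem_filter, mem_union, mem_image]
    constructor
    · rintro ⟨hx, h⟩
      have h01 : x t = 0 ∨ x t = 1 := by
        generalize x t = z
        revert z
        decide
      rcases h01 with h0 | h0
      · left
        rwa [← h0, Function.update_eq_self] at h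
      · right
        refine ⟨_, h, ?_⟩
        funext i
        by_cases hi : i = t
        · subst hi
          simp [ee, h0]
        · simp [ee, hi]
    · rintro (h | ⟨z, hz, rfl⟩)
      · refine ⟨(hD x h).1, ?_⟩
        have : Function.update x t 0 = x := by
          conv_rhs => rw [← Function.update_eq_self t x, (hD x h).2]
        rwa [this]
      · refine ⟨hR z (hD z hz).1, ?_⟩
        have : Function.update (z + ee t) t 0 = z := by
          funext i
          by_cases hi : i = t
          · subst hi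
            simp [(hD z hz).2]
          · simp [ee, hi]
        rwa [this]
  rw [h1, card_union_of_disjoint, card_image_of_injective _ (add_left_injective _)]
  · omega
  · rw [disjoint_left]
    intro x hx hx'
    obtain ⟨z, hz, rfl⟩ := mem_image.1 hx'
    have e1 := (hD _ hx).2
    have e2 := (hD _ hz).2
    simp [ee, e2] at e1

/-- Number of elements of the region of type `t` which are not in default pairs. -/
theorem card_nondef {m : ℕ} {F : Type} [Field F] [Fintype F] [DecidableEq F]
    (t : Fin m) (R : Finset (E m)) (hR : ∀ x ∈ R, x + ee t ∈ R) (D : F → Finset (E m))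
    (hD : ∀ c, ∀ x ∈ D c, x ∈ R ∧ x t = 0) :
    ((R ×ˢ (univ.erase (0 : F))).filter fun y => Function.update y.1 t 0 ∉ D y.2).card
      + 2 * ∑ c ∈ univ.erase (0 : F), (D c).card = R.card * (Fintype.card F - 1) := by
  classical
  have h1 : ((R ×ˢ (univ.erase (0 : F))).filter fun y => Function.update y.1 t 0 ∈ D y.2).card
      = 2 * ∑ c ∈ univ.erase (0 : F), (D c).card := by
    rw [Finset.card_filter, Finset.sum_product_right, Finset.mul_sum]
    refine Finset.sum_congr rfl fun c _ => ?_
    rw [← Finset.card_filter, card_def t R hR (D c) (hD c)]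
  have h2 := Finset.card_filter_add_card_filter_not (s := R ×ˢ (univ.erase (0 : F)))
    (fun y => Function.update y.1 t 0 ∈ D y.2)
  rw [h1, card_product, card_erase_of_mem (mem_univ _), card_univ] at h2
  omega

end Pool.Agent.EB58
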