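import Mathlib

/-!
Numerics of regime 1. (module U)
-/

set_option autoImplicit false

namespace Pool.Agent.EB58

theorem num_step (m : ℕ) (hm : 100 ≤ m) : 2 ^ 56 * (m + 1) ^ 6 ≤ 2 ^ m := by
  induction m, hm using Nat.le_induction with
  | base => norm_num
  | succ m hm ih =>
    have h1 : 9 * (m + 1 + 1) ≤ 10 * (m + 1) := by omega
    have h2 : (9 * (m + 1 + 1)) ^ 6 ≤ (10 * (m + 1)) ^ 6 := Nat.pow_le_pow_left h1 6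
    rw [mul_pow, mul_pow] at h2
    have h3 : (m + 1 + 1) ^ 6 ≤ 2 * (m + 1) ^ 6 := by
      norm_num at h2
      omega
    calc 2 ^ 56 * (m + 1 + 1) ^ 6 ≤ 2 ^ 56 * (2 * (m + 1) ^ 6) := Nat.mul_le_mul_left _ h3
      _ = 2 * (2 ^ 56 * (m + 1) ^ 6) := by ring
      _ ≤ 2 * 2 ^ m := Nat.mul_le_mul_left _ ih
      _ = 2 ^ (m + 1) := by ring

theorem num_4000 : ∀ r : ℕ, 4000 ≤ r → 2 ^ 20 * (r + 1) ^ 6 ≤ 2 ^ (r / 20 / 2) := by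
  intro r hr
  rw [Nat.div_div_eq_div_mul, show 20 * 2 = 40 from rfl]
  have h3 : r + 1 ≤ 64 * (r / 40 + 1) := by omega
  calc 2 ^ 20 * (r + 1) ^ 6 ≤ 2 ^ 20 * (64 * (r / 40 + 1)) ^ 6 := by gcongr
    _ = 2 ^ 56 * (r / 40 + 1) ^ 6 := by ring
    _ ≤ 2 ^ (r / 40) := num_step _ (by omega)

/-- `ρ = (r / 20) / 2`. -/
theorem num_r0 : ∃ r0 : ℕ, ∀ r : ℕ, r0 ≤ r → 2 ^ 20 * (r + 1) ^ 6 ≤ 2 ^ (r / 20 / 2) :=
  ⟨4000, num_4000⟩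

end Pool.Agent.EB58
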