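import Pool.Agent.EB58.Defs

/-!
Circuits avoiding a forbidden set; covering the subspace `W = E × 0`. (module P)
-/

set_option autoImplicit false

namespace Pool.Agent.EB58

open Finset Pool.Agent.H41.Circ

section PGreedy

variable {V : Type*} [AddCommGroup V] [Module (ZMod 2) V] [DecidableEq V]

omit [DecidableEq V] in
/-- A zero-sum subset of an independent set is empty. -/
theorem zero_sum_indep {B D : Finset V} (hB : LinearIndepOn (ZMod 2) id (B : Set V)) (hD : D ⊆ B)
    (h0 : ∑ v ∈ D, v = 0) : D = ∅ := by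
  classical
  by_contra hne
  obtain ⟨x, hx⟩ := Finset.nonempty_iff_ne_empty.2 hne
  have h1 := linearIndepOn_finset_iff.1 hB (fun v => if v ∈ D then 1 else 0) (by
    have h2 : ∑ i ∈ B, (if i ∈ D then (1 : ZMod 2) else 0) • id i = ∑ v ∈ D, v := by
      rw [← Finset.sum_subset hD (f := fun i => (if i ∈ D then (1 : ZMod 2) else 0) • id i)]
      · refine Finset.sum_congr rfl fun i hi => ?_
        rw [if_pos hi, one_smul]
        rfl
      · intro i _ hi
        rw [if_neg hi, zero_smul]
    rw [h2, h0]) x (hD hx)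
  rw [if_pos hx] at h1
  exact one_ne_zero h1

theorem circuit_of_indep {B : Finset V} (hB : LinearIndepOn (ZMod 2) id (B : Set V))
    (hx : ∑ v ∈ B, v ∉ B) : IsCircuit (insert (∑ v ∈ B, v) B) := by
  refine ⟨insert_nonempty _ _, ?_, ?_⟩
  · rw [sum_insert hx]
    exact add_self' _
  · intro D hD hne h0
    set x := ∑ v ∈ B, v with hxd
    by_cases hxD : x ∈ D
    · have h1 : D.erase x ⊆ B := by
        intro y hy
        rw [mem_erase] at hy
        rcases mem_insert.1 (hD hy.2) with h | h
        · exact absurd h hy.1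
        · exact h
      have h2 : ∑ v ∈ D.erase x, v = x := by
        have h3 : x + ∑ v ∈ D.erase x, v = ∑ v ∈ D, v := Finset.add_sum_erase D (fun v => v) hxD
        rw [h0] at h3
        exact (eq_of_add_eq_zero' h3).symm
      have h4 : ∑ v ∈ B \ D.erase x, v = 0 := by
        have h3 : ∑ v ∈ B \ D.erase x, v + ∑ v ∈ D.erase x, v = ∑ v ∈ B, v :=
          Finset.sum_sdiff (f := fun v : V => v) h1
        rw [h2, ← hxd] at h3
        exact add_eq_right.1 h3
      have h5 := zero_sum_indep hB sdiff_subset h4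
      have h6 : B ⊆ D.erase x := by
        rwa [sdiff_eq_empty_iff_subset] at h5
      apply Subset.antisymm hD
      intro y hy
      rcases mem_insert.1 hy with h | h
      · rw [h]; exact hxD
      · exact (mem_erase.1 (h6 h)).2
    · have h1 : D ⊆ B := by
        intro y hy
        rcases mem_insert.1 (hD hy) with h | h
        · rw [h] at hy; exact absurd hy hxD
        · exact h
      exact absurd (zero_sum_indep hB h1 h0) hne.ne_empty

variable [Fintype V]

omit [DecidableEq V] in
open Classical in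
theorem card_span {T : Finset V} (hT : LinearIndepOn (ZMod 2) id (T : Set V)) :
    ((univ : Finset V).filter fun v => v ∈ Submodule.span (ZMod 2) (T : Set V)).card = 2 ^ T.card := by
  have h1 := finrank_span_finset_eq_card hT
  have h2 : Fintype.card (Submodule.span (ZMod 2) (T : Set V)) = 2 ^ T.card := by
    rw [Module.card_eq_pow_finrank (K := ZMod 2), ZMod.card, h1]
  rw [← h2, ← Fintype.card_subtype]

/-- One more independent vector outside `X`, such that its translate by `s` is also outside `X`. -/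
theorem exists_ins {r : ℕ} (hr : 2 ^ r ≤ Fintype.card V) {T X : Finset V} (s : V)
    (hT : LinearIndepOn (ZMod 2) id (T : Set V)) (hc : 2 ^ T.card + 2 * X.card < 2 ^ r) :
    ∃ v, v ∉ Submodule.span (ZMod 2) (T : Set V) ∧ v ∉ X ∧ v + s ∉ X := by
  classical
  by_contra hcon
  push Not at hcon
  have h1 : (univ : Finset V) ⊆ ((univ : Finset V).filter fun v => v ∈ Submodule.span (ZMod 2) (T : Set V)) ∪
      (X ∪ X.image (fun v => v + s)) := by
    intro v _
    rw [mem_union, mem_union, mem_filter, mem_image]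
    by_cases h2 : v ∈ Submodule.span (ZMod 2) (T : Set V)
    · exact Or.inl ⟨mem_univ v, h2⟩
    · by_cases h3 : v ∈ X
      · exact Or.inr (Or.inl h3)
      · refine Or.inr (Or.inr ⟨v + s, hcon v h2 h3, ?_⟩)
        rw [add_assoc, add_self', add_zero]
  have h2 := card_le_card h1
  have h3 := card_union_le ((univ : Finset V).filter fun v => v ∈ Submodule.span (ZMod 2) (T : Set V))
    (X ∪ X.image (fun v => v + s))
  have h4 := card_union_le X (X.image (fun v => v + s))
  have h5 : (X.image (fun v => v + s)).card ≤ X.card := card_image_le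
  rw [card_span hT] at h3
  rw [card_univ] at h2
  omega

theorem exists_ext {r : ℕ} (hr : 2 ^ r ≤ Fintype.card V) {T₀ X : Finset V}
    (hT₀ : LinearIndepOn (ZMod 2) id (T₀ : Set V)) (hX : 4 * X.card < 2 ^ r) (n : ℕ)
    (hn : T₀.card + n < r) :
    ∃ T : Finset V, T.card = n ∧ Disjoint T T₀ ∧ Disjoint T X ∧
      LinearIndepOn (ZMod 2) id ((T ∪ T₀ : Finset V) : Set V) := by
  induction n with
  | zero => exact ⟨∅, rfl, disjoint_empty_left _, disjoint_empty_left _, by rwa [empty_union]⟩
  | succ n ih =>
    obtain ⟨T, hT1, hT2, hT3, hT4⟩ := ih (by omega)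
    have hc : (T ∪ T₀).card = n + T₀.card := by
      rw [card_union_of_disjoint hT2, hT1]
    obtain ⟨v, hv1, hv2, _⟩ := exists_ins (X := X) hr (0 : V) hT4 (by
      rw [hc]
      have h1 : 2 ^ (n + T₀.card) * 2 ^ 2 ≤ 2 ^ r := by
        rw [← pow_add]
        exact Nat.pow_le_pow_right (by norm_num) (by omega)
      omega)
    have hvT : v ∉ T ∪ T₀ := fun h => hv1 (Submodule.subset_span (mem_coe.2 h))
    rw [mem_union, not_or] at hvT
    refine ⟨insert v T, ?_, ?_, ?_, ?_⟩
    · rw [card_insert_of_notMem hvT.1, hT1]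
    · rw [disjoint_insert_left]
      exact ⟨hvT.2, hT2⟩
    · rw [disjoint_insert_left]
      exact ⟨hv2, hT3⟩
    · rw [insert_union, coe_insert]
      exact hT4.id_insert hv1

/-- Long circuits through an independent set `T₀`, avoiding `X`. -/
theorem exists_circ {r : ℕ} (hr : 2 ^ r ≤ Fintype.card V) {T₀ X : Finset V}
    (hT₀ : LinearIndepOn (ZMod 2) id (T₀ : Set V)) (hX : 4 * X.card < 2 ^ r) (n : ℕ)
    (hn : T₀.card + n < r) (h1 : 1 ≤ T₀.card + n) :
    ∃ T : Finset V, T.card = n + 2 ∧ Disjoint T T₀ ∧ Disjoint T X ∧ IsCircuit (T ∪ T₀) ∧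
      ∃ B ⊆ T ∪ T₀, B.card = T₀.card + n + 1 ∧ LinearIndepOn (ZMod 2) id (B : Set V) := by
  obtain ⟨T, hT1, hT2, hT3, hT4⟩ := exists_ext hr hT₀ hX n hn
  have hc : (T ∪ T₀).card = n + T₀.card := by
    rw [card_union_of_disjoint hT2, hT1]
  set s := ∑ v ∈ T ∪ T₀, v with hs
  obtain ⟨v, hv1, hv2, hv3⟩ := exists_ins (X := X) hr s hT4 (by
    rw [hc]
    have h2 : 2 ^ (n + T₀.card) * 2 ^ 1 ≤ 2 ^ r := by
      rw [← pow_add]
      exact Nat.pow_le_pow_right (by norm_num) (by omega)
    omega)
  have hsS : s ∈ Submodule.span (ZMod 2) ((T ∪ T₀ : Finset V) : Set V) :=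
    Submodule.sum_mem _ (fun i hi => Submodule.subset_span (mem_coe.2 hi))
  have hs0 : s ≠ 0 := by
    intro h2
    have h3 := zero_sum_indep hT4 Subset.rfl h2
    rw [h3, card_empty] at hc
    omega
  have hvs : v + s ∉ Submodule.span (ZMod 2) ((T ∪ T₀ : Finset V) : Set V) := by
    intro h2
    exact hv1 ((Submodule.add_mem_iff_left _ hsS).1 h2)
  have hvT : v ∉ T ∪ T₀ := fun h => hv1 (Submodule.subset_span (mem_coe.2 h))
  have hvsT : v + s ∉ T ∪ T₀ := fun h => hvs (Submodule.subset_span (mem_coe.2 h))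
  have hne : v + s ≠ v := by
    intro h2
    exact hs0 (add_eq_left.1 h2)
  have hB : LinearIndepOn (ZMod 2) id ((insert v (T ∪ T₀) : Finset V) : Set V) := by
    rw [coe_insert]
    exact hT4.id_insert hv1
  have hBs : ∑ u ∈ insert v (T ∪ T₀), u = v + s := by
    rw [sum_insert hvT]
  have hcirc := circuit_of_indep hB (by
    rw [hBs, mem_insert, not_or]
    exact ⟨hne, hvsT⟩)
  rw [hBs] at hcirc
  rw [mem_union, not_or] at hvT hvsT
  refine ⟨insert (v + s) (insert v T), ?_, ?_, ?_, ?_, insert v (T ∪ T₀), ?_, ?_, hB⟩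
  · rw [card_insert_of_notMem, card_insert_of_notMem hvT.1, hT1]
    rw [mem_insert, not_or]
    exact ⟨hne, hvsT.1⟩
  · rw [disjoint_insert_left, disjoint_insert_left]
    exact ⟨hvsT.2, hvT.2, hT2⟩
  · rw [disjoint_insert_left, disjoint_insert_left]
    exact ⟨hv3, hv2, hT3⟩
  · rw [insert_union, insert_union]
    exact hcirc
  · rw [insert_union, insert_union]
    exact subset_insert _ _
  · rw [card_insert_of_notMem (by rw [mem_union, not_or]; exact hvT), hc]
    omega

end PGreedy

private theorem P_card {V : Type} [AddCommGroup V] [Module (ZMod 2) V] [Fintype V] {r : ℕ}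
    (hr : Module.finrank (ZMod 2) V = r) : Fintype.card V = 2 ^ r := by
  rw [Module.card_eq_pow_finrank (K := ZMod 2), ZMod.card, hr]

/-- A full circuit through `z`, the other elements outside `Fb`. -/
theorem exists_full_through {V : Type} [AddCommGroup V] [Module (ZMod 2) V] [Fintype V]
    [DecidableEq V] {r : ℕ} (hr : Module.finrank (ZMod 2) V = r) (hr2 : 2 ≤ r)
    (Fb : Finset V) (hFb : 8 * Fb.card < 2 ^ r) {z : V} (hz : z ≠ 0) :
    ∃ C : Finset V, Full r C ∧ z ∈ C ∧ Disjoint (C.erase z) Fb := by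
  have hT₀ : LinearIndepOn (ZMod 2) id ((({z} : Finset V)) : Set V) := by
    rw [coe_singleton]
    exact LinearIndepOn.singleton hz
  obtain ⟨T, hT1, hT2, hT3, hT4, B, hB, hBc, hBi⟩ := exists_circ (X := Fb) (P_card hr).ge hT₀
    (by omega) (r - 2) (by rw [card_singleton]; omega) (by rw [card_singleton]; omega)
  rw [card_singleton] at hBc
  have hzT : z ∉ T := by
    rw [disjoint_singleton_right] at hT2
    exact hT2
  refine ⟨T ∪ {z}, ⟨?_, hT4.2.1, ?_⟩, ?_, ?_⟩
  · rw [card_union_of_disjoint hT2, card_singleton, hT1]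
    omega
  · have h1 : Submodule.span (ZMod 2) (B : Set V) = ⊤ := by
      apply Submodule.eq_top_of_finrank_eq
      rw [finrank_span_finset_eq_card hBi, hr]
      omega
    rw [eq_top_iff, ← h1]
    exact Submodule.span_mono (coe_subset.2 hB)
  · exact mem_union_right _ (mem_singleton_self z)
  · rw [disjoint_left]
    intro x hx hx'
    rw [mem_erase, mem_union, mem_singleton] at hx
    rcases hx.2 with h | h
    · exact disjoint_left.1 hT3 h hx'
    · exact hx.1 h

/-- Circuits of every size `3 ≤ l ≤ r + 1` outside `Fb`. -/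
theorem exists_circuit_card {V : Type} [AddCommGroup V] [Module (ZMod 2) V] [Fintype V]
    [DecidableEq V] {r : ℕ} (hr : Module.finrank (ZMod 2) V = r) {l : ℕ} (h3 : 3 ≤ l)
    (hl : l ≤ r + 1) (Fb : Finset V) (hFb : 8 * Fb.card < 2 ^ r) :
    ∃ C : Finset V, IsCircuit C ∧ C.card = l ∧ Disjoint C Fb := by
  have hT₀ : LinearIndepOn (ZMod 2) id (((∅ : Finset V)) : Set V) := by
    rw [coe_empty]
    exact linearIndepOn_empty (ZMod 2) id
  obtain ⟨T, hT1, hT2, hT3, hT4, _⟩ := exists_circ (X := Fb) (P_card hr).ge hT₀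
    (by omega) (l - 2) (by rw [card_empty]; omega) (by rw [card_empty]; omega)
  rw [union_empty] at hT4
  exact ⟨T, hT4, by omega, hT3⟩

private theorem P_cover {m k r : ℕ} (hr : r = m + k) (hr2 : 2 ≤ r)
    {F : Type} [Field F] [Fintype F] [DecidableEq F] [Algebra (ZMod 2) F]
    (hF : Fintype.card F = 2 ^ k)
    (M : Finset (E m × F)) (h0 : (0 : E m × F) ∉ M) (X0 : ℕ) (hX0 : 0 < X0)
    (hbig : 8 * ((univ \ M).card + 2 ^ m + (r + 1) * 2 ^ m + ((r + 1) * 2 ^ m / X0 + 1) * 2 ^ m)
      < 2 ^ r) (S : Finset (E m × F)) (hS : S ⊆ M.filter fun x => x.2 = 0) :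
    ∃ Cs : Finset (Finset (E m × F)), Cs.card = S.card ∧ (∀ C ∈ Cs, Full r C ∧ C ⊆ M) ∧
      (Cs : Set (Finset (E m × F))).PairwiseDisjoint id ∧ S ⊆ Cs.biUnion id ∧
      (∀ x ∈ Cs.biUnion id, x.2 = 0 → x ∈ S) ∧
      ∀ c : F, c ≠ 0 → ((Cs.biUnion id).filter fun x => x.2 = c).card ≤ X0 + r + 1 := by
  have hcV : Fintype.card (E m × F) = 2 ^ r := by
    rw [Fintype.card_prod, hF, hr, pow_add]
    congr 1
    rw [Fintype.card_fun, ZMod.card, Fintype.card_fin]
  have hfr : Module.finrank (ZMod 2) (E m × F) = r := by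
    have h1 := Module.card_eq_pow_finrank (K := ZMod 2) (V := E m × F)
    rw [hcV, ZMod.card] at h1
    exact (Nat.pow_right_injective (le_refl 2) h1).symm
  have hfib : ∀ c : F, ((univ : Finset (E m × F)).filter fun x => x.2 = c).card = 2 ^ m := by
    intro c
    have h1 : ((univ : Finset (E m × F)).filter fun x => x.2 = c) = (univ : Finset (E m)) ×ˢ {c} := by
      ext x
      rw [mem_filter, mem_product, mem_singleton]
      exact ⟨fun h => ⟨mem_univ _, h.2⟩, fun h => ⟨mem_univ _, h.2⟩⟩
    rw [h1, card_product, card_singleton, mul_one, card_univ, Fintype.card_fun, ZMod.card,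
      Fintype.card_fin]
  have hWc : (M.filter fun x => x.2 = 0).card ≤ 2 ^ m := by
    rw [← hfib 0]
    exact card_le_card (filter_subset_filter _ (subset_univ M))
  induction S using Finset.induction_on with
  | empty =>
    refine ⟨∅, rfl, by simp, by simp, by simp, by simp, ?_⟩
    intro c _
    simp
  | insert z S hzS ih =>
    obtain ⟨Cs, h1, h2, h3, h4, h5, h6⟩ := ih ((subset_insert z S).trans hS)
    have hz := mem_filter.1 (hS (mem_insert_self z S))
    have hz0 : z ≠ 0 := by
      rintro rfl
      exact h0 hz.1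
    have hSc : S.card + 1 ≤ 2 ^ m := by
      have h7 := card_le_card hS
      rw [card_insert_of_notMem hzS] at h7
      omega
    set used := Cs.biUnion id with hused
    have huc : used.card ≤ (r + 1) * 2 ^ m := by
      have h7 : used.card ≤ Cs.card * (r + 1) := by
        refine card_biUnion_le_card_mul Cs id (r + 1) (fun C hC => ?_)
        exact (h2 C hC).1.1.le
      calc used.card ≤ Cs.card * (r + 1) := h7
        _ ≤ 2 ^ m * (r + 1) := Nat.mul_le_mul_right _ (by omega)
        _ = _ := mul_comm _ _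
    set sat := (univ : Finset F).filter fun c => X0 < (used.filter fun x => x.2 = c).card with hsat
    have hsc : sat.card ≤ (r + 1) * 2 ^ m / X0 := by
      rw [Nat.le_div_iff_mul_le hX0]
      have h7 : sat.card * X0 ≤ ∑ c ∈ sat, (used.filter fun x => x.2 = c).card := by
        rw [← smul_eq_mul]
        refine Finset.card_nsmul_le_sum _ _ _ (fun c hc => ?_)
        exact (mem_filter.1 hc).2.le
      have h8 : ∑ c ∈ sat, (used.filter fun x => x.2 = c).card ≤ used.card := by
        rw [← card_biUnion]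
        · refine card_le_card ?_
          intro x hx
          rw [mem_biUnion] at hx
          obtain ⟨c, _, hc⟩ := hx
          exact (mem_filter.1 hc).1
        · intro c _ c' _ hcc
          refine disjoint_left.2 ?_
          intro x hx hx'
          exact hcc ((mem_filter.1 hx).2.symm.trans (mem_filter.1 hx').2)
      omega
    set Fb := (univ \ M) ∪ (((univ : Finset (E m × F)).filter fun x => x.2 = 0) ∪ (used ∪
      (univ : Finset (E m × F)).filter fun x => x.2 ∈ sat)) with hFbd
    have hFbc : 8 * Fb.card < 2 ^ r := by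
      have c1 := card_union_le (univ \ M) (((univ : Finset (E m × F)).filter fun x => x.2 = 0) ∪
        (used ∪ (univ : Finset (E m × F)).filter fun x => x.2 ∈ sat))
      have c2 := card_union_le ((univ : Finset (E m × F)).filter fun x => x.2 = 0)
        (used ∪ (univ : Finset (E m × F)).filter fun x => x.2 ∈ sat)
      have c3 := card_union_le used ((univ : Finset (E m × F)).filter fun x => x.2 ∈ sat)
      rw [hfib 0] at c2
      have c4 : ((univ : Finset (E m × F)).filter fun x => x.2 ∈ sat).card ≤
          ((r + 1) * 2 ^ m / X0 + 1) * 2 ^ m := by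
        have c5 : ((univ : Finset (E m × F)).filter fun x => x.2 ∈ sat) =
            (univ : Finset (E m)) ×ˢ sat := by
          ext x
          simp
        rw [c5, card_product, card_univ, Fintype.card_fun, ZMod.card, Fintype.card_fin, mul_comm]
        exact Nat.mul_le_mul_right _ (by omega)
      rw [hFbd]
      omega
    obtain ⟨C, hC, hzC, hCF⟩ := exists_full_through hfr hr2 Fb hFbc hz0
    have hout : ∀ x ∈ C, x ≠ z → x ∈ M ∧ x.2 ≠ 0 ∧ x ∉ used ∧ x.2 ∉ sat := by
      intro x hx hxz
      have h7 := disjoint_left.1 hCF (mem_erase.2 ⟨hxz, hx⟩)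
      rw [hFbd, mem_union, mem_union, mem_union, mem_sdiff, mem_filter, mem_filter] at h7
      simp only [mem_univ, true_and, not_or, not_not] at h7
      exact h7
    have hCM : C ⊆ M := by
      intro x hx
      by_cases hxz : x = z
      · rw [hxz]; exact hz.1
      · exact (hout x hx hxz).1
    have hCu : Disjoint C used := by
      rw [disjoint_left]
      intro x hx hx'
      by_cases hxz : x = z
      · rw [hxz] at hx'
        exact hzS (h5 z hx' hz.2)
      · exact (hout x hx hxz).2.2.1 hx'
    have hCCs : C ∉ Cs := by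
      intro h7
      have h8 : z ∈ used := by
        rw [hused, mem_biUnion]
        exact ⟨C, h7, hzC⟩
      exact hzS (h5 z h8 hz.2)
    refine ⟨insert C Cs, ?_, ?_, ?_, ?_, ?_, ?_⟩
    · rw [card_insert_of_notMem hCCs, card_insert_of_notMem hzS, h1]
    · intro D hD
      rcases mem_insert.1 hD with h7 | h7
      · rw [h7]; exact ⟨hC, hCM⟩
      · exact h2 D h7
    · rw [coe_insert, Set.pairwiseDisjoint_insert]
      refine ⟨h3, fun D hD _ => ?_⟩
      refine disjoint_of_subset_right ?_ hCu
      exact subset_biUnion_of_mem id (mem_coe.1 hD)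
    · rw [biUnion_insert]
      intro x hx
      rcases mem_insert.1 hx with h7 | h7
      · rw [h7]; exact mem_union_left _ hzC
      · exact mem_union_right _ (h4 h7)
    · intro x hx hx0
      rw [biUnion_insert, mem_union] at hx
      rcases hx with hx | hx
      · by_cases hxz : x = z
        · rw [hxz]; exact mem_insert_self _ _
        · exact absurd hx0 (hout x hx hxz).2.1
      · exact mem_insert_of_mem (h5 x hx hx0)
    · intro c hc
      rw [biUnion_insert, filter_union]
      have h7 := card_union_le (C.filter fun x => x.2 = c) (used.filter fun x => x.2 = c)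
      by_cases hcs : c ∈ sat
      · have h8 : (C.filter fun x => x.2 = c) = ∅ := by
          rw [filter_eq_empty_iff]
          intro x hx hxc
          by_cases hxz : x = z
          · rw [hxz, hz.2] at hxc
            exact hc hxc.symm
          · exact (hout x hx hxz).2.2.2 (hxc ▸ hcs)
        show (C.filter (fun x => x.2 = c) ∪ used.filter (fun x => x.2 = c)).card ≤ _
        rw [h8, empty_union]
        exact h6 c hc
      · have h8 : (used.filter fun x => x.2 = c).card ≤ X0 := by
          by_contra hcon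
          exact hcs (mem_filter.2 ⟨mem_univ _, by omega⟩)
        have h9 := card_filter_le C (fun x => x.2 = c)
        rw [hC.1] at h9
        refine h7.trans ?_
        omega

/-- Cover all elements of `M` in `W = E × 0` by disjoint full circuits inside `M`, using at most
`X0 + r + 1` elements of every coset `c ≠ 0` of `W`. (One circuit for each element of `M ∩ W`,
its other elements outside `W`, outside the used ones and outside the cosets which already have
more than `X0` used elements.) -/
theorem exists_cover {m k r : ℕ} (hr : r = m + k) (hr2 : 2 ≤ r)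
    {F : Type} [Field F] [Fintype F] [DecidableEq F] [Algebra (ZMod 2) F]
    (hF : Fintype.card F = 2 ^ k)
    (M : Finset (E m × F)) (h0 : (0 : E m × F) ∉ M) (X0 : ℕ) (hX0 : 0 < X0)
    (hbig : 8 * ((univ \ M).card + 2 ^ m + (r + 1) * 2 ^ m + ((r + 1) * 2 ^ m / X0 + 1) * 2 ^ m)
      < 2 ^ r) :
    ∃ (q : ℕ) (C : Fin q → Finset (E m × F)), (∀ i, Full r (C i) ∧ C i ⊆ M) ∧
      (Pairwise fun i j => Disjoint (C i) (C j)) ∧
      (∀ x ∈ M, x.2 = 0 → ∃ i, x ∈ C i) ∧
      ∀ c : F, c ≠ 0 → (((univ : Finset (Fin q)).biUnion C).filter fun x => x.2 = c).card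
        ≤ X0 + r + 1 := by
  obtain ⟨Cs, _, h2, h3, h4, _, h6⟩ := P_cover hr hr2 hF M h0 X0 hX0 hbig
    (M.filter fun x => x.2 = 0) Subset.rfl
  have hU : (univ : Finset (Fin Cs.card)).biUnion (fun i => ((Cs.equivFin.symm i : Cs) :
      Finset (E m × F))) = Cs.biUnion id := by
    ext x
    rw [mem_biUnion, mem_biUnion]
    constructor
    · rintro ⟨i, _, hi⟩
      exact ⟨_, (Cs.equivFin.symm i).2, hi⟩
    · rintro ⟨D, hD, hx⟩
      refine ⟨Cs.equivFin ⟨D, hD⟩, mem_univ _, ?_⟩
      rw [Equiv.symm_apply_apply]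
      exact hx
  refine ⟨Cs.card, fun i => ((Cs.equivFin.symm i : Cs) : Finset (E m × F)), ?_, ?_, ?_, ?_⟩
  · intro i
    exact h2 _ (Cs.equivFin.symm i).2
  · intro i j hij
    refine h3 (mem_coe.2 (Cs.equivFin.symm i).2) (mem_coe.2 (Cs.equivFin.symm j).2) ?_
    intro h7
    exact hij (Cs.equivFin.symm.injective (Subtype.ext h7))
  · intro x hx hx0
    have h7 := h4 (mem_filter.2 ⟨hx, hx0⟩)
    rw [← hU, mem_biUnion] at h7
    obtain ⟨i, _, hi⟩ := h7
    exact ⟨i, hi⟩
  · intro c hc
    rw [hU]
    exact h6 c hc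

end Pool.Agent.EB58
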