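import Pool.Agent.EB58.Sp4

/-!
Auxiliary statements for the assembly of regime 1.
-/

set_option autoImplicit false

namespace Pool.Agent.EB58

open Finset Pool.Agent.H41.Circ

theorem pack_append {V : Type} [AddCommGroup V] [Module (ZMod 2) V] [DecidableEq V] {r : ℕ}
    {M : Finset V} {s t : ℕ} (C : Fin s → Finset V) (D : Fin t → Finset V)
    (hC : ∀ i, Full r (C i) ∧ C i ⊆ M) (hD : ∀ i, Full r (D i) ∧ D i ⊆ M)
    (hCC : Pairwise fun i j => Disjoint (C i) (C j)) (hDD : Pairwise fun i j => Disjoint (D i) (D j))
    (hCD : ∀ i j, Disjoint (C i) (D j)) : Pack r M (s + t) := by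
  refine ⟨Fin.addCases C D, ?_, ?_⟩
  · intro i
    refine Fin.addCases (fun i => ?_) (fun i => ?_) i
    · simp only [Fin.addCases_left]; exact hC i
    · simp only [Fin.addCases_right]; exact hD i
  · intro i j
    refine Fin.addCases (fun i => ?_) (fun i => ?_) i <;>
      refine Fin.addCases (fun j => ?_) (fun j => ?_) j <;> intro hij
    · simp only [Fin.addCases_left]
      exact hCC fun h => hij (by rw [h])
    · simp only [Fin.addCases_left, Fin.addCases_right]
      exact hCD i j
    · simp only [Fin.addCases_left, Fin.addCases_right]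
      exact (hCD j i).symm
    · simp only [Fin.addCases_right]
      exact hDD fun h => hij (by rw [h])

theorem card_bounds {m X : ℕ} {F : Type} [Field F] [Fintype F] [DecidableEq F]
    (M : Finset (E m × F)) (hM0 : ∀ y ∈ M, y.2 ≠ 0)
    (hX : ∀ c : F, c ≠ 0 → ((univ : Finset (E m)).filter fun x => (x, c) ∉ M).card ≤ X) :
    M.card ≤ (Fintype.card F - 1) * 2 ^ m ∧
      (Fintype.card F - 1) * 2 ^ m ≤ M.card + (Fintype.card F - 1) * X := by
  have hE : Fintype.card (E m) = 2 ^ m := by simp
  have h1 : M.card = ∑ c ∈ univ.erase (0 : F), (M.filter fun y => y.2 = c).card :=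
    Finset.card_eq_sum_card_fiberwise (fun y hy => by
      simp only [Finset.coe_erase, Finset.coe_univ]
      exact ⟨Set.mem_univ _, hM0 y hy⟩)
  have h2 : ∀ c : F, (M.filter fun y => y.2 = c).card +
      ((univ : Finset (E m)).filter fun x => (x, c) ∉ M).card = 2 ^ m := by
    intro c
    have e1 : (M.filter fun y => y.2 = c).card =
        ((univ : Finset (E m)).filter fun x => (x, c) ∈ M).card := by
      refine Finset.card_bij' (fun y _ => y.1) (fun x _ => (x, c)) ?_ ?_ ?_ ?_
      · intro y hy
        rw [Finset.mem_filter] at hy ⊢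
        refine ⟨Finset.mem_univ _, ?_⟩
        rw [← hy.2]; exact hy.1
      · intro x hx
        rw [Finset.mem_filter] at hx ⊢
        exact ⟨hx.2, rfl⟩
      · intro y hy
        exact Prod.ext rfl (Finset.mem_filter.mp hy).2.symm
      · intro x _
        rfl
    have e2 := Finset.card_filter_add_card_filter_not (s := (univ : Finset (E m)))
      (p := fun x => (x, c) ∈ M)
    rw [Finset.card_univ, hE] at e2
    rw [e1]; exact e2
  have h3 : (univ.erase (0 : F)).card = Fintype.card F - 1 := by
    rw [Finset.card_erase_of_mem (Finset.mem_univ _), Finset.card_univ]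
  constructor
  · rw [h1, ← h3, ← smul_eq_mul]
    refine Finset.sum_le_card_nsmul _ _ _ fun c _ => ?_
    have := h2 c
    omega
  · have h4 : (univ.erase (0 : F)).card * 2 ^ m =
        ∑ c ∈ univ.erase (0 : F), ((M.filter fun y => y.2 = c).card +
          ((univ : Finset (E m)).filter fun x => (x, c) ∉ M).card) := by
      rw [Finset.sum_congr rfl fun c _ => h2 c, Finset.sum_const, smul_eq_mul]
    rw [← h3, h4, Finset.sum_add_distrib, ← h1]
    refine Nat.add_le_add_left ?_ _
    rw [← smul_eq_mul]
    refine Finset.sum_le_card_nsmul _ _ _ fun c hc => ?_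
    exact hX c (Finset.mem_erase.mp hc).1

theorem sum_piece {m : ℕ} (S : Finset (Fin m)) (A : Fin m) (hA : A ∉ S) (a b c : ℕ) :
    ∑ t : Fin m, (if t ∈ S then a else if t = A then b else c)
      = S.card * a + b + (m - 1 - S.card) * c := by
  have h1 : (univ : Finset (Fin m)) = (insert A S) ∪ (univ \ insert A S) := by
    rw [Finset.union_sdiff_of_subset (Finset.subset_univ _)]
  have h2 : ∑ t ∈ insert A S, (if t ∈ S then a else if t = A then b else c) = b + S.card * a := by
    rw [Finset.sum_insert hA, if_neg hA, if_pos rfl]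
    congr 1
    rw [Finset.sum_congr rfl fun t ht => if_pos ht, Finset.sum_const, smul_eq_mul]
  have h3 : ∑ t ∈ univ \ insert A S, (if t ∈ S then a else if t = A then b else c)
      = (m - 1 - S.card) * c := by
    have h4 : ∀ t ∈ univ \ insert A S, (if t ∈ S then a else if t = A then b else c) = c := by
      intro t ht
      rw [Finset.mem_sdiff, Finset.mem_insert, not_or] at ht
      rw [if_neg ht.2.2, if_neg ht.2.1]
    rw [Finset.sum_congr rfl h4, Finset.sum_const, smul_eq_mul,
      Finset.card_sdiff_of_subset (Finset.subset_univ _), Finset.card_univ, Fintype.card_fin,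
      Finset.card_insert_of_notMem hA]
    congr 1
    omega
  rw [h1, Finset.sum_union Finset.disjoint_sdiff, h2, h3]
  ring

theorem sum_ee_on (m : ℕ) : ∑ t : Fin m, ee t = on m := by
  funext j
  rw [Finset.sum_apply]
  simp only [ee, on]
  rw [Finset.sum_eq_single j]
  · simp
  · intro t _ ht
    exact Pi.single_eq_of_ne (Ne.symm ht) _
  · intro h; exact absurd (Finset.mem_univ _) h

/-- The total sum of the items vanishes. -/
theorem sum_rest {m : ℕ} {F : Type} [Field F] [Algebra (ZMod 2) F]
    (S : Finset (Fin m)) (A : Fin m) (hA : A ∉ S) (q s : ℕ) (hs : s ≤ q) :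
    ∑ t : Fin m, (if t ∈ S then q else if t = A then q + s else q - s) • ((ee t, 0) : E m × F)
      + (q - s) • ((on m, 0) : E m × F) + s • ∑ t ∈ S, ((ee t, 0) : E m × F) = 0 := by
  have h1 : ((on m, 0) : E m × F) = ∑ t : Fin m, ((ee t, 0) : E m × F) := by
    rw [Prod.ext_iff]
    constructor
    · rw [Prod.fst_sum]; exact (sum_ee_on m).symm
    · rw [Prod.snd_sum]; simp
  have h2 : ∑ t ∈ S, ((ee t, 0) : E m × F) =
      ∑ t : Fin m, (if t ∈ S then (1 : ℕ) else 0) • ((ee t, 0) : E m × F) := by
    rw [← Finset.sum_filter_add_sum_filter_not univ (fun t => t ∈ S)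
      (fun t => (if t ∈ S then (1 : ℕ) else 0) • ((ee t, 0) : E m × F))]
    have e1 : ∑ t ∈ univ.filter (fun t => ¬ t ∈ S),
        (if t ∈ S then (1 : ℕ) else 0) • ((ee t, 0) : E m × F) = 0 := by
      refine Finset.sum_eq_zero fun t ht => ?_
      rw [if_neg (Finset.mem_filter.mp ht).2, zero_smul]
    rw [e1, add_zero]
    have e2 : univ.filter (fun t => t ∈ S) = S := by ext t; simp
    rw [e2]
    refine Finset.sum_congr rfl fun t ht => ?_
    rw [if_pos ht, one_smul]
  rw [h1, h2, Finset.smul_sum, Finset.smul_sum, ← Finset.sum_add_distrib,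
    ← Finset.sum_add_distrib]
  refine Finset.sum_eq_zero fun t _ => ?_
  have hdbl : ∀ (n : ℕ) (x : E m × F), (n + n) • x = 0 := by
    intro n x
    rw [add_smul, add_self']
  rw [smul_smul, ← add_smul, ← add_smul]
  by_cases ht : t ∈ S
  · rw [if_pos ht, if_pos ht]
    have : q + (q - s) + s * 1 = q + q := by omega
    rw [this, hdbl]
  · rw [if_neg ht, if_neg ht]
    by_cases htA : t = A
    · rw [if_pos htA]
      have : q + s + (q - s) + s * 0 = q + q := by omega
      rw [this, hdbl]
    · rw [if_neg htA]
      have : q - s + (q - s) + s * 0 = (q - s) + (q - s) := by omega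
      rw [this, hdbl]

end Pool.Agent.EB58
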