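import Mathlib

/-!
Inequalities for the assembly of regime 1. All numbers are naturals.
`N = r + 1`, `P = 2^ρ`, `H = 2^(m-ρ-1)`, `L = 2^(m - 2 a0)`, `Q = 2^k - 1`.
-/

set_option autoImplicit false

namespace Pool.Agent.EB58

theorem r1_X {P H X : ℕ} (hP : 192 ≤ P) (hH : 4 ≤ H) (h : X * P ≤ 32 * H) : 3 * X + 2 ≤ H := by
  have h1 : P * (3 * X + 2) ≤ P * H := by
    have h2 : P * (3 * X + 2) = 3 * (X * P) + 2 * P := by ring
    rw [h2]
    have h3 : 192 * H ≤ P * H := Nat.mul_le_mul_right _ hP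
    have h4 : P * 4 ≤ P * H := Nat.mul_le_mul_left _ hH
    omega
  exact Nat.le_of_mul_le_mul_left h1 (by omega)

/-- bounds for `g0` and `q1` -/
theorem r1_g {N P H X q1 g0 : ℕ} (hN : 1 ≤ N) (hH : 0 < H) (hX : 3 * X + 2 ≤ H)
    (h4 : N * q1 ≤ 2 * P * H) (h5 : 2 * P * H ≤ N * q1 + N + X)
    (h6 : 2 * g0 * H ≤ q1 + 3 * X + 1 + 2 * H) (h7 : q1 + 3 * X + 1 ≤ 2 * g0 * H) :
    N * (2 * g0) ≤ 2 * P + 3 * N ∧ P ≤ N * g0 := by
  constructor
  · have h : (N * (2 * g0)) * H ≤ (2 * P + 3 * N) * H := by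
      have e1 : (N * (2 * g0)) * H = N * (2 * g0 * H) := by ring
      have e2 := Nat.mul_le_mul_left N h6
      have e3 : N * (q1 + 3 * X + 1 + 2 * H) = N * q1 + N * (3 * X + 1) + N * (2 * H) := by ring
      have e4 : N * (3 * X + 1) ≤ N * H := Nat.mul_le_mul_left _ (by omega)
      have e5 : (2 * P + 3 * N) * H = 2 * P * H + N * H + N * (2 * H) := by ring
      rw [e1, e5]
      omega
    exact Nat.le_of_mul_le_mul_right h hH
  · by_contra hlt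
    push Not at hlt
    have e1 : (N * g0 + 1) * (2 * H) ≤ P * (2 * H) := Nat.mul_le_mul_right _ hlt
    have e2 : P * (2 * H) = 2 * P * H := by ring
    have e3 : (N * g0 + 1) * (2 * H) = N * (2 * g0 * H) + 2 * H := by ring
    have e4 := Nat.mul_le_mul_left N h7
    have e5 : N * (q1 + 3 * X + 1) = N * q1 + N * (3 * X + 1) := by ring
    have e6 : N * 1 ≤ N * (3 * X + 1) := Nat.mul_le_mul_left _ (by omega)
    omega

theorem r1_q1 {N P H X q1 : ℕ} (hN : 2 ≤ N) (hNH : N ≤ H) (hX : 3 * X + 2 ≤ H)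
    (hP : 2 ^ 20 * N ^ 6 ≤ P) (h5 : 2 * P * H ≤ N * q1 + N + X) :
    2 ^ 20 * N ^ 5 * H ≤ q1 := by
  have h1 : N * (2 ^ 20 * N ^ 5 * H) ≤ N * q1 := by
    have e1 : N * (2 ^ 20 * N ^ 5 * H) = 2 ^ 20 * N ^ 6 * H := by ring
    rw [e1]
    have e2 : 2 ^ 20 * N ^ 6 * H ≤ P * H := Nat.mul_le_mul_right _ hP
    have e3 : 2 * P * H = P * H + P * H := by ring
    have e4 : 2 ≤ P := by
      have : 1 ≤ N ^ 6 := Nat.one_le_pow _ _ (by omega)
      omega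
    have e5 : 2 * H ≤ P * H := Nat.mul_le_mul_right _ e4
    omega
  exact Nat.le_of_mul_le_mul_left h1 (by omega)

theorem r1_hn {N m k H q1 : ℕ} (hN : 2 ≤ N) (hH : 1 ≤ H) (hm : m ≤ N) (hk : k ≤ N)
    (hq : 2 ^ 20 * N ^ 5 * H ≤ q1) :
    m * (m * k) * (136 * N * H + 1 + m * k + 4) ≤ q1 - 4 * N * H := by
  have hmk : m * k ≤ N * N := Nat.mul_le_mul hm hk
  have h1 : m * (m * k) ≤ N * (N * N) := Nat.mul_le_mul hm hmk
  have h2 : 136 * N * H + 1 + m * k + 4 ≤ 142 * (N * N) * H := by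
    have e0 : 1 ≤ N * N := Nat.one_le_iff_ne_zero.mpr (by positivity)
    have e1 : N * H ≤ N * N * H := by
      have : N * 1 ≤ N * N := Nat.mul_le_mul_left _ (by omega)
      rw [mul_one] at this
      exact Nat.mul_le_mul_right _ this
    have e2 : 1 ≤ N * N * H := Nat.one_le_iff_ne_zero.mpr (by positivity)
    have e3 : N * N ≤ N * N * H := Nat.le_mul_of_pos_right _ hH
    have e4 : 136 * N * H = 136 * (N * H) := by ring
    have e5 : 142 * (N * N) * H = 142 * (N * N * H) := by ring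
    rw [e4, e5]
    omega
  have h3 : m * (m * k) * (136 * N * H + 1 + m * k + 4) ≤ N * (N * N) * (142 * (N * N) * H) :=
    Nat.mul_le_mul h1 h2
  have h4 : N * (N * N) * (142 * (N * N) * H) = 142 * (N ^ 5 * H) := by ring
  have h5 : 4 * N * H ≤ 4 * (N ^ 5 * H) := by
    have : N * H ≤ N ^ 5 * H := Nat.mul_le_mul_right _ (Nat.le_self_pow (by norm_num) N)
    have e : 4 * N * H = 4 * (N * H) := by ring
    omega
  have h6 : 2 ^ 20 * N ^ 5 * H = 2 ^ 20 * (N ^ 5 * H) := by ring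
  have h7 : 2 ^ 20 * (N ^ 5 * H) = 1048576 * (N ^ 5 * H) := by norm_num
  omega

/-- links -/
theorem r1_big1 {N H L Q : ℕ} (hN : 2 ≤ N) (hL : 2 ^ 15 * N ^ 4 * H ≤ L) (hH : 1 ≤ H)
    (hQ : 2 ^ 19 * N ^ 6 ≤ Q) {T : ℕ} (hT : T ≤ 64 * N ^ 2 * L) :
    8 * (4 * N * H * Q) + 8 * T + 2 * L * (Q / 16) < L * (Q - 1) - 12 * H * Q := by
  have hN4 : N ≤ N ^ 4 := Nat.le_self_pow (by norm_num) N
  have hL1 : 2 ^ 15 * (N * H) ≤ L := by
    refine le_trans ?_ hL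
    have : N * H ≤ N ^ 4 * H := Nat.mul_le_mul_right _ hN4
    have e : 2 ^ 15 * N ^ 4 * H = 2 ^ 15 * (N ^ 4 * H) := by ring
    rw [e]
    exact Nat.mul_le_mul_left _ this
  have hL0 : 1 ≤ L := by
    have : 1 ≤ N * H := Nat.one_le_iff_ne_zero.mpr (by positivity)
    omega
  have hN2 : N ^ 2 ≤ N ^ 6 := Nat.pow_le_pow_right (by omega) (by norm_num)
  have hN6 : 1 ≤ N ^ 6 := Nat.one_le_pow _ _ (by omega)
  -- everything in terms of L * Q
  have a1 : 2 ^ 15 * (N * H) * Q ≤ L * Q := Nat.mul_le_mul_right _ hL1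
  have a2 : 2 ^ 19 * N ^ 6 * L ≤ Q * L := Nat.mul_le_mul_right _ hQ
  have a3 : N ^ 2 * L ≤ N ^ 6 * L := Nat.mul_le_mul_right _ hN2
  have a4 : 16 * (L * (Q / 16)) ≤ L * Q := by
    have : 16 * (L * (Q / 16)) = L * (16 * (Q / 16)) := by ring
    rw [this]
    exact Nat.mul_le_mul_left _ (Nat.mul_div_le Q 16)
  have a5 : H * Q ≤ N * H * Q := by
    have : 1 * H ≤ N * H := Nat.mul_le_mul_right _ (by omega)
    rw [one_mul] at this
    exact Nat.mul_le_mul_right _ this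
  have a6 : L * 1 ≤ N ^ 6 * L := by rw [mul_comm]; exact Nat.mul_le_mul_right _ hN6
  have b1 : 8 * (4 * N * H * Q) = 32 * (N * H * Q) := by ring
  have b2 : 2 ^ 15 * (N * H) * Q = 32768 * (N * H * Q) := by norm_num; ring
  have b3 : 2 ^ 19 * N ^ 6 * L = 524288 * (N ^ 6 * L) := by norm_num; ring
  have b4 : 64 * N ^ 2 * L = 64 * (N ^ 2 * L) := by ring
  have b5 : 2 * L * (Q / 16) = 2 * (L * (Q / 16)) := by ring
  have b6 : 12 * H * Q = 12 * (H * Q) := by ring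
  have b7 : L * (Q - 1) = L * Q - L := by rw [Nat.mul_sub, mul_one]
  have b8 : Q * L = L * Q := by ring
  have hNHQ : 1 ≤ N * H * Q := by
    have hQ0 : 1 ≤ Q := by omega
    exact Nat.one_le_iff_ne_zero.mpr (by positivity)
  rw [b1, b5, b6, b7]
  rw [b2] at a1
  rw [b3, b8] at a2
  rw [b4] at hT
  omega

/-- pairs -/
theorem r1_big2 {N H Q g0 Q' : ℕ} (hN : 2 ≤ N) (hH : 1 ≤ H) (hg : 2 ^ 20 * N ^ 5 ≤ g0)
    (hQ : 2 ^ 19 * N ^ 6 ≤ Q) (hQ' : 2 * Q' + 1 = Q) :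
    2 * (4 * N * H * Q) + (4 * g0 * H) * (Q / 32) + 6 * H * Q < (4 * g0 * H) * Q' := by
  have hN5 : N ≤ N ^ 5 := Nat.le_self_pow (by norm_num) N
  have hg1 : 2 ^ 20 * N ≤ g0 := le_trans (Nat.mul_le_mul_left _ hN5) hg
  have a1 : 2 ^ 20 * N * (H * Q) ≤ g0 * (H * Q) := Nat.mul_le_mul_right _ hg1
  have a2 : 32 * ((4 * g0 * H) * (Q / 32)) ≤ 4 * (g0 * (H * Q)) := by
    have : 32 * ((4 * g0 * H) * (Q / 32)) = 4 * (g0 * (H * (32 * (Q / 32)))) := by ring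
    rw [this]
    exact Nat.mul_le_mul_left _ (Nat.mul_le_mul_left _ (Nat.mul_le_mul_left _
      (Nat.mul_div_le Q 32)))
  have hN6 : 1 ≤ N ^ 6 := Nat.one_le_pow _ _ (by omega)
  have hQ8 : 8 ≤ Q := by omega
  have a3 : g0 * (H * 8) ≤ g0 * (H * Q) :=
    Nat.mul_le_mul_left _ (Nat.mul_le_mul_left _ hQ8)
  have a4 : (4 * g0 * H) * Q' + 2 * (g0 * H) = 2 * (g0 * (H * Q)) := by
    rw [← hQ']; ring
  have b1 : 2 * (4 * N * H * Q) = 8 * (N * (H * Q)) := by ring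
  have b2 : 2 ^ 20 * N * (H * Q) = 1048576 * (N * (H * Q)) := by norm_num; ring
  have b3 : g0 * (H * 8) = 8 * (g0 * H) := by ring
  have b4 : 6 * H * Q = 6 * (H * Q) := by ring
  have b5 : 1 * (H * Q) ≤ N * (H * Q) := Nat.mul_le_mul_right _ (by omega)
  have b6 : 1 ≤ H * Q := Nat.one_le_iff_ne_zero.mpr (by positivity)
  rw [b1, b4]
  rw [b2] at a1
  rw [b3] at a3
  omega

/-- moved types -/
theorem r1_h1 {N P ρ g0 Z κ gs : ℕ} (hN : 24 ≤ N) (hρ : 40 * ρ ≤ N) (hκ : κ ≤ 3) (hgs : gs ≤ g0)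
    (hP : 2 ^ 20 * N ^ 6 ≤ P) (hg : N * (2 * g0) ≤ 2 * P + 3 * N) (hZ : 2 * N * Z ≤ P) :
    2 * (ρ * (2 * g0) + κ * gs + Z + 3) < P := by
  have hκgs : κ * gs ≤ 3 * g0 := Nat.mul_le_mul hκ hgs
  have h1 : N * (2 * (ρ * (2 * g0) + 3 * g0 + Z + 3)) < N * P := by
    have e1 : N * (2 * (ρ * (2 * g0) + 3 * g0 + Z + 3))
        = (2 * ρ + 3) * (N * (2 * g0)) + 2 * N * Z + 6 * N := by ring
    have e2 : (2 * ρ + 3) * (N * (2 * g0)) ≤ (2 * ρ + 3) * (2 * P + 3 * N) :=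
      Nat.mul_le_mul_left _ hg
    have e3 : (2 * ρ + 3) * (2 * P + 3 * N) = (4 * ρ + 6) * P + (6 * ρ + 9) * N := by ring
    have e4 : (6 * ρ + 9) * N ≤ N * N := Nat.mul_le_mul_right _ (by omega)
    have e5 : N * N ≤ N ^ 6 := by
      calc N * N = N ^ 2 := by ring
        _ ≤ N ^ 6 := Nat.pow_le_pow_right (by omega) (by norm_num)
    have e6 : (4 * ρ + 6) * P + 3 * P ≤ N * P := by
      have : (4 * ρ + 9) * P ≤ N * P := Nat.mul_le_mul_right _ (by omega)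
      have e : (4 * ρ + 9) * P = (4 * ρ + 6) * P + 3 * P := by ring
      omega
    have e7 : N ≤ N ^ 6 := Nat.le_self_pow (by norm_num) N
    omega
  have h2 := Nat.lt_of_mul_lt_mul_left h1
  omega

end Pool.Agent.EB58

namespace Pool.Agent.EB58

theorem r1_sumg {m κ g0 N P : ℕ} (hκ : κ = 2 ∨ κ = 3) (hm : 4 ≤ m) (hN : N = 2 * m + κ)
    (hg : N * (2 * g0) ≤ 2 * P + 3 * N) (hg4 : 2 * N ≤ g0) :
    (m + κ - 4) * (2 * g0) + (2 * g0 + 4 * N) + (3 - κ) * (2 * g0 - 4 * N) + κ * (g0 - 2 * N)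
      ≤ P := by
  obtain ⟨m', rfl⟩ : ∃ m', m = m' + 4 := ⟨m - 4, by omega⟩
  obtain ⟨x, rfl⟩ : ∃ x, g0 = x + 2 * N := ⟨g0 - 2 * N, by omega⟩
  have e1 : 2 * (x + 2 * N) - 4 * N = 2 * x := by omega
  have e2 : x + 2 * N - 2 * N = x := by omega
  rw [e1, e2]
  rcases hκ with rfl | rfl
  · have e3 : m' + 4 + 2 - 4 = m' + 2 := by omega
    rw [e3]
    have e4 : N * (2 * (x + 2 * N)) = 4 * (m' * x) + 8 * (m' * N) + 20 * x + 40 * N := by
      rw [hN]; ring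
    have e5 : (m' + 2) * (2 * (x + 2 * N)) = 2 * (m' * x) + 4 * (m' * N) + 4 * x + 8 * N := by
      ring
    rw [e4] at hg
    rw [e5]
    omega
  · have e3 : m' + 4 + 3 - 4 = m' + 3 := by omega
    rw [e3]
    have e4 : N * (2 * (x + 2 * N)) = 4 * (m' * x) + 8 * (m' * N) + 22 * x + 44 * N := by
      rw [hN]; ring
    have e5 : (m' + 3) * (2 * (x + 2 * N)) = 2 * (m' * x) + 4 * (m' * N) + 6 * x + 12 * N := by
      ring
    rw [e4] at hg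
    rw [e5]
    omega

theorem r1_B {m κ q s N Bc : ℕ} (hκ : κ = 2 ∨ κ = 3) (hm : 4 ≤ m) (hN : N = 2 * m + κ)
    (hqs : s ≤ q)
    (h : Bc + 2 * ((m + κ - 4) * q + (q + s) + (3 - κ) * (q - s)) + κ * (q - s) = N * q) :
    Bc = (4 - κ) * s := by
  obtain ⟨m', rfl⟩ : ∃ m', m = m' + 4 := ⟨m - 4, by omega⟩
  obtain ⟨x, rfl⟩ : ∃ x, q = x + s := ⟨q - s, by omega⟩
  have e1 : x + s - s = x := by omega
  rw [e1] at h
  rcases hκ with rfl | rfl
  · have e3 : m' + 4 + 2 - 4 = m' + 2 := by omega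
    rw [e3, hN] at h
    have e4 : (2 * (m' + 4) + 2) * (x + s) = 2 * (m' * (x + s)) + 10 * (x + s) := by ring
    have e5 : (m' + 2) * (x + s) = m' * (x + s) + 2 * (x + s) := by ring
    rw [e4, e5] at h
    omega
  · have e3 : m' + 4 + 3 - 4 = m' + 3 := by omega
    rw [e3, hN] at h
    have e4 : (2 * (m' + 4) + 3) * (x + s) = 2 * (m' * (x + s)) + 11 * (x + s) := by ring
    have e5 : (m' + 3) * (x + s) = m' * (x + s) + 3 * (x + s) := by ring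
    rw [e4, e5] at h
    omega

/-- not default elements -/
theorem r1_nd {g0 H Q q q1 X c : ℕ} (hq1 : q1 * Q ≤ q)
    (h6 : 2 * g0 * H ≤ q1 + 3 * X + 1 + 2 * H) (hX : 3 * X + 2 ≤ H)
    (h : c + 2 * q = (4 * g0 * H) * Q) : c ≤ 6 * H * Q := by
  have e1 : (4 * g0 * H) * Q = 2 * ((2 * g0 * H) * Q) := by ring
  have e2 : (2 * g0 * H) * Q ≤ (q1 + 3 * H) * Q := Nat.mul_le_mul_right _ (by omega)
  have e3 : (q1 + 3 * H) * Q = q1 * Q + 3 * (H * Q) := by ring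
  have e4 : 6 * H * Q = 6 * (H * Q) := by ring
  omega

theorem r1_L {N P H L T : ℕ} (hN : 1 ≤ N) (hP : 2 ^ 20 * N ^ 6 ≤ P) (hT : T = 2 * P * H)
    (hTL : T ≤ 64 * N ^ 2 * L) : 2 ^ 15 * N ^ 4 * H ≤ L := by
  have h1 : (64 * N ^ 2) * (2 ^ 15 * N ^ 4 * H) ≤ (64 * N ^ 2) * L := by
    refine le_trans ?_ hTL
    rw [hT]
    have e1 : (64 * N ^ 2) * (2 ^ 15 * N ^ 4 * H) = 2 * (2 ^ 20 * N ^ 6) * H := by ring
    rw [e1]
    exact Nat.mul_le_mul_right _ (Nat.mul_le_mul_left _ hP)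
  exact Nat.le_of_mul_le_mul_left h1 (by positivity)

end Pool.Agent.EB58
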