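import Pool.Agent.EB58.Defs

/-!
The rest of the default pieces. (part of module D)
-/

set_option autoImplicit false

namespace Pool.Agent.EB58

open Finset

theorem rs_ee_ne {m : ℕ} (t : Fin m) : (ee t : E m) ≠ 0 := by
  intro h
  have := congrFun h t
  simp [ee] at this

theorem rs_pr_card {m : ℕ} {F : Type} [DecidableEq F] (t : Fin m) (x : E m) (c : F) :
    (pr t x c).card = 2 := by
  unfold pr
  refine card_pair ?_
  intro h
  have h1 := congrArg Prod.fst h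
  simp only at h1
  exact rs_ee_ne t (by simpa using h1.symm)

theorem rs_two {V : Type} [AddCommGroup V] [Module (ZMod 2) V] (v : V) : v + v = 0 := by
  have h : (2 : ZMod 2) • v = 0 := by
    rw [show (2 : ZMod 2) = 0 from by decide, zero_smul]
  rwa [two_smul] at h

theorem rs_pr_sum {m : ℕ} {F : Type} [Field F] [DecidableEq F] [Algebra (ZMod 2) F]
    (t : Fin m) (x : E m) (c : F) : ∑ y ∈ pr t x c, y = ((ee t, 0) : E m × F) := by
  unfold pr
  rw [sum_pair]
  · rw [Prod.mk_add_mk, rs_two c, ← add_assoc, rs_two x, zero_add]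
  · intro h
    have h1 := congrArg Prod.fst h
    simp only at h1
    exact rs_ee_ne t (by simpa using h1.symm)

theorem rs_pc_inj {m κ : ℕ} {F : Type} [Field F] (K : Core m κ F) {x : E m} (hx : x ∈ K.J) (c : F) :
    Function.Injective fun a : Fin κ => ((K.h a x, K.lam a * c) : E m × F) := by
  intro a a' h
  exact (K.h_inj a a' x hx x hx (congrArg Prod.fst h)).1

theorem rs_pc_card {m κ : ℕ} {F : Type} [Field F] [DecidableEq F] (K : Core m κ F) {x : E m}
    (hx : x ∈ K.J) (c : F) : (K.pc x c).card = κ := by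
  unfold Core.pc
  rw [card_image_of_injective _ (rs_pc_inj K hx c), card_univ, Fintype.card_fin]

theorem rs_pc_sum {m κ : ℕ} {F : Type} [Field F] [DecidableEq F] (K : Core m κ F) {x : E m}
    (hx : x ∈ K.J) (c : F) : ∑ y ∈ K.pc x c, y = ((on m, 0) : E m × F) := by
  unfold Core.pc
  rw [sum_image fun a _ a' _ h => rs_pc_inj K hx c h]
  refine Prod.ext ?_ ?_
  · rw [Prod.fst_sum]
    exact K.h_sum x hx
  · rw [Prod.snd_sum]
    show ∑ a, K.lam a * c = 0
    rw [← sum_mul, K.lam_sum, zero_mul]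

/-- The union of the default pieces: number and sum of the remaining elements of `M`. -/
theorem rest_card_sum {m κ : ℕ}
    {F : Type} [Field F] [Fintype F] [DecidableEq F] [Algebra (ZMod 2) F]
    (M : Finset (E m × F)) (hM : ∑ y ∈ M, y = 0) (K : Core m κ F) (R : Fin m → Finset (E m))
    (hR : Pairwise fun t t' => Disjoint (R t) (R t'))
    (hRK : ∀ x ∈ K.J, ∀ a t, K.h a x ∉ R t)
    (Dt : Fin m → F → Finset (E m)) (Ds : F → Finset (E m))
    (hDt : ∀ t c, ∀ x ∈ Dt t c, x ∈ R t ∧ x + ee t ∈ R t ∧ x t = 0 ∧ (x, c) ∈ M ∧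
      (x + ee t, c) ∈ M)
    (hDt0 : ∀ t, Dt t 0 = ∅) (hDs0 : Ds 0 = ∅)
    (hDs : ∀ c, ∀ x ∈ Ds c, x ∈ K.J ∧ K.pc x c ⊆ M)
    (N : Fin m → ℕ) (Ns : ℕ) (hN : ∀ t, ∑ c ∈ univ.erase (0 : F), (Dt t c).card = N t)
    (hNs : ∑ c ∈ univ.erase (0 : F), (Ds c).card = Ns) :
    ∃ B ⊆ M, B.card + 2 * ∑ t, N t + κ * Ns = M.card ∧
      ∑ y ∈ B, y = ∑ t, N t • ((ee t, 0) : E m × F) + Ns • ((on m, 0) : E m × F) ∧
      (∀ y ∈ B, ∀ t c, ∀ x ∈ Dt t c, y ∉ pr t x c) ∧
      (∀ y ∈ B, ∀ c, ∀ x ∈ Ds c, y ∉ K.pc x c) := by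
  classical
  set T1 : Finset ((_ : Fin m × F) × E m) :=
    (univ : Finset (Fin m × F)).sigma fun p => Dt p.1 p.2 with hT1
  set T2 : Finset ((_ : F) × E m) := (univ : Finset F).sigma fun c => Ds c with hT2
  set f1 : ((_ : Fin m × F) × E m) → Finset (E m × F) := fun p => pr p.1.1 p.2 p.1.2 with hf1
  set f2 : ((_ : F) × E m) → Finset (E m × F) := fun p => K.pc p.2 p.1 with hf2
  have hm1 : ∀ p, p ∈ T1 ↔ p.2 ∈ Dt p.1.1 p.1.2 := by
    intro p; rw [hT1, mem_sigma]; simp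
  have hm2 : ∀ p, p ∈ T2 ↔ p.2 ∈ Ds p.1 := by
    intro p; rw [hT2, mem_sigma]; simp
  -- elements of the pieces
  have hel1 : ∀ p ∈ T1, ∀ y ∈ f1 p, y.1 ∈ R p.1.1 ∧ y.2 = p.1.2 ∧ y ∈ M ∧
      Function.update y.1 p.1.1 0 = p.2 := by
    intro p hp y hy
    obtain ⟨h1, h2, h3, h4, h5⟩ := hDt _ _ _ ((hm1 p).mp hp)
    simp only [hf1, pr, mem_insert, mem_singleton] at hy
    rcases hy with rfl | rfl
    · refine ⟨h1, rfl, h4, ?_⟩
      funext j
      by_cases hj : j = p.1.1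
      · rw [hj, Function.update_self]; exact h3.symm
      · rw [Function.update_of_ne hj]
    · refine ⟨h2, rfl, h5, ?_⟩
      funext j
      by_cases hj : j = p.1.1
      · rw [hj, Function.update_self]; exact h3.symm
      · rw [Function.update_of_ne hj]
        simp [ee, Pi.single_eq_of_ne hj]
  have hel2 : ∀ p ∈ T2, ∀ y ∈ f2 p, ∃ a, y = (K.h a p.2, K.lam a * p.1) := by
    intro p hp y hy
    simp only [hf2, Core.pc, mem_image, mem_univ, true_and] at hy
    obtain ⟨a, ha⟩ := hy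
    exact ⟨a, ha.symm⟩
  have hd1 : ∀ p ∈ T1, ∀ q ∈ T1, p ≠ q → Disjoint (f1 p) (f1 q) := by
    intro p hp q hq hpq
    rw [Finset.disjoint_left]
    intro y hy hy'
    obtain ⟨a1, a2, -, a4⟩ := hel1 p hp y hy
    obtain ⟨b1, b2, -, b4⟩ := hel1 q hq y hy'
    have ht : p.1.1 = q.1.1 := by
      by_contra hne
      exact (Finset.disjoint_left.mp (hR hne)) a1 b1
    apply hpq
    have h1 : p.1 = q.1 := Prod.ext ht (a2.symm.trans b2)
    have h2 : p.2 = q.2 := by rw [← a4, ← b4, ht]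
    exact Sigma.ext h1 (heq_of_eq h2)
  have hd2 : ∀ p ∈ T2, ∀ q ∈ T2, p ≠ q → Disjoint (f2 p) (f2 q) := by
    intro p hp q hq hpq
    rw [Finset.disjoint_left]
    intro y hy hy'
    obtain ⟨a, ha⟩ := hel2 p hp y hy
    obtain ⟨b, hb⟩ := hel2 q hq y hy'
    rw [ha] at hb
    obtain ⟨h1, h2⟩ := K.h_inj a b p.2 (hDs _ _ ((hm2 p).mp hp)).1 q.2
      (hDs _ _ ((hm2 q).mp hq)).1 (congrArg Prod.fst hb)
    apply hpq
    have h3 := congrArg Prod.snd hb
    simp only at h3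
    rw [h1] at h3
    have h4 := mul_left_cancel₀ (K.lam_ne b) h3
    exact Sigma.ext h4 (heq_of_eq h2)
  set U1 := T1.biUnion f1 with hU1
  set U2 := T2.biUnion f2 with hU2
  have hd : Disjoint U1 U2 := by
    rw [Finset.disjoint_left]
    intro y hy hy'
    obtain ⟨p, hp, hyp⟩ := mem_biUnion.mp hy
    obtain ⟨q, hq, hyq⟩ := mem_biUnion.mp hy'
    obtain ⟨a, ha⟩ := hel2 q hq y hyq
    have h1 := (hel1 p hp y hyp).1
    rw [ha] at h1
    exact hRK q.2 (hDs _ _ ((hm2 q).mp hq)).1 a _ h1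
  have hU1M : U1 ⊆ M := by
    intro y hy
    obtain ⟨p, hp, hyp⟩ := mem_biUnion.mp hy
    exact (hel1 p hp y hyp).2.2.1
  have hU2M : U2 ⊆ M := by
    intro y hy
    obtain ⟨p, hp, hyp⟩ := mem_biUnion.mp hy
    exact (hDs _ _ ((hm2 p).mp hp)).2 hyp
  have hUM : U1 ∪ U2 ⊆ M := union_subset hU1M hU2M
  -- numbers
  have hNt : ∀ t, ∑ c : F, (Dt t c).card = N t := by
    intro t
    rw [← hN t, ← Finset.add_sum_erase univ _ (mem_univ (0 : F)), hDt0, card_empty, zero_add]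
  have hNs' : ∑ c : F, (Ds c).card = Ns := by
    rw [← hNs, ← Finset.add_sum_erase univ _ (mem_univ (0 : F)), hDs0, card_empty, zero_add]
  have hc1 : U1.card = 2 * ∑ t, N t := by
    rw [hU1, card_biUnion hd1, sum_congr rfl fun p _ => rs_pr_card _ _ _, sum_const, smul_eq_mul,
      mul_comm, hT1, card_sigma, Fintype.sum_prod_type]
    congr 1
    exact sum_congr rfl fun t _ => hNt t
  have hc2 : U2.card = κ * Ns := by
    rw [hU2, card_biUnion hd2, sum_congr rfl fun p hp => rs_pc_card K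
      (hDs _ _ ((hm2 p).mp hp)).1 _, sum_const, smul_eq_mul, mul_comm, hT2, card_sigma, hNs']
  have hs1 : ∑ y ∈ U1, y = ∑ t, N t • ((ee t, 0) : E m × F) := by
    rw [hU1, sum_biUnion fun p hp q hq h => hd1 p hp q hq h,
      sum_congr rfl fun p _ => rs_pr_sum _ _ _, hT1, sum_sigma, Fintype.sum_prod_type]
    refine sum_congr rfl fun t _ => ?_
    rw [← hNt t, sum_smul]
    refine sum_congr rfl fun c _ => ?_
    exact sum_const (s := Dt t c) ((ee t, 0) : E m × F)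
  have hs2 : ∑ y ∈ U2, y = Ns • ((on m, 0) : E m × F) := by
    rw [hU2, sum_biUnion fun p hp q hq h => hd2 p hp q hq h,
      sum_congr rfl fun p hp => rs_pc_sum K (hDs _ _ ((hm2 p).mp hp)).1 _, sum_const, hT2,
      card_sigma, hNs']
  refine ⟨M \ (U1 ∪ U2), sdiff_subset, ?_, ?_, ?_, ?_⟩
  · have h1 := card_sdiff_add_card_eq_card hUM
    have h2 := card_union_of_disjoint hd
    omega
  · have h1 := sum_sdiff (f := fun y : E m × F => y) hUM
    have h2 := sum_union (f := fun y : E m × F => y) hd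
    rw [h2, hs1, hs2, hM] at h1
    set Z := ∑ t, N t • ((ee t, 0) : E m × F) + Ns • ((on m, 0) : E m × F) with hZ
    calc ∑ y ∈ M \ (U1 ∪ U2), y = ∑ y ∈ M \ (U1 ∪ U2), y + (Z + Z) := by
          rw [rs_two Z, add_zero]
      _ = (∑ y ∈ M \ (U1 ∪ U2), y + Z) + Z := (add_assoc _ _ _).symm
      _ = Z := by rw [h1, zero_add]
  · intro y hy t c x hx hyx
    rw [mem_sdiff] at hy
    exact hy.2 (mem_union_left _ (mem_biUnion.mpr ⟨⟨(t, c), x⟩, (hm1 _).mpr hx, hyx⟩))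
  · intro y hy c x hx hyx
    rw [mem_sdiff] at hy
    exact hy.2 (mem_union_right _ (mem_biUnion.mpr ⟨⟨c, x⟩, (hm2 _).mpr hx, hyx⟩))

end Pool.Agent.EB58
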