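import Pool.Agent.EB58.R1Aux
import Pool.Agent.EB58.R1Num
import Pool.Agent.EB58.Link
import Pool.Agent.EB58.Defaults
import Pool.Agent.EB58.Rest
import Pool.Agent.EB58.Items
import Pool.Agent.EB58.Normal
import Pool.Agent.EB58.Cells

/-!
Regime 1: the assembly.
-/

set_option autoImplicit false

namespace Pool.Agent.EB58

open Finset Pool.Agent.H41.Circ

theorem exists_types {m κ ρ : ℕ} (hκ : κ = 2 ∨ κ = 3) (hρm : ρ + 2 ≤ m) :
    ∃ (A : Fin m) (S : Finset (Fin m)), A ∉ S ∧ (∀ a, a ∉ S → ρ ≤ (a : ℕ)) ∧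
      S.card + 4 = m + κ := by
  have hA : m - 1 < m := by omega
  have hB : m - 2 < m := by omega
  rcases hκ with rfl | rfl
  · refine ⟨⟨m - 1, hA⟩, (univ.erase ⟨m - 1, hA⟩).erase ⟨m - 2, hB⟩, ?_, ?_, ?_⟩
    · simp
    · intro a ha
      by_cases h1 : a = ⟨m - 2, hB⟩
      · rw [h1]; show ρ ≤ m - 2; omega
      · by_cases h2 : a = ⟨m - 1, hA⟩
        · rw [h2]; show ρ ≤ m - 1; omega
        · exact absurd (Finset.mem_erase.mpr ⟨h1, Finset.mem_erase.mpr ⟨h2, Finset.mem_univ _⟩⟩) ha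
    · rw [Finset.card_erase_of_mem, Finset.card_erase_of_mem (Finset.mem_univ _),
        Finset.card_univ, Fintype.card_fin]
      · omega
      · rw [Finset.mem_erase]
        refine ⟨fun h => ?_, Finset.mem_univ _⟩
        have : m - 2 = m - 1 := congrArg Fin.val h
        omega
  · refine ⟨⟨m - 1, hA⟩, univ.erase ⟨m - 1, hA⟩, by simp, ?_, ?_⟩
    · intro a ha
      by_cases h2 : a = ⟨m - 1, hA⟩
      · rw [h2]; show ρ ≤ m - 1; omega
      · exact absurd (Finset.mem_erase.mpr ⟨h2, Finset.mem_univ _⟩) ha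
    · rw [Finset.card_erase_of_mem (Finset.mem_univ _), Finset.card_univ, Fintype.card_fin]
      omega

theorem phi_add_c {m ρ : ℕ} (h : ρ ≤ m) (x y : E m) : phi h (x + y) = phi h x + phi h y := rfl

theorem phi_ee_c {m ρ : ℕ} (h : ρ ≤ m) (a : Fin m) (ha : ρ ≤ (a : ℕ)) :
    phi h (ee a) = 0 := by
  funext i
  show ee a (Fin.castLE h i) = 0
  have hne : Fin.castLE h i ≠ a := by
    intro hh
    have := congrArg Fin.val hh
    simp only [Fin.val_castLE] at this
    omega
  exact Pi.single_eq_of_ne hne _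

theorem reg1_core {m κ k r ρ X q : ℕ} (hκ : κ = 2 ∨ κ = 3) (hk : k + 1 = m + κ)
    (hr : r = m + k) (hP : 2 ^ 20 * (r + 1) ^ 6 ≤ 2 ^ ρ) (hρ : 40 * ρ ≤ r)
    (hX : X * 2 ^ (2 * ρ) ≤ 2 ^ (m + 4))
    {F : Type} [Field F] [Fintype F] [DecidableEq F] [Algebra (ZMod 2) F]
    (hF : Fintype.card F = 2 ^ k) (M : Finset (E m × F)) (hM0 : ∀ y ∈ M, y.2 ≠ 0)
    (hMs : ∑ y ∈ M, y = 0)
    (hMX : ∀ c : F, c ≠ 0 → ((univ : Finset (E m)).filter fun x => (x, c) ∉ M).card ≤ X)
    (hq : (r + 1) * q = M.card) : Pack r M q := by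
  classical
  have hN : r + 1 = 2 * m + κ := by omega
  obtain ⟨N, hNdef⟩ : ∃ N, N = r + 1 := ⟨_, rfl⟩
  rw [← hNdef] at hP hq hN
  have hN1 : 1 ≤ N := by omega
  have hρ20 : 20 ≤ ρ := by
    have h1 : 2 ^ 20 ≤ 2 ^ ρ := by
      refine le_trans ?_ hP
      have : 1 ≤ N ^ 6 := Nat.one_le_pow _ _ hN1
      exact Nat.le_mul_of_pos_right _ this
    exact (Nat.pow_le_pow_iff_right (by norm_num)).mp h1
  have hm : 399 ≤ m := by omega
  have hρm : ρ + 2 ≤ m := by omega
  have hρm' : ρ ≤ m := by omega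
  obtain ⟨P, hPdef⟩ : ∃ P, P = 2 ^ ρ := ⟨_, rfl⟩
  obtain ⟨H, hHdef⟩ : ∃ H, H = 2 ^ (m - ρ - 1) := ⟨_, rfl⟩
  obtain ⟨Q, hQdef⟩ : ∃ Q, Q = 2 ^ k - 1 := ⟨_, rfl⟩
  rw [← hPdef] at hP
  have hP0 : 0 < P := by rw [hPdef]; positivity
  have hH0 : 0 < H := by rw [hHdef]; positivity
  have hN6 : 1 ≤ N ^ 6 := Nat.one_le_pow _ _ hN1
  have hP192 : 192 ≤ P := by omega
  have f1 : 2 ^ m = 2 * P * H := by
    rw [hPdef, hHdef]
    have : m = 1 + ρ + (m - ρ - 1) := by omega
    calc 2 ^ m = 2 ^ (1 + ρ + (m - ρ - 1)) := by rw [← this]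
      _ = 2 * 2 ^ ρ * 2 ^ (m - ρ - 1) := by rw [pow_add, pow_add, pow_one]
  have f1' : 2 ^ (m - ρ) = 2 * H := by
    rw [hHdef, ← pow_succ']; congr 1; omega
  have hH4 : 4 ≤ H := by
    rw [hHdef]
    calc 4 = 2 ^ 2 := by norm_num
      _ ≤ 2 ^ (m - ρ - 1) := Nat.pow_le_pow_right (by norm_num) (by omega)
  have hNH : N ≤ H := by
    have h1 : N ≤ P := by
      refine le_trans ?_ hP
      have : N ≤ N ^ 6 := Nat.le_self_pow (by norm_num) N
      omega
    refine h1.trans ?_
    rw [hPdef, hHdef]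
    exact Nat.pow_le_pow_right (by norm_num) (by omega)
  have f2 : X * P ≤ 32 * H := by
    have h1 : X * P * P ≤ 32 * H * P := by
      have e1 : X * P * P = X * 2 ^ (2 * ρ) := by
        rw [hPdef, mul_assoc, ← pow_add]; congr 2; ring
      have e2 : 32 * H * P = 2 ^ (m + 4) := by
        rw [pow_add, f1]; ring
      rw [e1, e2]; exact hX
    exact Nat.le_of_mul_le_mul_right h1 hP0
  have hX2 : 3 * X + 2 ≤ H := r1_X hP192 hH4 f2
  have hkρ : ρ + 1 ≤ k := by omega
  have hk1 : 1 ≤ k := by omega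
  have hQP : 2 * P - 1 ≤ Q := by
    rw [hQdef, hPdef, ← pow_succ']
    exact Nat.sub_le_sub_right (Nat.pow_le_pow_right (by norm_num) hkρ) 1
  have hQ0 : 0 < Q := by omega
  have h2k : 2 ^ k = Q + 1 := by
    rw [hQdef]; have : 1 ≤ 2 ^ k := Nat.one_le_two_pow; omega
  have hQN : 2 ^ 19 * N ^ 6 ≤ Q := by omega
  have hcardF : Fintype.card F - 1 = Q := by rw [hF, hQdef]
  -- bounds for q
  obtain ⟨q1, hq1def⟩ : ∃ q1, q1 = q / Q := ⟨_, rfl⟩
  have hq1Q : q1 * Q ≤ q := by rw [hq1def]; exact Nat.div_mul_le_self q Q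
  have hqlt : q < (q1 + 1) * Q := by
    rw [hq1def, mul_comm]; exact Nat.lt_mul_div_succ q hQ0
  obtain ⟨hb1, hb2⟩ := card_bounds M hM0 hMX
  rw [hcardF, ← hq] at hb1 hb2
  have B1 : N * q1 ≤ 2 * P * H := by
    have h1 : (N * q1) * Q ≤ (2 * P * H) * Q := by
      have e1 : (N * q1) * Q = N * (q1 * Q) := by ring
      have e2 := Nat.mul_le_mul_left N hq1Q
      rw [f1] at hb1
      have e3 : (2 * P * H) * Q = Q * (2 * P * H) := by ring
      rw [e1, e3]; omega
    exact Nat.le_of_mul_le_mul_right h1 hQ0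
  have B2 : 2 * P * H ≤ N * q1 + N + X := by
    have h1 : Q * (2 * P * H) ≤ Q * (N * q1 + N + X) := by
      have e1 : N * q ≤ N * ((q1 + 1) * Q) := Nat.mul_le_mul_left _ hqlt.le
      have e2 : Q * (N * q1 + N + X) = N * ((q1 + 1) * Q) + Q * X := by ring
      rw [f1] at hb2
      rw [e2]; omega
    exact Nat.le_of_mul_le_mul_left h1 hQ0
  obtain ⟨g0, hg0def⟩ : ∃ g0, g0 = (q1 + 3 * X + 1) / (2 * H) + 1 := ⟨_, rfl⟩
  have h7 : q1 + 3 * X + 1 ≤ 2 * g0 * H := by
    have h1 := Nat.lt_mul_div_succ (q1 + 3 * X + 1) (show 0 < 2 * H by omega)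
    rw [hg0def]
    have e : 2 * ((q1 + 3 * X + 1) / (2 * H) + 1) * H
        = 2 * H * ((q1 + 3 * X + 1) / (2 * H) + 1) := by ring
    rw [e]; exact h1.le
  have h6 : 2 * g0 * H ≤ q1 + 3 * X + 1 + 2 * H := by
    have h1 := Nat.mul_div_le (q1 + 3 * X + 1) (2 * H)
    rw [hg0def]
    have e : 2 * ((q1 + 3 * X + 1) / (2 * H) + 1) * H
        = 2 * H * ((q1 + 3 * X + 1) / (2 * H)) + 2 * H := by ring
    rw [e]; omega
  obtain ⟨hg1, hg2⟩ := r1_g hN1 hH0 hX2 B1 B2 h6 h7
  have hq1big : 2 ^ 20 * N ^ 5 * H ≤ q1 := r1_q1 (by omega) hNH hX2 hP B2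
  have hg0big : 2 ^ 20 * N ^ 5 ≤ g0 := by
    have h1 : N * (2 ^ 20 * N ^ 5) ≤ N * g0 := by
      refine le_trans ?_ hg2
      have e : N * (2 ^ 20 * N ^ 5) = 2 ^ 20 * N ^ 6 := by ring
      rw [e]; exact hP
    exact Nat.le_of_mul_le_mul_left h1 (by omega)
  have hN5 : N ≤ N ^ 5 := Nat.le_self_pow (by norm_num) N
  have hg04 : 4 * N ≤ g0 := by omega
  have hq14 : 4 * N * H ≤ q1 := by
    refine le_trans ?_ hq1big
    exact Nat.mul_le_mul_right _ (by omega)
  -- the number of special circuits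
  obtain ⟨s, hsdef⟩ : ∃ s, s = 4 * N * H * Q := ⟨_, rfl⟩
  have hsq : s ≤ q := by
    rw [hsdef]
    exact (Nat.mul_le_mul_right Q hq14).trans hq1Q
  have hsdiv : s / Q = 4 * N * H := by rw [hsdef]; exact Nat.mul_div_cancel _ hQ0
  have hqsQ : (q + s) / Q = q1 + 4 * N * H := by
    rw [hsdef, hq1def, Nat.add_mul_div_right _ _ hQ0]
  have hqs'Q : (q - s) / Q = q1 - 4 * N * H := by
    rw [hsdef, hq1def, mul_comm (4 * N * H) Q, Nat.sub_mul_div]
  -- types
  obtain ⟨A, S, hAS, hSρ, hScard⟩ := exists_types (m := m) (ρ := ρ) hκ hρm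
  have hAρ : ρ ≤ (A : ℕ) := hSρ A hAS
  have hT2 : m - 1 - S.card = 3 - κ := by omega
  have hSc : S.card = m + κ - 4 := by omega
  -- block size
  obtain ⟨a0, ha0def⟩ : ∃ a0, a0 = Nat.clog 2 (4 * N) := ⟨_, rfl⟩
  have ha1 : 4 * N ≤ 2 ^ a0 := by rw [ha0def]; exact Nat.le_pow_clog (by norm_num) _
  have ha2 : 2 ^ a0 ≤ 8 * N := by
    have h1 : 2 ^ (a0 - 1) < 4 * N := by
      rw [ha0def]
      exact Nat.pow_pred_clog_lt_self (by norm_num) (by omega)
    have h2 : 2 ^ a0 ≤ 2 * 2 ^ (a0 - 1) := by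
      rw [← pow_succ']
      exact Nat.pow_le_pow_right (by norm_num) (by omega)
    omega
  have ha3 : 2 ^ (2 * a0) ≤ 64 * N ^ 2 := by
    have : 2 ^ (2 * a0) = 2 ^ a0 * 2 ^ a0 := by rw [← pow_add]; congr 1; ring
    rw [this]
    calc 2 ^ a0 * 2 ^ a0 ≤ (8 * N) * (8 * N) := Nat.mul_le_mul ha2 ha2
      _ = 64 * N ^ 2 := by ring
  have ha4 : 2 * a0 ≤ ρ := by
    have h1 : 2 ^ (2 * a0) ≤ 2 ^ ρ := by
      refine ha3.trans ?_
      rw [← hPdef]
      refine le_trans ?_ hP
      have : N ^ 2 ≤ N ^ 6 := Nat.pow_le_pow_right hN1 (by norm_num)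
      omega
    exact (Nat.pow_le_pow_iff_right (by norm_num)).mp h1
  have ha5 : 2 * a0 ≤ m := by omega
  have hZ1 : 2 * N * (ZZ ρ a0).card ≤ P := by
    have h1 := card_ZZ ha4
    have h2 : 2 * N * (ZZ ρ a0).card ≤ 2 * N * (2 * 2 ^ (ρ - a0)) := Nat.mul_le_mul_left _ h1
    have h3 : 2 * N * (2 * 2 ^ (ρ - a0)) = (4 * N) * 2 ^ (ρ - a0) := by ring
    have h4 : (4 * N) * 2 ^ (ρ - a0) ≤ 2 ^ a0 * 2 ^ (ρ - a0) := Nat.mul_le_mul_right _ ha1
    have h5 : 2 ^ a0 * 2 ^ (ρ - a0) = P := by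
      rw [hPdef, ← pow_add]; congr 1; omega
    omega
  have hZ2 : (ZZ ρ a0).card ≤ 2 * g0 + 4 * N := by
    have h1 : (2 * N) * (ZZ ρ a0).card ≤ (2 * N) * g0 := by
      have : (2 * N) * g0 = N * g0 + N * g0 := by ring
      omega
    have := Nat.le_of_mul_le_mul_left h1 (by omega)
    omega
  -- the region system
  obtain ⟨I, Is, K, Sc, hI1, hI2, hI3, hI4, hI5, hKJ, -, hSc2, -, hSc4⟩ :=
    exists_system (m := m) (ρ := ρ) (k := k) (κ := κ) hκ hρm (by omega) hρm' (by omega) hF A hAρ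
      (fun t => if t ∈ S then 2 * g0 else if t = A then 2 * g0 + 4 * N else 2 * g0 - 4 * N)
      (by
        intro t ht
        have htS : t ∈ S := by
          by_contra hcon
          have := hSρ t hcon
          omega
        simp only [htS, if_true]
        exact even_two_mul _)
      (g0 - 2 * N) (ZZ ρ a0)
      (by simp only [hAS, if_false, if_true]; exact hZ2)
      (by
        have h1 : ∑ t ∈ (univ : Finset (Fin m)).filter (fun t : Fin m => (t : ℕ) < ρ),
            (if t ∈ S then 2 * g0 else if t = A then 2 * g0 + 4 * N else 2 * g0 - 4 * N)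
              = ρ * (2 * g0) := by
          have h2 : ∀ t ∈ (univ : Finset (Fin m)).filter (fun t : Fin m => (t : ℕ) < ρ),
              (if t ∈ S then 2 * g0 else if t = A then 2 * g0 + 4 * N else 2 * g0 - 4 * N)
                = 2 * g0 := by
            intro t ht
            have ht' := (Finset.mem_filter.mp ht).2
            have htS : t ∈ S := by
              by_contra hcon
              have := hSρ t hcon
              omega
            rw [if_pos htS]
          rw [Finset.sum_congr rfl h2, Finset.sum_const, smul_eq_mul]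
          congr 1
          have h3 : (univ : Finset (Fin m)).filter (fun t : Fin m => (t : ℕ) < ρ)
              = (univ : Finset (Fin ρ)).map (Fin.castLEEmb hρm') := by
            ext t
            simp only [Finset.mem_filter, Finset.mem_univ, true_and, Finset.mem_map,
              Fin.castLEEmb_apply]
            constructor
            · intro ht
              exact ⟨⟨t, ht⟩, rfl⟩
            · rintro ⟨i, rfl⟩
              exact i.2
          rw [h3, Finset.card_map, Finset.card_univ, Fintype.card_fin]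
        rw [h1, ← hPdef]
        exact r1_h1 (by omega) (by omega) (by omega) (by omega) hP hg1 hZ1)
      (by
        rw [sum_piece S A hAS, hT2, hSc, ← hPdef]
        exact r1_sumg hκ (by omega) hN hg1 (by omega))
  -- regions
  set R : Fin m → Finset (E m) := fun t => univ.filter fun x => phi hρm' x ∈ I t with hRdef
  have hmemR : ∀ t x, x ∈ R t ↔ phi hρm' x ∈ I t := by
    intro t x; rw [hRdef]; simp
  have hRd : Pairwise fun t t' => Disjoint (R t) (R t') := by
    intro t t' htt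
    rw [Finset.disjoint_left]
    intro x hx hx'
    rw [hmemR] at hx hx'
    exact Finset.disjoint_left.mp (hI1 htt) hx hx'
  have hRt : ∀ t, ∀ x ∈ R t, x + ee t ∈ R t := by
    intro t x hx
    rw [hmemR] at hx ⊢
    exact hI4 t x hx
  have hRa : ∀ t ∈ S, ∀ a, a ∉ S → ∀ x ∈ R t, x + ee a ∈ R t := by
    intro t _ a ha x hx
    rw [hmemR] at hx ⊢
    rw [phi_add_c, phi_ee_c hρm' a (hSρ a ha), add_zero]
    exact hx
  have hRK : ∀ x ∈ K.J, ∀ a t, K.h a x ∉ R t := by
    intro x hx a t h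
    rw [hmemR] at h
    have h1 := hSc4 1 one_ne_zero x hx a
    have h2 := (hSc2 1 one_ne_zero _ h1).1
    exact Finset.disjoint_left.mp (hI2 t) h h2
  have hRcard : ∀ t, (R t).card = (I t).card * (2 * H) := by
    intro t
    have := card_region hρm' (I t)
    rw [f1'] at this
    exact this
  -- default pieces
  have hdef : ∀ t, ∃ Dt : F → Finset (E m), Dt 0 = ∅ ∧
      (∀ c, ∀ x ∈ Dt c, phi hρm' x ∈ I t ∧ x t = 0 ∧ (x, c) ∈ M ∧ (x + ee t, c) ∈ M) ∧
      ∑ c ∈ univ.erase (0 : F), (Dt c).card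
        = (if t ∈ S then q else if t = A then q + s else q - s) ∧
      ∀ c, c ≠ 0 → (if t ∈ S then q else if t = A then q + s else q - s) / (2 ^ k - 1)
          ≤ (Dt c).card ∧
        (Dt c).card ≤ (if t ∈ S then q else if t = A then q + s else q - s) / (2 ^ k - 1) + 1 := by
    intro t
    refine exists_defaults (by omega) hρm' hF hk1 M hMX t (I t) (hI4 t) _ ?_
    rw [← hQdef, ← hHdef, hI3 t]
    by_cases htS : t ∈ S
    · simp only [htS, if_true]
      rw [← hq1def]; omega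
    · by_cases htA : t = A
      · simp only [htA, hAS, if_true, if_false]
        rw [hqsQ]
        have e : (2 * g0 + 4 * N) * H = 2 * g0 * H + 4 * N * H := by ring
        rw [e]; omega
      · simp only [htS, htA, if_false]
        rw [hqs'Q]
        have e : (2 * g0 - 4 * N) * H = 2 * g0 * H - 4 * N * H := by rw [Nat.sub_mul]
        rw [e]; omega
  choose Dt hDt0 hDt1 hDt2 hDt3 using hdef
  obtain ⟨Ds, hDs0, hDs1, hDs2, hDs3⟩ := exists_core_defaults (X := X) hF hk1 M hMX K (q - s)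
    (by
      rw [← hQdef, hqs'Q, hKJ, f1']
      have e : (g0 - 2 * N) * (2 * H) = 2 * g0 * H - 4 * N * H := by
        rw [Nat.sub_mul]; congr 1 <;> ring
      have hκX : κ * X ≤ 3 * X := Nat.mul_le_mul_right _ (by omega)
      rw [e]; omega)
  have hDtR : ∀ t c, ∀ x ∈ Dt t c, x ∈ R t ∧ x t = 0 := by
    intro t c x hx
    exact ⟨(hmemR t x).mpr (hDt1 t c x hx).1, (hDt1 t c x hx).2.1⟩
  have hDtfull : ∀ t c, ∀ x ∈ Dt t c, x ∈ R t ∧ x + ee t ∈ R t ∧ x t = 0 ∧ (x, c) ∈ M ∧
      (x + ee t, c) ∈ M := by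
    intro t c x hx
    have h1 := hDt1 t c x hx
    exact ⟨(hmemR t x).mpr h1.1, hRt t x ((hmemR t x).mpr h1.1), h1.2.1, h1.2.2.1, h1.2.2.2⟩
  obtain ⟨B, hBM, hBcard, hBsum, hBpr, hBpc⟩ := rest_card_sum M hMs K R hRd hRK Dt Ds
    hDtfull hDt0 hDs0 hDs1 _ _ hDt2 hDs2
  -- number of singles
  obtain ⟨b, hbdef⟩ : ∃ b, b = 4 - κ := ⟨_, rfl⟩
  have hBs : B.card = b * s := by
    rw [hbdef]
    refine r1_B (N := N) (m := m) hκ (by omega) hN hsq ?_
    rw [← hT2, ← hSc, ← sum_piece S A hAS, hq]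
    exact hBcard
  have hs2m : 2 ^ m ≤ s := by
    rw [f1, hsdef]
    have e1 : 4 * N * H * Q = (4 * N * Q) * H := by ring
    rw [e1]
    refine Nat.mul_le_mul_right _ ?_
    have e2 : 1 * Q ≤ N * Q := Nat.mul_le_mul_right _ hN1
    have e3 : 4 * N * Q = 4 * (N * Q) := by ring
    omega
  have h2m2 : 2 ≤ 2 ^ m := by
    calc 2 = 2 ^ 1 := by norm_num
      _ ≤ 2 ^ m := Nat.pow_le_pow_right (by norm_num) (by omega)
  have hwS : (∑ t ∈ S, ((ee t, 0) : E m × F)).2 = 0 := by
    rw [Prod.snd_sum]; simp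
  have hitsum : ∑ y ∈ B, y + s • ∑ t ∈ S, ((ee t, 0) : E m × F) = 0 := by
    rw [hBsum]
    exact sum_rest S A hAS q s hsq
  obtain ⟨β, nx, v, hβ1, hβ2, hnx, hv, hv2, hspan⟩ := exists_items (m := m) (k := k) (r := r)
    (b := b) (s := s) (by omega) hr hF B hBs (fun y hy => hM0 y (hBM hy)) hs2m (by omega)
    (by
      rw [← hNdef, h2k]
      have : N ≤ N ^ 6 := Nat.le_self_pow (by norm_num) N
      omega) _ hwS hitsum
  -- not in default pairs
  have hβD : ∀ i, ∀ y ∈ β i, ∀ t, (px t y).1 ∉ Dt t y.2 := by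
    intro i y hy t h
    have h1 := hBpr y ((hβ1 i).2 hy) t y.2 _ h
    exact h1 (mem_pr_px t y)
  have hE : ∀ i, Module.finrank (ZMod 2) (Submodule.span (ZMod 2)
      (((β (nx i) : Set (E m × F)) ∪ {v i}) ∪ (fun t => ((ee t, 0) : E m × F)) '' (S : Set (Fin m))))
        = b + 1 + S.card := by
    intro i
    have h1 := finrank_lift (F := F) S (insert (v i) (β (nx i))) (b + 1)
      (by
        refine (Finset.card_insert_le _ _).trans ?_
        rw [(hβ1 (nx i)).1])
      (by
        rw [Finset.coe_insert, Set.image_insert_eq, ← Set.union_singleton]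
        exact hspan i)
    rw [Finset.coe_insert, ← Set.union_singleton] at h1
    exact h1
  -- not default elements
  have hnd : ∀ t, (t ∈ S ∨ t = A) → ((R t ×ˢ (univ.erase (0 : F))).filter
      fun y => Function.update y.1 t 0 ∉ Dt t y.2).card ≤ 6 * H * Q := by
    intro t ht
    have h1 := card_nondef t (R t) (hRt t) (Dt t) (hDtR t)
    rw [hcardF, hDt2 t, hRcard t, hI3 t] at h1
    rcases ht with ht | ht
    · simp only [ht, if_true] at h1
      refine r1_nd hq1Q h6 hX2 (c := _) ?_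
      rw [h1]; ring
    · subst ht
      simp only [hAS, if_true, if_false] at h1
      refine r1_nd hq1Q h6 hX2 (c := _) ?_
      have e1 : (2 * g0 + 4 * N) * (2 * H) * Q = 4 * g0 * H * Q + 2 * (4 * N * H * Q) := by ring
      rw [e1, ← hsdef] at h1
      omega
  -- candidates for the links
  obtain ⟨L, hLdef⟩ : ∃ L, L = 2 ^ (m - 2 * a0) := ⟨_, rfl⟩
  have hTL : 2 ^ m ≤ 64 * N ^ 2 * L := by
    have : 2 ^ m = 2 ^ (2 * a0) * L := by
      rw [hLdef, ← pow_add]; congr 1; omega
    rw [this]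
    exact Nat.mul_le_mul_right _ ha3
  have hLbig : 2 ^ 15 * N ^ 4 * H ≤ L := r1_L hN1 hP f1 hTL
  have hL0 : 0 < L := by rw [hLdef]; positivity
  set cand : Fin s → Finset (E m × F) := fun i => (lset a0 (v i).1 (v i).2).filter fun a =>
    (px A a).1 ∈ Dt A a.2 ∧ (px A (a + v i)).1 ∈ Dt A (a + v i).2 with hcanddef
  have hZmem : ∀ p : E ρ, p ∈ ZZ ρ a0 → p ∈ I A := fun p hp => hI5 hp
  have hlA : ∀ i, ∀ a ∈ lset a0 (v i).1 (v i).2, a ∈ R A ×ˢ (univ.erase (0 : F)) ∧
      a + v i ∈ R A ×ˢ (univ.erase (0 : F)) := by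
    intro i a ha
    rw [lset, Finset.mem_filter] at ha
    obtain ⟨-, ⟨h1, h2⟩, h3, h4⟩ := ha
    constructor
    · rw [Finset.mem_product, hmemR]
      refine ⟨hZmem _ ?_, Finset.mem_erase.mpr ⟨h3, Finset.mem_univ _⟩⟩
      rw [ZZ, Finset.mem_filter]
      exact ⟨Finset.mem_univ _, Or.inl fun j hj => h1 _ hj⟩
    · rw [Finset.mem_product, hmemR]
      refine ⟨hZmem _ ?_, Finset.mem_erase.mpr ⟨?_, Finset.mem_univ _⟩⟩
      · rw [ZZ, Finset.mem_filter]
        refine ⟨Finset.mem_univ _, Or.inr fun j hj1 hj2 => ?_⟩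
        show a.1 (Fin.castLE hρm' j) + (v i).1 (Fin.castLE hρm' j) = 0
        rw [h2 _ hj1 hj2, ← Pi.add_apply, add_self']
        rfl
      · intro h
        exact h4 (eq_of_add_eq_zero' h)
  have hLmin : ∀ i, L * (Q - 1) - 12 * H * Q ≤ (cand i).card := by
    intro i
    have h1 := card_lset (m := m) (a0 := a0) ha5 hF (v i).1 (v i).2 (hv2 i)
    have h2 := Finset.card_filter_add_card_filter_not (s := lset a0 (v i).1 (v i).2)
      (p := fun a => (px A a).1 ∈ Dt A a.2 ∧ (px A (a + v i)).1 ∈ Dt A (a + v i).2)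
    have h3 : ((lset a0 (v i).1 (v i).2).filter fun a => ¬ ((px A a).1 ∈ Dt A a.2 ∧
        (px A (a + v i)).1 ∈ Dt A (a + v i).2)).card ≤ 6 * H * Q + 6 * H * Q := by
      have h4 : ((lset a0 (v i).1 (v i).2).filter fun a => ¬ ((px A a).1 ∈ Dt A a.2 ∧
          (px A (a + v i)).1 ∈ Dt A (a + v i).2)) ⊆
          ((lset a0 (v i).1 (v i).2).filter fun a => (px A a).1 ∉ Dt A a.2) ∪
          ((lset a0 (v i).1 (v i).2).filter fun a =>
            (px A (a + v i)).1 ∉ Dt A (a + v i).2) := by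
        intro a ha
        rw [Finset.mem_filter, not_and_or] at ha
        rw [Finset.mem_union, Finset.mem_filter, Finset.mem_filter]
        rcases ha.2 with h | h
        · exact Or.inl ⟨ha.1, h⟩
        · exact Or.inr ⟨ha.1, h⟩
      refine (Finset.card_le_card h4).trans ((Finset.card_union_le _ _).trans ?_)
      refine Nat.add_le_add ?_ ?_
      · refine le_trans (Finset.card_le_card ?_) (hnd A (Or.inr rfl))
        intro a ha
        rw [Finset.mem_filter] at ha ⊢
        exact ⟨(hlA i a ha.1).1, ha.2⟩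
      · refine le_trans (Finset.card_le_card_of_injOn (fun a => a + v i) ?_ ?_)
          (hnd A (Or.inr rfl))
        · intro a ha
          have ha' := Finset.mem_filter.mp ha
          rw [Finset.mem_coe, Finset.mem_filter]
          exact ⟨(hlA i a ha'.1).2, ha'.2⟩
        · intro a _ a' _ h
          exact add_right_cancel h
    have h5 : 2 ^ k - 2 = Q - 1 := by omega
    rw [h5, ← hLdef] at h1
    have h6 : (cand i).card = ((lset a0 (v i).1 (v i).2).filter fun a =>
      (px A a).1 ∈ Dt A a.2 ∧ (px A (a + v i)).1 ∈ Dt A (a + v i).2).card := rfl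
    have e : 12 * H * Q = 6 * H * Q + 6 * H * Q := by ring
    rw [e]
    omega
  have hLc : ∀ i c, ((cand i).filter fun a => a.2 = c).card ≤ L := by
    intro i c
    refine le_trans (Finset.card_le_card ?_)
      (le_trans (card_lset_fiber (F := F) ha5 (v i).1 (v i).2 c) (le_of_eq hLdef.symm))
    intro a ha
    rw [Finset.mem_filter] at ha ⊢
    exact ⟨(Finset.mem_filter.mp ha.1).1, ha.2⟩
  have hcand : ∀ i, ∀ a ∈ cand i, a.2 ≠ 0 ∧ (a + v i).2 ≠ 0 ∧ (px A a).1 ∈ Dt A a.2 ∧
      (px A (a + v i)).1 ∈ Dt A (a + v i).2 := by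
    intro i a ha
    have ha' := Finset.mem_filter.mp ha
    have h1 := hlA i a ha'.1
    exact ⟨(Finset.mem_erase.mp (Finset.mem_product.mp h1.1).2).1,
      (Finset.mem_erase.mp (Finset.mem_product.mp h1.2).2).1, ha'.2.1, ha'.2.2⟩
  have hcap0 : 0 < 128 * N * H := by positivity
  have hdiv1 : 2 * s / (128 * N * H) = Q / 16 := by
    rw [hsdef]
    have e1 : 2 * (4 * N * H * Q) = (8 * N * H) * Q := by ring
    have e2 : 128 * N * H = (8 * N * H) * 16 := by ring
    rw [e1, e2, Nat.mul_div_mul_left _ _ (by positivity)]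
  have hdiv2 : s / (128 * N * H) = Q / 32 := by
    rw [hsdef]
    have e1 : 4 * N * H * Q = (4 * N * H) * Q := by ring
    have e2 : 128 * N * H = (4 * N * H) * 32 := by ring
    rw [e1, e2, Nat.mul_div_mul_left _ _ (by positivity)]
  obtain ⟨C1, used, hC1, hC1d, hu1, hu2, hu3, hu4, hu5, hC1m⟩ := special_phase hF hk1 hr S A hAS
    (b := b) (by omega) R hRd hRt hRa Dt hDtR (6 * H * Q) (fun t ht => hnd t (Or.inl ht)) β
    (fun i => (hβ1 i).1) hβ2 hβD nx hnx v hv hE cand hcand hv2 (L * (Q - 1) - 12 * H * Q) L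
    (128 * N * H) hLmin hLc hcap0
    (by
      have e1 : b + 1 + S.card = m + 1 := by omega
      have e2 : 4 * 2 ^ (m + 1) = 8 * 2 ^ m := by rw [pow_succ]; ring
      rw [e1, e2, hdiv1, hsdef]
      exact r1_big1 (by omega) hLbig hH0 hQN hTL)
    (by
      intro t ht
      have h1 : (R t).card = 4 * g0 * H := by
        rw [hRcard t, hI3 t]
        simp only [ht, if_true]
        ring
      rw [h1, hdiv2, hsdef]
      refine r1_big2 (by omega) hH0 hg0big hQN ?_
      have e1 : 2 ^ k = 2 * 2 ^ (k - 1) := by rw [← pow_succ']; congr 1; omega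
      have e2 : 1 ≤ 2 ^ (k - 1) := Nat.one_le_two_pow
      omega)
  -- normal phase
  have hsplit : ∀ t c, (Dt t c \ used t c).card + (used t c).card = (Dt t c).card :=
    fun t c => Finset.card_sdiff_add_card_eq_card (hu1 t c)
  have husedT : ∀ t, ∑ c ∈ univ.erase (0 : F), (used t c).card
      = if t ∈ S then s else if t = A then 2 * s else 0 := by
    intro t
    by_cases htS : t ∈ S
    · rw [if_pos htS]; exact hu3 t htS
    · rw [if_neg htS]
      by_cases htA : t = A
      · rw [if_pos htA, htA]; exact hu4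
      · rw [if_neg htA]
        refine Finset.sum_eq_zero fun c _ => ?_
        rw [hu5 t htS htA c, Finset.card_empty]
  obtain ⟨C2, hC2, hC2d⟩ := normal_phase hκ hk (by omega) hr hF K R hRd hRK
    (fun t c => Dt t c \ used t c)
    (by
      intro t c x hx
      have h1 := hDtfull t c x (Finset.mem_sdiff.mp hx).1
      exact ⟨h1.1, h1.2.1, h1.2.2.1⟩)
    Ds (fun c x hx => (hDs1 c x hx).1) (q1 - 4 * N * H) (136 * N * H + 1) (q - s) hDs2
    (by
      intro t
      have h1 : ∑ c ∈ univ.erase (0 : F), (Dt t c \ used t c).card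
          + ∑ c ∈ univ.erase (0 : F), (used t c).card
          = ∑ c ∈ univ.erase (0 : F), (Dt t c).card := by
        rw [← Finset.sum_add_distrib]
        exact Finset.sum_congr rfl fun c _ => hsplit t c
      rw [husedT t, hDt2 t] at h1
      by_cases htS : t ∈ S
      · simp only [htS, if_true] at h1; omega
      · by_cases htA : t = A
        · simp only [htA, hAS, if_true, if_false] at h1 ⊢; omega
        · simp only [htS, htA, if_false] at h1; omega)
    (by
      intro c hc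
      have h1 := hDs3 c hc
      rw [← hQdef, hqs'Q] at h1
      exact h1)
    (by
      intro t c hc
      have h1 := hsplit t c
      have h2 := hDt3 t c hc
      have h3 := hu2 t c
      rw [← hQdef] at h2
      have e1 : 136 * N * H = 128 * N * H + 4 * N * H + 4 * N * H := by ring
      by_cases htS : t ∈ S
      · simp only [htS, if_true] at h2
        rw [← hq1def] at h2
        rw [e1]
        constructor <;> omega
      · by_cases htA : t = A
        · simp only [htA, hAS, if_true, if_false] at h2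
          rw [hqsQ] at h2
          rw [htA] at h1 h3 ⊢
          rw [e1]
          constructor <;> omega
        · simp only [htS, htA, if_false] at h2
          rw [hqs'Q] at h2
          rw [hu5 t htS htA c, Finset.card_empty] at h1
          rw [hu5 t htS htA c]
          rw [e1, Finset.sdiff_empty]
          constructor <;> omega)
    (r1_hn (by omega) hH0 (by omega) (by omega) hq1big)
  -- combine
  have hpiece : ∀ t c x y, x ∈ Dt t c → y ∈ pr t x c → (px t y).1 = x ∧ y.2 = c ∧ y.1 ∈ R t := by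
    intro t c x y hx hy
    have hx0 := (hDtR t c x hx).2
    have hxR := (hDtR t c x hx).1
    rw [pr, Finset.mem_insert, Finset.mem_singleton] at hy
    have hxx : Function.update x t 0 = x := by
      rw [← hx0]; exact Function.update_eq_self t x
    rcases hy with rfl | rfl
    · exact ⟨hxx, rfl, hxR⟩
    · refine ⟨?_, rfl, hRt t x hxR⟩
      have h1 := px_add t ((x, c) : E m × F)
      have h2 : ((x, c) : E m × F) + (ee t, 0) = (x + ee t, c) := by simp
      rw [h2] at h1
      rw [h1]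
      exact hxx
  have hCD : ∀ i j, Disjoint (C1 i) (C2 j) := by
    intro i j
    rw [Finset.disjoint_left]
    intro y hy1 hy2
    rcases hC1m i y hy1 with h1 | ⟨t, c, x, hc, hx, hy⟩
    · have hyB := (hβ1 i).2 h1
      rcases (hC2 j).2 y hy2 with ⟨t, c, x, hc, hx, hy⟩ | ⟨c, x, hc, hx, hy⟩
      · exact hBpr y hyB t c x (Finset.mem_sdiff.mp hx).1 hy
      · exact hBpc y hyB c x hx hy
    · have hp := hpiece t c x y (hu1 t c hx) hy
      rcases (hC2 j).2 y hy2 with ⟨t', c', x', hc', hx', hy'⟩ | ⟨c', x', hc', hx', hy'⟩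
      · have hx'' := Finset.mem_sdiff.mp hx'
        have hp' := hpiece t' c' x' y hx''.1 hy'
        have htt : t = t' := by
          by_contra hne
          exact Finset.disjoint_left.mp (hRd hne) hp.2.2 hp'.2.2
        subst htt
        have hcc : c = c' := hp.2.1.symm.trans hp'.2.1
        subst hcc
        have hxx : x = x' := hp.1.symm.trans hp'.1
        subst hxx
        exact hx''.2 hx
      · rw [Core.pc, Finset.mem_image] at hy'
        obtain ⟨a, -, rfl⟩ := hy'
        exact hRK x' (hDs1 c' x' hx').1 a t hp.2.2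
  have hC1M : ∀ i, C1 i ⊆ M := by
    intro i y hy
    rcases hC1m i y hy with h1 | ⟨t, c, x, hc, hx, hy'⟩
    · exact hBM ((hβ1 i).2 h1)
    · have h2 := hDtfull t c x (hu1 t c hx)
      rw [pr, Finset.mem_insert, Finset.mem_singleton] at hy'
      rcases hy' with rfl | rfl
      · exact h2.2.2.2.1
      · exact h2.2.2.2.2
  have hC2M : ∀ i, C2 i ⊆ M := by
    intro i y hy
    rcases (hC2 i).2 y hy with ⟨t, c, x, hc, hx, hy'⟩ | ⟨c, x, hc, hx, hy'⟩
    · have h2 := hDtfull t c x (Finset.mem_sdiff.mp hx).1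
      rw [pr, Finset.mem_insert, Finset.mem_singleton] at hy'
      rcases hy' with rfl | rfl
      · exact h2.2.2.2.1
      · exact h2.2.2.2.2
    · exact (hDs1 c x hx).2 hy'
  have hfin := pack_append C1 C2 (fun i => ⟨hC1 i, hC1M i⟩) (fun i => ⟨(hC2 i).1, hC2M i⟩)
    hC1d hC2d hCD
  have hsum : s + (q - s) = q := by omega
  rw [hsum] at hfin
  exact hfin

end Pool.Agent.EB58
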