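import Pool.Agent.EB58.Reg1Core
import Pool.Agent.EB58.Num

/-!
Regime 1 in the model.
-/

set_option autoImplicit false

namespace Pool.Agent.EB58

open Finset

theorem regime1_model (r m κ k : ℕ) (hr : 4000 ≤ r) (hκ : κ = 2 ∨ κ = 3) (hk : k + 1 = m + κ)
    (hrm : r = m + k) (F : Type) [Field F] [Fintype F] [DecidableEq F] [Algebra (ZMod 2) F]
    (hF : Fintype.card F = 2 ^ k) (M : Finset (E m × F)) (hM0 : ∀ y ∈ M, y.2 ≠ 0)
    (hMs : ∑ y ∈ M, y = 0)
    (hMX : ∀ c : F, c ≠ 0 → ((univ : Finset (E m)).filter fun x => (x, c) ∉ M).card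
      ≤ 2 ^ (m + 4 - r / 20)) :
    ∀ q, (r + 1) * q = M.card → Pack r M q := by
  intro q hq
  refine reg1_core (ρ := r / 20 / 2) (X := 2 ^ (m + 4 - r / 20)) hκ hk hrm (num_4000 r hr)
    (by omega) ?_ hF M hM0 hMs hMX hq
  rw [← pow_add]
  exact Nat.pow_le_pow_right (by norm_num) (by omega)

end Pool.Agent.EB58
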