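import Pool.Agent.EB58.Defs
import Pool.Agent.EB58.Model
import Pool.Agent.EB58.Pre
import Pool.Agent.EB58.Cyc
import Pool.Agent.EB58.Reg1Model

/-!
Regime 1: nearly complete sets. (module S)
-/

set_option autoImplicit false

namespace Pool.Agent.EB58

open Finset Pool.Agent.H41.Circ

/-- Decompositions are preserved by linear isomorphisms. -/
theorem R_dec_map {V W : Type} [AddCommGroup V] [Module (ZMod 2) V] [DecidableEq V]
    [AddCommGroup W] [Module (ZMod 2) W] [DecidableEq W] (e : V ≃ₗ[ZMod 2] W) {M : Finset V}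
    {k : ℕ} (h : Dec M k) : Dec (M.image e) k := by
  obtain ⟨P, hP, hPc, hPd, hPu⟩ := h
  have hinj : Function.Injective (fun C : Finset V => C.image e) :=
    Finset.image_injective e.injective
  refine ⟨P.image (fun C => C.image e), ?_, ?_, ?_, ?_⟩
  · rw [card_image_of_injective _ hinj, hP]
  · intro D hD
    obtain ⟨C, hC, rfl⟩ := mem_image.1 hD
    obtain ⟨a1, a2, a3⟩ := hPc C hC
    refine ⟨a1.image e, ?_, ?_⟩
    · rw [sum_image (fun x _ y _ h => e.injective h), ← map_sum, a2, map_zero]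
    · intro D hD hne h0
      have h1 : D.image e.symm ⊆ C := by
        intro x hx
        obtain ⟨y, hy, rfl⟩ := mem_image.1 hx
        obtain ⟨z, hz, hzy⟩ := mem_image.1 (hD hy)
        rw [← hzy, LinearEquiv.symm_apply_apply]
        exact hz
      have h2 := a3 (D.image e.symm) h1 (hne.image _) (by
        rw [sum_image (fun x _ y _ h => e.symm.injective h), ← map_sum, h0, map_zero])
      rw [← h2, image_image]
      ext y
      rw [mem_image]
      constructor
      · intro hy
        exact ⟨y, hy, by simp⟩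
      · rintro ⟨z, hz, hzy⟩
        simp only [Function.comp_apply, LinearEquiv.apply_symm_apply] at hzy
        rw [← hzy]
        exact hz
  · intro D hD D' hD' hne
    obtain ⟨C, hC, rfl⟩ := mem_image.1 (mem_coe.1 hD)
    obtain ⟨C', hC', rfl⟩ := mem_image.1 (mem_coe.1 hD')
    exact (disjoint_image e.injective).2 (hPd (mem_coe.2 hC) (mem_coe.2 hC') (fun h => hne (by rw [h])))
  · rw [image_biUnion, ← hPu, biUnion_image]
    rfl

private theorem R_card {V : Type} [AddCommGroup V] [Module (ZMod 2) V] [Fintype V] {r : ℕ}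
    (hr : Module.finrank (ZMod 2) V = r) : Fintype.card V = 2 ^ r := by
  rw [Module.card_eq_pow_finrank (K := ZMod 2), ZMod.card, hr]

/-- Removal of at most two circuits. -/
theorem R_small {V : Type} [AddCommGroup V] [Module (ZMod 2) V] [Fintype V] [DecidableEq V] {r : ℕ}
    (hr : Module.finrank (ZMod 2) V = r) (hr4 : 4 ≤ r) (M : Finset V) (h0 : (0 : V) ∉ M)
    (hs : ∑ v ∈ M, v = 0) (hU : 8 * ((univ \ M).card + (r + 1)) < 2 ^ r) :
    ∃ M' ⊆ M, ∑ v ∈ M', v = 0 ∧ (M \ M').card ≤ 2 * (r + 1) ∧ ∃ q j, (r + 1) * q = M'.card ∧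
      q + j ≤ (M.card + r) / (r + 1) ∧ ∀ k, Dec M' k → Dec M (k + j) := by
  have hcV := R_card hr
  have hcU : (univ \ M).card + M.card = 2 ^ r := by
    rw [card_sdiff_add_card_eq_card (subset_univ M), card_univ, hcV]
  have hU1 : 1 ≤ (univ \ M).card := by
    rw [Nat.one_le_iff_ne_zero, ← Nat.pos_iff_ne_zero, card_pos]
    exact ⟨0, mem_sdiff.2 ⟨mem_univ _, h0⟩⟩
  have hdm := Nat.div_add_mod M.card (r + 1)
  have hml := Nat.mod_lt M.card (Nat.succ_pos r)
  set q0 := M.card / (r + 1) with hq0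
  set ρ := M.card % (r + 1) with hρ
  have hsub : ∀ C : Finset V, Disjoint C (univ \ M) → C ⊆ M := by
    intro C hC x hx
    by_contra h
    exact disjoint_left.1 hC hx (mem_sdiff.2 ⟨mem_univ _, h⟩)
  have hbd : 1 ≤ ρ → q0 + 1 ≤ (M.card + r) / (r + 1) := by
    intro h1
    rw [Nat.le_div_iff_mul_le (Nat.succ_pos r)]
    have h2 : (q0 + 1) * (r + 1) = (r + 1) * q0 + (r + 1) := by ring
    rw [h2]
    omega
  rcases Nat.lt_or_ge ρ 3 with h3 | h3
  · rcases Nat.eq_zero_or_pos ρ with h4 | h4
    · refine ⟨M, Subset.rfl, hs, by rw [Finset.sdiff_self, card_empty]; omega, q0, 0, ?_, ?_, ?_⟩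
      · omega
      · rw [add_zero, hq0]
        exact Nat.div_le_div_right (by omega)
      · intro k hk
        exact hk
    · -- two circuits
      have hq1 : 1 ≤ q0 := by
        by_contra h5
        have h6 : q0 = 0 := Nat.lt_one_iff.1 (not_le.1 h5)
        rw [h6, mul_zero] at hdm
        omega
      obtain ⟨C1, c1, c2, c3⟩ := exists_circuit_card hr (l := r - 1) (by omega) (by omega)
        (univ \ M) (by omega)
      have c4 := hsub C1 c3
      obtain ⟨C2, d1, d2, d3⟩ := exists_circuit_card hr (l := 2 + ρ) (by omega) (by omega)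
        ((univ \ M) ∪ C1) (by
          have := card_union_le (univ \ M) C1
          omega)
      rw [disjoint_union_right] at d3
      have d4 : C2 ⊆ M \ C1 := by
        intro x hx
        exact mem_sdiff.2 ⟨hsub C2 d3.1 hx, disjoint_left.1 d3.2 hx⟩
      have e1 := card_sdiff_add_card_eq_card c4
      have e2 := card_sdiff_add_card_eq_card d4
      refine ⟨(M \ C1) \ C2, sdiff_subset.trans sdiff_subset, ?_, ?_, q0 - 1, 2, ?_, ?_, ?_⟩
      · exact sum_sdiff_zero d4 d1.2.1 (sum_sdiff_zero c4 c1.2.1 hs)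
      · have h5 : M \ ((M \ C1) \ C2) ⊆ C1 ∪ C2 := by
          intro x hx
          simp only [mem_sdiff, mem_union, not_and, not_not] at hx ⊢
          by_cases h6 : x ∈ C1
          · exact Or.inl h6
          · exact Or.inr (hx.2 ⟨hx.1, h6⟩)
        have h6 := card_le_card h5
        have h7 := card_union_le C1 C2
        omega
      · have h5 : (r + 1) * (q0 - 1) + (r + 1) = (r + 1) * q0 := by
          have h6 : q0 = (q0 - 1) + 1 := by omega
          rw [h6, Nat.add_sub_cancel]
          ring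
        omega
      · have := hbd h4
        omega
      · intro k hk
        have h5 := dec_union d1 disjoint_sdiff hk
        rw [union_sdiff_of_subset d4] at h5
        have h6 := dec_union c1 disjoint_sdiff h5
        rw [union_sdiff_of_subset c4] at h6
        exact h6
  · obtain ⟨C1, c1, c2, c3⟩ := exists_circuit_card hr (l := ρ) h3 (by omega)
      (univ \ M) (by omega)
    have c4 := hsub C1 c3
    have e1 := card_sdiff_add_card_eq_card c4
    refine ⟨M \ C1, sdiff_subset, ?_, ?_, q0, 1, ?_, hbd (by omega), ?_⟩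
    · exact sum_sdiff_zero c4 c1.2.1 hs
    · rw [Finset.sdiff_sdiff_eq_self c4]
      omega
    · omega
    · intro k hk
      have h5 := dec_union c1 disjoint_sdiff hk
      rw [union_sdiff_of_subset c4] at h5
      exact h5

/-- Packing of everything. -/
theorem R_pack {V : Type} [AddCommGroup V] [Module (ZMod 2) V] [Finite V] [DecidableEq V]
    {r : ℕ} (hr : Module.finrank (ZMod 2) V = r) {M : Finset V} {q : ℕ} (h : Pack r M q)
    (hc : (r + 1) * q = M.card) : Dec M q := by
  obtain ⟨C, h1, h2⟩ := h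
  have h3 : M \ univ.biUnion C = ∅ := by
    have h4 : (univ.biUnion C).card = q * (r + 1) := by
      rw [card_biUnion (fun i _ j _ hij => h2 hij), Finset.sum_congr rfl (fun i _ => (h1 i).1.1),
        sum_const, card_univ, Fintype.card_fin, smul_eq_mul]
    have h5 : univ.biUnion C ⊆ M := by
      intro x hx
      obtain ⟨i, _, hi⟩ := mem_biUnion.1 hx
      exact (h1 i).2 hi
    have h6 := card_sdiff_add_card_eq_card h5
    rw [← card_eq_zero]
    have h7 : q * (r + 1) = (r + 1) * q := mul_comm _ _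
    omega
  have h4 := Pack.dec hr C h1 h2 (k := 0) (by rw [h3]; exact dec_empty)
  rwa [zero_add] at h4

private theorem R_num1 (t : ℕ) (ht : 25 ≤ t) : 256 * (4 * t + 8) ≤ 2 ^ t := by
  induction t, ht using Nat.le_induction with
  | base => norm_num
  | succ n hn ih =>
    rw [pow_succ]
    omega

private theorem R_num {r : ℕ} (hr : 100 ≤ r) : 256 * (r + 4) ≤ 2 ^ (r / 4) := by
  have h1 := R_num1 (r / 4) (by omega)
  omega

/-- The number of elements of a set in a coset. -/
private theorem R_fib {V : Type} [AddCommGroup V] [Module (ZMod 2) V] [Fintype V] [DecidableEq V]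
    {m k : ℕ} {F : Type} [Field F] [Fintype F] [DecidableEq F] [Algebra (ZMod 2) F]
    {U : Finset V} (e : V ≃ₗ[ZMod 2] (E m × F))
    (he : ∀ (ρ : ℕ) (hρ : ρ ≤ m),
      ∑ p : E ρ, ∑ c : F,
        (((U.filter fun z => phi hρ (e z).1 = p ∧ (e z).2 = c).card : ℝ)
          - (U.card : ℝ) / 2 ^ (k + ρ)) ^ 2 ≤ (U.card : ℝ)) (c : F) {a b : ℕ}
    (ha : U.card ≤ 2 ^ k * a) (hb : U.card ≤ b ^ 2) :
    (U.filter fun z => (e z).2 = c).card ≤ a + b := by
  have h1 := he 0 (Nat.zero_le m)
  have h2 : (((U.filter fun z => (e z).2 = c).card : ℝ) - (U.card : ℝ) / 2 ^ k) ^ 2 ≤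
      (U.card : ℝ) := by
    refine le_trans ?_ h1
    have h3 : ∀ p : E 0, (((U.filter fun z => (e z).2 = c).card : ℝ) - (U.card : ℝ) / 2 ^ k) ^ 2 ≤
        ∑ c : F, (((U.filter fun z => phi (Nat.zero_le m) (e z).1 = p ∧ (e z).2 = c).card : ℝ)
          - (U.card : ℝ) / 2 ^ (k + 0)) ^ 2 := by
      intro p
      have h4 := Finset.single_le_sum (s := (univ : Finset F)) (f := fun c : F =>
        (((U.filter fun z => phi (Nat.zero_le m) (e z).1 = p ∧ (e z).2 = c).card : ℝ)
          - (U.card : ℝ) / 2 ^ (k + 0)) ^ 2) (fun i _ => sq_nonneg _) (mem_univ c)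
      refine le_trans (le_of_eq ?_) h4
      have h5 : (U.filter fun z => phi (Nat.zero_le m) (e z).1 = p ∧ (e z).2 = c) =
          U.filter fun z => (e z).2 = c := by
        refine filter_congr fun z _ => ?_
        constructor
        · exact fun h => h.2
        · exact fun h => ⟨funext fun i => i.elim0, h⟩
      simp only [h5, add_zero]
    refine le_trans (h3 0) ?_
    exact Finset.single_le_sum (s := (univ : Finset (E 0))) (f := fun p : E 0 =>
      ∑ c : F, (((U.filter fun z => phi (Nat.zero_le m) (e z).1 = p ∧ (e z).2 = c).card : ℝ)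
          - (U.card : ℝ) / 2 ^ (k + 0)) ^ 2) (fun i _ => Finset.sum_nonneg fun _ _ => sq_nonneg _)
      (mem_univ 0)
  have h6 : (U.card : ℝ) ≤ (b : ℝ) ^ 2 := by exact_mod_cast hb
  have h7 := abs_le_of_sq_le_sq (h2.trans h6) (Nat.cast_nonneg b)
  have h8 : (U.card : ℝ) / 2 ^ k ≤ a := by
    rw [div_le_iff₀ (by positivity)]
    have h9 : (U.card : ℝ) ≤ 2 ^ k * a := by exact_mod_cast ha
    linarith
  have h9 : ((U.filter fun z => (e z).2 = c).card : ℝ) ≤ ((a + b : ℕ) : ℝ) := by
    push_cast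
    linarith [(abs_le.1 h7).2]
  exact_mod_cast h9

/-- The main part, for a given field. -/
private theorem R_main {V : Type} [AddCommGroup V] [Module (ZMod 2) V] [Fintype V] [DecidableEq V]
    {r m κ k : ℕ} (hr : Module.finrank (ZMod 2) V = r) (hr100 : 100 ≤ r) (hκ : κ = 2 ∨ κ = 3)
    (hkm : k + 1 = m + κ) (hrk : r = m + k) (F : Type) [Field F] [Fintype F] [DecidableEq F]
    [Algebra (ZMod 2) F] (hF : Fintype.card F = 2 ^ k)
    (hmod : ∀ M : Finset (E m × F), (∀ y ∈ M, y.2 ≠ 0) → ∑ y ∈ M, y = 0 →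
      (∀ c : F, c ≠ 0 → ((univ : Finset (E m)).filter fun x => (x, c) ∉ M).card
        ≤ 2 ^ (m + 4 - r / 20)) →
      ∀ q, (r + 1) * q = M.card → Pack r M q)
    (M : Finset V) (h0 : (0 : V) ∉ M) (hs : ∑ v ∈ M, v = 0)
    (hU : (univ \ M).card ≤ 2 ^ (r - 2 * (r / 20))) :
    ∃ q, Dec M q ∧ q ≤ (M.card + r) / (r + 1) := by
  have hN := R_num hr100
  set j := r / 20 with hj
  have hj5 : 5 ≤ j := by omega
  have hm1 : 2 * m + 2 ≤ r + 1 := by omega
  have hm2 : r + 1 ≤ 2 * m + 3 := by omega
  have p1 : 2 ^ (r - 2 * j) * 2 ^ 10 ≤ 2 ^ r := by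
    rw [← pow_add]
    exact Nat.pow_le_pow_right (by norm_num) (by omega)
  have p2 : 2 ^ (r / 4) ≤ 2 ^ (r - 2 * j) := Nat.pow_le_pow_right (by norm_num) (by omega)
  obtain ⟨M', hM', hs', hMM, q, i, hq, hqi, hdec⟩ := R_small hr (by omega) M h0 hs (by omega)
  -- the complement of `M'`
  have hU' : (univ \ M').card ≤ 2 ^ (r - 2 * j) * 2 := by
    have h1 : univ \ M' ⊆ (univ \ M) ∪ (M \ M') := by
      intro x hx
      rw [mem_sdiff] at hx
      rw [mem_union, mem_sdiff, mem_sdiff]
      by_cases h2 : x ∈ M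
      · exact Or.inr ⟨h2, hx.2⟩
      · exact Or.inl ⟨mem_univ _, h2⟩
    have h2 := card_le_card h1
    have h3 := card_union_le (univ \ M) (M \ M')
    omega
  obtain ⟨e, he⟩ := exists_model hr hrk F hF (univ \ M')
  have hcos : ∀ c : F, ((univ \ M').filter fun z => (e z).2 = c).card ≤
      2 ^ (m + 1 - 2 * j) + 2 ^ (m + 2 - j) := by
    intro c
    refine R_fib e he c ?_ ?_
    · rw [← pow_add]
      refine hU'.trans ?_
      rw [← pow_succ]
      exact Nat.pow_le_pow_right (by norm_num) (by omega)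
    · rw [← pow_mul]
      refine hU'.trans ?_
      rw [← pow_succ]
      exact Nat.pow_le_pow_right (by norm_num) (by omega)
  -- the image of `M'` in the model
  set M1 := M'.image e with hM1
  have hinj : Function.Injective e := e.injective
  have hM1c : M1.card = M'.card := card_image_of_injective _ hinj
  have h01 : (0 : E m × F) ∉ M1 := by
    rw [hM1, mem_image]
    rintro ⟨x, hx, hx0⟩
    have h2 : x = 0 := hinj (by rw [hx0, map_zero])
    rw [h2] at hx
    exact h0 (hM' hx)
  have hs1 : ∑ y ∈ M1, y = 0 := by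
    rw [hM1, sum_image (fun x _ y _ h => hinj h), ← map_sum, hs', map_zero]
  have hmem : ∀ z, e z ∈ M1 ↔ z ∈ M' := by
    intro z
    rw [hM1, mem_image]
    constructor
    · rintro ⟨x, hx, hxz⟩
      rw [← hinj hxz]
      exact hx
    · intro hz
      exact ⟨z, hz, rfl⟩
  have hc1 : (univ \ M1).card ≤ 2 ^ (r - 2 * j) * 2 := by
    refine le_trans ?_ hU'
    have h2 : univ \ M1 ⊆ (univ \ M').image e := by
      intro y hy
      rw [mem_image]
      refine ⟨e.symm y, mem_sdiff.2 ⟨mem_univ _, ?_⟩, LinearEquiv.apply_symm_apply e y⟩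
      intro h3
      have h4 := (hmem (e.symm y)).2 h3
      rw [LinearEquiv.apply_symm_apply] at h4
      exact (mem_sdiff.1 hy).2 h4
    exact (card_le_card h2).trans card_image_le
  -- cover the elements in `W`
  have hmj : 2 ^ m = 2 ^ j * 2 ^ (m - j) := by
    rw [← pow_add]
    congr 1
    omega
  have hdiv : (r + 1) * 2 ^ m / 2 ^ (m - j) = (r + 1) * 2 ^ j := by
    rw [hmj, ← mul_assoc]
    exact Nat.mul_div_cancel _ (by positivity)
  have hbig : 8 * ((univ \ M1).card + 2 ^ m + (r + 1) * 2 ^ m +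
      ((r + 1) * 2 ^ m / 2 ^ (m - j) + 1) * 2 ^ m) < 2 ^ r := by
    rw [hdiv]
    have h2 : 2 ^ (r / 4) * (2 ^ j * 2 ^ m) * 2 ^ 2 ≤ 2 ^ r := by
      rw [← pow_add, ← pow_add, ← pow_add]
      exact Nat.pow_le_pow_right (by norm_num) (by omega)
    have h3 : 256 * (r + 4) * (2 ^ j * 2 ^ m) ≤ 2 ^ (r / 4) * (2 ^ j * 2 ^ m) :=
      Nat.mul_le_mul_right _ hN
    have h4 : 1 ≤ 2 ^ j := Nat.one_le_two_pow
    have h5 : 2 ^ m ≤ 2 ^ j * 2 ^ m := Nat.le_mul_of_pos_left _ (by positivity)
    have h6 : (r + 1) * 2 ^ m ≤ (r + 1) * (2 ^ j * 2 ^ m) := Nat.mul_le_mul_left _ h5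
    have h7 : ((r + 1) * 2 ^ j + 1) * 2 ^ m = (r + 1) * (2 ^ j * 2 ^ m) + 2 ^ m := by ring
    rw [h7]
    have h8 : 256 * (r + 4) * (2 ^ j * 2 ^ m) = 256 * ((r + 1) * (2 ^ j * 2 ^ m)) +
        768 * (2 ^ j * 2 ^ m) := by ring
    have h9 : 1 ≤ 2 ^ j * 2 ^ m := Nat.one_le_iff_ne_zero.2 (by positivity)
    omega
  obtain ⟨q1, C, b1, b2, b3, b4⟩ := exists_cover hrk (by omega) hF M1 h01 (2 ^ (m - j))
    (by positivity) hbig
  have hsubC : univ.biUnion C ⊆ M1 := by
    intro x hx
    obtain ⟨i, _, hi⟩ := mem_biUnion.1 hx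
    exact (b1 i).2 hi
  have hsumC : ∑ y ∈ univ.biUnion C, y = 0 := by
    rw [sum_biUnion (fun i _ j _ hij => b2 hij)]
    exact Finset.sum_eq_zero fun i _ => (b1 i).1.2.1
  have hcardC : (univ.biUnion C).card = (r + 1) * q1 := by
    rw [card_biUnion (fun i _ j _ hij => b2 hij), Finset.sum_congr rfl (fun i _ => (b1 i).1.1),
      sum_const, card_univ, Fintype.card_fin, smul_eq_mul, mul_comm]
  set M2 := M1 \ univ.biUnion C with hM2
  have hM2c : M2.card + (r + 1) * q1 = (r + 1) * q := by
    rw [← hcardC, hM2, card_sdiff_add_card_eq_card hsubC, hM1c, hq]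
  have hqq : q1 ≤ q := by
    have h2 : (r + 1) * q1 ≤ (r + 1) * q := by omega
    exact Nat.le_of_mul_le_mul_left h2 (Nat.succ_pos r)
  have hM2q : (r + 1) * (q - q1) = M2.card := by
    rw [Nat.mul_sub]
    omega
  have hpack : Pack r M2 (q - q1) := by
    refine hmod M2 ?_ ?_ ?_ (q - q1) hM2q
    · intro y hy hy0
      rw [hM2, mem_sdiff] at hy
      obtain ⟨i, hi⟩ := b3 y hy.1 hy0
      exact hy.2 (mem_biUnion.2 ⟨i, mem_univ _, hi⟩)
    · exact sum_sdiff_zero hsubC hsumC hs1
    · intro c hc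
      have h2 : ((univ : Finset (E m)).filter fun x => (x, c) ∉ M2).image (fun x => (x, c)) ⊆
          ((univ \ M').filter fun z => (e z).2 = c).image e ∪
            (univ.biUnion C).filter fun x => x.2 = c := by
        intro y hy
        obtain ⟨x, hx, rfl⟩ := mem_image.1 hy
        have h3 := (mem_filter.1 hx).2
        rw [mem_union]
        by_cases h4 : (x, c) ∈ M1
        · right
          rw [mem_filter]
          refine ⟨?_, rfl⟩
          by_contra h5
          exact h3 (mem_sdiff.2 ⟨h4, h5⟩)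
        · left
          rw [mem_image]
          refine ⟨e.symm (x, c), ?_, LinearEquiv.apply_symm_apply e _⟩
          rw [mem_filter, mem_sdiff, LinearEquiv.apply_symm_apply]
          refine ⟨⟨mem_univ _, fun h5 => h4 ?_⟩, rfl⟩
          have h6 := (hmem _).2 h5
          rwa [LinearEquiv.apply_symm_apply] at h6
      have h3 := card_le_card h2
      rw [card_image_of_injective _ (fun x y h => (Prod.ext_iff.1 h).1)] at h3
      have h4 := card_union_le (((univ \ M').filter fun z => (e z).2 = c).image e)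
        ((univ.biUnion C).filter fun x => x.2 = c)
      have h5 : (((univ \ M').filter fun z => (e z).2 = c).image e).card ≤ _ := card_image_le
      have h6 := hcos c
      have h7 := b4 c hc
      have e1 : 2 ^ (m + 1 - 2 * j) ≤ 2 ^ (m - j) * 2 := by
        rw [← pow_succ]
        exact Nat.pow_le_pow_right (by norm_num) (by omega)
      have e2 : 2 ^ (m + 2 - j) = 2 ^ (m - j) * 4 := by
        rw [show m + 2 - j = (m - j) + 2 by omega, pow_add]
        norm_num
      have e3 : 2 ^ (m + 4 - j) = 2 ^ (m - j) * 16 := by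
        rw [show m + 4 - j = (m - j) + 4 by omega, pow_add]
        norm_num
      have e4 : 2 ^ (r / 4) ≤ 2 ^ (m - j) := Nat.pow_le_pow_right (by norm_num) (by omega)
      rw [e3]
      omega
  have hfr : Module.finrank (ZMod 2) (E m × F) = r := by
    rw [← e.finrank_eq, hr]
  have hd2 : Dec M2 (q - q1) := R_pack hfr hpack hM2q
  have hd1 : Dec M1 (q - q1 + q1) := Pack.dec hfr C b1 b2 hd2
  rw [Nat.sub_add_cancel hqq] at hd1
  have hd' := R_dec_map e.symm hd1
  have h2 : M1.image e.symm = M' := by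
    rw [hM1, image_image]
    ext x
    rw [mem_image]
    constructor
    · rintro ⟨y, hy, hyx⟩
      simp only [Function.comp_apply, LinearEquiv.symm_apply_apply] at hyx
      rw [← hyx]
      exact hy
    · intro hx
      exact ⟨x, hx, by simp⟩
  rw [h2] at hd'
  exact ⟨q + i, hdec q hd', hqi⟩

/-- Regime 1. Steps (a), (b) of note 3134: remove at most two circuits
(`exists_circuit_card`) so that `r + 1` divides the number of elements, take the model
(`exists_model` for the complement, `F = GaloisField 2 k`), cover the elements in `W`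
(`exists_cover`, `X0 = 2^(m - r/20)`), apply `regime1_model`, use `Pack.dec`. -/
theorem regime1 : ∀ (V : Type) [AddCommGroup V] [Module (ZMod 2) V] [Fintype V]
    [DecidableEq V] (r : ℕ), 4000 ≤ r → Module.finrank (ZMod 2) V = r →
    ∀ M : Finset V, (0 : V) ∉ M → ∑ v ∈ M, v = 0 →
    (univ \ M).card ≤ 2 ^ (r - 2 * (r / 20)) →
    ∃ q, Dec M q ∧ q ≤ (M.card + r) / (r + 1) := by
  intro V _ _ _ _ r hr0 hr M h0 hs hU
  have hr100 : 100 ≤ r := le_trans (by norm_num) hr0
  obtain ⟨κ, m, hκ, hm⟩ : ∃ κ m, (κ = 2 ∨ κ = 3) ∧ r + 1 = 2 * m + κ := by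
    rcases Nat.even_or_odd' r with ⟨a, ha | ha⟩
    · exact ⟨3, a - 1, Or.inr rfl, by omega⟩
    · exact ⟨2, a, Or.inl rfl, by omega⟩
  obtain ⟨k, hk⟩ : ∃ k, k + 1 = m + κ := ⟨m + κ - 1, by omega⟩
  have hrk : r = m + k := by omega
  let F : Type := GaloisField 2 k
  let _ : Fintype F := Fintype.ofFinite F
  let _ : DecidableEq F := Classical.decEq F
  have hF : Fintype.card F = 2 ^ k := by
    rw [← Nat.card_eq_fintype_card]
    exact GaloisField.card 2 k (by omega)
  exact R_main hr hr100 hκ hk hrk F hF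
    (regime1_model r m κ k hr0 hκ hk hrk F hF) M h0 hs hU

end Pool.Agent.EB58
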