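import Pool.Agent.EB58.Defs

/-!
Special phase, part 1: linear algebra.
-/

set_option autoImplicit false

namespace Pool.Agent.EB58

open Finset Pool.Agent.H41.Circ

theorem finrank_sup_single {V : Type} [AddCommGroup V] [Module (ZMod 2) V] [Finite V]
    (G : Submodule (ZMod 2) V) {v : V} (hv : v ∉ G) :
    Module.finrank (ZMod 2) (G ⊔ Submodule.span (ZMod 2) {v} : Submodule (ZMod 2) V)
      = Module.finrank (ZMod 2) G + 1 := by
  have hv0 : v ≠ 0 := fun h => hv (h ▸ G.zero_mem)
  have hinf : G ⊓ Submodule.span (ZMod 2) {v} = ⊥ := by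
    rw [← disjoint_iff]
    exact (Submodule.disjoint_span_singleton' hv0).mpr hv
  have h := Submodule.finrank_sup_add_finrank_inf_eq G (Submodule.span (ZMod 2) {v})
  rw [hinf, finrank_bot, finrank_span_singleton hv0] at h
  omega

theorem finrank_model {m k : ℕ} {F : Type} [Field F] [Fintype F] [Algebra (ZMod 2) F]
    (hF : Fintype.card F = 2 ^ k) : Module.finrank (ZMod 2) (E m × F) = m + k := by
  have h1 : Module.finrank (ZMod 2) F = k := by
    have h := Module.card_eq_pow_finrank (K := ZMod 2) (V := F)
    rw [hF, ZMod.card] at h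
    exact (Nat.pow_right_injective (le_refl 2) h).symm
  rw [Module.finrank_prod, h1]
  simp

theorem zmod2_cases (x : ZMod 2) : x = 0 ∨ x = 1 := by
  revert x; decide

/-- An involution which flips a `ZMod 2` valued function. -/
theorem card_half {α : Type} [DecidableEq α] (S : Finset α) (f : α → ZMod 2) (τ : α → α)
    (hτ : ∀ x ∈ S, τ x ∈ S) (hττ : ∀ x ∈ S, τ (τ x) = x) (hf : ∀ x ∈ S, f (τ x) = f x + 1) :
    2 * (S.filter fun x => f x = 1).card = S.card := by
  have h1 : (S.filter fun x => f x = 1).card = (S.filter fun x => ¬ f x = 1).card := by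
    refine Finset.card_bij' (fun x _ => τ x) (fun x _ => τ x) ?_ ?_ ?_ ?_
    · intro x hx
      rw [Finset.mem_filter] at hx ⊢
      refine ⟨hτ x hx.1, ?_⟩
      rw [hf x hx.1, hx.2]; decide
    · intro x hx
      rw [Finset.mem_filter] at hx ⊢
      refine ⟨hτ x hx.1, ?_⟩
      rw [hf x hx.1]
      rcases zmod2_cases (f x) with h | h
      · rw [h]; decide
      · exact absurd h hx.2
    · intro x hx; exact hττ x (Finset.mem_filter.mp hx).1
    · intro x hx; exact hττ x (Finset.mem_filter.mp hx).1
  have h2 := Finset.card_filter_add_card_filter_not (s := S) (p := fun x => f x = 1)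
  omega

/-- At least about half of `R × F^*` lies outside of a proper subspace which contains the
`ee t`, `t ∈ S`, if `R` is closed under `ee a`, `a ∉ S`. -/
theorem half_outside {m k : ℕ} {F : Type} [Field F] [Fintype F] [DecidableEq F]
    [Algebra (ZMod 2) F] (hF : Fintype.card F = 2 ^ k) (hk : 1 ≤ k)
    (S : Finset (Fin m)) (R : Finset (E m)) (hR : ∀ a, a ∉ S → ∀ x ∈ R, x + ee a ∈ R)
    (G : Submodule (ZMod 2) (E m × F)) (hG : G ≠ ⊤) (hS : ∀ t ∈ S, (ee t, (0 : F)) ∈ G)
    [DecidablePred fun y : E m × F => y ∉ G] :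
    R.card * (2 ^ (k - 1) - 1) ≤ ((R ×ˢ (univ.erase (0 : F))).filter fun y => y ∉ G).card := by
  obtain ⟨φ, hφ0, hφG⟩ := Submodule.exists_le_ker_of_lt_top G (lt_top_iff_ne_top.mpr hG)
  have hsub : ((R ×ˢ (univ.erase (0 : F))).filter fun y => φ y = 1).card ≤
      ((R ×ˢ (univ.erase (0 : F))).filter fun y => y ∉ G).card := by
    refine Finset.card_le_card fun y hy => ?_
    rw [Finset.mem_filter] at hy ⊢
    refine ⟨hy.1, fun h => ?_⟩
    have h1 := hφG h
    rw [LinearMap.mem_ker, hy.2] at h1
    exact one_ne_zero h1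
  refine le_trans ?_ hsub
  have hsplit : ∀ x : E m, ∀ c : F, φ (x, c) = φ (x, 0) + φ (0, c) := by
    intro x c; rw [← map_add]; simp
  have hk2 : 2 ^ k = 2 * 2 ^ (k - 1) := by rw [← pow_succ']; congr 1; omega
  by_cases hc : ∃ c0 : F, φ (0, c0) = 1
  · obtain ⟨c0, hc0⟩ := hc
    have hx : ∀ x : E m, 2 ^ (k - 1) - 1 ≤
        ((univ.erase (0 : F)).filter fun c => φ (x, c) = 1).card := by
      intro x
      have h1 := card_half (univ : Finset F) (fun c => φ (x, c)) (fun c => c + c0)
        (fun _ _ => Finset.mem_univ _)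
        (fun c _ => by rw [add_assoc, add_self', add_zero])
        (fun c _ => by
          show φ (x, c + c0) = φ (x, c) + 1
          rw [hsplit x (c + c0), hsplit x c]
          have : φ ((0 : E m), c + c0) = φ (0, c) + φ (0, c0) := by rw [← map_add]; simp
          rw [this, hc0, add_assoc])
      rw [Finset.card_univ, hF, hk2] at h1
      have h2 : ((univ : Finset F).filter fun c => φ (x, c) = 1).card ≤
          ((univ.erase (0 : F)).filter fun c => φ (x, c) = 1).card + 1 := by
        rw [Finset.filter_erase]
        have := Finset.pred_card_le_card_erase (s := (univ : Finset F).filter fun c => φ (x, c) = 1) (a := (0 : F))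
        omega
      omega
    calc R.card * (2 ^ (k - 1) - 1) = ∑ _x ∈ R, (2 ^ (k - 1) - 1) := by
          rw [Finset.sum_const, smul_eq_mul]
      _ ≤ ∑ x ∈ R, ((univ.erase (0 : F)).filter fun c => φ (x, c) = 1).card :=
          Finset.sum_le_sum fun x _ => hx x
      _ = ((R ×ˢ (univ.erase (0 : F))).filter fun y => φ y = 1).card := by
          rw [Finset.card_filter, Finset.sum_product]
          refine Finset.sum_congr rfl fun x _ => ?_
          rw [Finset.card_filter]
  · push Not at hc
    have hc' : ∀ c : F, φ (0, c) = 0 := fun c => (zmod2_cases _).resolve_right (hc c)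
    have ha : ∃ a, a ∉ S ∧ φ (ee a, (0 : F)) = 1 := by
      by_contra hcon
      push Not at hcon
      apply hφ0
      have hall : ∀ a, φ (ee a, (0 : F)) = 0 := by
        intro a
        by_cases haS : a ∈ S
        · exact LinearMap.mem_ker.mp (hφG (hS a haS))
        · exact (zmod2_cases _).resolve_right (hcon a haS)
      ext x
      · simp only [LinearMap.coe_comp, Function.comp_apply, LinearMap.inl_apply,
          LinearMap.zero_apply, LinearMap.coe_single]
        have := hall x
        simpa [ee] using this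
      · simp only [LinearMap.coe_comp, Function.comp_apply, LinearMap.inr_apply,
          LinearMap.zero_apply]
        exact hc' x
    obtain ⟨a, haS, ha1⟩ := ha
    have h1 := card_half R (fun x => φ (x, (0 : F))) (fun x => x + ee a)
      (fun x hx => hR a haS x hx)
      (fun x _ => by rw [add_assoc, add_self', add_zero])
      (fun x _ => by
        show φ (x + ee a, (0 : F)) = φ (x, 0) + 1
        have : ((x + ee a, (0 : F)) : E m × F) = (x, 0) + (ee a, 0) := by simp
        rw [this, map_add, ha1])
    have h2 : ((R ×ˢ (univ.erase (0 : F))).filter fun y => φ y = 1).card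
        = (R.filter fun x => φ (x, (0 : F)) = 1).card * (2 ^ k - 1) := by
      have : ((R ×ˢ (univ.erase (0 : F))).filter fun y => φ y = 1)
          = (R.filter fun x => φ (x, (0 : F)) = 1) ×ˢ (univ.erase (0 : F)) := by
        ext ⟨x, c⟩
        simp only [Finset.mem_filter, Finset.mem_product]
        rw [hsplit x c, hc' c, add_zero]
        tauto
      rw [this, Finset.card_product, Finset.card_erase_of_mem (Finset.mem_univ _),
        Finset.card_univ, hF]
    rw [h2, ← h1]
    have h3 : 2 * (2 ^ (k - 1) - 1) ≤ 2 ^ k - 1 := by omega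
    calc 2 * (R.filter fun x => φ (x, (0 : F)) = 1).card * (2 ^ (k - 1) - 1)
        = (R.filter fun x => φ (x, (0 : F)) = 1).card * (2 * (2 ^ (k - 1) - 1)) := by ring
      _ ≤ _ := Nat.mul_le_mul_left _ h3

end Pool.Agent.EB58
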