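import Pool.Agent.EB58.Sp1
import Pool.Agent.EB58.Greedy

/-!
Special phase, part 2: choice of the links and of the pairs.
-/

set_option autoImplicit false

namespace Pool.Agent.EB58

open Finset Pool.Agent.H41.Circ

/-- the index of the pair of type `t` through `y` -/
def px {m : ℕ} {F : Type} (t : Fin m) (y : E m × F) : E m × F := (Function.update y.1 t 0, y.2)

theorem px_eq_iff {m : ℕ} {F : Type} [Field F] [Algebra (ZMod 2) F] (t : Fin m)
    (x y : E m × F) : px t x = px t y ↔ x = y ∨ x = y + (ee t, 0) := by
  constructor
  · intro h
    have h1 : (px t x).1 = (px t y).1 := congrArg Prod.fst h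
    have h2 : (px t x).2 = (px t y).2 := congrArg Prod.snd h
    simp only [px] at h1 h2
    by_cases hxy : x.1 t = y.1 t
    · left
      refine Prod.ext ?_ h2
      funext j
      by_cases hj : j = t
      · rw [hj]; exact hxy
      · have := congrFun h1 j
        simpa [Function.update_of_ne hj] using this
    · right
      refine Prod.ext ?_ (by simpa using h2)
      funext j
      by_cases hj : j = t
      · rw [hj]
        have h3 : x.1 t = y.1 t + 1 := by
          rcases zmod2_cases (x.1 t) with h | h <;> rcases zmod2_cases (y.1 t) with h' | h' <;>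
            rw [h, h'] at hxy ⊢ <;> first | exact absurd rfl hxy | decide
        simp [ee, h3]
      · have := congrFun h1 j
        simpa [Function.update_of_ne hj, ee, Pi.single_eq_of_ne hj] using this
  · rintro (rfl | rfl)
    · rfl
    · refine Prod.ext ?_ (by simp [px])
      funext j
      by_cases hj : j = t
      · rw [hj]; simp [px]
      · simp [px, Function.update_of_ne hj, ee, Pi.single_eq_of_ne hj]

theorem card_px_le {m : ℕ} {F : Type} [Field F] [DecidableEq F] [Algebra (ZMod 2) F]
    (t : Fin m) (y z : E m × F) (S : Finset (E m × F)) :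
    (S.filter fun x => px t (x + z) = px t y).card ≤ 2 := by
  have : (S.filter fun x => px t (x + z) = px t y) ⊆ {y + z, y + (ee t, 0) + z} := by
    intro x hx
    rw [Finset.mem_filter, px_eq_iff] at hx
    rw [Finset.mem_insert, Finset.mem_singleton]
    rcases hx.2 with h | h
    · left; rw [← h, add_assoc, add_self', add_zero]
    · right; rw [← h, add_assoc, add_self', add_zero]
  exact (Finset.card_le_card this).trans (Finset.card_le_two)

theorem card_filter_mem_le {V : Type} [AddCommGroup V] [Module (ZMod 2) V] [Fintype V]
    [DecidableEq V] (G : Submodule (ZMod 2) V) [DecidablePred fun x => x ∈ G] (z : V)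
    (S : Finset V) : (S.filter fun x => x + z ∈ G).card ≤ Nat.card G := by
  rw [Nat.card_eq_fintype_card, Fintype.card_subtype]
  refine Finset.card_le_card_of_injOn (fun x => x + z) ?_ ?_
  · intro x hx
    have hx' := (Finset.mem_filter.mp hx).2
    simpa using hx'
  · intro x _ y _ h
    exact add_right_cancel h

/-- Choice of one pair of type `t` for every circuit. -/
theorem choose_u {ι : Type} [Fintype ι] [DecidableEq ι] {m k : ℕ} {F : Type} [Field F]
    [Fintype F] [DecidableEq F] [Algebra (ZMod 2) F] (hF : Fintype.card F = 2 ^ k) (hk : 1 ≤ k)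
    (S : Finset (Fin m)) (t : Fin m) (R : Finset (E m))
    (hR : ∀ a, a ∉ S → ∀ x ∈ R, x + ee a ∈ R)
    (D : F → Finset (E m)) (Mt : ℕ)
    (hM : ((R ×ˢ (univ.erase (0 : F))).filter fun y => Function.update y.1 t 0 ∉ D y.2).card ≤ Mt)
    (G : ι → Submodule (ZMod 2) (E m × F)) (hG : ∀ i, G i ≠ ⊤)
    (hS : ∀ i, ∀ s ∈ S, (ee s, (0 : F)) ∈ G i) (cap : ℕ) (hcap : 0 < cap)
    (hbig : 2 * Fintype.card ι + R.card * (Fintype.card ι / cap) + Mt
      < R.card * (2 ^ (k - 1) - 1)) :
    ∃ u : ι → E m × F, (∀ i, (u i).1 ∈ R ∧ (u i).2 ≠ 0 ∧
        Function.update (u i).1 t 0 ∈ D (u i).2 ∧ u i ∉ G i) ∧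
      (∀ i j, i ≠ j → px t (u i) ≠ px t (u j)) ∧
      ∀ c, (univ.filter fun i => (u i).2 = c).card ≤ cap := by
  classical
  set cand : ι → Finset (E m × F) := fun i =>
    ((R ×ˢ (univ.erase (0 : F))).filter fun y => y ∉ G i).filter
      fun y => Function.update y.1 t 0 ∈ D y.2 with hcand
  have hsub : ∀ i, cand i ⊆ R ×ˢ (univ.erase (0 : F)) := fun i =>
    (Finset.filter_subset _ _).trans (Finset.filter_subset _ _)
  have hcard : ∀ i, R.card * (2 ^ (k - 1) - 1) ≤ (cand i).card + Mt := by
    intro i
    have h1 := half_outside hF hk S R hR (G i) (hG i) (hS i)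
    have h2 := Finset.card_filter_add_card_filter_not
      (s := (R ×ˢ (univ.erase (0 : F))).filter fun y => y ∉ G i)
      (p := fun y => Function.update y.1 t 0 ∈ D y.2)
    have h3 : (((R ×ˢ (univ.erase (0 : F))).filter fun y => y ∉ G i).filter
        fun y => ¬ Function.update y.1 t 0 ∈ D y.2).card ≤ Mt := by
      refine le_trans (Finset.card_le_card ?_) hM
      intro y hy
      rw [Finset.mem_filter] at hy ⊢
      exact ⟨(Finset.mem_filter.mp hy.1).1, hy.2⟩
    have h4 : (cand i).card = (((R ×ˢ (univ.erase (0 : F))).filter fun y => y ∉ G i).filter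
      fun y => Function.update y.1 t 0 ∈ D y.2).card := rfl
    omega
  obtain ⟨u, hu1, hu2, hu3⟩ := greedy_choice (K := F) (univ : Finset ι) cand
    (fun _ x _ y => px t x = px t y) (fun _ _ _ _ h => h.symm) (fun _ _ => 2)
    (by
      intro i _ j _ _ b _
      have := card_px_le t b 0 (cand i)
      simpa using this)
    (fun _ x => {x.2}) 1 R.card cap (by intro i _ x _; simp)
    (by
      intro i _ c
      have hs : ((cand i).filter fun x => c ∈ ({x.2} : Finset F)) ⊆ R ×ˢ {c} := by
        intro x hx
        rw [Finset.mem_filter, Finset.mem_singleton] at hx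
        have h1 := Finset.mem_product.mp (hsub i hx.1)
        rw [Finset.mem_product, Finset.mem_singleton]
        exact ⟨h1.1, hx.2.symm⟩
      refine (Finset.card_le_card hs).trans ?_
      rw [Finset.card_product, Finset.card_singleton, mul_one])
    hcap
    (by
      intro i _
      rw [Finset.sum_const, Finset.card_erase_of_mem (Finset.mem_univ _), Finset.card_univ,
        smul_eq_mul, one_mul]
      have h1 := hcard i
      have h2 : (Fintype.card ι - 1) * 2 ≤ 2 * Fintype.card ι := by omega
      omega)
  refine ⟨u, fun i => ?_, fun i j hij => hu2 i (Finset.mem_univ _) j (Finset.mem_univ _) hij,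
    fun c => ?_⟩
  · have h1 := hu1 i (Finset.mem_univ _)
    have h2 := Finset.mem_product.mp (hsub i h1)
    rw [hcand] at h1
    have h3 := Finset.mem_filter.mp h1
    exact ⟨h2.1, (Finset.mem_erase.mp h2.2).1, h3.2, (Finset.mem_filter.mp h3.1).2⟩
  · refine le_trans (Finset.card_le_card ?_) (hu3 c)
    intro i hi
    rw [Finset.mem_filter] at hi ⊢
    exact ⟨hi.1, by rw [Finset.mem_singleton]; exact hi.2.symm⟩

/-- Choice of the links. -/
theorem choose_links {ι : Type} [Fintype ι] [DecidableEq ι] {m : ℕ} {F : Type} [Field F]
    [Fintype F] [DecidableEq F] [Algebra (ZMod 2) F]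
    (nx : ι → ι) (hinj : Function.Injective nx) (A : Fin m)
    (v : ι → E m × F) (Es : ι → Submodule (ZMod 2) (E m × F)) (e : ℕ)
    (hEs : ∀ i, Nat.card (Es i) ≤ e)
    (cand : ι → Finset (E m × F)) (Lmin Lc : ℕ) (hmin : ∀ i, Lmin ≤ (cand i).card)
    (hLc : ∀ i c, ((cand i).filter fun a => a.2 = c).card ≤ Lc) (cap : ℕ) (hcap : 0 < cap)
    (hbig : 8 * Fintype.card ι + 4 * e + 2 * Lc * (2 * Fintype.card ι / cap) < Lmin) :
    ∃ a : ι → E m × F, (∀ i, a i ∈ cand i) ∧
      (∀ i, a i ∉ Es i ∧ a i + (ee A, 0) ∉ Es (nx i)) ∧
      (∀ i, nx i ≠ i → a (nx i) + (a i + (ee A, 0)) ∉ Es (nx i)) ∧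
      (∀ i j, i ≠ j → px A (a i) ≠ px A (a j) ∧ px A (a i) ≠ px A (a j + v j) ∧
        px A (a i + v i) ≠ px A (a j + v j)) ∧
      ∀ c, (univ.filter fun i => (a i).2 = c ∨ (a i + v i).2 = c).card ≤ cap := by
  classical
  set cand' : ι → Finset (E m × F) := fun i =>
    ((cand i).filter fun x => x ∉ Es i).filter fun x => x + (ee A, 0) ∉ Es (nx i) with hcand'
  have hsub : ∀ i, cand' i ⊆ cand i := fun i =>
    (Finset.filter_subset _ _).trans (Finset.filter_subset _ _)
  have hcard : ∀ i, Lmin ≤ (cand' i).card + 2 * e := by
    intro i
    have h1 := Finset.card_filter_add_card_filter_not (s := cand i) (p := fun x => x ∉ Es i)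
    have h2 := Finset.card_filter_add_card_filter_not
      (s := (cand i).filter fun x => x ∉ Es i) (p := fun x => x + (ee A, 0) ∉ Es (nx i))
    have h3 : ((cand i).filter fun x => ¬ x ∉ Es i).card ≤ e := by
      refine le_trans ?_ (hEs i)
      have := card_filter_mem_le (Es i) 0 (cand i)
      simpa using this
    have h4 : (((cand i).filter fun x => x ∉ Es i).filter
        fun x => ¬ x + (ee A, 0) ∉ Es (nx i)).card ≤ e := by
      refine le_trans ?_ (hEs (nx i))
      have := card_filter_mem_le (Es (nx i)) (ee A, 0) ((cand i).filter fun x => x ∉ Es i)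
      simpa using this
    have h5 : (cand' i).card = (((cand i).filter fun x => x ∉ Es i).filter
      fun x => x + (ee A, 0) ∉ Es (nx i)).card := rfl
    have h6 := hmin i
    omega
  obtain ⟨a, ha1, ha2, ha3⟩ := greedy_choice (K := F) (univ : Finset ι) cand'
    (fun i x j y => (px A x = px A y ∨ px A x = px A (y + v j) ∨ px A (x + v i) = px A y ∨
        px A (x + v i) = px A (y + v j)) ∨
      (j = nx i ∧ y + (x + (ee A, 0)) ∈ Es j) ∨ (i = nx j ∧ x + (y + (ee A, 0)) ∈ Es i))
    (by
      rintro i x j y (h | h | h)
      · left
        rcases h with h | h | h | h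
        · exact Or.inl h.symm
        · exact Or.inr (Or.inr (Or.inl h.symm))
        · exact Or.inr (Or.inl h.symm)
        · exact Or.inr (Or.inr (Or.inr h.symm))
      · exact Or.inr (Or.inr h)
      · exact Or.inr (Or.inl h))
    (fun i j => 8 + ((if j = nx i then e else 0) + (if i = nx j then e else 0)))
    (by
      intro i _ j _ hij b _
      have hA1 : ((cand' i).filter fun x => px A x = px A b).card ≤ 2 := by
        simpa using card_px_le A b 0 (cand' i)
      have hA2 : ((cand' i).filter fun x => px A x = px A (b + v j)).card ≤ 2 := by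
        simpa using card_px_le A (b + v j) 0 (cand' i)
      have hA3 : ((cand' i).filter fun x => px A (x + v i) = px A b).card ≤ 2 :=
        card_px_le A b (v i) (cand' i)
      have hA4 : ((cand' i).filter fun x => px A (x + v i) = px A (b + v j)).card ≤ 2 :=
        card_px_le A (b + v j) (v i) (cand' i)
      have hB : ((cand' i).filter fun x => j = nx i ∧ b + (x + (ee A, 0)) ∈ Es j).card ≤
          if j = nx i then e else 0 := by
        split_ifs with h
        · refine le_trans ?_ (hEs j)
          have := card_filter_mem_le (Es j) (b + (ee A, 0)) (cand' i)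
          refine le_trans (Finset.card_le_card ?_) this
          intro x hx
          rw [Finset.mem_filter] at hx ⊢
          refine ⟨hx.1, ?_⟩
          have h2 := hx.2.2
          have h3 : x + (b + (ee A, 0)) = b + (x + (ee A, 0)) := by abel
          rw [h3]; exact h2
        · simp [h]
      have hC : ((cand' i).filter fun x => i = nx j ∧ x + (b + (ee A, 0)) ∈ Es i).card ≤
          if i = nx j then e else 0 := by
        split_ifs with h
        · refine le_trans ?_ (hEs i)
          have := card_filter_mem_le (Es i) (b + (ee A, 0)) (cand' i)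
          refine le_trans (Finset.card_le_card ?_) this
          intro x hx
          rw [Finset.mem_filter] at hx ⊢
          exact ⟨hx.1, hx.2.2⟩
        · simp [h]
      calc ((cand' i).filter fun x => (px A x = px A b ∨ px A x = px A (b + v j) ∨
            px A (x + v i) = px A b ∨ px A (x + v i) = px A (b + v j)) ∨
            (j = nx i ∧ b + (x + (ee A, 0)) ∈ Es j) ∨
            (i = nx j ∧ x + (b + (ee A, 0)) ∈ Es i)).card
          ≤ (((cand' i).filter fun x => px A x = px A b) ∪
            ((cand' i).filter fun x => px A x = px A (b + v j)) ∪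
            ((cand' i).filter fun x => px A (x + v i) = px A b) ∪
            ((cand' i).filter fun x => px A (x + v i) = px A (b + v j)) ∪
            ((cand' i).filter fun x => j = nx i ∧ b + (x + (ee A, 0)) ∈ Es j) ∪
            ((cand' i).filter fun x => i = nx j ∧ x + (b + (ee A, 0)) ∈ Es i)).card := by
            refine Finset.card_le_card fun x hx => ?_
            simp only [Finset.mem_union, Finset.mem_filter] at hx ⊢
            tauto
        _ ≤ _ := by
            refine (Finset.card_union_le _ _).trans ?_
            have g1 := Finset.card_union_le (((cand' i).filter fun x => px A x = px A b) ∪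
              ((cand' i).filter fun x => px A x = px A (b + v j)) ∪
              ((cand' i).filter fun x => px A (x + v i) = px A b) ∪
              ((cand' i).filter fun x => px A (x + v i) = px A (b + v j)))
              ((cand' i).filter fun x => j = nx i ∧ b + (x + (ee A, 0)) ∈ Es j)
            have g2 := Finset.card_union_le (((cand' i).filter fun x => px A x = px A b) ∪
              ((cand' i).filter fun x => px A x = px A (b + v j)) ∪
              ((cand' i).filter fun x => px A (x + v i) = px A b))
              ((cand' i).filter fun x => px A (x + v i) = px A (b + v j))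
            have g3 := Finset.card_union_le (((cand' i).filter fun x => px A x = px A b) ∪
              ((cand' i).filter fun x => px A x = px A (b + v j)))
              ((cand' i).filter fun x => px A (x + v i) = px A b)
            have g4 := Finset.card_union_le ((cand' i).filter fun x => px A x = px A b)
              ((cand' i).filter fun x => px A x = px A (b + v j))
            omega)
    (fun i x => {x.2, (x + v i).2}) 2 (2 * Lc) cap
    (by intro i _ x _; exact Finset.card_le_two)
    (by
      intro i _ c
      have h1 : ((cand' i).filter fun x => c ∈ ({x.2, (x + v i).2} : Finset F)) ⊆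
          ((cand i).filter fun x => x.2 = c) ∪
          ((cand i).filter fun x => x.2 = c + (v i).2) := by
        intro x hx
        rw [Finset.mem_filter, Finset.mem_insert, Finset.mem_singleton] at hx
        rw [Finset.mem_union, Finset.mem_filter, Finset.mem_filter]
        rcases hx.2 with h | h
        · exact Or.inl ⟨hsub i hx.1, h.symm⟩
        · refine Or.inr ⟨hsub i hx.1, ?_⟩
          rw [h, Prod.snd_add, add_assoc, add_self', add_zero]
      have h2 := (Finset.card_le_card h1).trans (Finset.card_union_le _ _)
      have h3 := hLc i c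
      have h4 := hLc i (c + (v i).2)
      omega)
    hcap
    (by
      intro i _
      have h1 : ∑ j ∈ univ.erase i, (8 + ((if j = nx i then e else 0) +
          (if i = nx j then e else 0))) ≤ 8 * Fintype.card ι + (e + e) := by
        rw [Finset.sum_add_distrib, Finset.sum_add_distrib]
        refine Nat.add_le_add ?_ (Nat.add_le_add ?_ ?_)
        · rw [Finset.sum_const, smul_eq_mul, mul_comm]
          exact Nat.mul_le_mul_left _ ((Finset.card_le_card (Finset.erase_subset _ _)).trans
            (le_of_eq Finset.card_univ))
        · refine (Finset.sum_le_sum_of_subset (Finset.erase_subset i univ)).trans ?_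
          rw [Finset.sum_ite_eq' univ (nx i)]
          simp
        · refine (Finset.sum_le_sum_of_subset (Finset.erase_subset i univ)).trans ?_
          by_cases hex : ∃ j, nx j = i
          · obtain ⟨j0, hj0⟩ := hex
            have : ∀ j, (if i = nx j then e else 0) = if j = j0 then e else 0 := by
              intro j
              by_cases hj : j = j0
              · rw [if_pos hj, if_pos (by rw [hj, hj0])]
              · rw [if_neg hj, if_neg (fun h => hj (hinj (by rw [← h, hj0])))]
            rw [Finset.sum_congr rfl fun j _ => this j, Finset.sum_ite_eq' univ j0]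
            simp
          · push Not at hex
            rw [Finset.sum_eq_zero fun j _ => if_neg (fun h => hex j h.symm)]
            exact Nat.zero_le _
      have h2 := hcard i
      rw [Finset.card_univ]
      omega)
  have hU : ∀ i, a i ∈ cand' i := fun i => ha1 i (Finset.mem_univ _)
  refine ⟨a, fun i => hsub i (hU i), fun i => ?_, fun i hne => ?_, fun i j hij => ?_, fun c => ?_⟩
  · have h1 := hU i
    rw [hcand'] at h1
    have h2 := Finset.mem_filter.mp h1
    exact ⟨(Finset.mem_filter.mp h2.1).2, h2.2⟩
  · intro hmem
    exact ha2 i (Finset.mem_univ _) (nx i) (Finset.mem_univ _) (Ne.symm hne)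
      (Or.inr (Or.inl ⟨rfl, hmem⟩))
  · have h1 := ha2 i (Finset.mem_univ _) j (Finset.mem_univ _) hij
    push Not at h1
    exact ⟨h1.1.1, h1.1.2.1, h1.1.2.2.2⟩
  · refine le_trans (Finset.card_le_card ?_) (ha3 c)
    intro i hi
    rw [Finset.mem_filter] at hi ⊢
    refine ⟨hi.1, ?_⟩
    rw [Finset.mem_insert, Finset.mem_singleton]
    rcases hi.2 with h | h
    · exact Or.inl h.symm
    · exact Or.inr h.symm

end Pool.Agent.EB58
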