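import Pool.Agent.EB58.Sp2

/-!
Special phase, part 3: all pairs, type by type.
-/

set_option autoImplicit false

namespace Pool.Agent.EB58

open Finset Pool.Agent.H41.Circ

theorem choose_all_u {ι : Type} [Fintype ι] [DecidableEq ι] {m k r : ℕ} {F : Type} [Field F]
    [Fintype F] [DecidableEq F] [Algebra (ZMod 2) F] (hF : Fintype.card F = 2 ^ k) (hk : 1 ≤ k)
    (hr : r = m + k) (S : Finset (Fin m)) (R : Fin m → Finset (E m))
    (hRa : ∀ t ∈ S, ∀ a, a ∉ S → ∀ x ∈ R t, x + ee a ∈ R t)
    (D : Fin m → F → Finset (E m)) (Mt : ℕ)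
    (hM : ∀ t ∈ S, ((R t ×ˢ (univ.erase (0 : F))).filter
      fun y => Function.update y.1 t 0 ∉ D t y.2).card ≤ Mt)
    (G0 : ι → Submodule (ZMod 2) (E m × F))
    (hG0 : ∀ i, Module.finrank (ZMod 2) (G0 i) + S.card = r)
    (hS : ∀ i, ∀ s ∈ S, (ee s, (0 : F)) ∈ G0 i) (cap : ℕ) (hcap : 0 < cap)
    (hbig : ∀ t ∈ S, 2 * Fintype.card ι + (R t).card * (Fintype.card ι / cap) + Mt
      < (R t).card * (2 ^ (k - 1) - 1)) :
    ∃ u : Fin m → ι → E m × F, (∀ t ∈ S, ∀ i, (u t i).1 ∈ R t ∧ (u t i).2 ≠ 0 ∧
        Function.update (u t i).1 t 0 ∈ D t (u t i).2) ∧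
      (∀ t ∈ S, ∀ i j, i ≠ j → px t (u t i) ≠ px t (u t j)) ∧
      (∀ t ∈ S, ∀ c, (univ.filter fun i => (u t i).2 = c).card ≤ cap) ∧
      ∀ i, G0 i ⊔ Submodule.span (ZMod 2) ((fun t => u t i) '' (S : Set (Fin m))) = ⊤ := by
  classical
  have key : ∀ S' : Finset (Fin m), S' ⊆ S →
      ∃ u : Fin m → ι → E m × F, (∀ t ∈ S', ∀ i, (u t i).1 ∈ R t ∧ (u t i).2 ≠ 0 ∧
        Function.update (u t i).1 t 0 ∈ D t (u t i).2) ∧
      (∀ t ∈ S', ∀ i j, i ≠ j → px t (u t i) ≠ px t (u t j)) ∧
      (∀ t ∈ S', ∀ c, (univ.filter fun i => (u t i).2 = c).card ≤ cap) ∧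
      ∀ i, Module.finrank (ZMod 2) (G0 i ⊔ Submodule.span (ZMod 2)
        ((fun t => u t i) '' (S' : Set (Fin m))) : Submodule (ZMod 2) (E m × F))
          = Module.finrank (ZMod 2) (G0 i) + S'.card := by
    intro S'
    induction S' using Finset.induction_on with
    | empty =>
      intro _
      exact ⟨fun _ _ => 0, by simp, by simp, by simp, fun i => by
        rw [Finset.coe_empty, Set.image_empty, Submodule.span_empty, sup_bot_eq,
          Finset.card_empty, add_zero]⟩
    | insert t0 S' ht0 ih =>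
      intro hsub
      obtain ⟨u, hu1, hu2, hu3, hu4⟩ := ih ((Finset.subset_insert _ _).trans hsub)
      have ht0S : t0 ∈ S := hsub (Finset.mem_insert_self _ _)
      have hlt : S'.card < S.card := by
        refine Finset.card_lt_card ⟨(Finset.subset_insert _ _).trans hsub, fun h => ht0 (h ht0S)⟩
      obtain ⟨w, hw1, hw2, hw3⟩ := choose_u hF hk S t0 (R t0) (hRa t0 ht0S) (D t0) Mt (hM t0 ht0S)
        (fun i => G0 i ⊔ Submodule.span (ZMod 2) ((fun t => u t i) '' (S' : Set (Fin m))))
        (fun i htop => by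
          have h1 := hu4 i
          rw [htop, finrank_top, finrank_model hF] at h1
          have h2 := hG0 i
          omega)
        (fun i s hs => Submodule.mem_sup_left (hS i s hs)) cap hcap (hbig t0 ht0S)
      have hne : ∀ t ∈ S', t ≠ t0 := fun t ht h => ht0 (h ▸ ht)
      refine ⟨Function.update u t0 w, ?_, ?_, ?_, ?_⟩
      · intro t ht i
        rcases Finset.mem_insert.mp ht with rfl | ht
        · rw [Function.update_self]
          exact ⟨(hw1 i).1, (hw1 i).2.1, (hw1 i).2.2.1⟩
        · rw [Function.update_of_ne (hne t ht)]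
          exact hu1 t ht i
      · intro t ht i j hij
        rcases Finset.mem_insert.mp ht with rfl | ht
        · rw [Function.update_self]
          exact hw2 i j hij
        · rw [Function.update_of_ne (hne t ht)]
          exact hu2 t ht i j hij
      · intro t ht c
        rcases Finset.mem_insert.mp ht with rfl | ht
        · rw [Function.update_self]
          exact hw3 c
        · rw [Function.update_of_ne (hne t ht)]
          exact hu3 t ht c
      · intro i
        have himg : (fun t => Function.update u t0 w t i) '' ((insert t0 S' : Finset (Fin m)) :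
            Set (Fin m)) = insert (w i) ((fun t => u t i) '' (S' : Set (Fin m))) := by
          rw [Finset.coe_insert, Set.image_insert_eq, Function.update_self]
          congr 1
          refine Set.image_congr fun t ht => ?_
          rw [Function.update_of_ne (hne t ht)]
        rw [himg, Submodule.span_insert, sup_comm (Submodule.span (ZMod 2) {w i}), ← sup_assoc,
          finrank_sup_single _ (hw1 i).2.2.2, hu4 i, Finset.card_insert_of_notMem ht0]
        ring
  obtain ⟨u, hu1, hu2, hu3, hu4⟩ := key S (Finset.Subset.refl _)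
  refine ⟨u, hu1, hu2, hu3, fun i => ?_⟩
  apply Submodule.eq_top_of_finrank_eq
  rw [hu4 i, hG0 i, finrank_model hF, hr]

end Pool.Agent.EB58
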