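import Pool.Agent.EB58.Sp3

/-!
Special phase, part 4: the special circuits.
-/

set_option autoImplicit false

namespace Pool.Agent.EB58

open Finset Pool.Agent.H41.Circ

theorem notMem_sup_single {V : Type} [AddCommGroup V] [Module (ZMod 2) V]
    {G : Submodule (ZMod 2) V} {x y : V} (h1 : x ∉ G) (h2 : x + y ∉ G) :
    x ∉ G ⊔ Submodule.span (ZMod 2) {y} := by
  intro h
  obtain ⟨g, hg, z, hz, rfl⟩ := Submodule.mem_sup.mp h
  obtain ⟨c, rfl⟩ := Submodule.mem_span_singleton.mp hz
  rcases zmod2_cases c with rfl | rfl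
  · rw [zero_smul, add_zero] at h1
    exact h1 hg
  · rw [one_smul, add_assoc, add_self', add_zero] at h2
    exact h2 hg

theorem px_add {m : ℕ} {F : Type} [Field F] [Algebra (ZMod 2) F] (t : Fin m)
    (y : E m × F) : px t (y + (ee t, 0)) = px t y :=
  (px_eq_iff t _ _).mpr (Or.inr rfl)

theorem mem_pr_px {m : ℕ} {F : Type} [Field F] [DecidableEq F] [Algebra (ZMod 2) F]
    (t : Fin m) (y : E m × F) : y ∈ pr t (px t y).1 (px t y).2 := by
  have h : px t (px t y) = px t y := by simp [px]
  have h' := (px_eq_iff t y (px t y)).mp h.symm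
  rw [pr, Finset.mem_insert, Finset.mem_singleton]
  rcases h' with h' | h'
  · left; exact h'
  · right
    rw [Prod.ext_iff] at h'
    exact Prod.ext h'.1 (by simpa using h'.2)

theorem mem_R_of_px {m : ℕ} {F : Type} [Field F] [Algebra (ZMod 2) F]
    (R : Fin m → Finset (E m)) (hRt : ∀ t, ∀ x ∈ R t, x + ee t ∈ R t)
    (t : Fin m) (y : E m × F) (h : (px t y).1 ∈ R t) : y.1 ∈ R t := by
  have h1 : px t (px t y) = px t y := by simp [px]
  rcases (px_eq_iff t y (px t y)).mp h1.symm with h' | h'
  · rw [h']; exact h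
  · rw [h']; exact hRt t _ h

theorem ee_ne {m : ℕ} {F : Type} [Field F] (t : Fin m) : ((ee t, 0) : E m × F) ≠ 0 := by
  intro h
  have h1 := congrFun (congrArg Prod.fst h) t
  simp [ee] at h1

theorem special_phase {m k r b s : ℕ} {F : Type} [Field F] [Fintype F] [DecidableEq F]
    [Algebra (ZMod 2) F] (hF : Fintype.card F = 2 ^ k) (hk : 1 ≤ k) (hr : r = m + k)
    (S : Finset (Fin m)) (A : Fin m) (hAS : A ∉ S) (hb : b + 3 + 2 * S.card = r)
    (R : Fin m → Finset (E m)) (hRd : Pairwise fun t t' => Disjoint (R t) (R t'))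
    (hRt : ∀ t, ∀ x ∈ R t, x + ee t ∈ R t)
    (hRa : ∀ t ∈ S, ∀ a, a ∉ S → ∀ x ∈ R t, x + ee a ∈ R t)
    (D : Fin m → F → Finset (E m)) (hD : ∀ t c, ∀ x ∈ D t c, x ∈ R t ∧ x t = 0)
    (Mt : ℕ) (hM : ∀ t ∈ S, ((R t ×ˢ (univ.erase (0 : F))).filter
      fun y => Function.update y.1 t 0 ∉ D t y.2).card ≤ Mt)
    (β : Fin s → Finset (E m × F)) (hβ : ∀ i, (β i).card = b)
    (hβd : Pairwise fun i j => Disjoint (β i) (β j))
    (hβD : ∀ i, ∀ y ∈ β i, ∀ t, (px t y).1 ∉ D t y.2)
    (nx : Equiv.Perm (Fin s)) (hnx : ∀ i, nx i ≠ i) (v : Fin s → E m × F)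
    (hv : ∀ i, v (nx i) = v i + (∑ y ∈ β (nx i), y + ∑ t ∈ S, ((ee t, 0) : E m × F)))
    (hE : ∀ i, Module.finrank (ZMod 2) (Submodule.span (ZMod 2)
      (((β (nx i) : Set (E m × F)) ∪ {v i}) ∪ (fun t => ((ee t, 0) : E m × F)) '' (S : Set (Fin m))))
        = b + 1 + S.card)
    (cand : Fin s → Finset (E m × F))
    (hcand : ∀ i, ∀ a ∈ cand i, a.2 ≠ 0 ∧ (a + v i).2 ≠ 0 ∧ (px A a).1 ∈ D A a.2 ∧
      (px A (a + v i)).1 ∈ D A (a + v i).2)
    (hv2 : ∀ i, (v i).2 ≠ 0) (Lmin Lc cap : ℕ) (hLmin : ∀ i, Lmin ≤ (cand i).card)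
    (hLc : ∀ i c, ((cand i).filter fun a => a.2 = c).card ≤ Lc) (hcap : 0 < cap)
    (hbig1 : 8 * s + 4 * 2 ^ (b + 1 + S.card) + 2 * Lc * (2 * s / cap) < Lmin)
    (hbig2 : ∀ t ∈ S, 2 * s + (R t).card * (s / cap) + Mt < (R t).card * (2 ^ (k - 1) - 1)) :
    ∃ (C : Fin s → Finset (E m × F)) (used : Fin m → F → Finset (E m)),
      (∀ i, Full r (C i)) ∧ (Pairwise fun i j => Disjoint (C i) (C j)) ∧
      (∀ t c, used t c ⊆ D t c) ∧ (∀ t c, (used t c).card ≤ cap) ∧
      (∀ t ∈ S, ∑ c ∈ univ.erase (0 : F), (used t c).card = s) ∧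
      (∑ c ∈ univ.erase (0 : F), (used A c).card = 2 * s) ∧
      (∀ t, t ∉ S → t ≠ A → ∀ c, used t c = ∅) ∧
      ∀ i, ∀ y ∈ C i, y ∈ β i ∨ ∃ t c x, c ≠ 0 ∧ x ∈ used t c ∧ y ∈ pr t x c := by
  classical
  set w : E m × F := (ee A, 0) with hw
  set Es : Fin s → Submodule (ZMod 2) (E m × F) := fun j => Submodule.span (ZMod 2)
      (((β j : Set (E m × F)) ∪ {v (nx.symm j)}) ∪
        (fun t => ((ee t, 0) : E m × F)) '' (S : Set (Fin m))) with hEs
  have hEsr : ∀ j, Module.finrank (ZMod 2) (Es j) = b + 1 + S.card := by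
    intro j
    have h := hE (nx.symm j)
    rw [Equiv.apply_symm_apply] at h
    exact h
  obtain ⟨a, ha1, ha2, ha3, ha4, ha5⟩ := choose_links nx nx.injective A v Es
    (2 ^ (b + 1 + S.card))
    (by
      intro i
      rw [Module.natCard_eq_pow_finrank (K := ZMod 2), hEsr i]
      simp)
    cand Lmin Lc hLmin hLc cap hcap (by rw [Fintype.card_fin]; exact hbig1)
  set pv : Fin s → Fin s := fun i => nx.symm i with hpv
  have hpvne : ∀ i, pv i ≠ i := by
    intro i h
    have := hnx (pv i)
    rw [hpv] at this
    simp only [Equiv.apply_symm_apply] at this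
    exact this h.symm
  set G0 : Fin s → Submodule (ZMod 2) (E m × F) := fun i =>
    (Es i ⊔ Submodule.span (ZMod 2) {a (pv i) + w}) ⊔ Submodule.span (ZMod 2) {a i} with hG0
  have hG0r : ∀ i, Module.finrank (ZMod 2) (G0 i) + S.card = r := by
    intro i
    have h1 : a (pv i) + w ∉ Es i := by
      have := (ha2 (pv i)).2
      rw [hpv, Equiv.apply_symm_apply] at this
      exact this
    have h2 : a i ∉ Es i ⊔ Submodule.span (ZMod 2) {a (pv i) + w} := by
      refine notMem_sup_single (ha2 i).1 ?_
      have := ha3 (pv i) (by rw [hpv, Equiv.apply_symm_apply]; exact (hpvne i).symm)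
      rw [hpv, Equiv.apply_symm_apply] at this
      exact this
    rw [hG0]
    simp only
    rw [finrank_sup_single _ h2, finrank_sup_single _ h1, hEsr i]
    omega
  obtain ⟨u, hu1, hu2, hu3, hu4⟩ := choose_all_u hF hk hr S R hRa D Mt hM G0 hG0r
    (fun i t ht => Submodule.mem_sup_left (Submodule.mem_sup_left
      (Submodule.subset_span (Or.inr ⟨t, ht, rfl⟩)))) cap hcap
    (by intro t ht; rw [Fintype.card_fin]; exact hbig2 t ht)
  -- labels
  set aL : Fin s × Bool → E m × F := fun p => a p.1 + (if p.2 then v p.1 else 0) with haL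
  set L : Fin s × Bool × Bool → E m × F := fun p =>
    aL (p.1, p.2.1) + (if p.2.2 then w else 0) with hL
  set Uf : Fin m × Fin s × Bool → E m × F := fun p =>
    u p.1 p.2.1 + (if p.2.2 then (ee p.1, 0) else 0) with hUf
  have hpxL : ∀ p, px A (L p) = px A (aL (p.1, p.2.1)) := by
    intro p
    rw [hL]
    simp only
    split_ifs
    · exact px_add A _
    · rw [add_zero]
  have hpxU : ∀ p, px p.1 (Uf p) = px p.1 (u p.1 p.2.1) := by
    intro p
    rw [hUf]
    simp only
    split_ifs
    · exact px_add p.1 _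
    · rw [add_zero]
  have haLpx : ∀ p q : Fin s × Bool, px A (aL p) = px A (aL q) → p = q := by
    rintro ⟨i, δ⟩ ⟨j, δ'⟩ h
    have hij : i = j := by
      by_contra hne
      have h1 := ha4 i j hne
      have h2 := ha4 j i (Ne.symm hne)
      rw [haL] at h
      simp only at h
      cases δ <;> cases δ' <;> simp only [Bool.false_eq_true, if_false, if_true, add_zero] at h
      · exact h1.1 h
      · exact h1.2.1 h
      · exact h2.2.1 h.symm
      · exact h1.2.2 h
    subst hij
    have hδ : δ = δ' := by
      have h2 : (px A (aL (i, δ))).2 = (px A (aL (i, δ'))).2 := congrArg Prod.snd h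
      simp only [px, haL] at h2
      cases δ <;> cases δ' <;>
        simp only [Bool.false_eq_true, if_false, if_true, add_zero, Prod.snd_add] at h2
      · rfl
      · exact absurd (by simpa using h2.symm) (hv2 i)
      · exact absurd (by simpa using h2) (hv2 i)
      · rfl
    rw [hδ]
  have haLD : ∀ p, (px A (aL p)).1 ∈ D A (aL p).2 ∧ (aL p).2 ≠ 0 := by
    rintro ⟨i, δ⟩
    have h := hcand i (a i) (ha1 i)
    rw [haL]
    cases δ
    · simp only [Bool.false_eq_true, if_false, add_zero]
      exact ⟨h.2.2.1, h.1⟩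
    · simp only [if_true]
      exact ⟨h.2.2.2, h.2.1⟩
  have hw0 : w ≠ 0 := ee_ne A
  have hLinj : Function.Injective L := by
    rintro ⟨i, δ, ε⟩ ⟨j, δ', ε'⟩ h
    have h1 := haLpx (i, δ) (j, δ') (by
      rw [← hpxL (i, δ, ε), ← hpxL (j, δ', ε'), h])
    rw [Prod.mk.injEq] at h1
    obtain ⟨rfl, rfl⟩ := h1
    rw [hL] at h
    simp only [add_right_inj] at h
    cases ε <;> cases ε' <;> simp only [Bool.false_eq_true, if_false, if_true] at h
    · rfl
    · exact absurd h.symm hw0
    · exact absurd h hw0
    · rfl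
  have hUpx : ∀ t ∈ S, ∀ i, (px t (u t i)).1 ∈ D t (u t i).2 := fun t ht i => (hu1 t ht i).2.2
  have hUR : ∀ p : Fin m × Fin s × Bool, p.1 ∈ S → (Uf p).1 ∈ R p.1 := by
    intro p hp
    refine mem_R_of_px R hRt p.1 (Uf p) ?_
    rw [hpxU p]
    exact (hD _ _ _ (hUpx p.1 hp p.2.1)).1
  have hLR : ∀ p, (L p).1 ∈ R A := by
    intro p
    refine mem_R_of_px R hRt A (L p) ?_
    rw [hpxL p]
    exact (hD _ _ _ (haLD (p.1, p.2.1)).1).1
  have hUinj : ∀ p q : Fin m × Fin s × Bool, p.1 ∈ S → q.1 ∈ S → Uf p = Uf q → p = q := by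
    rintro ⟨t, i, ε⟩ ⟨t', j, ε'⟩ ht ht' h
    simp only at ht ht'
    have htt : t = t' := by
      by_contra hne
      have h1 := hUR (t, i, ε) ht
      have h2 := hUR (t', j, ε') ht'
      rw [← h] at h2
      exact Finset.disjoint_left.mp (hRd hne) h1 h2
    subst htt
    have hij : i = j := by
      by_contra hne
      have h1 := hpxU (t, i, ε)
      have h2 := hpxU (t, j, ε')
      simp only at h1 h2
      rw [h, h2] at h1
      exact hu2 t ht i j hne h1.symm
    subst hij
    rw [hUf] at h
    simp only [add_right_inj] at h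
    cases ε <;> cases ε' <;> simp only [Bool.false_eq_true, if_false, if_true] at h
    · rfl
    · exact absurd h.symm (ee_ne t)
    · exact absurd h (ee_ne t)
    · rfl
  set lab : Fin s → Finset (Fin s × Bool × Bool) := fun i =>
    {(i, false, false), (i, true, false), (pv i, false, true), (pv i, true, true)} with hlab
  have hlabc : ∀ i, (lab i).card = 4 := by
    intro i
    rw [hlab]
    simp only
    rw [Finset.card_insert_of_notMem, Finset.card_insert_of_notMem,
      Finset.card_insert_of_notMem, Finset.card_singleton] <;> simp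
  have hlabd : ∀ i j, i ≠ j → Disjoint (lab i) (lab j) := by
    intro i j hij
    have hp : pv i ≠ pv j := fun h => hij (nx.symm.injective h)
    rw [Finset.disjoint_left]
    intro p hp1 hp2
    simp only [hlab, Finset.mem_insert, Finset.mem_singleton] at hp1 hp2
    rcases hp1 with rfl | rfl | rfl | rfl <;> simp at hp2 <;>
      first | exact hij hp2 | exact hp hp2
  set ulab : Fin s → Finset (Fin m × Fin s × Bool) := fun i =>
    S ×ˢ ({i} ×ˢ (univ : Finset Bool)) with hulab
  have hulabS : ∀ i, ∀ p ∈ ulab i, p.1 ∈ S := by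
    intro i p hp
    exact (Finset.mem_product.mp hp).1
  have hulabi : ∀ i, ∀ p ∈ ulab i, p.2.1 = i := by
    intro i p hp
    exact Finset.mem_singleton.mp (Finset.mem_product.mp (Finset.mem_product.mp hp).2).1
  set C : Fin s → Finset (E m × F) := fun i =>
    β i ∪ ((lab i).image L ∪ (ulab i).image Uf) with hC
  -- disjointness of the three parts
  have hβL : ∀ i p, L p ∉ β i := by
    intro i p hp
    refine hβD i _ hp A ?_
    have h1 := (haLD (p.1, p.2.1)).1
    have h2 := hpxL p
    have h3 : (L p).2 = (aL (p.1, p.2.1)).2 := by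
      have h4 := congrArg Prod.snd h2
      exact h4
    rw [h2, h3]
    exact h1
  have hβU : ∀ i (p : Fin m × Fin s × Bool), p.1 ∈ S → Uf p ∉ β i := by
    intro i p hpS hp
    refine hβD i _ hp p.1 ?_
    have h1 := hUpx p.1 hpS p.2.1
    have h2 := hpxU p
    have h3 : (Uf p).2 = (u p.1 p.2.1).2 := by
      have h4 := congrArg Prod.snd h2
      exact h4
    rw [h2, h3]
    exact h1
  have hLU : ∀ (p : Fin s × Bool × Bool) (q : Fin m × Fin s × Bool), q.1 ∈ S → L p ≠ Uf q := by
    intro p q hq h
    have h1 := hLR p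
    have h2 := hUR q hq
    rw [← h] at h2
    have hne : A ≠ q.1 := fun h' => hAS (h' ▸ hq)
    exact Finset.disjoint_left.mp (hRd hne) h1 h2
  have hdLU : ∀ i j, Disjoint ((lab i).image L) ((ulab j).image Uf) := by
    intro i j
    rw [Finset.disjoint_left]
    intro y hy1 hy2
    obtain ⟨p, _, rfl⟩ := Finset.mem_image.mp hy1
    obtain ⟨q, hq, hqe⟩ := Finset.mem_image.mp hy2
    exact hLU p q (hulabS j q hq) hqe.symm
  have hdβ : ∀ i j, Disjoint (β i) ((lab j).image L ∪ (ulab j).image Uf) := by
    intro i j
    rw [Finset.disjoint_left]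
    intro y hy1 hy2
    rcases Finset.mem_union.mp hy2 with hy2 | hy2
    · obtain ⟨p, _, rfl⟩ := Finset.mem_image.mp hy2
      exact hβL i p hy1
    · obtain ⟨q, hq, rfl⟩ := Finset.mem_image.mp hy2
      exact hβU i q (hulabS j q hq) hy1
  have hUinjOn : ∀ i, Set.InjOn Uf (ulab i : Set (Fin m × Fin s × Bool)) := by
    intro i p hp q hq h
    exact hUinj p q (hulabS i p hp) (hulabS i q hq) h
  have hcard : ∀ i, (C i).card = r + 1 := by
    intro i
    rw [hC]
    simp only
    rw [Finset.card_union_of_disjoint (hdβ i i), Finset.card_union_of_disjoint (hdLU i i),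
      Finset.card_image_of_injective _ hLinj, Finset.card_image_of_injOn (hUinjOn i), hβ i,
      hlabc i, hulab]
    simp only
    rw [Finset.card_product, Finset.card_product, Finset.card_singleton, Finset.card_univ,
      Fintype.card_bool]
    omega
  have hsum : ∀ i, ∑ y ∈ C i, y = 0 := by
    intro i
    rw [hC]
    simp only
    rw [Finset.sum_union (hdβ i i), Finset.sum_union (hdLU i i),
      Finset.sum_image (fun p _ q _ h => hLinj h), Finset.sum_image (hUinjOn i)]
    have h1 : ∑ p ∈ lab i, L p = v i + v (pv i) := by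
      rw [hlab]
      simp only
      rw [Finset.sum_insert (by simp), Finset.sum_insert (by simp), Finset.sum_insert (by simp),
        Finset.sum_singleton]
      simp only [hL, haL, Bool.false_eq_true, if_false, if_true, add_zero]
      have e1 : a i + (a i + v i + (a (pv i) + w + (a (pv i) + v (pv i) + w)))
          = (a i + a i) + v i + ((a (pv i) + a (pv i)) + (w + w) + v (pv i)) := by abel
      rw [e1, add_self', add_self', add_self', zero_add, zero_add, zero_add]
    have h2 : ∑ p ∈ ulab i, Uf p = ∑ t ∈ S, ((ee t, 0) : E m × F) := by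
      rw [hulab]
      simp only
      rw [Finset.sum_product]
      refine Finset.sum_congr rfl fun t _ => ?_
      rw [Finset.sum_product, Finset.sum_singleton]
      rw [Fintype.sum_bool]
      simp only [hUf, Bool.false_eq_true, if_false, if_true, add_zero]
      rw [add_comm (u t i) _, add_assoc, add_self', add_zero]
    have h3 : v i = v (pv i) + (∑ y ∈ β i, y + ∑ t ∈ S, ((ee t, 0) : E m × F)) := by
      have := hv (pv i)
      rw [hpv, Equiv.apply_symm_apply] at this
      exact this
    rw [h1, h2]
    have e2 : ∑ y ∈ β i, y + (v i + v (pv i) + ∑ t ∈ S, ((ee t, 0) : E m × F))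
        = v i + (v (pv i) + (∑ y ∈ β i, y + ∑ t ∈ S, ((ee t, 0) : E m × F))) := by abel
    rw [e2, ← h3, add_self']
  have hspan : ∀ i, Submodule.span (ZMod 2) (C i : Set (E m × F)) = ⊤ := by
    intro i
    rw [eq_top_iff, ← hu4 i]
    have hmL : ∀ p ∈ lab i, L p ∈ Submodule.span (ZMod 2) (C i : Set (E m × F)) := by
      intro p hp
      apply Submodule.subset_span
      rw [Finset.mem_coe, hC]
      exact Finset.mem_union_right _ (Finset.mem_union_left _ (Finset.mem_image_of_mem _ hp))
    have hmU : ∀ p ∈ ulab i, Uf p ∈ Submodule.span (ZMod 2) (C i : Set (E m × F)) := by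
      intro p hp
      apply Submodule.subset_span
      rw [Finset.mem_coe, hC]
      exact Finset.mem_union_right _ (Finset.mem_union_right _ (Finset.mem_image_of_mem _ hp))
    have hai : a i ∈ Submodule.span (ZMod 2) (C i : Set (E m × F)) := by
      have := hmL (i, false, false) (by simp [hlab])
      simpa [hL, haL] using this
    have hap : a (pv i) + w ∈ Submodule.span (ZMod 2) (C i : Set (E m × F)) := by
      have := hmL (pv i, false, true) (by simp [hlab])
      simpa [hL, haL] using this
    have hap2 : a (pv i) + v (pv i) + w ∈ Submodule.span (ZMod 2) (C i : Set (E m × F)) := by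
      have := hmL (pv i, true, true) (by simp [hlab])
      simpa [hL, haL] using this
    have hvp : v (pv i) ∈ Submodule.span (ZMod 2) (C i : Set (E m × F)) := by
      have := Submodule.add_mem _ hap hap2
      have e : a (pv i) + w + (a (pv i) + v (pv i) + w)
          = (a (pv i) + a (pv i)) + (w + w) + v (pv i) := by abel
      rw [e, add_self', add_self', zero_add, zero_add] at this
      exact this
    have hui : ∀ t ∈ S, u t i ∈ Submodule.span (ZMod 2) (C i : Set (E m × F)) := by
      intro t ht
      have := hmU (t, i, false) (by simp [hulab, ht])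
      simpa [hUf] using this
    have hei : ∀ t ∈ S, ((ee t, 0) : E m × F) ∈
        Submodule.span (ZMod 2) (C i : Set (E m × F)) := by
      intro t ht
      have h1 := hmU (t, i, true) (by simp [hulab, ht])
      have h2 : u t i + (ee t, 0) ∈ Submodule.span (ZMod 2) (C i : Set (E m × F)) := by
        simpa [hUf] using h1
      have := Submodule.add_mem _ (hui t ht) h2
      rw [← add_assoc, add_self', zero_add] at this
      exact this
    refine sup_le (sup_le (sup_le ?_ ?_) ?_) ?_
    · rw [hEs]
      refine Submodule.span_le.mpr ?_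
      rintro y ((hy | hy) | ⟨t, ht, rfl⟩)
      · apply Submodule.subset_span
        rw [Finset.mem_coe, hC]
        exact Finset.mem_union_left _ hy
      · rw [Set.mem_singleton_iff] at hy
        rw [hy]; exact hvp
      · exact hei t ht
    · rw [Submodule.span_singleton_le_iff_mem]; exact hap
    · rw [Submodule.span_singleton_le_iff_mem]; exact hai
    · refine Submodule.span_le.mpr ?_
      rintro y ⟨t, ht, rfl⟩
      exact hui t ht
  -- used sets
  set used : Fin m → F → Finset (E m) := fun t c =>
    if t ∈ S then (univ.filter fun i => (u t i).2 = c).image fun i => (px t (u t i)).1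
    else if t = A then (univ.filter fun p => (aL p).2 = c).image fun p => (px A (aL p)).1
    else ∅ with hused
  have husedS : ∀ t ∈ S, ∀ c, used t c =
      (univ.filter fun i => (u t i).2 = c).image fun i => (px t (u t i)).1 := by
    intro t ht c
    rw [hused]; simp only; rw [if_pos ht]
  have husedA : ∀ c, used A c =
      (univ.filter fun p => (aL p).2 = c).image fun p => (px A (aL p)).1 := by
    intro c
    show (if A ∈ S then _ else if A = A then _ else _) = _
    rw [if_neg hAS, if_pos rfl]
  have hcardS : ∀ t ∈ S, ∀ c, (used t c).card = (univ.filter fun i => (u t i).2 = c).card := by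
    intro t ht c
    rw [husedS t ht c]
    refine Finset.card_image_of_injOn ?_
    intro i hi j hj h
    by_contra hne
    refine hu2 t ht i j hne (Prod.ext h ?_)
    have h1 := (Finset.mem_filter.mp hi).2
    have h2 := (Finset.mem_filter.mp hj).2
    simp only [px]
    rw [h1, h2]
  have hcardA : ∀ c, (used A c).card = (univ.filter fun p => (aL p).2 = c).card := by
    intro c
    rw [husedA c]
    refine Finset.card_image_of_injOn ?_
    intro p hp q hq h
    refine haLpx p q (Prod.ext h ?_)
    have h1 := (Finset.mem_filter.mp hp).2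
    have h2 := (Finset.mem_filter.mp hq).2
    simp only [px]
    rw [h1, h2]
  refine ⟨C, used, fun i => ⟨hcard i, hsum i, hspan i⟩, ?_, ?_, ?_, ?_, ?_, ?_, ?_⟩
  · intro i j hij
    rw [hC]
    simp only
    rw [Finset.disjoint_union_left, Finset.disjoint_union_right]
    refine ⟨⟨hβd hij, hdβ i j⟩, ?_⟩
    rw [Finset.disjoint_union_right]
    refine ⟨(hdβ j i).symm, ?_⟩
    rw [Finset.disjoint_union_left, Finset.disjoint_union_right, Finset.disjoint_union_right]
    refine ⟨⟨?_, hdLU i j⟩, (hdLU j i).symm, ?_⟩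
    · exact (Finset.disjoint_image hLinj).mpr (hlabd i j hij)
    · rw [Finset.disjoint_left]
      intro y hy1 hy2
      obtain ⟨p, hp, rfl⟩ := Finset.mem_image.mp hy1
      obtain ⟨q, hq, hqe⟩ := Finset.mem_image.mp hy2
      have h1 := hUinj q p (hulabS j q hq) (hulabS i p hp) hqe
      have h2 := hulabi i p hp
      have h3 := hulabi j q hq
      rw [h1] at h3
      exact hij (h2.symm.trans h3)
  · intro t c x hx
    by_cases ht : t ∈ S
    · rw [husedS t ht c] at hx
      obtain ⟨i, hi, rfl⟩ := Finset.mem_image.mp hx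
      rw [← (Finset.mem_filter.mp hi).2]
      exact hUpx t ht i
    · by_cases htA : t = A
      · subst htA
        rw [husedA c] at hx
        obtain ⟨p, hp, rfl⟩ := Finset.mem_image.mp hx
        rw [← (Finset.mem_filter.mp hp).2]
        exact (haLD p).1
      · rw [hused] at hx
        simp only at hx
        rw [if_neg ht, if_neg htA] at hx
        simp at hx
  · intro t c
    by_cases ht : t ∈ S
    · rw [hcardS t ht c]
      exact hu3 t ht c
    · by_cases htA : t = A
      · subst htA
        rw [hcardA c]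
        refine le_trans ?_ (ha5 c)
        refine Finset.card_le_card_of_injOn Prod.fst ?_ ?_
        · rintro ⟨i, δ⟩ hp
          have hp' := (Finset.mem_filter.mp hp).2
          simp only [Finset.coe_filter, Set.mem_setOf_eq, Finset.mem_univ, true_and]
          cases δ
          · left; simpa [haL] using hp'
          · right; simpa [haL] using hp'
        · rintro ⟨i, δ⟩ hp ⟨j, δ'⟩ hq h
          simp only at h
          subst h
          have h1 := (Finset.mem_filter.mp hp).2
          have h2 := (Finset.mem_filter.mp hq).2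
          have h3 : (aL (i, δ)).2 = (aL (i, δ')).2 := h1.trans h2.symm
          simp only [haL] at h3
          cases δ <;> cases δ' <;>
            simp only [Bool.false_eq_true, if_false, if_true, add_zero, Prod.snd_add] at h3
          · rfl
          · exact absurd (by simpa using h3.symm) (hv2 i)
          · exact absurd (by simpa using h3) (hv2 i)
          · rfl
      · rw [hused]
        simp only
        rw [if_neg ht, if_neg htA]
        simp
  · intro t ht
    rw [Finset.sum_congr rfl fun c _ => hcardS t ht c]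
    have h1 := Finset.card_eq_sum_card_fiberwise (s := (univ : Finset (Fin s)))
      (t := univ.erase (0 : F)) (f := fun i => (u t i).2)
      (fun i _ => by
        simp only [Finset.coe_erase, Finset.coe_univ, Set.mem_diff, Set.mem_univ,
          Set.mem_singleton_iff, true_and]
        exact (hu1 t ht i).2.1)
    rw [Finset.card_univ, Fintype.card_fin] at h1
    exact h1.symm
  · rw [Finset.sum_congr rfl fun c _ => hcardA c]
    have h1 := Finset.card_eq_sum_card_fiberwise (s := (univ : Finset (Fin s × Bool)))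
      (t := univ.erase (0 : F)) (f := fun p => (aL p).2)
      (fun p _ => by
        simp only [Finset.coe_erase, Finset.coe_univ, Set.mem_diff, Set.mem_univ,
          Set.mem_singleton_iff, true_and]
        exact (haLD p).2)
    rw [Finset.card_univ, Fintype.card_prod, Fintype.card_fin, Fintype.card_bool] at h1
    rw [← h1]; ring
  · intro t ht htA c
    rw [hused]
    simp only
    rw [if_neg ht, if_neg htA]
  · intro i y hy
    rcases Finset.mem_union.mp hy with hy | hy
    · exact Or.inl hy
    · right
      rcases Finset.mem_union.mp hy with hy | hy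
      · obtain ⟨p, hp, rfl⟩ := Finset.mem_image.mp hy
        refine ⟨A, (aL (p.1, p.2.1)).2, (px A (aL (p.1, p.2.1))).1, (haLD _).2, ?_, ?_⟩
        · rw [husedA]
          exact Finset.mem_image.mpr ⟨(p.1, p.2.1), by simp, rfl⟩
        · have h1 := mem_pr_px A (L p)
          rw [hpxL p] at h1
          exact h1
      · obtain ⟨p, hp, rfl⟩ := Finset.mem_image.mp hy
        have hpS := hulabS i p hp
        refine ⟨p.1, (u p.1 p.2.1).2, (px p.1 (u p.1 p.2.1)).1, (hu1 p.1 hpS _).2.1, ?_, ?_⟩
        · rw [husedS p.1 hpS]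
          exact Finset.mem_image.mpr ⟨p.2.1, by simp, rfl⟩
        · have h1 := mem_pr_px p.1 (Uf p)
          rw [hpxU p] at h1
          exact h1

end Pool.Agent.EB58
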