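import Pool.Agent.EB58.Defs

/-!
The region system from the cells. (part of module C)
-/

set_option autoImplicit false

namespace Pool.Agent.EB58

open Finset

/-- the last coordinates -/
def psi {m ρ : ℕ} (h : ρ ≤ m) (x : E m) : E (m - ρ) := fun i => x ⟨ρ + i, by omega⟩

/-- gluing -/
def glue {m ρ : ℕ} (p : E ρ) (y : E (m - ρ)) : E m :=
  fun i => if h : (i : ℕ) < ρ then p ⟨i, h⟩ else y ⟨(i : ℕ) - ρ, by omega⟩

theorem phi_glue {m ρ : ℕ} (h : ρ ≤ m) (p : E ρ) (y : E (m - ρ)) : phi h (glue p y) = p := by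
  funext i
  simp [phi, glue]

theorem psi_glue {m ρ : ℕ} (h : ρ ≤ m) (p : E ρ) (y : E (m - ρ)) : psi h (glue p y) = y := by
  funext i
  simp [psi, glue]

theorem glue_phi_psi {m ρ : ℕ} (h : ρ ≤ m) (x : E m) : glue (phi h x) (psi h x) = x := by
  funext i
  unfold glue
  split_ifs with hi
  · rfl
  · show x _ = x i
    congr 1
    apply Fin.ext
    show ρ + ((i : ℕ) - ρ) = i
    omega

theorem glue_sum {m ρ : ℕ} {ι : Type} (s : Finset ι) (p : ι → E ρ) (y : ι → E (m - ρ)) :
    ∑ a ∈ s, (glue (p a) (y a) : E m) = glue (∑ a ∈ s, p a) (∑ a ∈ s, y a) := by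
  funext i
  rw [Finset.sum_apply]
  unfold glue
  split_ifs with hi
  · rw [Finset.sum_apply]
  · rw [Finset.sum_apply]

theorem glue_on {m ρ : ℕ} : (glue (on ρ) (on (m - ρ)) : E m) = on m := by
  funext i
  unfold glue
  split_ifs <;> rfl

theorem phi_add {m ρ : ℕ} (h : ρ ≤ m) (x y : E m) : phi h (x + y) = phi h x + phi h y := rfl

theorem phi_ee {m ρ : ℕ} (h : ρ ≤ m) (t : Fin m) : phi h (ee t) ≠ 0 ↔ (t : ℕ) < ρ := by
  constructor
  · intro hne
    by_contra hlt
    apply hne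
    funext i
    show (Pi.single t 1 : E m) (Fin.castLE h i) = 0
    rw [Pi.single_eq_of_ne]
    intro h2
    apply hlt
    rw [← h2]
    exact i.2
  · intro hlt h0
    have := congrFun h0 ⟨t, hlt⟩
    simp [phi, ee] at this

/-- The system from a family of tuples of cells. -/
theorem system_core {m ρ κ gs : ℕ} (hρm' : ρ ≤ m)
    {F : Type} [Field F] [Fintype F] [DecidableEq F]
    (tr : Fin gs → Fin κ → E ρ)
    (htr : Function.Injective fun x : Fin gs × Fin κ => tr x.1 x.2)
    (hsum : ∀ j, ∑ a, tr j a = on ρ) (a0 : Fin κ)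
    (Θ : Fin κ → E (m - ρ) → E (m - ρ)) (hΘ : ∀ a, Function.Injective (Θ a))
    (hΘs : ∀ y, ∑ a, Θ a y = on (m - ρ))
    (lam : Fin κ → F) (lam_ne : ∀ a, lam a ≠ 0) (lam_sum : ∑ a, lam a = 0) :
    ∃ (Is : Finset (E ρ)) (K : Core m κ F) (Sc : F → Finset (E ρ × F)),
      (∀ p, p ∈ Is ↔ ∃ j a, tr j a = p) ∧ K.J.card = gs * 2 ^ (m - ρ) ∧
      (∀ c, c ≠ 0 → (Sc c).card = κ * gs) ∧
      (∀ c, c ≠ 0 → ∀ q ∈ Sc c, q.1 ∈ Is ∧ q.2 ≠ 0) ∧
      (∀ c c', c ≠ 0 → c' ≠ 0 → c ≠ c' → Disjoint (Sc c) (Sc c')) ∧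
      ∀ c, c ≠ 0 → ∀ x ∈ K.J, ∀ a, (phi hρm' (K.h a x), K.lam a * c) ∈ Sc c := by
  classical
  have htr' : ∀ j a j' a', tr j a = tr j' a' → j = j' ∧ a = a' := by
    intro j a j' a' h
    have := @htr (j, a) (j', a') h
    exact ⟨congrArg Prod.fst this, congrArg Prod.snd this⟩
  -- the index
  set J : Finset (E m) := (univ : Finset (Fin gs × E (m - ρ))).image
    fun q => glue (tr q.1 a0) q.2 with hJ
  set f : Fin κ → E m → E m := fun a x =>
    if h : ∃ j, phi hρm' x = tr j a0 then glue (tr h.choose a) (Θ a (psi hρm' x)) else 0 with hf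
  have hfe : ∀ a j y, f a (glue (tr j a0) y) = glue (tr j a) (Θ a y) := by
    intro a j y
    have hex : ∃ j', phi hρm' (glue (tr j a0) y) = tr j' a0 := ⟨j, phi_glue _ _ _⟩
    have h1 : hex.choose = j := by
      have := (phi_glue hρm' (tr j a0) y).symm.trans hex.choose_spec
      exact (htr' _ _ _ _ this).1.symm
    simp only [hf]
    rw [dif_pos hex, h1, psi_glue]
  have hmem : ∀ x ∈ J, ∃ j y, x = glue (tr j a0) y := by
    intro x hx
    obtain ⟨q, _, rfl⟩ := mem_image.mp hx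
    exact ⟨q.1, q.2, rfl⟩
  let K : Core m κ F :=
    { J := J
      h := f
      lam := lam
      lam_ne := lam_ne
      lam_sum := lam_sum
      h_sum := by
        intro x hx
        obtain ⟨j, y, rfl⟩ := hmem x hx
        simp only [hfe]
        rw [glue_sum, hsum, hΘs, glue_on]
      h_inj := by
        intro a a' x hx x' hx' h
        obtain ⟨j, y, rfl⟩ := hmem x hx
        obtain ⟨j', y', rfl⟩ := hmem x' hx'
        rw [hfe, hfe] at h
        have h1 := congrArg (phi hρm') h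
        rw [phi_glue, phi_glue] at h1
        obtain ⟨e1, e2⟩ := htr' _ _ _ _ h1
        subst e1
        subst e2
        have h2 := congrArg (psi hρm') h
        rw [psi_glue, psi_glue] at h2
        have h3 := hΘ _ h2
        rw [h3]
        exact ⟨rfl, rfl⟩ }
  refine ⟨(univ : Finset (Fin gs × Fin κ)).image fun q => tr q.1 q.2, K,
    fun c => (univ : Finset (Fin gs × Fin κ)).image fun q => (tr q.1 q.2, lam q.2 * c),
    ?_, ?_, ?_, ?_, ?_, ?_⟩
  · intro p
    rw [mem_image]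
    constructor
    · rintro ⟨q, _, rfl⟩
      exact ⟨q.1, q.2, rfl⟩
    · rintro ⟨j, a, rfl⟩
      exact ⟨(j, a), mem_univ _, rfl⟩
  · show J.card = _
    rw [hJ, card_image_of_injective, card_univ, Fintype.card_prod, Fintype.card_fin,
      Fintype.card_fun, Fintype.card_fin, ZMod.card]
    intro q q' h
    have h1 := congrArg (phi hρm') h
    have h2 := congrArg (psi hρm') h
    simp only [phi_glue, psi_glue] at h1 h2
    exact Prod.ext (htr' _ _ _ _ h1).1 h2
  · intro c hc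
    rw [card_image_of_injective, card_univ, Fintype.card_prod, Fintype.card_fin,
      Fintype.card_fin, mul_comm]
    intro q q' h
    exact htr (congrArg Prod.fst h)
  · intro c hc q hq
    obtain ⟨b, _, rfl⟩ := mem_image.mp hq
    exact ⟨mem_image.mpr ⟨b, mem_univ _, rfl⟩, mul_ne_zero (lam_ne _) hc⟩
  · intro c c' hc hc' hne
    rw [Finset.disjoint_left]
    intro q hq hq'
    obtain ⟨b, _, rfl⟩ := mem_image.mp hq
    obtain ⟨b', _, hb'⟩ := mem_image.mp hq'
    have h1 := (htr' _ _ _ _ (congrArg Prod.fst hb')).2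
    have h2 := congrArg Prod.snd hb'
    simp only at h2
    rw [h1] at h2
    exact hne (mul_left_cancel₀ (lam_ne _) h2).symm
  · intro c hc x hx a
    obtain ⟨j, y, rfl⟩ := hmem x hx
    show (phi hρm' (f a (glue (tr j a0) y)), lam a * c) ∈ _
    rw [hfe, phi_glue]
    exact mem_image.mpr ⟨(j, a), mem_univ _, rfl⟩

theorem two_E {n : ℕ} (x : E n) : x + x = 0 := by
  funext i
  exact (by decide : ∀ c : ZMod 2, c + c = 0) (x i)

end Pool.Agent.EB58
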